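import Pool.Agent.H734R2.SP.Stubs

set_option autoImplicit false

/-! Task AUT: invariance under polynomial coordinate changes. -/

namespace Pool.Agent.H734R2.SP

open MvPolynomial Filter Topology

theorem aut_ev_bind (y : Pt) (A : Fin 3 → Poly) (f : Poly) :
    ev y (bind₁ A f) = ev (fun i => ev y (A i)) f := by
  have h := MvPolynomial.aeval_bind₁ (R := ℝ) y A f
  simp only [MvPolynomial.aeval_eq_eval] at h
  exact h

theorem aut_arc (hE : S_EVA) (B : Fin 3 → Poly) (hB0 : ∀ i, ev 0 (B i) = 0) (P : ℝ → Pt)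
    (hP : Arc P) : Arc (fun t i => ev (P t) (B i)) := by
  refine ⟨fun i => hE P hP (B i), ?_⟩
  funext i
  show ev (P 0) (B i) = 0
  rw [hP.2]
  exact hB0 i

theorem aut_ns1 (A B : Fin 3 → Poly)
    (hAB : ∀ x : Pt, (fun i => ev (fun j => ev x (B j)) (A i)) = x)
    (f : Poly) (P Q : ℝ → Pt) (h : NS1 f P Q) :
    NS1 (bind₁ A f) (fun t i => ev (P t) (B i)) (fun t i => ev (Q t) (B i)) := by
  intro g c c' hc hg
  have h1 := h (bind₁ B g) c c' hc (by
    refine hg.mono fun t ht => ?_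
    have e1 : ev (fun i => ev (P t) (B i)) (bind₁ A f) = ev (P t) f := by
      rw [aut_ev_bind, hAB]
    have ht' : c' * ev (fun i => ev (P t) (B i)) (bind₁ A f) ≤
      ev (fun i => ev (P t) (B i)) g := ht
    rw [e1] at ht'
    rw [aut_ev_bind]
    exact ht')
  refine h1.mono fun t ht => ?_
  rw [aut_ev_bind] at ht
  rw [aut_ev_bind, hAB]
  exact ht

theorem t_AUT : S_AUT := by
  intro hE A B hAB hB0 f P Q h
  refine ⟨⟨aut_arc hE B hB0 P h.hP, aut_arc hE B hB0 Q h.hQ, ?_, ?_, ?_,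
    aut_ns1 A B hAB f P Q h.pq, aut_ns1 A B hAB f Q P h.qp⟩, ?_⟩
  · rw [aut_ev_bind]
    have h0 := hAB 0
    have h1 : (fun j => ev (0 : Pt) (B j)) = 0 := by
      funext j
      exact hB0 j
    rw [h1] at h0
    rw [h0]
    exact h.f0
  · refine h.fP.mono fun t ht => ?_
    rw [aut_ev_bind, hAB]
    exact ht
  · refine h.fQ.mono fun t ht => ?_
    rw [aut_ev_bind, hAB]
    exact ht
  · intro hJ ε hε
    obtain ⟨s, hs, t, ht, hj⟩ := hJ ε hε
    refine ⟨s, hs, t, ht, ?_⟩
    have ha : Continuous (fun x : Pt => (fun i => ev x (A i) : Pt)) := by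
      apply continuous_pi
      intro i
      exact MvPolynomial.continuous_eval (A i)
    have h1 := hj.map ha
    have h2 : (fun i => ev (fun i => ev (P s) (B i)) (A i)) = P s := hAB (P s)
    have h3 : (fun i => ev (fun i => ev (Q t) (B i)) (A i)) = Q t := hAB (Q t)
    simp only [h2, h3] at h1
    refine h1.mono ?_
    rintro _ ⟨x, hx, rfl⟩
    show 0 < ev (fun i => ev x (A i)) f
    have hx' : 0 < ev x (bind₁ A f) := hx
    rw [aut_ev_bind] at hx'
    exact hx'

end Pool.Agent.H734R2.SP
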