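import Pool.Agent.H734R2.SP.Stubs2

set_option autoImplicit false

/-! Auxiliary lemmas for NEAR, POS2, RED1 (helper631). -/

namespace Pool.Agent.H734R2.SP.AuxC

open MvPolynomial Filter Topology

lemma mon_pos {x : Pt} (hx : ∀ i, 0 < x i) (m : Ex) : 0 < mon m x :=
  Finset.prod_pos fun i _ => pow_pos (hx i) _

lemma ev_monomial (m : Ex) (a : ℝ) (x : Pt) : ev x (monomial m a) = a * mon m x := by
  unfold ev mon
  rw [eval_monomial, Finsupp.prod_fintype]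
  intro i
  rw [pow_zero]

lemma ev_eq_sum (g : Poly) (x : Pt) : ev x g = ∑ m ∈ g.support, coeff m g * mon m x := by
  unfold ev mon
  rw [eval_eq']

lemma ev_rel (u v : Ex) (h : Poly) (x : Pt) : ev x (rel u v h) = mon u x - mon v x - ev x h := by
  have h1 := ev_monomial u 1 x
  have h2 := ev_monomial v 1 x
  unfold ev at *
  unfold rel
  rw [map_sub, map_sub, h1, h2, one_mul, one_mul]

lemma mon_tendsto {P : ℝ → Pt} {w : Fin 3 → ℕ}
    (h : ∀ i, Tendsto (fun t => P t i / t ^ w i) (𝓝[>] (0 : ℝ)) (𝓝 1)) (m : Ex) :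
    Tendsto (fun t => mon m (P t) / t ^ wt w m) (𝓝[>] (0 : ℝ)) (𝓝 1) := by
  have h1 : Tendsto (fun t => ∏ i, (P t i / t ^ w i) ^ m i) (𝓝[>] (0 : ℝ)) (𝓝 (∏ i : Fin 3, (1 : ℝ) ^ m i)) :=
    tendsto_finsetProd _ fun i _ => (h i).pow (m i)
  simp only [one_pow, Finset.prod_const_one] at h1
  refine h1.congr fun t => ?_
  unfold mon wt
  rw [← Finset.prod_pow_eq_pow_sum, ← Finset.prod_div_distrib]
  refine Finset.prod_congr rfl fun i _ => ?_
  rw [div_pow, pow_mul]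

lemma mon_bounds {P : ℝ → Pt} {w : Fin 3 → ℕ}
    (h : ∀ i, Tendsto (fun t => P t i / t ^ w i) (𝓝[>] (0 : ℝ)) (𝓝 1)) (m : Ex) :
    ∀ᶠ t in 𝓝[>] (0 : ℝ), t ^ wt w m / 2 ≤ mon m (P t) ∧ mon m (P t) ≤ 2 * t ^ wt w m := by
  have h0 := mon_tendsto h m
  have h1 : ∀ᶠ t in 𝓝[>] (0 : ℝ), 1 / 2 < mon m (P t) / t ^ wt w m := h0.eventually_const_lt (by norm_num)
  have h2 : ∀ᶠ t in 𝓝[>] (0 : ℝ), mon m (P t) / t ^ wt w m < 2 := h0.eventually_lt_const (by norm_num)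
  have h3 : ∀ᶠ t in 𝓝[>] (0 : ℝ), t ∈ Set.Ioi (0 : ℝ) := self_mem_nhdsWithin
  filter_upwards [h1, h2, h3] with t h1 h2 h3
  have h4 : 0 < t ^ wt w m := pow_pos h3 _
  have h5 := ((lt_div_iff₀ h4).1 h1).le
  exact ⟨by linarith, ((div_lt_iff₀ h4).1 h2).le⟩

lemma univ_three : ∀ a b c : Fin 3, a ≠ b → a ≠ c → b ≠ c →
    (Finset.univ : Finset (Fin 3)) = {a, b, c} := by
  decide

lemma prod_three {a b c : Fin 3} (hab : a ≠ b) (hac : a ≠ c) (hbc : b ≠ c) (g : Fin 3 → ℝ) :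
    ∏ i, g i = g a * g b * g c := by
  rw [univ_three a b c hab hac hbc, Finset.prod_insert, Finset.prod_insert, Finset.prod_singleton, mul_assoc]
  · simpa using hbc
  · simp [hab, hac]

lemma mon_exp {a b c : Fin 3} (hab : a ≠ b) (hac : a ≠ c) (hbc : b ≠ c) {p x : Pt} {d₁ d₂ : ℝ}
    (ha : x a = p a) (hb : x b = p b * Real.exp d₁) (hc : x c = p c * Real.exp d₂) (m : Ex) :
    mon m x = mon m p * Real.exp (m b * d₁ + m c * d₂) := by
  unfold mon
  rw [prod_three hab hac hbc, prod_three hab hac hbc, ha, hb, hc, mul_pow, mul_pow, Real.exp_add,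
    ← Real.exp_nat_mul, ← Real.exp_nat_mul]
  ring

/-- `exp` of something small -/
lemma exp_le_two {z : ℝ} (h : |z| ≤ 1 / 2) : Real.exp z ≤ 2 := by
  have h1 : Real.exp z ≤ Real.exp (1 / 2) := Real.exp_le_exp.2 ((le_abs_self z).trans h)
  have h2 : Real.exp (1 / 2) ^ 2 = Real.exp 1 := by
    rw [← Real.exp_nat_mul]; norm_num
  have h3 := Real.exp_one_lt_d9
  have h4 := Real.exp_pos (1 / 2 : ℝ)
  nlinarith

lemma half_le_exp {z : ℝ} (h : |z| ≤ 1 / 2) : 1 / 2 ≤ Real.exp z := by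
  have h1 := Real.add_one_le_exp z
  have h2 := neg_abs_le z
  linarith

lemma abs_exp_sub_one {z : ℝ} (h : |z| ≤ 1) : |Real.exp z - 1| ≤ 2 * |z| := by
  have h2 := Real.abs_exp_sub_one_le h
  exact h2

lemma abs_log_le {r e : ℝ} (he : e ≤ 1 / 2) (h : |r - 1| ≤ e) : |Real.log r| ≤ 2 * e := by
  have h1 := abs_le.1 h
  have hr : 0 < r := by linarith [h1.1]
  have he0 : 0 ≤ e := (abs_nonneg _).trans h
  rw [abs_le]
  constructor
  · have h2 := Real.one_sub_inv_le_log_of_pos hr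
    have h3 : r⁻¹ ≤ 1 + 2 * e := by
      rw [inv_le_iff_one_le_mul₀ hr]
      nlinarith [h1.1]
    linarith
  · have h2 := Real.log_le_sub_one_of_pos hr
    linarith [h1.2]

lemma Close.mono {w : Fin 3 → ℕ} {k K K' : ℕ} {ε ε' : ℝ} {x : Pt} (hK : K' ≤ K) (hε : ε ≤ ε')
    (h : Close w k K ε x) : Close w k K' ε' x := by
  refine ⟨h.1, fun m m' h1 h2 h3 => ?_, fun m m' h1 h2 => ?_⟩
  · exact (h.2.1 m m' (h1.trans hK) h2 h3).trans
      (mul_le_mul_of_nonneg_right hε (mon_pos h.1 m).le)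
  · exact (h.2.2 m m' h1 h2).trans (mul_le_mul_of_nonneg_right hε (mon_pos h.1 m).le)

/-- logarithm of a ratio of monomials of equal weight -/
lemma Close.log {w : Fin 3 → ℕ} {k K : ℕ} {ε : ℝ} {x : Pt} (h : Close w k K ε x) (hε : ε ≤ 1 / 2)
    {u v : Ex} (huk : wt w u ≤ k) (huv : wt w u = wt w v) :
    |Real.log (mon v x) - Real.log (mon u x)| ≤ 2 * ε := by
  have hu := mon_pos h.1 u
  have hv := mon_pos h.1 v
  rw [← Real.log_div hv.ne' hu.ne']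
  apply abs_log_le hε
  have h1 := h.2.2 u v huk huv
  have h2 : mon v x / mon u x - 1 = -((mon u x - mon v x) / mon u x) := by
    field_simp
    ring
  rw [h2, abs_neg, abs_div, abs_of_pos hu, div_le_iff₀ hu]
  exact h1

lemma eventually_Ioo {p : ℝ → Prop} (h : ∀ᶠ t in 𝓝[>] (0 : ℝ), p t) :
    ∃ e > 0, ∀ t ∈ Set.Ioo (0 : ℝ) e, p t := by
  obtain ⟨u, hu, h⟩ := mem_nhdsGT_iff_exists_Ioo_subset.1 h
  exact ⟨u, hu, fun t ht => h ht⟩

end Pool.Agent.H734R2.SP.AuxC
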