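import Pool.Agent.H734R2.SP.Stubs2

set_option autoImplicit false

/-! Basic facts on `wt` and `mon`. -/

namespace Pool.Agent.H734R2.SP

open MvPolynomial Filter Topology

theorem wt_add (w : Fin 3 → ℕ) (m m' : Ex) : wt w (m + m') = wt w m + wt w m' := by
  simp only [wt, Finsupp.add_apply, mul_add, Finset.sum_add_distrib]

theorem wt_smul (w : Fin 3 → ℕ) (n : ℕ) (m : Ex) : wt w (n • m) = n * wt w m := by
  simp only [wt, Finsupp.smul_apply, smul_eq_mul, Finset.mul_sum]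
  exact Finset.sum_congr rfl fun i _ => by ring

theorem wt_zero (w : Fin 3 → ℕ) : wt w 0 = 0 := by simp [wt]

theorem mul_le_wt (w : Fin 3 → ℕ) (m : Ex) (i : Fin 3) : w i * m i ≤ wt w m :=
  Finset.single_le_sum (f := fun i => w i * m i) (fun _ _ => Nat.zero_le _) (Finset.mem_univ i)

theorem le_wt (w : Fin 3 → ℕ) (hw : ∀ i, 1 ≤ w i) (m : Ex) (i : Fin 3) : m i ≤ wt w m :=
  le_trans (Nat.le_mul_of_pos_left _ (hw i)) (mul_le_wt w m i)

theorem finite_wt (w : Fin 3 → ℕ) (hw : ∀ i, 1 ≤ w i) (K : ℕ) : {m : Ex | wt w m ≤ K}.Finite := by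
  refine (Set.finite_Iic (Finsupp.equivFunOnFinite.symm (fun _ => K) : Ex)).subset ?_
  intro m hm
  rw [Set.mem_Iic, Finsupp.le_def]
  intro i
  exact le_trans (le_wt w hw m i) hm

theorem ev_monomial (m : Ex) (a : ℝ) (x : Pt) : ev x (monomial m a) = a * mon m x := by
  simp only [ev, eval_monomial, mon]
  congr 1
  rw [Finsupp.prod_fintype]
  intro i; simp

theorem ev_eq_sum (g : Poly) (x : Pt) : ev x g = ∑ m ∈ g.support, coeff m g * mon m x := by
  conv_lhs => rw [g.as_sum]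
  simp only [ev, map_sum]
  exact Finset.sum_congr rfl fun m _ => ev_monomial m _ x

theorem mon_pos (m : Ex) (x : Pt) (hx : ∀ i, 0 < x i) : 0 < mon m x :=
  Finset.prod_pos fun i _ => pow_pos (hx i) _

theorem mon_add (m m' : Ex) (x : Pt) : mon (m + m') x = mon m x * mon m' x := by
  simp only [mon, Finsupp.add_apply, pow_add, Finset.prod_mul_distrib]

theorem mon_tendsto (P : ℝ → Pt) (w : Fin 3 → ℕ)
    (h : ∀ i, Tendsto (fun t => P t i / t ^ w i) (𝓝[>] (0 : ℝ)) (𝓝 1)) (m : Ex) :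
    Tendsto (fun t => mon m (P t) / t ^ wt w m) (𝓝[>] (0 : ℝ)) (𝓝 1) := by
  have h1 : Tendsto (fun t => ∏ i, (P t i / t ^ w i) ^ m i) (𝓝[>] (0 : ℝ)) (𝓝 (∏ i : Fin 3, (1:ℝ) ^ m i)) :=
    tendsto_finsetProd _ fun i _ => (h i).pow _
  simp only [one_pow, Finset.prod_const_one] at h1
  refine h1.congr fun t => ?_
  simp only [mon, wt, div_pow, Finset.prod_div_distrib, ← Finset.prod_pow_eq_pow_sum, pow_mul]

/-- the limit of `g(P)/t^d` when all exponents of `g` have weight at least `d` -/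
theorem low_tendsto (P : ℝ → Pt) (w : Fin 3 → ℕ)
    (h : ∀ i, Tendsto (fun t => P t i / t ^ w i) (𝓝[>] (0 : ℝ)) (𝓝 1)) (g : Poly) (d : ℕ)
    (hg : ∀ m ∈ g.support, d ≤ wt w m) :
    Tendsto (fun t => ev (P t) g / t ^ d) (𝓝[>] (0 : ℝ))
      (𝓝 (∑ m ∈ g.support.filter (fun m => wt w m = d), coeff m g)) := by
  have key : ∀ m ∈ g.support, Tendsto (fun t => coeff m g * mon m (P t) / t ^ d) (𝓝[>] (0 : ℝ))
      (𝓝 (if wt w m = d then coeff m g else 0)) := by
    intro m hm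
    have h0 := (mon_tendsto P w h m).const_mul (coeff m g)
    split_ifs with hd
    · rw [hd] at h0
      simpa [mul_div_assoc] using h0
    · have hlt : d < wt w m := lt_of_le_of_ne (hg m hm) (Ne.symm hd)
      have hp : Tendsto (fun t : ℝ => t ^ (wt w m - d)) (𝓝[>] (0 : ℝ)) (𝓝 0) := by
        have : Tendsto (fun t : ℝ => t ^ (wt w m - d)) (𝓝 (0 : ℝ)) (𝓝 (0 ^ (wt w m - d))) :=
          (continuous_pow _).tendsto 0
        rw [zero_pow (by omega)] at this
        exact this.mono_left nhdsWithin_le_nhds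
      have h1 := h0.mul hp
      rw [mul_zero] at h1
      refine h1.congr' ?_
      filter_upwards [self_mem_nhdsWithin] with t ht
      have ht' : (t:ℝ) ≠ 0 := ne_of_gt ht
      have : t ^ wt w m = t ^ d * t ^ (wt w m - d) := by rw [← pow_add]; congr 1; omega
      rw [this]
      field_simp
  have hs := tendsto_finsetSum g.support key
  rw [← Finset.sum_filter] at hs
  refine hs.congr fun t => ?_
  rw [ev_eq_sum, Finset.sum_div]

theorem low_zero (P : ℝ → Pt) (w : Fin 3 → ℕ)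
    (h : ∀ i, Tendsto (fun t => P t i / t ^ w i) (𝓝[>] (0 : ℝ)) (𝓝 1)) (g : Poly) (d : ℕ)
    (hg : ∀ m ∈ g.support, d < wt w m) : Neg P d g := by
  have h1 := low_tendsto P w h g d (fun m hm => (hg m hm).le)
  rw [Finset.sum_eq_zero] at h1
  · exact h1
  · intro m hm
    rw [Finset.mem_filter] at hm
    exact absurd hm.2 (ne_of_gt (hg m hm.1))

theorem Neg.mono {P : ℝ → Pt} {k d : ℕ} {g : Poly} (h : Neg P k g) (hd : d ≤ k) : Neg P d g := by
  have hp : Tendsto (fun t : ℝ => t ^ (k - d)) (𝓝[>] (0 : ℝ)) (𝓝 (0 ^ (k - d))) :=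
    ((continuous_pow _).tendsto 0).mono_left nhdsWithin_le_nhds
  have h1 := h.mul hp
  rw [zero_mul] at h1
  refine h1.congr' ?_
  filter_upwards [self_mem_nhdsWithin] with t ht
  have ht' : (t:ℝ) ≠ 0 := ne_of_gt ht
  have : t ^ k = t ^ d * t ^ (k - d) := by rw [← pow_add]; congr 1; omega
  rw [this]
  field_simp

theorem Neg.sub {P : ℝ → Pt} {k : ℕ} {g g' : Poly} (h : Neg P k g) (h' : Neg P k g') :
    Neg P k (g - g') := by
  have := Tendsto.sub h h'
  rw [sub_zero] at this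
  refine this.congr fun t => ?_
  simp only [ev, map_sub]; ring

theorem Neg.add {P : ℝ → Pt} {k : ℕ} {g g' : Poly} (h : Neg P k g) (h' : Neg P k g') :
    Neg P k (g + g') := by
  have := Tendsto.add h h'
  rw [add_zero] at this
  refine this.congr fun t => ?_
  simp only [ev, map_add]; ring

/-- the coordinates of the arc tend to zero -/
theorem arc_tendsto (P : ℝ → Pt) (w : Fin 3 → ℕ) (hw : ∀ i, 1 ≤ w i)
    (h : ∀ i, Tendsto (fun t => P t i / t ^ w i) (𝓝[>] (0 : ℝ)) (𝓝 1)) (i : Fin 3) :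
    Tendsto (fun t => P t i) (𝓝[>] (0 : ℝ)) (𝓝 0) := by
  have hp : Tendsto (fun t : ℝ => t ^ (w i)) (𝓝[>] (0 : ℝ)) (𝓝 (0 ^ (w i))) :=
    ((continuous_pow _).tendsto 0).mono_left nhdsWithin_le_nhds
  rw [zero_pow (by have := hw i; omega)] at hp
  have h1 := (h i).mul hp
  rw [one_mul] at h1
  refine h1.congr' ?_
  filter_upwards [self_mem_nhdsWithin] with t ht
  have ht' : (t:ℝ) ≠ 0 := ne_of_gt ht
  field_simp

theorem ev_tendsto (P : ℝ → Pt) (w : Fin 3 → ℕ) (hw : ∀ i, 1 ≤ w i)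
    (h : ∀ i, Tendsto (fun t => P t i / t ^ w i) (𝓝[>] (0 : ℝ)) (𝓝 1)) (g : Poly) :
    Tendsto (fun t => ev (P t) g) (𝓝[>] (0 : ℝ)) (𝓝 (ev 0 g)) := by
  have hP : Tendsto P (𝓝[>] (0 : ℝ)) (𝓝 0) := by
    rw [tendsto_pi_nhds]
    intro i; exact arc_tendsto P w hw h i
  exact ((MvPolynomial.continuous_eval g).tendsto 0).comp hP

theorem Neg.mul_left {P : ℝ → Pt} {w : Fin 3 → ℕ} (hw : ∀ i, 1 ≤ w i)
    (h : ∀ i, Tendsto (fun t => P t i / t ^ w i) (𝓝[>] (0 : ℝ)) (𝓝 1)) {k : ℕ} {g : Poly}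
    (hg : Neg P k g) (q : Poly) : Neg P k (q * g) := by
  have := (ev_tendsto P w hw h q).mul hg
  rw [mul_zero] at this
  refine this.congr fun t => ?_
  simp only [ev, map_mul]; ring

end Pool.Agent.H734R2.SP
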