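import Pool.Agent.H734R2.SP.Part1

set_option autoImplicit false

/-! From `Join` to the statement about rational arcs. -/

namespace Pool.Agent.H734R2.SP

open MvPolynomial Filter Topology

theorem component_eq_of_joinedIn {f : Poly} {x y : Pt} (h : JoinedIn (Pos f) x y) :
    connectedComponentIn (Pos f) x = connectedComponentIn (Pos f) y := by
  obtain ⟨γ, hγ⟩ := h
  apply connectedComponentIn_eq
  have h1 : IsPreconnected (Set.range γ) := isPreconnected_range γ.continuous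
  have h2 : Set.range γ ⊆ Pos f := by rintro _ ⟨t, rfl⟩; exact hγ t
  exact h1.subset_connectedComponentIn ⟨0, by simp⟩ h2 ⟨1, by simp⟩

/-- analytic arcs -/
theorem separator_of_join (f : Poly) (P Q : ℝ → Pt) (hP : Arc P) (hQ : Arc Q) (f0 : ev 0 f = 0)
    (hc : ∃ ε > (0 : ℝ), ∀ s ∈ Set.Ioo (0 : ℝ) ε, ∀ t ∈ Set.Ioo (0 : ℝ) ε,
      0 < ev (P s) f ∧ 0 < ev (Q t) f ∧
        connectedComponentIn (Pos f) (P s) ≠ connectedComponentIn (Pos f) (Q t))
    (H : NS f P Q → Join f P Q) :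
    ∃ g : Poly, ∃ ε > (0 : ℝ), ∀ t ∈ Set.Ioo (0 : ℝ) ε,
      ev (P t) f ≤ ev (P t) g ∧ ev (Q t) g ≤ 0 := by
  by_contra hno
  obtain ⟨ε, hε, hc⟩ := hc
  have hmem : ∀ δ > (0:ℝ), Set.Ioo (0 : ℝ) δ ∈ 𝓝[>] (0 : ℝ) := fun δ hδ => Ioo_mem_nhdsGT hδ
  have hfP : ∀ᶠ t in 𝓝[>] (0 : ℝ), 0 < ev (P t) f := by
    filter_upwards [hmem ε hε] with t ht
    exact (hc t ht t ht).1
  have hfQ : ∀ᶠ t in 𝓝[>] (0 : ℝ), 0 < ev (Q t) f := by
    filter_upwards [hmem ε hε] with t ht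
    exact (hc t ht t ht).2.1
  have hns : NS f P Q := by
    refine t_NSI t_TRI t_EVA f P Q hP hQ f0 hfP hfQ ?_
    rintro ⟨g, hg⟩
    apply hno
    obtain ⟨δ, hδ, hsub⟩ := mem_nhdsGT_iff_exists_Ioo_subset.1 hg
    exact ⟨g, δ, hδ, fun t ht => hsub ht⟩
  obtain ⟨s, hs, t, ht, hj⟩ := H hns ε hε
  exact (hc s hs t ht).2.2 (component_eq_of_joinedIn hj)

/-- rational arcs are arcs -/
theorem arc_rational (a : Fin 3 → Polynomial ℝ) (b : Polynomial ℝ) (hb : b.eval 0 ≠ 0)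
    (ha : ∀ i, (a i).eval 0 = 0) : Arc (fun t i => (a i).eval t / b.eval t) := by
  constructor
  · intro i
    have h1 : AnalyticAt ℝ (fun t => (a i).eval t) 0 := by
      have := AnalyticAt.aeval_polynomial (analyticAt_id (𝕜 := ℝ) (z := (0:ℝ))) (a i)
      simpa using this
    have h2 : AnalyticAt ℝ (fun t => b.eval t) 0 := by
      have := AnalyticAt.aeval_polynomial (analyticAt_id (𝕜 := ℝ) (z := (0:ℝ))) b
      simpa using this
    exact h1.div h2 hb
  · funext i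
    simp [ha i]

end Pool.Agent.H734R2.SP
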