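import Pool.Agent.H734R2.SP.Stubs3

set_option autoImplicit false

namespace Pool.Agent.H734R2.SP

open MvPolynomial Filter Topology

theorem t_CHAIN : S_CHAIN := by
  intro A f i
  induction f using MvPolynomial.induction_on with
  | C r => simp
  | add p q hp hq =>
    simp only [map_add, hp, hq, add_mul, Finset.sum_add_distrib]
  | mul_X p k hp =>
    have h1 : ∀ j, bind₁ A (pderiv j (p * X k)) * pderiv i (A j) =
        bind₁ A (pderiv j p) * pderiv i (A j) * A k +
          bind₁ A p * (bind₁ A (pderiv j (X k)) * pderiv i (A j)) := by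
      intro j
      rw [pderiv_mul, map_add, map_mul, map_mul, bind₁_X_right]
      ring
    have h2 : ∑ j, bind₁ A (pderiv j (X k)) * pderiv i (A j) = pderiv i (A k) := by
      rw [Finset.sum_eq_single k]
      · rw [pderiv_X_self, map_one, one_mul]
      · intro j _ hj
        rw [pderiv_X_of_ne hj.symm, map_zero, zero_mul]
      · intro hk
        exact absurd (Finset.mem_univ _) hk
    rw [map_mul, bind₁_X_right, pderiv_mul, hp, Finset.sum_congr rfl fun j _ => h1 j,
      Finset.sum_add_distrib, ← Finset.sum_mul, ← Finset.mul_sum, h2]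

end Pool.Agent.H734R2.SP
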