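import Pool.Agent.H734R2.SP.Base

set_option autoImplicit false

namespace Pool.Agent.H734R2.SP

open MvPolynomial Filter Topology

/-- a polynomial of order `≤ k` with positive leading coefficient on `P` is positive on both -/
theorem ns_pos {f : Poly} {P Q : ℝ → Pt} (h : NS f P Q) {w : Fin 3 → ℕ} {k : ℕ} {F : ℝ}
    (hN : Norm f P w k F) (g : Poly) (d : ℕ) (a : ℝ) (ha : 0 < a) (hd : d ≤ k)
    (hg : Tendsto (fun t => ev (P t) g / t ^ d) (𝓝[>] (0 : ℝ)) (𝓝 a)) :
    (∀ᶠ t in 𝓝[>] (0 : ℝ), 0 < ev (P t) g) ∧ (∀ᶠ t in 𝓝[>] (0 : ℝ), 0 < ev (Q t) g) := by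
  have hF := hN.F0
  have h1 : ∀ᶠ t in 𝓝[>] (0 : ℝ), a / 2 < ev (P t) g / t ^ d :=
    hg.eventually (lt_mem_nhds (by linarith))
  have h2 : ∀ᶠ t in 𝓝[>] (0 : ℝ), ev (P t) f / t ^ k < 2 * F :=
    hN.flim.eventually (gt_mem_nhds (by linarith))
  have h3 : ∀ᶠ t in 𝓝[>] (0 : ℝ), t < 1 :=
    (gt_mem_nhds (by norm_num : (0:ℝ) < 1)).filter_mono nhdsWithin_le_nhds
  have key : ∀ᶠ t in 𝓝[>] (0 : ℝ), (a / (4 * F)) * ev (P t) f ≤ ev (P t) g ∧ 0 < ev (P t) g := by
    filter_upwards [h1, h2, h3, self_mem_nhdsWithin] with t ht1 ht2 ht3 ht0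
    have ht0' : (0:ℝ) < t := ht0
    have hkp : 0 < t ^ k := pow_pos ht0' k
    have hdp : 0 < t ^ d := pow_pos ht0' d
    rw [lt_div_iff₀ hdp] at ht1
    rw [div_lt_iff₀ hkp] at ht2
    have hle : t ^ k ≤ t ^ d := pow_le_pow_of_le_one ht0'.le ht3.le hd
    refine ⟨?_, lt_trans (by positivity) ht1⟩
    have e1 : (a / (4 * F)) * ev (P t) f ≤ (a / (4 * F)) * (2 * F * t ^ k) :=
      mul_le_mul_of_nonneg_left ht2.le (by positivity)
    have e2 : (a / (4 * F)) * (2 * F * t ^ k) = a / 2 * t ^ k := by field_simp; ring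
    have e3 : a / 2 * t ^ k ≤ a / 2 * t ^ d := mul_le_mul_of_nonneg_left hle (by positivity)
    linarith
  refine ⟨key.mono fun t ht => ht.2, ?_⟩
  have := h.pq g 0 (a / (4 * F)) (by positivity) (key.mono fun t ht => ht.1)
  exact this.mono fun t ht => by simpa using ht

theorem lim_monomial (P : ℝ → Pt) (w : Fin 3 → ℕ)
    (h : ∀ i, Tendsto (fun t => P t i / t ^ w i) (𝓝[>] (0 : ℝ)) (𝓝 1)) (m : Ex) (a : ℝ) :
    Tendsto (fun t => ev (P t) (monomial m a) / t ^ wt w m) (𝓝[>] (0 : ℝ)) (𝓝 a) := by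
  have := (mon_tendsto P w h m).const_mul a
  rw [mul_one] at this
  refine this.congr fun t => ?_
  rw [ev_monomial, mul_div_assoc]

theorem neg_monomial (P : ℝ → Pt) (w : Fin 3 → ℕ)
    (h : ∀ i, Tendsto (fun t => P t i / t ^ w i) (𝓝[>] (0 : ℝ)) (𝓝 1)) (m : Ex) (a : ℝ) (d : ℕ)
    (hd : d < wt w m) : Neg P d (monomial m a) := by
  apply low_zero P w h
  intro m' hm'
  have := support_monomial_subset hm'
  rw [Finset.mem_singleton] at this
  rw [this]; exact hd

theorem t_CLO : S_CLO := by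
  intro f P Q h w k F hN K ε hε
  -- positivity
  have hpos : ∀ i, (∀ᶠ t in 𝓝[>] (0 : ℝ), 0 < P t i) ∧ (∀ᶠ t in 𝓝[>] (0 : ℝ), 0 < Q t i) := by
    intro i
    have := ns_pos h hN (X i) (w i) 1 one_pos (hN.wk i) (by simpa [ev] using hN.lim i)
    simpa [ev] using this
  -- strict inequalities
  have h1 : ∀ m m' : Ex, wt w m ≤ k → wt w m < wt w m' →
      (∀ᶠ t in 𝓝[>] (0 : ℝ), mon m' (P t) ≤ ε * mon m (P t)) ∧
      (∀ᶠ t in 𝓝[>] (0 : ℝ), mon m' (Q t) ≤ ε * mon m (Q t)) := by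
    intro m m' hm hlt
    have hl : Tendsto (fun t => ev (P t) (monomial m ε - monomial m' 1) / t ^ wt w m)
        (𝓝[>] (0 : ℝ)) (𝓝 ε) := by
      have := (lim_monomial P w hN.lim m ε).sub (neg_monomial P w hN.lim m' 1 (wt w m) hlt)
      rw [sub_zero] at this
      refine this.congr fun t => ?_
      simp only [ev, map_sub]; ring
    have := ns_pos h hN _ _ ε hε hm hl
    constructor
    · exact this.1.mono fun t ht => by
        simp only [ev, map_sub] at ht
        have e1 := ev_monomial m ε (P t)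
        have e2 := ev_monomial m' 1 (P t)
        simp only [ev] at e1 e2
        rw [e1, e2] at ht; linarith
    · exact this.2.mono fun t ht => by
        simp only [ev, map_sub] at ht
        have e1 := ev_monomial m ε (Q t)
        have e2 := ev_monomial m' 1 (Q t)
        simp only [ev] at e1 e2
        rw [e1, e2] at ht; linarith
  have h2 : ∀ m m' : Ex, wt w m ≤ k → wt w m = wt w m' →
      (∀ᶠ t in 𝓝[>] (0 : ℝ), |mon m (P t) - mon m' (P t)| ≤ ε * mon m (P t)) ∧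
      (∀ᶠ t in 𝓝[>] (0 : ℝ), |mon m (Q t) - mon m' (Q t)| ≤ ε * mon m (Q t)) := by
    intro m m' hm heq
    have l1 := lim_monomial P w hN.lim m 1
    have l2 := lim_monomial P w hN.lim m' 1
    rw [← heq] at l2
    have l3 := lim_monomial P w hN.lim m ε
    have hl1 : Tendsto (fun t => ev (P t) (monomial m ε - (monomial m 1 - monomial m' 1)) / t ^ wt w m)
        (𝓝[>] (0 : ℝ)) (𝓝 ε) := by
      have := l3.sub (l1.sub l2)
      rw [sub_self, sub_zero] at this
      refine this.congr fun t => ?_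
      simp only [ev, map_sub]; ring
    have hl2 : Tendsto (fun t => ev (P t) (monomial m ε + (monomial m 1 - monomial m' 1)) / t ^ wt w m)
        (𝓝[>] (0 : ℝ)) (𝓝 ε) := by
      have := l3.add (l1.sub l2)
      rw [sub_self, add_zero] at this
      refine this.congr fun t => ?_
      simp only [ev, map_sub, map_add]; ring
    have a1 := ns_pos h hN _ _ ε hε hm hl1
    have a2 := ns_pos h hN _ _ ε hε hm hl2
    constructor
    · filter_upwards [a1.1, a2.1] with t ht1 ht2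
      simp only [ev, map_sub, map_add] at ht1 ht2
      have e1 := ev_monomial m ε (P t)
      have e2 := ev_monomial m' 1 (P t)
      have e3 := ev_monomial m 1 (P t)
      simp only [ev] at e1 e2 e3
      rw [e1, e2, e3] at ht1 ht2
      rw [abs_le]; constructor <;> linarith
    · filter_upwards [a1.2, a2.2] with t ht1 ht2
      simp only [ev, map_sub, map_add] at ht1 ht2
      have e1 := ev_monomial m ε (Q t)
      have e2 := ev_monomial m' 1 (Q t)
      have e3 := ev_monomial m 1 (Q t)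
      simp only [ev] at e1 e2 e3
      rw [e1, e2, e3] at ht1 ht2
      rw [abs_le]; constructor <;> linarith
  -- finiteness
  have hf1 : ({m : Ex | wt w m ≤ k} ×ˢ {m : Ex | wt w m ≤ K} : Set (Ex × Ex)).Finite :=
    (finite_wt w hN.w1 k).prod (finite_wt w hN.w1 K)
  have hf2 : ({m : Ex | wt w m ≤ k} ×ˢ {m : Ex | wt w m ≤ k} : Set (Ex × Ex)).Finite :=
    (finite_wt w hN.w1 k).prod (finite_wt w hN.w1 k)
  have fin : ∀ R : ℝ → Pt, (∀ i, ∀ᶠ t in 𝓝[>] (0 : ℝ), 0 < R t i) →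
      (∀ m m' : Ex, wt w m ≤ k → wt w m < wt w m' →
        ∀ᶠ t in 𝓝[>] (0 : ℝ), mon m' (R t) ≤ ε * mon m (R t)) →
      (∀ m m' : Ex, wt w m ≤ k → wt w m = wt w m' →
        ∀ᶠ t in 𝓝[>] (0 : ℝ), |mon m (R t) - mon m' (R t)| ≤ ε * mon m (R t)) →
      ∀ᶠ t in 𝓝[>] (0 : ℝ), Close w k K ε (R t) := by
    intro R r1 r2 r3
    have e1 : ∀ᶠ t in 𝓝[>] (0 : ℝ), ∀ i, 0 < R t i := eventually_all.2 r1
    have e2 : ∀ᶠ t in 𝓝[>] (0 : ℝ), ∀ z ∈ ({m : Ex | wt w m ≤ k} ×ˢ {m : Ex | wt w m ≤ K} : Set (Ex × Ex)),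
        wt w z.1 < wt w z.2 → mon z.2 (R t) ≤ ε * mon z.1 (R t) := by
      rw [eventually_all_finite hf1]
      rintro ⟨m, m'⟩ ⟨hm, _⟩
      by_cases hlt : wt w m < wt w m'
      · exact (r2 m m' hm hlt).mono fun t ht _ => ht
      · exact Eventually.of_forall fun t hh => absurd hh hlt
    have e3 : ∀ᶠ t in 𝓝[>] (0 : ℝ), ∀ z ∈ ({m : Ex | wt w m ≤ k} ×ˢ {m : Ex | wt w m ≤ k} : Set (Ex × Ex)),
        wt w z.1 = wt w z.2 → |mon z.1 (R t) - mon z.2 (R t)| ≤ ε * mon z.1 (R t) := by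
      rw [eventually_all_finite hf2]
      rintro ⟨m, m'⟩ ⟨hm, _⟩
      by_cases heq : wt w m = wt w m'
      · exact (r3 m m' hm heq).mono fun t ht _ => ht
      · exact Eventually.of_forall fun t hh => absurd hh heq
    filter_upwards [e1, e2, e3] with t t1 t2 t3
    refine ⟨t1, ?_, ?_⟩
    · intro m m' hK hk hlt
      exact t2 (m, m') ⟨hk, hK⟩ hlt
    · intro m m' hk heq
      refine t3 (m, m') ⟨hk, ?_⟩ heq
      show wt w m' ≤ k
      rw [← heq]; exact hk
  exact ⟨fin P (fun i => (hpos i).1) (fun m m' a b => (h1 m m' a b).1) (fun m m' a b => (h2 m m' a b).1),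
    fin Q (fun i => (hpos i).2) (fun m m' a b => (h1 m m' a b).2) (fun m m' a b => (h2 m m' a b).2)⟩

end Pool.Agent.H734R2.SP
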