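import Pool.Agent.H734R2.SP.Stubs5

set_option autoImplicit false

/-! CMOV: moving an arc to the plane z = σ ρ (helper87). -/

namespace Pool.Agent.H734R2.SP

open MvPolynomial Filter Topology

theorem CMOV_vec (x : Pt) : ![x 0, x 1, x 2] = x := by
  ext i
  fin_cases i <;> rfl

theorem CMOV_real (F fz σ z θ ρ : ℝ) (hσ : σ = 1 ∨ σ = -1) (hF : 0 < F) (hρ1 : ρ ≤ 1 / 2)
    (hz : |z| ≤ ρ) (hθ0 : 0 ≤ θ) (hθ1 : θ ≤ 1) (h1 : -(1 / 2) * F ≤ σ * fz) :
    |z + θ * (σ * ρ - z)| ≤ ρ ∧ F / 2 ≤ F + (z + θ * (σ * ρ - z) - z) * fz := by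
  have hz' := abs_le.1 hz
  have hσ2 : σ * σ = 1 := by rcases hσ with rfl | rfl <;> norm_num
  have hb : 0 ≤ ρ - σ * z ∧ ρ - σ * z ≤ 1 := by
    rcases hσ with rfl | rfl
    · constructor <;> linarith [hz'.1, hz'.2]
    · constructor <;> linarith [hz'.1, hz'.2]
  constructor
  · have hk : |σ * ρ| ≤ ρ := by
      have hρ0 : 0 ≤ ρ := (abs_nonneg z).trans hz
      rcases hσ with rfl | rfl
      · rw [one_mul, abs_of_nonneg hρ0]
      · rw [neg_one_mul, abs_neg, abs_of_nonneg hρ0]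
    have e : z + θ * (σ * ρ - z) = (1 - θ) * z + θ * (σ * ρ) := by ring
    rw [e]
    calc |(1 - θ) * z + θ * (σ * ρ)| ≤ |(1 - θ) * z| + |θ * (σ * ρ)| := abs_add_le _ _
      _ = (1 - θ) * |z| + θ * |σ * ρ| := by
          rw [abs_mul, abs_mul, abs_of_nonneg (by linarith : (0 : ℝ) ≤ 1 - θ), abs_of_nonneg hθ0]
      _ ≤ (1 - θ) * ρ + θ * ρ :=
          add_le_add (mul_le_mul_of_nonneg_left hz (by linarith))
            (mul_le_mul_of_nonneg_left hk hθ0)
      _ = ρ := by ring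
  · set r : ℝ := θ * (ρ - σ * z) with hr
    have e : (z + θ * (σ * ρ - z) - z) * fz = r * (σ * fz) := by
      rw [hr]
      calc (z + θ * (σ * ρ - z) - z) * fz = θ * (σ * ρ - 1 * z) * fz := by ring
        _ = θ * (σ * ρ - (σ * σ) * z) * fz := by rw [hσ2]
        _ = _ := by ring
    have hr0 : 0 ≤ r := mul_nonneg hθ0 hb.1
    have hr1 : r ≤ 1 := by
      calc r ≤ 1 * (ρ - σ * z) := mul_le_mul_of_nonneg_right hθ1 hb.1
        _ ≤ 1 := by rw [one_mul]; exact hb.2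
    have a1 : r * (-(1 / 2) * F) ≤ r * (σ * fz) := mul_le_mul_of_nonneg_left h1 hr0
    have a2 : r * F ≤ 1 * F := mul_le_mul_of_nonneg_right hr1 hF.le
    rw [e]
    nlinarith

theorem t_CMOV : S_CMOV := by
  intro f P ρ σ hP hfP hρ hρ1 hσ hconv h1
  have hz : ∀ i, ∀ᶠ t in 𝓝[>] (0 : ℝ), |P t i| ≤ ρ := by
    intro i
    have hc : ContinuousAt (fun t => P t i) 0 := (hP.1 i).continuousAt
    have h0 : P 0 i = 0 := by rw [hP.2]; rfl
    have h5 : ∀ᶠ t in 𝓝 (0 : ℝ), |P t i| < ρ := by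
      have := hc.abs
      refine this.eventually_lt continuousAt_const ?_
      simp only [h0, abs_zero]
      exact hρ
    exact (h5.filter_mono nhdsWithin_le_nhds).mono (fun t ht => le_of_lt ht)
  have key : ∀ᶠ t in 𝓝[>] (0 : ℝ), ∀ θ : ℝ, 0 ≤ θ → θ ≤ 1 →
      ev (P t) f / 2 ≤ ev ![P t 0, P t 1, P t 2 + θ * (σ * ρ - P t 2)] f := by
    filter_upwards [hz 0, hz 1, hz 2, hfP, h1] with t a0 a1 a2 a3 a4
    intro θ b0 b1
    obtain ⟨c1, c2⟩ := CMOV_real (ev (P t) f) (ev (P t) (pderiv 2 f)) σ (P t 2) θ ρ hσ a3 hρ1 a2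
      b0 b1 a4
    have := hconv (P t 0) (P t 1) (P t 2) (P t 2 + θ * (σ * ρ - P t 2)) a0 a1 a2 c1
    rw [CMOV_vec] at this
    exact c2.trans this
  constructor
  · filter_upwards [key] with t a
    have := a 1 zero_le_one le_rfl
    have e : P t 2 + 1 * (σ * ρ - P t 2) = σ * ρ := by ring
    rwa [e] at this
  · filter_upwards [key, hfP] with t a b
    refine JoinedIn.ofLine
      (f := fun θ : ℝ => ![P t 0, P t 1, P t 2 + θ * (σ * ρ - P t 2)]) ?_ ?_ ?_ ?_
    · apply Continuous.continuousOn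
      refine continuous_pi (fun i => ?_)
      fin_cases i
      · exact continuous_const
      · exact continuous_const
      · show Continuous (fun θ : ℝ => P t 2 + θ * (σ * ρ - P t 2))
        fun_prop
    · simp only [zero_mul, add_zero]
      exact CMOV_vec _
    · have e : P t 2 + 1 * (σ * ρ - P t 2) = σ * ρ := by ring
      simp only [e]
    · rintro _ ⟨θ, hθ, rfl⟩
      have := a θ hθ.1 hθ.2
      show 0 < ev ![P t 0, P t 1, P t 2 + θ * (σ * ρ - P t 2)] f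
      linarith

end Pool.Agent.H734R2.SP
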