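import Pool.Agent.H734R2.SP.Stubs3

namespace Pool.Agent.H734R2.SP

open MvPolynomial Filter Topology

theorem t_COEF : S_COEF := by
  intro f i m
  induction f using MvPolynomial.induction_on' with
  | monomial s a =>
    rw [pderiv_monomial, coeff_monomial, coeff_monomial]
    by_cases h : s = m + Finsupp.single i 1
    · subst h
      rw [if_pos rfl]
      rw [if_pos (by ext j; simp)]
      simp
    · rw [if_neg h, zero_mul]
      by_cases h2 : s - Finsupp.single i 1 = m
      · rw [if_pos h2]
        have hs : s i = 0 := by
          by_contra hne
          apply h
          rw [← h2]
          ext j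
          by_cases hj : j = i
          · subst hj
            simp only [Finsupp.coe_add, Finsupp.coe_tsub, Pi.add_apply, Pi.sub_apply,
              Finsupp.single_eq_same]
            omega
          · simp [Finsupp.single_apply, Ne.symm hj]
        rw [hs]; simp
      · rw [if_neg h2]
  | add p q hp hq =>
    rw [map_add, coeff_add, coeff_add, hp, hq]
    ring

end Pool.Agent.H734R2.SP
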