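import Pool.Agent.H734R2.SP.Stubs3

set_option autoImplicit false

/-! Concavity in the third variable (author: helper269). -/

namespace Pool.Agent.H734R2.SP

open MvPolynomial Filter Topology

theorem CONC_vec (x y r : ℝ) : (![x, y, 0] : Pt) + r • (Pi.single 2 1 : Pt) = ![x, y, r] := by
  funext j
  fin_cases j <;> simp

theorem CONC_deriv (hl : S_LIN) (f : Poly) (x y z : ℝ) :
    HasDerivAt (fun r : ℝ => ev ![x, y, r] f) (ev ![x, y, z] (pderiv 2 f)) z := by
  have h := hl f ![x, y, 0] (Pi.single 2 1) z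
  simp only [CONC_vec] at h
  have e : (∑ j, (Pi.single 2 1 : Pt) j * ev ![x, y, z] (pderiv j f)) = ev ![x, y, z] (pderiv 2 f) := by
    rw [Finset.sum_eq_single (2 : Fin 3)]
    · simp
    · intro j _ hj
      rw [Pi.single_eq_of_ne hj, zero_mul]
    · intro h2
      exact absurd (Finset.mem_univ _) h2
  rw [e] at h
  exact h

theorem CONC_concave (hl : S_LIN) (f : Poly) (x y ρ : ℝ)
    (hneg : ∀ z : ℝ, |z| ≤ ρ → ev ![x, y, z] (pderiv 2 (pderiv 2 f)) ≤ 0) :
    ConcaveOn ℝ (Set.Icc (-ρ) ρ) (fun r : ℝ => ev ![x, y, r] f) := by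
  have hd1 : deriv (fun r : ℝ => ev ![x, y, r] f) = fun r : ℝ => ev ![x, y, r] (pderiv 2 f) :=
    funext fun z => (CONC_deriv hl f x y z).deriv
  have hd2 : deriv (fun r : ℝ => ev ![x, y, r] (pderiv 2 f)) =
      fun r : ℝ => ev ![x, y, r] (pderiv 2 (pderiv 2 f)) :=
    funext fun z => (CONC_deriv hl (pderiv 2 f) x y z).deriv
  refine concaveOn_of_deriv2_nonpos' (convex_Icc _ _) ?_ ?_ ?_
  · intro z _
    exact (CONC_deriv hl f x y z).differentiableAt.differentiableWithinAt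
  · rw [hd1]
    intro z _
    exact (CONC_deriv hl (pderiv 2 f) x y z).differentiableAt.differentiableWithinAt
  · intro z hz
    have e : deriv^[2] (fun r : ℝ => ev ![x, y, r] f) z = ev ![x, y, z] (pderiv 2 (pderiv 2 f)) := by
      show deriv (deriv (fun r : ℝ => ev ![x, y, r] f)) z = _
      rw [hd1, hd2]
    rw [e]
    exact hneg z (abs_le.2 hz)

theorem CONC_tangent (hl : S_LIN) (f : Poly) (x y ρ : ℝ)
    (hc : ConcaveOn ℝ (Set.Icc (-ρ) ρ) (fun r : ℝ => ev ![x, y, r] f)) (z : ℝ) (hz : |z| ≤ ρ) :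
    ev ![x, y, z] f ≤ ev ![x, y, 0] f + z * ev ![x, y, 0] (pderiv 2 f) := by
  have hρ : 0 ≤ ρ := (abs_nonneg z).trans hz
  have hz' : z ∈ Set.Icc (-ρ) ρ := abs_le.1 hz
  have h0 : (0 : ℝ) ∈ Set.Icc (-ρ) ρ := ⟨by linarith, hρ⟩
  have hd := CONC_deriv hl f x y 0
  rcases lt_trichotomy z 0 with h | h | h
  · have h1 := hc.le_slope_of_hasDerivAt hz' h0 h hd
    rw [slope_def_field, le_div_iff₀ (by linarith)] at h1
    linarith
  · rw [h]
    linarith
  · have h1 := hc.slope_le_of_hasDerivAt h0 hz' h hd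
    rw [slope_def_field, div_le_iff₀ (by linarith)] at h1
    linarith

theorem t_CONC (hlip : S_LIP) (hl : S_LIN) : S_CONC := by
  intro f hf
  obtain ⟨K, hK, hKl⟩ := hlip (pderiv 2 (pderiv 2 f))
  set c : ℝ := - ev 0 (pderiv 2 (pderiv 2 f)) with hc
  have hc0 : 0 < c := by rw [hc]; linarith
  have hρ0 : 0 < min (1 / 2) (c / (2 * K)) := lt_min (by norm_num) (by positivity)
  refine ⟨min (1 / 2) (c / (2 * K)), hρ0, ?_⟩
  set ρ : ℝ := min (1 / 2) (c / (2 * K)) with hρ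
  intro x y hx hy
  have hρ1 : ρ ≤ 1 / 2 := min_le_left _ _
  have hρ2 : K * ρ ≤ c / 2 := by
    have : ρ ≤ c / (2 * K) := min_le_right _ _
    rw [le_div_iff₀ (by positivity)] at this
    linarith
  have hneg : ∀ z : ℝ, |z| ≤ ρ → ev ![x, y, z] (pderiv 2 (pderiv 2 f)) ≤ 0 := by
    intro z hz
    have hb : ∀ i, |(![x, y, z] : Pt) i| ≤ ρ := by
      intro i
      fin_cases i
      · exact hx
      · exact hy
      · exact hz
    have h := hKl ![x, y, z] 0 ρ (fun i => (hb i).trans (by linarith)) (fun i => by simp)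
      (fun i => by simpa using hb i)
    have h2 := (abs_le.1 h).2
    linarith
  have hconc := CONC_concave hl f x y ρ hneg
  refine ⟨fun z hz => CONC_tangent hl f x y ρ hconc z hz, fun z hz θ hθ => ?_⟩
  have h0 : (0 : ℝ) ∈ Set.Icc (-ρ) ρ := ⟨by linarith, hρ0.le⟩
  have h := hconc.2 h0 (abs_le.1 hz) (by linarith [hθ.2] : (0 : ℝ) ≤ 1 - θ) hθ.1 (by ring)
  simpa [smul_eq_mul] using h

end Pool.Agent.H734R2.SP
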