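import Pool.Agent.H734R2.SP.Stubs

set_option autoImplicit false

namespace Pool.Agent.H734R2.SP

open MvPolynomial Filter Topology

namespace CongAux

theorem arc_small {P : ℝ → Pt} (h : Arc P) : ∀ᶠ t in 𝓝[>] (0 : ℝ), ∀ i, |P t i| ≤ 1 := by
  have key : ∀ i, ∀ᶠ t in 𝓝[>] (0 : ℝ), |P t i| ≤ 1 := by
    intro i
    have hc : ContinuousAt (fun t => P t i) 0 := (h.1 i).continuousAt
    have h0 : P 0 i = 0 := by rw [h.2]; rfl
    have ht : Tendsto (fun t => |P t i|) (𝓝 0) (𝓝 0) := by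
      have := (continuous_abs.continuousAt).comp hc
      have h2 : Tendsto (fun t => |P t i|) (𝓝 0) (𝓝 (|P 0 i|)) := this
      rwa [h0, abs_zero] at h2
    have : ∀ᶠ t in 𝓝 (0 : ℝ), |P t i| < 1 := ht.eventually (gt_mem_nhds one_pos)
    exact (this.filter_mono nhdsWithin_le_nhds).mono (fun t ht => ht.le)
  exact eventually_all.2 key

/-- closeness of the values of polynomials -/
theorem close (hL : S_LIP) {f : Poly} {P P' : ℝ → Pt} (hP : Arc P) (hP' : Arc P')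
    (h : ∀ ε > 0, ∀ᶠ t in 𝓝[>] (0 : ℝ), ∀ i, |P' t i - P t i| ≤ ε * ev (P t) f)
    (g : Poly) (ε : ℝ) (hε : 0 < ε) :
    ∀ᶠ t in 𝓝[>] (0 : ℝ), |ev (P' t) g - ev (P t) g| ≤ ε * ev (P t) f := by
  obtain ⟨K, hK, hLip⟩ := hL g
  filter_upwards [arc_small hP, arc_small hP', h (ε / K) (by positivity)] with t h1 h2 h3
  have := hLip (P' t) (P t) (ε / K * ev (P t) f) h2 h1 h3
  calc |ev (P' t) g - ev (P t) g| ≤ K * (ε / K * ev (P t) f) := this
    _ = ε * ev (P t) f := by field_simp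

theorem pos' (hL : S_LIP) {f : Poly} {P P' : ℝ → Pt} (hP : Arc P) (hP' : Arc P')
    (hf : ∀ᶠ t in 𝓝[>] (0 : ℝ), 0 < ev (P t) f)
    (h : ∀ ε > 0, ∀ᶠ t in 𝓝[>] (0 : ℝ), ∀ i, |P' t i - P t i| ≤ ε * ev (P t) f) :
    ∀ᶠ t in 𝓝[>] (0 : ℝ), 0 < ev (P' t) f := by
  filter_upwards [hf, close hL hP hP' h f (1 / 2) (by norm_num)] with t h1 h2
  have := (abs_le.1 h2).1
  linarith

theorem ns1 (hL : S_LIP) {f : Poly} {P Q P' Q' : ℝ → Pt} (hP : Arc P) (hQ : Arc Q)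
    (hP' : Arc P') (hQ' : Arc Q')
    (fP : ∀ᶠ t in 𝓝[>] (0 : ℝ), 0 < ev (P t) f) (fQ : ∀ᶠ t in 𝓝[>] (0 : ℝ), 0 < ev (Q t) f)
    (h : NS1 f P Q)
    (h1 : ∀ ε > 0, ∀ᶠ t in 𝓝[>] (0 : ℝ), ∀ i, |P' t i - P t i| ≤ ε * ev (P t) f)
    (h2 : ∀ ε > 0, ∀ᶠ t in 𝓝[>] (0 : ℝ), ∀ i, |Q' t i - Q t i| ≤ ε * ev (Q t) f) :
    NS1 f P' Q' := by
  intro g c c' hcc hg
  set c1 : ℝ := (2 * c + c') / 3 with hc1
  set c2 : ℝ := (c + 2 * c') / 3 with hc2
  have h12 : c1 < c2 := by rw [hc1, hc2]; linarith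
  have e1 : 0 < (c' - c2) / (|c'| + 1) := by
    apply div_pos
    · rw [hc2]; linarith
    · positivity
  have e2 : 0 < (c1 - c) / (|c| + 1) := by
    apply div_pos
    · rw [hc1]; linarith
    · positivity
  have A : ∀ᶠ t in 𝓝[>] (0 : ℝ), c2 * ev (P t) f ≤ ev (P t) g := by
    filter_upwards [hg, fP, close hL hP hP' h1 f _ e1, close hL hP hP' h1 g _ e1] with t hg' hf' k1 k2
    set a := ev (P t) f
    set a' := ev (P' t) f
    set b := ev (P t) g
    set b' := ev (P' t) g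
    set e := (c' - c2) / (|c'| + 1) with he
    have k1' : |c' * (a' - a)| ≤ |c'| * (e * a) := by
      rw [abs_mul]; exact mul_le_mul_of_nonneg_left k1 (abs_nonneg _)
    have hk1 := (abs_le.1 k1').1
    have hk2 := (abs_le.1 k2).2
    have hee : e * (|c'| + 1) = c' - c2 := by
      rw [he]; field_simp
    have : c2 * a = c' * a - e * (|c'| + 1) * a := by rw [hee]; ring
    nlinarith
  have B := h g c1 c2 h12 A
  filter_upwards [B, fQ, close hL hQ hQ' h2 f _ e2, close hL hQ hQ' h2 g _ e2] with t hB hf' k1 k2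
  set a := ev (Q t) f
  set a' := ev (Q' t) f
  set b := ev (Q t) g
  set b' := ev (Q' t) g
  set e := (c1 - c) / (|c| + 1) with he
  have k1' : |c * (a' - a)| ≤ |c| * (e * a) := by
    rw [abs_mul]; exact mul_le_mul_of_nonneg_left k1 (abs_nonneg _)
  have hk1 := (abs_le.1 k1').2
  have hk2 := (abs_le.1 k2).1
  have hee : e * (|c| + 1) = c1 - c := by
    rw [he]; field_simp
  have : c * a = c1 * a - e * (|c| + 1) * a := by rw [hee]; ring
  nlinarith

theorem seg (hL : S_LIP) {f : Poly} {P P' : ℝ → Pt} (hP : Arc P) (hP' : Arc P')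
    (hf : ∀ᶠ t in 𝓝[>] (0 : ℝ), 0 < ev (P t) f)
    (h : ∀ ε > 0, ∀ᶠ t in 𝓝[>] (0 : ℝ), ∀ i, |P' t i - P t i| ≤ ε * ev (P t) f) :
    ∀ᶠ t in 𝓝[>] (0 : ℝ), JoinedIn (Pos f) (P t) (P' t) := by
  obtain ⟨K, hK, hLip⟩ := hL f
  filter_upwards [arc_small hP, arc_small hP', h (1 / (2 * K)) (by positivity), hf] with t h1 h2 h3 h4
  apply JoinedIn.of_segment_subset
  intro z hz
  obtain ⟨a, b, ha, hb, hab, rfl⟩ := hz
  have hz1 : ∀ i, |(a • P t + b • P' t) i| ≤ 1 := by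
    intro i
    have e1 : (a • P t + b • P' t) i = a * P t i + b * P' t i := by simp
    rw [e1]
    calc |a * P t i + b * P' t i| ≤ |a * P t i| + |b * P' t i| := abs_add_le _ _
      _ = a * |P t i| + b * |P' t i| := by rw [abs_mul, abs_mul, abs_of_nonneg ha, abs_of_nonneg hb]
      _ ≤ a * 1 + b * 1 := by
        gcongr
        · exact h1 i
        · exact h2 i
      _ = 1 := by linarith
  have hz2 : ∀ i, |(a • P t + b • P' t) i - P t i| ≤ 1 / (2 * K) * ev (P t) f := by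
    intro i
    have e1 : (a • P t + b • P' t) i - P t i = b * (P' t i - P t i) := by
      simp only [Pi.add_apply, Pi.smul_apply, smul_eq_mul]
      have : a = 1 - b := by linarith
      rw [this]; ring
    rw [e1, abs_mul, abs_of_nonneg hb]
    calc b * |P' t i - P t i| ≤ 1 * |P' t i - P t i| := by
          gcongr; linarith
      _ = |P' t i - P t i| := one_mul _
      _ ≤ _ := h3 i
  have := hLip (a • P t + b • P' t) (P t) (1 / (2 * K) * ev (P t) f) hz1 h1 hz2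
  have h5 : K * (1 / (2 * K) * ev (P t) f) = ev (P t) f / 2 := by field_simp
  rw [h5] at this
  have h6 := (abs_le.1 this).1
  show 0 < ev (a • P t + b • P' t) f
  linarith

end CongAux

open CongAux in
theorem t_CONG : S_CONG := by
  intro hL f P Q P' Q' hNS hP' hQ' h1 h2
  have fP' := pos' hL hNS.hP hP' hNS.fP h1
  have fQ' := pos' hL hNS.hQ hQ' hNS.fQ h2
  refine ⟨⟨hP', hQ', hNS.f0, fP', fQ', ?_, ?_⟩, ?_⟩
  · exact ns1 hL hNS.hP hNS.hQ hP' hQ' hNS.fP hNS.fQ hNS.pq h1 h2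
  · exact ns1 hL hNS.hQ hNS.hP hQ' hP' hNS.fQ hNS.fP hNS.qp h2 h1
  · intro hJ ε hε
    have s1 := seg hL hNS.hP hP' hNS.fP h1
    have s2 := seg hL hNS.hQ hQ' hNS.fQ h2
    rw [eventually_nhdsWithin_iff, Metric.eventually_nhds_iff] at s1 s2
    obtain ⟨d1, hd1, k1⟩ := s1
    obtain ⟨d2, hd2, k2⟩ := s2
    obtain ⟨s, hs, t, ht, hj⟩ := hJ (min ε (min d1 d2)) (lt_min hε (lt_min hd1 hd2))
    refine ⟨s, ⟨hs.1, lt_of_lt_of_le hs.2 (min_le_left _ _)⟩, t,
      ⟨ht.1, lt_of_lt_of_le ht.2 (min_le_left _ _)⟩, ?_⟩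
    have a1 : JoinedIn (Pos f) (P s) (P' s) := by
      apply k1 _ hs.1
      rw [Real.dist_eq, sub_zero, abs_of_pos hs.1]
      exact lt_of_lt_of_le hs.2 ((min_le_right _ _).trans (min_le_left _ _))
    have a2 : JoinedIn (Pos f) (Q t) (Q' t) := by
      apply k2 _ ht.1
      rw [Real.dist_eq, sub_zero, abs_of_pos ht.1]
      exact lt_of_lt_of_le ht.2 ((min_le_right _ _).trans (min_le_right _ _))
    exact (a1.trans hj).trans a2.symm

end Pool.Agent.H734R2.SP
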