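import Pool.Agent.H734R2.SP.Stubs5

set_option autoImplicit false

/-! Convexity in the third variable (adapted from CONC by helper269). -/

namespace Pool.Agent.H734R2.SP

open MvPolynomial Filter Topology

theorem CONV_vec (x y r : ℝ) : (![x, y, 0] : Pt) + r • (Pi.single 2 1 : Pt) = ![x, y, r] := by
  funext j
  fin_cases j <;> simp

theorem CONV_deriv (hl : S_LIN) (f : Poly) (x y z : ℝ) :
    HasDerivAt (fun r : ℝ => ev ![x, y, r] f) (ev ![x, y, z] (pderiv 2 f)) z := by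
  have h := hl f ![x, y, 0] (Pi.single 2 1) z
  simp only [CONV_vec] at h
  have e : (∑ j, (Pi.single 2 1 : Pt) j * ev ![x, y, z] (pderiv j f)) = ev ![x, y, z] (pderiv 2 f) := by
    rw [Finset.sum_eq_single (2 : Fin 3)]
    · simp
    · intro j _ hj
      rw [Pi.single_eq_of_ne hj, zero_mul]
    · intro h2
      exact absurd (Finset.mem_univ _) h2
  rw [e] at h
  exact h

theorem CONV_convex (hl : S_LIN) (f : Poly) (x y ρ : ℝ)
    (hpos : ∀ z : ℝ, |z| ≤ ρ → 0 ≤ ev ![x, y, z] (pderiv 2 (pderiv 2 f))) :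
    ConvexOn ℝ (Set.Icc (-ρ) ρ) (fun r : ℝ => ev ![x, y, r] f) := by
  have hd1 : deriv (fun r : ℝ => ev ![x, y, r] f) = fun r : ℝ => ev ![x, y, r] (pderiv 2 f) :=
    funext fun z => (CONV_deriv hl f x y z).deriv
  have hd2 : deriv (fun r : ℝ => ev ![x, y, r] (pderiv 2 f)) =
      fun r : ℝ => ev ![x, y, r] (pderiv 2 (pderiv 2 f)) :=
    funext fun z => (CONV_deriv hl (pderiv 2 f) x y z).deriv
  refine convexOn_of_deriv2_nonneg' (convex_Icc _ _) ?_ ?_ ?_
  · intro z _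
    exact (CONV_deriv hl f x y z).differentiableAt.differentiableWithinAt
  · rw [hd1]
    intro z _
    exact (CONV_deriv hl (pderiv 2 f) x y z).differentiableAt.differentiableWithinAt
  · intro z hz
    have e : deriv^[2] (fun r : ℝ => ev ![x, y, r] f) z = ev ![x, y, z] (pderiv 2 (pderiv 2 f)) := by
      show deriv (deriv (fun r : ℝ => ev ![x, y, r] f)) z = _
      rw [hd1, hd2]
    rw [e]
    exact hpos z (abs_le.2 hz)

theorem CONV_tangent (hl : S_LIN) (f : Poly) (x y ρ : ℝ)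
    (hc : ConvexOn ℝ (Set.Icc (-ρ) ρ) (fun r : ℝ => ev ![x, y, r] f)) (z z' : ℝ) (hz : |z| ≤ ρ)
    (hz' : |z'| ≤ ρ) :
    ev ![x, y, z] f + (z' - z) * ev ![x, y, z] (pderiv 2 f) ≤ ev ![x, y, z'] f := by
  have hm : z ∈ Set.Icc (-ρ) ρ := abs_le.1 hz
  have hm' : z' ∈ Set.Icc (-ρ) ρ := abs_le.1 hz'
  have hd := CONV_deriv hl f x y z
  rcases lt_trichotomy z z' with h | h | h
  · have h1 := hc.le_slope_of_hasDerivAt hm hm' h hd
    rw [slope_def_field, le_div_iff₀ (by linarith)] at h1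
    linarith
  · rw [h]
    linarith
  · have h1 := hc.slope_le_of_hasDerivAt hm' hm h hd
    rw [slope_def_field, div_le_iff₀ (by linarith)] at h1
    linarith

theorem t_CONV (hl : S_LIN) : S_CONV := by
  intro f hf
  rw [Metric.eventually_nhds_iff] at hf
  obtain ⟨δ, hδ, hf⟩ := hf
  have hρ0 : 0 < min (δ / 2) (1 / 2) := lt_min (by linarith) (by norm_num)
  refine ⟨min (δ / 2) (1 / 2), hρ0, min_le_right _ _, ?_⟩
  set ρ : ℝ := min (δ / 2) (1 / 2) with hρ
  intro x y z z' hx hy hz hz'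
  have hρ1 : ρ ≤ δ / 2 := min_le_left _ _
  have hpos : ∀ z : ℝ, |z| ≤ ρ → 0 ≤ ev ![x, y, z] (pderiv 2 (pderiv 2 f)) := by
    intro z hz
    apply hf
    rw [dist_pi_lt_iff hδ]
    intro i
    rw [Real.dist_eq, Pi.zero_apply, sub_zero]
    fin_cases i
    · exact lt_of_le_of_lt hx (by linarith)
    · exact lt_of_le_of_lt hy (by linarith)
    · exact lt_of_le_of_lt hz (by linarith)
  exact CONV_tangent hl f x y ρ (CONV_convex hl f x y ρ hpos) z z' hz hz'

end Pool.Agent.H734R2.SP
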