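import Pool.Agent.H734R2.SP.Stubs

set_option autoImplicit false

namespace Pool.Agent.H734R2.SP

open MvPolynomial Filter Topology

namespace COOR

/-- forget the third coordinate -/
def flat (P : ℝ → Pt) : ℝ → Pt := fun t => ![P t 0, P t 1, 0]

theorem flat_arc {P : ℝ → Pt} (h : Arc P) : Arc (flat P) := by
  refine ⟨?_, ?_⟩
  · intro i
    fin_cases i
    · exact h.1 0
    · exact h.1 1
    · exact analyticAt_const
  · funext i
    have h0 : P 0 = 0 := h.2
    fin_cases i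
    · simp [flat, h0]
    · simp [flat, h0]
    · simp [flat]

theorem flat_close {f : Poly} {P : ℝ → Pt}
    (fP : ∀ᶠ t in 𝓝[>] (0 : ℝ), 0 < ev (P t) f)
    (h2 : ∀ ε > 0, ∀ᶠ t in 𝓝[>] (0 : ℝ), |P t 2| ≤ ε * ev (P t) f) :
    ∀ ε > 0, ∀ᶠ t in 𝓝[>] (0 : ℝ), ∀ i, |flat P t i - P t i| ≤ ε * ev (P t) f := by
  intro ε hε
  filter_upwards [fP, h2 ε hε] with t ht h2t i
  have hpos : 0 ≤ ε * ev (P t) f := (mul_pos hε ht).le
  fin_cases i
  · simpa [flat] using hpos
  · simpa [flat] using hpos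
  · simpa [flat] using h2t

end COOR

open COOR in
theorem t_COOR (hSEG : S_SEG) : S_COOR := by
  intro hTRI hEVA hDICH hLIP hCONG hAUT hPLANE hORD f P Q h hP2
  have hQ2 : ∀ ε > 0, ∀ᶠ t in 𝓝[>] (0 : ℝ), |Q t 2| ≤ ε * ev (Q t) f := by
    intro ε hε
    rcases hDICH hTRI hEVA f P Q h (X 2) with h1 | ⟨c, hc, h1, -⟩ | ⟨c, hc, h1, -⟩
    · have h3 := (h1 ε hε).2
      simpa using h3
    · exfalso
      obtain ⟨t, ⟨a, b⟩, d⟩ := ((h1.and (hP2 (c / 2) (by positivity))).and h.fP).exists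
      simp only [ev, eval_X] at a
      have h5 := le_abs_self (P t 2)
      have h6 : 0 < c * ev (P t) f := mul_pos hc d
      simp only [ev] at b h6
      linarith
    · exfalso
      obtain ⟨t, ⟨a, b⟩, d⟩ := ((h1.and (hP2 (c / 2) (by positivity))).and h.fP).exists
      simp only [ev, eval_X] at a
      have h5 := neg_le_abs (P t 2)
      have h6 : 0 < c * ev (P t) f := mul_pos hc d
      simp only [ev] at b h6
      linarith
  obtain ⟨hNS, hJ⟩ := hCONG hLIP f P Q (flat P) (flat Q) h (flat_arc h.hP) (flat_arc h.hQ)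
    (flat_close h.fP hP2) (flat_close h.fQ hQ2)
  apply hJ
  rcases hORD.1 (fun t => P t 1) (fun t => P t 0) (h.hP.1 1) (h.hP.1 0) with ⟨C, hC⟩ | ⟨C, hC⟩
  · exact hPLANE hTRI hEVA hDICH hSEG hLIP f (flat P) (flat Q) hNS (fun t => rfl) (fun t => rfl)
      ⟨C, hC⟩
  · obtain ⟨k1, k2⟩ := hAUT hEVA (fun i => X (Equiv.swap 0 1 i)) (fun i => X (Equiv.swap 0 1 i))
      (by
        intro x
        funext i
        simp only [ev, eval_X, Equiv.swap_apply_self])
      (by intro i; simp [ev]) f (flat P) (flat Q) hNS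
    apply k2
    have e20 : (Equiv.swap (0 : Fin 3) 1) 2 = 2 := by decide
    have e10 : (Equiv.swap (0 : Fin 3) 1) 1 = 0 := by decide
    have e00 : (Equiv.swap (0 : Fin 3) 1) 0 = 1 := by decide
    refine hPLANE hTRI hEVA hDICH hSEG hLIP _ _ _ k1 ?_ ?_ ⟨C, ?_⟩
    · intro t
      simp only [ev, eval_X, e20]
      rfl
    · intro t
      simp only [ev, eval_X, e20]
      rfl
    · filter_upwards [hC] with t ht
      simp only [ev, eval_X, e10, e00]
      exact ht

end Pool.Agent.H734R2.SP
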