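import Pool.Agent.H734R2.SP.Stubs2

set_option autoImplicit false

namespace Pool.Agent.H734R2.SP

open MvPolynomial Filter Topology

theorem coore_ev_bind (A B : Fin 3 → Poly) (p : Pt)
    (h : (fun i => ev (fun j => ev p (B j)) (A i)) = p) (f : Poly) :
    ev (fun i => ev p (B i)) (bind₁ A f) = ev p f := by
  have h1 : ev (fun i => ev p (B i)) (bind₁ A f)
      = ev (fun i => ev (fun j => ev p (B j)) (A i)) f := by
    show MvPolynomial.eval _ (bind₁ A f) = MvPolynomial.eval _ f
    rw [← MvPolynomial.coe_aeval_eq_eval, ← MvPolynomial.coe_aeval_eq_eval]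
    show MvPolynomial.aeval _ (bind₁ A f) = MvPolynomial.aeval _ f
    rw [MvPolynomial.aeval_bind₁]
    rfl
  rw [h1, h]

theorem t_COORE : S_COORE := by
  intro hAUT hEVA h3 f P Q hNS e hsmall
  set A : Fin 3 → Poly := fun i => X (Equiv.swap e 2 i) with hA
  have hcomp : ∀ x : Pt, (fun i => ev (fun j => ev x (A j)) (A i)) = x := by
    intro x
    funext i
    simp only [hA, ev, MvPolynomial.eval_X, Equiv.swap_apply_self]
  have h0 : ∀ i, ev 0 (A i) = 0 := by
    intro i
    simp only [hA, ev, MvPolynomial.eval_X, Pi.zero_apply]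
  obtain ⟨hNS', hJ⟩ := hAUT hEVA A A hcomp h0 f P Q hNS
  apply hJ
  refine h3 _ _ _ hNS' ?_
  intro ε hε
  filter_upwards [hsmall ε hε] with t ht
  rw [coore_ev_bind A A (P t) (hcomp (P t)) f]
  have : ev (P t) (A 2) = P t e := by
    simp only [hA, ev, MvPolynomial.eval_X, Equiv.swap_apply_right]
  rw [this]
  exact ht

end Pool.Agent.H734R2.SP
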