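import Pool.Agent.H734R2.SP.Stubs5

set_option autoImplicit false

/-! CVX (helper497, second attempt). -/

namespace Pool.Agent.H734R2.SP

open MvPolynomial Filter Topology

theorem CVX_lim {P : ℝ → Pt} (hP : Arc P) (κ : ℝ) :
    Tendsto (fun t => (![P t 0, P t 1, κ] : Pt)) (𝓝[>] (0 : ℝ)) (𝓝 ![0, 0, κ]) := by
  have h0 : P 0 0 = 0 := by rw [hP.2]; rfl
  have h1 : P 0 1 = 0 := by rw [hP.2]; rfl
  rw [tendsto_pi_nhds]
  intro i
  fin_cases i
  · have := (hP.1 0).continuousAt.tendsto.mono_left (nhdsWithin_le_nhds (s := Set.Ioi (0 : ℝ)))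
    rw [h0] at this
    exact this
  · have := (hP.1 1).continuousAt.tendsto.mono_left (nhdsWithin_le_nhds (s := Set.Ioi (0 : ℝ)))
    rw [h1] at this
    exact this
  · exact tendsto_const_nhds

theorem t_CVX (L : Lib) (hc : S_CONV) (hm : S_CMOV) (hk : S_PLK) : S_CVX := by
  intro f P Q hNS hzz
  obtain ⟨ρ, hρ, hρ2, hT⟩ := hc f hzz
  obtain ⟨σ, hσ, hPz, hQz⟩ : ∃ σ : ℝ, (σ = 1 ∨ σ = -1) ∧
      (∀ᶠ t in 𝓝[>] (0 : ℝ), - (1 / 2) * ev (P t) f ≤ σ * ev (P t) (pderiv 2 f)) ∧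
      (∀ᶠ t in 𝓝[>] (0 : ℝ), - (1 / 2) * ev (Q t) f ≤ σ * ev (Q t) (pderiv 2 f)) := by
    rcases L.dich f P Q hNS (pderiv 2 f) with h | ⟨c, hc, h1, h2⟩ | ⟨c, hc, h1, h2⟩
    · refine ⟨1, Or.inl rfl, ?_, ?_⟩
      · filter_upwards [(h (1 / 2) (by norm_num)).1] with t ht
        have := (abs_le.1 ht).1
        linarith
      · filter_upwards [(h (1 / 2) (by norm_num)).2] with t ht
        have := (abs_le.1 ht).1
        linarith
    · refine ⟨1, Or.inl rfl, ?_, ?_⟩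
      · filter_upwards [h1, hNS.fP] with t ht hf
        have := mul_pos hc hf
        linarith
      · filter_upwards [h2, hNS.fQ] with t ht hf
        have := mul_pos hc hf
        linarith
    · refine ⟨-1, Or.inr rfl, ?_, ?_⟩
      · filter_upwards [h1, hNS.fP] with t ht hf
        have := mul_pos hc hf
        linarith
      · filter_upwards [h2, hNS.fQ] with t ht hf
        have := mul_pos hc hf
        linarith
  obtain ⟨a1, a2⟩ := hm f P ρ σ hNS.hP hNS.fP hρ hρ2 hσ hT hPz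
  obtain ⟨b1, b2⟩ := hm f Q ρ σ hNS.hQ hNS.fQ hρ hρ2 hσ hT hQz
  have plane : Join f (fun t => ![P t 0, P t 1, σ * ρ]) (fun t => ![Q t 0, Q t 1, σ * ρ]) := by
    have lP := CVX_lim hNS.hP (σ * ρ)
    have lQ := CVX_lim hNS.hQ (σ * ρ)
    rcases lt_trichotomy (ev ![0, 0, σ * ρ] f) 0 with hv | hv | hv
    · exfalso
      have h1 : Tendsto (fun t => ev ![P t 0, P t 1, σ * ρ] f) (𝓝[>] (0 : ℝ))
          (𝓝 (ev ![0, 0, σ * ρ] f)) := ((MvPolynomial.continuous_eval f).tendsto _).comp lP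
      obtain ⟨t, t1, t2, t3⟩ := ((h1.eventually_lt_const hv).and (hNS.fP.and a1)).exists
      linarith
    · exact hk f P Q (σ * ρ) hNS hv a1 b1
    · have hop : IsOpen (Pos f) := isOpen_lt continuous_const (MvPolynomial.continuous_eval f)
      obtain ⟨r, hr, hsub⟩ := Metric.isOpen_iff.1 hop ![0, 0, σ * ρ] hv
      intro ε hε
      obtain ⟨s, s1, s2⟩ := ((lP.eventually (Metric.ball_mem_nhds _ hr)).and
        (Ioo_mem_nhdsGT hε)).exists
      obtain ⟨t, t1, t2⟩ := ((lQ.eventually (Metric.ball_mem_nhds _ hr)).and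
        (Ioo_mem_nhdsGT hε)).exists
      refine ⟨s, s2, t, t2, ?_⟩
      exact (((convex_ball _ r).isPathConnected ⟨_, Metric.mem_ball_self hr⟩).joinedIn _ s1 _
        t1).mono hsub
  intro ε hε
  obtain ⟨δ1, hδ1, H1⟩ := mem_nhdsGT_iff_exists_Ioo_subset.1 a2
  obtain ⟨δ2, hδ2, H2⟩ := mem_nhdsGT_iff_exists_Ioo_subset.1 b2
  have hδ1' : (0 : ℝ) < δ1 := hδ1
  have hδ2' : (0 : ℝ) < δ2 := hδ2
  obtain ⟨s, hs, t, ht, hjoin⟩ := plane (min ε (min δ1 δ2)) (lt_min hε (lt_min hδ1' hδ2'))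
  have hs1 : s < δ1 := hs.2.trans_le ((min_le_right _ _).trans (min_le_left _ _))
  have ht2 : t < δ2 := ht.2.trans_le ((min_le_right _ _).trans (min_le_right _ _))
  refine ⟨s, ⟨hs.1, hs.2.trans_le (min_le_left _ _)⟩, t, ⟨ht.1, ht.2.trans_le (min_le_left _ _)⟩,
    ?_⟩
  have c1 : JoinedIn (Pos f) (P s) ![P s 0, P s 1, σ * ρ] := H1 ⟨hs.1, hs1⟩
  have c2 : JoinedIn (Pos f) (Q t) ![Q t 0, Q t 1, σ * ρ] := H2 ⟨ht.1, ht2⟩
  exact c1.trans (hjoin.trans c2.symm)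

end Pool.Agent.H734R2.SP
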