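import Pool.Agent.H734R2.SP.Stubs3

set_option autoImplicit false

namespace Pool.Agent.H734R2.SP

open MvPolynomial Filter Topology

theorem DIAG_pd (f : Poly) (i : Fin 3) :
    pderiv 2 (rename (Equiv.swap i (2 : Fin 3)) f) =
      rename (Equiv.swap i (2 : Fin 3)) (pderiv i f) := by
  have h := pderiv_rename (Equiv.swap i (2 : Fin 3)).injective i f
  rw [Equiv.swap_apply_left] at h
  exact h

theorem DIAG_ev (g : Poly) (i : Fin 3) :
    ev 0 (rename (Equiv.swap i (2 : Fin 3)) g) = ev 0 g := by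
  show MvPolynomial.eval 0 (rename (Equiv.swap i (2 : Fin 3)) g) = MvPolynomial.eval 0 g
  rw [eval_rename]
  rfl

theorem t_DIAG (L : Lib) (hg : S_GRAD) (hp : S_HPOS) (hn : S_HNEG) : S_DIAG := by
  intro f P Q h hex
  obtain ⟨i, hi⟩ := hex
  by_cases hgr : ∃ j, ev 0 (pderiv j f) ≠ 0
  · exact hg f P Q h hgr
  push Not at hgr
  have hAA : ∀ x : Pt, (fun k => ev (fun j => ev x ((fun j : Fin 3 =>
      (X (Equiv.swap i (2 : Fin 3) j) : Poly)) j))
      ((fun j : Fin 3 => (X (Equiv.swap i (2 : Fin 3) j) : Poly)) k)) = x := by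
    intro x
    funext k
    simp
  have hA0 : ∀ k, ev 0 ((fun j : Fin 3 => (X (Equiv.swap i (2 : Fin 3) j) : Poly)) k) = 0 := by
    intro k
    simp
  obtain ⟨hNS, hJ⟩ := L.aut _ _ hAA hA0 f P Q h
  have hb : bind₁ (fun j : Fin 3 => (X (Equiv.swap i (2 : Fin 3) j) : Poly)) f =
      rename (Equiv.swap i (2 : Fin 3)) f := by
    have hh : (bind₁ (fun j : Fin 3 => (X (Equiv.swap i (2 : Fin 3) j) : Poly)) : Poly →ₐ[ℝ] Poly) =
        rename (Equiv.swap i (2 : Fin 3)) := by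
      apply MvPolynomial.algHom_ext
      intro j
      rw [bind₁_X_right, rename_X]
    rw [hh]
  apply hJ
  have h2 : ev 0 (pderiv 2 (pderiv 2
      (bind₁ (fun j : Fin 3 => (X (Equiv.swap i (2 : Fin 3) j) : Poly)) f))) =
      ev 0 (pderiv i (pderiv i f)) := by
    rw [hb, DIAG_pd, DIAG_pd, DIAG_ev]
  have h1 : ev 0 (pderiv 2
      (bind₁ (fun j : Fin 3 => (X (Equiv.swap i (2 : Fin 3) j) : Poly)) f)) = 0 := by
    rw [hb, DIAG_pd, DIAG_ev]
    exact hgr i
  rcases lt_or_gt_of_ne hi with hlt | hgt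
  · exact hn _ _ _ hNS h1 (by rw [h2]; exact hlt)
  · exact hp _ _ _ hNS (by rw [h2]; exact hgt)

end Pool.Agent.H734R2.SP
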