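import Pool.Agent.H734R2.SP.Stubs

set_option autoImplicit false

namespace Pool.Agent.H734R2.SP

open MvPolynomial Filter Topology

private theorem dich_half {f : Poly} {P Q : ℝ → Pt} (h : NS f P Q) (g : Poly) {e : ℝ} (he : 0 < e)
    (hg : ∀ᶠ t in 𝓝[>] (0 : ℝ), e * ev (P t) f ≤ ev (P t) g) :
    ∃ c > 0, (∀ᶠ t in 𝓝[>] (0 : ℝ), c * ev (P t) f ≤ ev (P t) g) ∧
      (∀ᶠ t in 𝓝[>] (0 : ℝ), c * ev (Q t) f ≤ ev (Q t) g) := by
  refine ⟨e / 2, by positivity, ?_, ?_⟩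
  · filter_upwards [hg, h.fP] with t h1 h2
    nlinarith
  · filter_upwards [h.pq g (e / 2) e (by linarith) hg] with t h1
    exact h1.le

private theorem dich_small (hT : S_TRI) (hE : S_EVA) {f : Poly} {P : ℝ → Pt} (hP : Arc P)
    (g : Poly) (hno : ¬ ∃ e > 0, ∀ᶠ t in 𝓝[>] (0 : ℝ), e * ev (P t) f ≤ ev (P t) g) :
    ∀ e > 0, ∀ᶠ t in 𝓝[>] (0 : ℝ), ev (P t) g ≤ e * ev (P t) f := by
  intro e he
  have key : ∀ t, ev (P t) (g - C e * f) = ev (P t) g - e * ev (P t) f := by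
    intro t; simp [ev]
  rcases hT _ (hE P hP (g - C e * f)) with h | h | h
  · exact absurd ⟨e, he, h.mono fun t ht => by rw [key t] at ht; linarith⟩ hno
  · exact absurd ⟨e, he, h.mono fun t ht => by rw [key t] at ht; linarith⟩ hno
  · exact h.mono fun t ht => by rw [key t] at ht; linarith

theorem t_DICH : S_DICH := by
  intro hT hE f P Q h g
  by_cases h1 : ∃ e > 0, ∀ᶠ t in 𝓝[>] (0 : ℝ), e * ev (P t) f ≤ ev (P t) g
  · obtain ⟨e, he, hg⟩ := h1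
    exact Or.inr (Or.inl (dich_half h g he hg))
  by_cases h2 : ∃ e > 0, ∀ᶠ t in 𝓝[>] (0 : ℝ), e * ev (Q t) f ≤ ev (Q t) g
  · obtain ⟨e, he, hg⟩ := h2
    obtain ⟨c, hc, h3, h4⟩ := dich_half h.symm g he hg
    exact Or.inr (Or.inl ⟨c, hc, h4, h3⟩)
  by_cases h3 : ∃ e > 0, ∀ᶠ t in 𝓝[>] (0 : ℝ), e * ev (P t) f ≤ ev (P t) (-g)
  · obtain ⟨e, he, hg⟩ := h3
    obtain ⟨c, hc, h3, h4⟩ := dich_half h (-g) he hg
    refine Or.inr (Or.inr ⟨c, hc, ?_, ?_⟩)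
    · simpa [ev] using h3
    · simpa [ev] using h4
  by_cases h4 : ∃ e > 0, ∀ᶠ t in 𝓝[>] (0 : ℝ), e * ev (Q t) f ≤ ev (Q t) (-g)
  · obtain ⟨e, he, hg⟩ := h4
    obtain ⟨c, hc, h3, h4⟩ := dich_half h.symm (-g) he hg
    refine Or.inr (Or.inr ⟨c, hc, ?_, ?_⟩)
    · simpa [ev] using h4
    · simpa [ev] using h3
  left
  intro e he
  have a1 := dich_small hT hE h.hP g h1 e he
  have a2 := dich_small hT hE h.hQ g h2 e he
  have a3 := dich_small hT hE h.hP (-g) h3 e he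
  have a4 := dich_small hT hE h.hQ (-g) h4 e he
  constructor
  · filter_upwards [a1, a3] with t b1 b2
    rw [abs_le]
    simp only [ev, map_neg] at b1 b2 ⊢
    constructor <;> linarith
  · filter_upwards [a2, a4] with t b1 b2
    rw [abs_le]
    simp only [ev, map_neg] at b1 b2 ⊢
    constructor <;> linarith

end Pool.Agent.H734R2.SP
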