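import Pool.Agent.H734R2.SP.Stubs

set_option autoImplicit false

/-! DIR: directional Taylor polynomials. -/

namespace Pool.Agent.H734R2.SP

open MvPolynomial

namespace DIR

/-- directional derivative -/
noncomputable def Dw (w : Pt) : Derivation ℝ Poly Poly := mkDerivation ℝ (fun i => C (w i))

/-- the line through `q` with direction `w` -/
noncomputable def ln (q w : Pt) (i : Fin 3) : Polynomial ℝ :=
  Polynomial.C (q i) + Polynomial.C (w i) * Polynomial.X

theorem deriv_ln (q w : Pt) (g : Poly) :
    Polynomial.derivative (aeval (ln q w) g) = aeval (ln q w) (Dw w g) := by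
  induction g using MvPolynomial.induction_on with
  | C a =>
    rw [← MvPolynomial.algebraMap_eq, Derivation.map_algebraMap, map_zero, AlgHom.commutes,
      Polynomial.algebraMap_apply, Algebra.algebraMap_self, RingHom.id_apply,
      Polynomial.derivative_C]
  | add p r hp hr => rw [map_add, map_add, hp, hr, map_add, map_add]
  | mul_X p n hp =>
    rw [map_mul, aeval_X, Polynomial.derivative_mul, hp, Derivation.leibniz, map_add, smul_eq_mul,
      smul_eq_mul, map_mul, map_mul, aeval_X]
    have h1 : Dw w (X n) = C (w n) := mkDerivation_X _ _ _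
    have h2 : Polynomial.derivative (ln q w n) = aeval (ln q w) (C (w n) : Poly) := by
      rw [← MvPolynomial.algebraMap_eq, AlgHom.commutes, Polynomial.algebraMap_apply,
        Algebra.algebraMap_self, RingHom.id_apply, ln]
      simp
    rw [h1, h2]
    ring

theorem iter_ln (q w : Pt) (f : Poly) (k : ℕ) :
    Polynomial.derivative^[k] (aeval (ln q w) f) = aeval (ln q w) ((Dw w)^[k] f) := by
  induction k with
  | zero => rfl
  | succ k ih => rw [Function.iterate_succ_apply', Function.iterate_succ_apply', ih, deriv_ln]

theorem eval_ln (q w : Pt) (g : Poly) (r : ℝ) :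
    (aeval (ln q w) g).eval r = ev (q + r • w) g := by
  induction g using MvPolynomial.induction_on with
  | C a =>
    rw [← MvPolynomial.algebraMap_eq, AlgHom.commutes, Polynomial.algebraMap_apply,
      Algebra.algebraMap_self, RingHom.id_apply, Polynomial.eval_C, MvPolynomial.algebraMap_eq, ev,
      eval_C]
  | add p r hp hr => rw [map_add, Polynomial.eval_add, hp, hr, ev, ev, ev, map_add]
  | mul_X p n hp =>
    rw [map_mul, aeval_X, Polynomial.eval_mul, hp, ev, ev, map_mul, eval_X, ln]
    simp
    ring_nf
    simp

end DIR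

theorem t_DIR : S_DIR := by
  intro f w
  have hev : ∀ (q : Pt) (k : ℕ) (r : ℝ),
      (Polynomial.derivative^[k] (aeval (DIR.ln q w) f)).eval r
        = ev (q + r • w) ((DIR.Dw w)^[k] f) := by
    intro q k r
    rw [DIR.iter_ln, DIR.eval_ln]
  refine ⟨fun k => (DIR.Dw w)^[k] f, rfl, ⟨f.totalDegree, ?_⟩, fun q => ⟨_, fun k r => hev q k r⟩⟩
  intro k hk
  apply MvPolynomial.funext
  intro q
  have h1 := hev q k 0
  rw [Polynomial.iterate_derivative_eq_zero] at h1
  · rw [zero_smul, add_zero, Polynomial.eval_zero] at h1
    rw [map_zero]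
    exact h1.symm
  · refine lt_of_le_of_lt ?_ hk
    have h2 := MvPolynomial.aeval_natDegree_le (m := f.totalDegree) (n := 1) f le_rfl (DIR.ln q w)
      (fun i => by
        unfold DIR.ln
        compute_degree)
    simpa using h2

end Pool.Agent.H734R2.SP
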