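import Mathlib

set_option autoImplicit false

/-!
Definitions for the project on separating polynomials along two arcs (MP_1a4606_ag).
-/

namespace Pool.Agent.H734R2.SP

open MvPolynomial Filter Topology

/-- points of real 3-space -/
abbrev Pt := Fin 3 → ℝ

/-- real polynomials in three variables -/
abbrev Poly := MvPolynomial (Fin 3) ℝ

/-- the value of a polynomial at a point -/
noncomputable abbrev ev (x : Pt) (g : Poly) : ℝ := MvPolynomial.eval x g

/-- real-analytic arcs through the origin -/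
def Arc (P : ℝ → Pt) : Prop :=
  (∀ i, AnalyticAt ℝ (fun t => P t i) 0) ∧ P 0 = 0

/-- the open set `f > 0` -/
def Pos (f : Poly) : Set Pt := {x | 0 < ev x f}

/-- one half of: no polynomial separates the arcs `P`, `Q` at the level of `f` -/
def NS1 (f : Poly) (P Q : ℝ → Pt) : Prop :=
  ∀ (g : Poly) (c c' : ℝ), c < c' →
    (∀ᶠ t in 𝓝[>] (0 : ℝ), c' * ev (P t) f ≤ ev (P t) g) →
      ∀ᶠ t in 𝓝[>] (0 : ℝ), c * ev (Q t) f < ev (Q t) g

/-- the situation of two arcs in `f > 0` that no polynomial separates -/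
structure NS (f : Poly) (P Q : ℝ → Pt) : Prop where
  hP : Arc P
  hQ : Arc Q
  f0 : ev 0 f = 0
  fP : ∀ᶠ t in 𝓝[>] (0 : ℝ), 0 < ev (P t) f
  fQ : ∀ᶠ t in 𝓝[>] (0 : ℝ), 0 < ev (Q t) f
  pq : NS1 f P Q
  qp : NS1 f Q P

/-- arbitrarily close to the origin the arcs can be joined inside `f > 0` -/
def Join (f : Poly) (P Q : ℝ → Pt) : Prop :=
  ∀ ε > 0, ∃ s ∈ Set.Ioo (0 : ℝ) ε, ∃ t ∈ Set.Ioo (0 : ℝ) ε, JoinedIn (Pos f) (P s) (Q t)

theorem NS.symm {f : Poly} {P Q : ℝ → Pt} (h : NS f P Q) : NS f Q P :=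
  ⟨h.hQ, h.hP, h.f0, h.fQ, h.fP, h.qp, h.pq⟩

theorem Join.symm {f : Poly} {P Q : ℝ → Pt} (h : Join f P Q) : Join f Q P := by
  intro ε hε
  obtain ⟨s, hs, t, ht, hj⟩ := h ε hε
  exact ⟨t, ht, s, hs, hj.symm⟩

end Pool.Agent.H734R2.SP
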