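import Pool.Agent.H734R2.SP.Stubs

set_option autoImplicit false

namespace Pool.Agent.H734R2.SP

open MvPolynomial Filter Topology

theorem t_EVA : S_EVA := by
  intro P hP g
  induction g using MvPolynomial.induction_on with
  | C a =>
    have e : (fun t => ev (P t) (C a)) = fun _ => a := by
      funext t
      simp [ev]
    rw [e]
    exact analyticAt_const
  | add p q hp hq =>
    have e : (fun t => ev (P t) (p + q)) = fun t => ev (P t) p + ev (P t) q := by
      funext t
      simp [ev]
    rw [e]
    exact hp.add hq
  | mul_X p i hp =>
    have e : (fun t => ev (P t) (p * X i)) = fun t => ev (P t) p * P t i := by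
      funext t
      simp [ev]
    rw [e]
    exact hp.mul (hP.1 i)

end Pool.Agent.H734R2.SP
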