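import Pool.Agent.H734R2.SP.Stubs2

set_option autoImplicit false

namespace Pool.Agent.H734R2.SP

open MvPolynomial Filter Topology

namespace EXPaux

lemma neg_mono (P : ℝ → Pt) (g : Poly) (d k : ℕ) (hkd : k ≤ d) (h : Neg P d g) : Neg P k g := by
  unfold Neg at *
  have h1 : Tendsto (fun t : ℝ => t ^ (d - k)) (𝓝[>] (0 : ℝ)) (𝓝 ((0 : ℝ) ^ (d - k))) :=
    ((continuous_pow (d - k)).tendsto 0).mono_left nhdsWithin_le_nhds
  have h2 := h.mul h1
  rw [zero_mul] at h2
  refine h2.congr' ?_
  filter_upwards [self_mem_nhdsWithin] with t ht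
  have ht0 : (t : ℝ) ≠ 0 := ne_of_gt ht
  have : t ^ d = t ^ k * t ^ (d - k) := by rw [← pow_add]; congr 1; omega
  rw [this]
  field_simp

lemma tendsto_mon (P : ℝ → Pt) (w : Fin 3 → ℕ)
    (hl : ∀ i, Tendsto (fun t => P t i / t ^ w i) (𝓝[>] (0 : ℝ)) (𝓝 1)) (m : Ex) :
    Tendsto (fun t => mon m (P t) / t ^ wt w m) (𝓝[>] (0 : ℝ)) (𝓝 1) := by
  have h1 : Tendsto (fun t => ∏ i, (P t i / t ^ w i) ^ m i) (𝓝[>] (0 : ℝ))
      (𝓝 (∏ i : Fin 3, (1 : ℝ) ^ m i)) :=
    tendsto_finsetProd _ fun i _ => (hl i).pow (m i)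
  simp only [one_pow, Finset.prod_const_one] at h1
  refine h1.congr' ?_
  filter_upwards with t
  simp only [div_pow, Finset.prod_div_distrib, mon, wt, ← pow_mul]
  rw [Finset.prod_pow_eq_pow_sum]

end EXPaux

open EXPaux

theorem t_EXP : S_EXP := by
  intro hEVA P w k hP hw hl hVG
  suffices H : ∀ (n : ℕ) (g : Poly) (d : ℕ), k - d ≤ n → Neg P d g →
      ∃ h : Poly, (∀ m ∈ h.support, d < wt w m) ∧ Neg P k (g - h) by
    intro g d hg
    exact H (k - d) g d le_rfl hg
  intro n
  induction n with
  | zero =>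
    intro g d hd hg
    refine ⟨0, by simp, ?_⟩
    rw [sub_zero]
    exact neg_mono P g d k (by omega) hg
  | succ n ih =>
    intro g d hd hg
    have han := hEVA P hP g
    by_cases hz : ∀ᶠ t in 𝓝 (0 : ℝ), ev (P t) g = 0
    · refine ⟨0, by simp, ?_⟩
      rw [sub_zero]
      unfold Neg
      refine tendsto_const_nhds.congr' ?_
      filter_upwards [nhdsWithin_le_nhds hz] with t ht
      rw [ht, zero_div]
    · obtain ⟨N, G, hG, hG0, hfG⟩ := han.exists_eventuallyEq_pow_smul_nonzero_iff.2 hz
      simp only [sub_zero, smul_eq_mul] at hfG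
      have hlimN : Tendsto (fun t => ev (P t) g / t ^ N) (𝓝[>] (0 : ℝ)) (𝓝 (G 0)) := by
        have h1 : Tendsto G (𝓝[>] (0 : ℝ)) (𝓝 (G 0)) :=
          hG.continuousAt.tendsto.mono_left nhdsWithin_le_nhds
        refine h1.congr' ?_
        filter_upwards [nhdsWithin_le_nhds hfG, self_mem_nhdsWithin] with t ht ht0
        have ht1 : (t : ℝ) ≠ 0 := ne_of_gt ht0
        rw [ht]
        field_simp
      have hdN : d < N := by
        by_contra hcon
        have h1 : Neg P N g := neg_mono P g d N (by omega) hg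
        exact hG0 (tendsto_nhds_unique hlimN h1)
      by_cases hNk : N ≤ k
      · obtain ⟨m, hm⟩ := hVG g N (G 0) hNk hG0 hlimN
        have hneg : Neg P N (g - monomial m (G 0)) := by
          unfold Neg
          have h1 := hlimN.sub ((tendsto_mon P w hl m).const_mul (G 0))
          rw [mul_one, sub_self] at h1
          refine h1.congr' ?_
          filter_upwards with t
          simp only [map_sub, eval_monomial]
          rw [hm, sub_div, mul_div_assoc]
          congr 3
          rw [mon, Finsupp.prod_fintype]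
          intro i
          simp
        obtain ⟨h', hh1, hh2⟩ := ih (g - monomial m (G 0)) N (by omega) hneg
        refine ⟨monomial m (G 0) + h', ?_, ?_⟩
        · intro m' hm'
          rcases Finset.mem_union.1 (MvPolynomial.support_add hm') with h3 | h3
          · have := MvPolynomial.support_monomial_subset h3
            rw [Finset.mem_singleton] at this
            rw [this, hm]
            exact hdN
          · exact hdN.trans (hh1 m' h3)
        · rw [← sub_sub]
          exact hh2
      · refine ⟨0, by simp, ?_⟩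
        rw [sub_zero]
        -- u / t^k = t^(N-k) * (u / t^N)
        have h1 : Tendsto (fun t : ℝ => t ^ (N - k)) (𝓝[>] (0 : ℝ)) (𝓝 ((0 : ℝ) ^ (N - k))) :=
          ((continuous_pow (N - k)).tendsto 0).mono_left nhdsWithin_le_nhds
        have h2 := hlimN.mul h1
        rw [zero_pow (by omega), mul_zero] at h2
        unfold Neg
        refine h2.congr' ?_
        filter_upwards [self_mem_nhdsWithin] with t ht
        have ht0 : (t : ℝ) ≠ 0 := ne_of_gt ht
        have : t ^ N = t ^ k * t ^ (N - k) := by rw [← pow_add]; congr 1; omega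
        rw [this]
        field_simp

end Pool.Agent.H734R2.SP
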