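import Pool.Agent.H734R2.SP.Stubs6
import Pool.Agent.H734R2.SP.CVX

set_option autoImplicit false

/-! GEN (adapted from CVX, helpers 415 and 497). -/

namespace Pool.Agent.H734R2.SP

open MvPolynomial Filter Topology

theorem t_GEN (_L : Lib) (hk : S_PLK) : S_GEN := by
  intro f P Q κ hNS a1 b1 a2 b2
  have plane : Join f (fun t => ![P t 0, P t 1, κ]) (fun t => ![Q t 0, Q t 1, κ]) := by
    have lP := CVX_lim hNS.hP κ
    have lQ := CVX_lim hNS.hQ κ
    rcases lt_trichotomy (ev ![0, 0, κ] f) 0 with hv | hv | hv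
    · exfalso
      have h1 : Tendsto (fun t => ev ![P t 0, P t 1, κ] f) (𝓝[>] (0 : ℝ))
          (𝓝 (ev ![0, 0, κ] f)) := ((MvPolynomial.continuous_eval f).tendsto _).comp lP
      obtain ⟨t, t1, t2, t3⟩ := ((h1.eventually_lt_const hv).and (hNS.fP.and a1)).exists
      linarith
    · exact hk f P Q κ hNS hv a1 b1
    · have hop : IsOpen (Pos f) := isOpen_lt continuous_const (MvPolynomial.continuous_eval f)
      obtain ⟨r, hr, hsub⟩ := Metric.isOpen_iff.1 hop ![0, 0, κ] hv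
      intro ε hε
      obtain ⟨s, s1, s2⟩ := ((lP.eventually (Metric.ball_mem_nhds _ hr)).and
        (Ioo_mem_nhdsGT hε)).exists
      obtain ⟨t, t1, t2⟩ := ((lQ.eventually (Metric.ball_mem_nhds _ hr)).and
        (Ioo_mem_nhdsGT hε)).exists
      refine ⟨s, s2, t, t2, ?_⟩
      exact (((convex_ball _ r).isPathConnected ⟨_, Metric.mem_ball_self hr⟩).joinedIn _ s1 _
        t1).mono hsub
  intro ε hε
  obtain ⟨δ1, hδ1, H1⟩ := mem_nhdsGT_iff_exists_Ioo_subset.1 a2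
  obtain ⟨δ2, hδ2, H2⟩ := mem_nhdsGT_iff_exists_Ioo_subset.1 b2
  have hδ1' : (0 : ℝ) < δ1 := hδ1
  have hδ2' : (0 : ℝ) < δ2 := hδ2
  obtain ⟨s, hs, t, ht, hjoin⟩ := plane (min ε (min δ1 δ2)) (lt_min hε (lt_min hδ1' hδ2'))
  have hs1 : s < δ1 := hs.2.trans_le ((min_le_right _ _).trans (min_le_left _ _))
  have ht2 : t < δ2 := ht.2.trans_le ((min_le_right _ _).trans (min_le_right _ _))
  refine ⟨s, ⟨hs.1, hs.2.trans_le (min_le_left _ _)⟩, t, ⟨ht.1, ht.2.trans_le (min_le_left _ _)⟩,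
    ?_⟩
  have c1 : JoinedIn (Pos f) (P s) ![P s 0, P s 1, κ] := H1 ⟨hs.1, hs1⟩
  have c2 : JoinedIn (Pos f) (Q t) ![Q t 0, Q t 1, κ] := H2 ⟨ht.1, ht2⟩
  exact c1.trans (hjoin.trans c2.symm)

end Pool.Agent.H734R2.SP
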