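import Pool.Agent.H734R2.SP.Stubs3

set_option autoImplicit false

/-!
GRAD: if the gradient of `f` does not vanish at the origin, the arcs can be joined.
-/

namespace Pool.Agent.H734R2.SP

open MvPolynomial Filter Topology

theorem grad_small {P : ℝ → Pt} (hP : Arc P) {ρ : ℝ} (hρ : 0 < ρ) :
    ∀ᶠ t in 𝓝[>] (0 : ℝ), ∀ j, |P t j| ≤ ρ := by
  refine Filter.eventually_all.2 fun j => ?_
  have h1 : Tendsto (fun t => P t j) (𝓝[>] (0 : ℝ)) (𝓝 (P 0 j)) :=
    ((hP.1 j).continuousAt).tendsto.mono_left nhdsWithin_le_nhds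
  have h0 : P 0 j = 0 := by rw [hP.2]; rfl
  rw [h0] at h1
  have h2 : Tendsto (fun t => |P t j|) (𝓝[>] (0 : ℝ)) (𝓝 0) := by simpa using h1.abs
  filter_upwards [h2.eventually (gt_mem_nhds hρ)] with t ht using le_of_lt ht

theorem grad_line (hl : S_LIN) {f : Poly} {i : Fin 3} {σ b ρ : ℝ} (hσ : |σ| = 1)
    (hb : ∀ y : Pt, (∀ j, |y j| ≤ 2 * ρ) → b ≤ σ * ev y (pderiv i f))
    {x : Pt} (hx : ∀ j, |x j| ≤ ρ) {r : ℝ} (hr : r ∈ Set.Icc (0 : ℝ) ρ) :
    ev x f + b * r ≤ ev (x + r • (Pi.single i σ : Pt)) f := by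
  obtain ⟨w, hw⟩ : ∃ w : Pt, w = Pi.single i σ := ⟨_, rfl⟩
  rw [← hw]
  have hw1 : ∀ j, |w j| ≤ 1 := by
    intro j
    by_cases hj : j = i
    · rw [hw, hj, Pi.single_eq_same, hσ]
    · rw [hw, Pi.single_eq_of_ne hj, abs_zero]; exact zero_le_one
  have hd : ∀ s : ℝ, HasDerivAt (fun r : ℝ => ev (x + r • w) f)
      (σ * ev (x + s • w) (pderiv i f)) s := by
    intro s
    have h1 := hl f x w s
    have e : ∑ j, w j * ev (x + s • w) (pderiv j f) = σ * ev (x + s • w) (pderiv i f) := by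
      rw [Finset.sum_eq_single i]
      · have : w i = σ := by rw [hw, Pi.single_eq_same]
        rw [this]
      · intro j _ hj
        have : w j = 0 := by rw [hw, Pi.single_eq_of_ne hj]
        rw [this, zero_mul]
      · intro h
        exact absurd (Finset.mem_univ _) h
    rwa [e] at h1
  have hy : ∀ s ∈ Set.Icc (0 : ℝ) ρ, ∀ j, |(x + s • w) j| ≤ 2 * ρ := by
    intro s hs j
    have h1 : (x + s • w) j = x j + s * w j := rfl
    rw [h1]
    have h2 : |s * w j| ≤ ρ := by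
      rw [abs_mul, abs_of_nonneg hs.1]
      calc s * |w j| ≤ s * 1 := mul_le_mul_of_nonneg_left (hw1 j) hs.1
        _ ≤ ρ := by rw [mul_one]; exact hs.2
    have h3 := abs_add_le (x j) (s * w j)
    have h4 := hx j
    linarith
  have h5 := Convex.mul_sub_le_image_sub_of_le_deriv (convex_Icc (0 : ℝ) ρ)
    (f := fun r : ℝ => ev (x + r • w) f)
    (fun s _ => (hd s).continuousAt.continuousWithinAt)
    (fun s _ => (hd s).differentiableAt.differentiableWithinAt) (C := b)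
    (fun s hs => by
      rw [(hd s).deriv]
      exact hb _ (hy s (interior_subset hs)))
    0 ⟨le_rfl, hr.1.trans hr.2⟩ r hr hr.1
  simp only [sub_zero, zero_smul, add_zero] at h5
  linarith

theorem t_GRAD (L : Lib) (hl : S_LIN) (hp : S_PUSH) : S_GRAD := by
  intro f P Q h hgrad
  obtain ⟨i, hi⟩ := hgrad
  obtain ⟨v, hv⟩ : ∃ v : ℝ, v = ev 0 (pderiv i f) := ⟨_, rfl⟩
  rw [← hv] at hi
  have hv0 : 0 < |v| := abs_pos.2 hi
  obtain ⟨σ, hσ, hσv⟩ : ∃ σ : ℝ, |σ| = 1 ∧ σ * v = |v| := by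
    rcases lt_or_gt_of_ne hi with h1 | h1
    · exact ⟨-1, by norm_num, by rw [abs_of_neg h1]; ring⟩
    · exact ⟨1, by norm_num, by rw [abs_of_pos h1]; ring⟩
  obtain ⟨K, hK, hlip⟩ := L.lip (pderiv i f)
  obtain ⟨ρ, hρ0, hρ1, hρ2⟩ : ∃ ρ : ℝ, 0 < ρ ∧ ρ ≤ 1 / 4 ∧ K * (2 * ρ) ≤ |v| / 2 := by
    refine ⟨min (1 / 4) (|v| / (4 * K)), lt_min (by norm_num) (by positivity), min_le_left _ _, ?_⟩
    have h1 : min (1 / 4) (|v| / (4 * K)) ≤ |v| / (4 * K) := min_le_right _ _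
    calc K * (2 * min (1 / 4) (|v| / (4 * K))) ≤ K * (2 * (|v| / (4 * K))) := by
          gcongr
      _ = |v| / 2 := by field_simp; ring
  have hb : ∀ y : Pt, (∀ j, |y j| ≤ 2 * ρ) → |v| / 2 ≤ σ * ev y (pderiv i f) := by
    intro y hy
    have h1 := hlip y 0 (2 * ρ) (fun j => (hy j).trans (by linarith))
      (fun j => by simp) (fun j => by simpa using hy j)
    rw [← hv] at h1
    have h2 : |σ * (ev y (pderiv i f) - v)| ≤ |v| / 2 := by
      rw [abs_mul, hσ, one_mul]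
      exact h1.trans hρ2
    have h3 := (abs_le.1 h2).1
    have h4 : σ * (ev y (pderiv i f) - v) = σ * ev y (pderiv i f) - |v| := by
      rw [mul_sub, hσv]
    rw [h4] at h3
    linarith
  have hpos : ∀ R : ℝ → Pt, Arc R → (∀ᶠ t in 𝓝[>] (0 : ℝ), 0 < ev (R t) f) →
      ∀ᶠ t in 𝓝[>] (0 : ℝ), ∀ r ∈ Set.Icc (0 : ℝ) ρ,
        0 < ev (R t + r • (Pi.single i σ : Pt)) f := by
    intro R hR hRf
    filter_upwards [grad_small hR hρ0, hRf] with t h1 h2 r hr
    have h3 := grad_line hl hσ hb h1 hr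
    have h4 : 0 ≤ |v| / 2 * r := mul_nonneg (by linarith) hr.1
    linarith
  refine hp f P Q h (Pi.single i σ) ρ (|v| / 2 * ρ) hρ0 (by positivity) ?_
    (hpos P h.hP h.fP) (hpos Q h.hQ h.fQ) ?_
  · intro j
    rw [abs_mul, abs_of_pos hρ0]
    by_cases hj : j = i
    · rw [hj, Pi.single_eq_same, hσ]; linarith
    · rw [Pi.single_eq_of_ne hj, abs_zero]; linarith
  · filter_upwards [grad_small h.hP hρ0, h.fP] with t h1 h2
    have h3 := grad_line hl hσ hb h1 (r := ρ) ⟨hρ0.le, le_rfl⟩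
    linarith

end Pool.Agent.H734R2.SP
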