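import Pool.Agent.H734R2.SP.Stubs

set_option autoImplicit false

/-!
GRAPH: the graph case from the coordinate case (MP_1a4606_ag).
-/

namespace Pool.Agent.H734R2.SP

open MvPolynomial Filter Topology

namespace GRAPHaux

theorem eva (P : ℝ → Pt) (hP : Arc P) (g : Poly) : AnalyticAt ℝ (fun t => ev (P t) g) 0 := by
  induction g using MvPolynomial.induction_on with
  | C a => simpa [ev] using (analyticAt_const : AnalyticAt ℝ (fun _ : ℝ => a) 0)
  | add p q hp hq =>
    have : (fun t => ev (P t) (p + q)) = fun t => ev (P t) p + ev (P t) q := by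
      funext t; simp [ev]
    rw [this]
    exact hp.add hq
  | mul_X p i hp =>
    have : (fun t => ev (P t) (p * X i)) = fun t => ev (P t) p * P t i := by
      funext t; simp [ev]
    rw [this]
    exact hp.mul (hP.1 i)

theorem evbind (x : Pt) (A : Fin 3 → Poly) (f : Poly) :
    ev x (bind₁ A f) = ev (fun i => ev x (A i)) f := by
  unfold ev
  rw [← MvPolynomial.coe_aeval_eq_eval, RingHom.coe_coe, MvPolynomial.aeval_bind₁]
  rfl

end GRAPHaux

open GRAPHaux in
theorem t_GRAPH : S_GRAPH := by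
  intro hAUT hC f P Q hNS hG
  obtain ⟨e, Φ, hΦ0, hΦ⟩ := hG
  set Φ' : Poly := rename (![0, 1] : Fin 2 → Fin 3) Φ with hΦ'
  set Φ'' : Poly := rename (![e 0, e 1] : Fin 2 → Fin 3) Φ with hΦ''
  set A : Fin 3 → Poly := fun i => (![X 0, X 1, X 2 + Φ'] : Fin 3 → Poly) (e.symm i) with hA
  set B : Fin 3 → Poly := ![X (e 0), X (e 1), X (e 2) - Φ''] with hB
  have e1 : ∀ x : Pt, ev x Φ' = MvPolynomial.eval ![x 0, x 1] Φ := by
    intro x
    rw [hΦ']
    unfold ev
    rw [eval_rename]
    congr 2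
    funext i
    fin_cases i <;> simp
  have e2 : ∀ x : Pt, ev x Φ'' = MvPolynomial.eval ![x (e 0), x (e 1)] Φ := by
    intro x
    rw [hΦ'']
    unfold ev
    rw [eval_rename]
    congr 2
    funext i
    fin_cases i <;> simp
  have hAB : ∀ x : Pt, (fun i => ev (fun j => ev x (B j)) (A i)) = x := by
    intro x
    funext i
    obtain ⟨k, rfl⟩ := e.surjective i
    have hk : A (e k) = (![X 0, X 1, X 2 + Φ'] : Fin 3 → Poly) k := by
      rw [hA]; simp
    show ev (fun j => ev x (B j)) (A (e k)) = x (e k)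
    rw [hk]
    fin_cases k
    · simp [ev, hB]
    · simp [ev, hB]
    · have h2 : ev (fun j => ev x (B j)) Φ' = ev x Φ'' := by
        rw [e1, e2]
        simp [ev, hB]
      show ev (fun j => ev x (B j)) (X 2 + Φ') = x (e 2)
      have h3 : ev (fun j => ev x (B j)) (X 2 + Φ')
          = ev x (B 2) + ev (fun j => ev x (B j)) Φ' := by
        simp [ev]
      rw [h3, h2]
      simp [ev, hB]
  have hB0 : ∀ i, ev 0 (B i) = 0 := by
    intro i
    fin_cases i
    · simp [ev, hB]
    · simp [ev, hB]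
    · show ev 0 (X (e 2) - Φ'') = 0
      have h3 : ev 0 (X (e 2) - Φ'') = 0 - ev 0 Φ'' := by
        simp [ev]
      rw [h3, e2]
      have : (![(0 : Pt) (e 0), (0 : Pt) (e 1)] : Fin 2 → ℝ) = 0 := by
        funext i; fin_cases i <;> simp
      rw [this, hΦ0]
      simp
  obtain ⟨h1, h2⟩ := hAUT eva A B hAB hB0 f P Q hNS
  apply h2
  apply hC _ _ _ h1
  intro ε hε
  filter_upwards [hΦ ε hε] with t ht
  have h4 : ev (fun i => ev (P t) (B i)) (bind₁ A f) = ev (P t) f := by
    rw [evbind, hAB]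
  rw [h4]
  have h5 : ev (P t) (B 2) = P t (e 2) - MvPolynomial.eval ![P t (e 0), P t (e 1)] Φ := by
    show ev (P t) (X (e 2) - Φ'') = _
    rw [← e2]
    simp [ev]
  rw [h5]
  exact ht

end Pool.Agent.H734R2.SP
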