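import Pool.Agent.H734R2.SP.Stubs3

set_option autoImplicit false

namespace Pool.Agent.H734R2.SP

open MvPolynomial Filter Topology

theorem HN1_vec (v : Pt) : ![v 0, v 1, v 2] = v := by
  funext i
  fin_cases i <;> rfl

theorem HN1_small (P : ℝ → Pt) (hP : Arc P) (m : ℝ) (hm : 0 < m) :
    ∀ᶠ t in 𝓝[>] (0 : ℝ), ∀ i, |P t i| ≤ m := by
  rw [Filter.eventually_all]
  intro i
  have h1 : Tendsto (fun t => |P t i|) (𝓝 0) (𝓝 |P 0 i|) := (hP.1 i).continuousAt.abs
  rw [hP.2] at h1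
  have h2 : |(0 : Pt) i| = 0 := by simp
  rw [h2] at h1
  have h3 := h1.eventually (Iic_mem_nhds hm)
  exact nhdsWithin_le_nhds h3

theorem t_HN1 (L : Lib) (hc : S_CONC) : S_HN1 := by
  intro f P hP hpos hneg hgrad
  obtain ⟨ρ, hρ, H⟩ := hc f hneg
  have hm : 0 < min ρ (1 / 2 : ℝ) := lt_min hρ (by norm_num)
  have E := HN1_small P hP _ hm
  have F1 : ∀ᶠ t in 𝓝[>] (0 : ℝ), ev (P t) f / 2 ≤ ev ![P t 0, P t 1, 0] f := by
    filter_upwards [E, hpos, hgrad] with t h1 h2 h3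
    obtain ⟨a, b⟩ := H (P t 0) (P t 1) ((h1 0).trans (min_le_left _ _))
      ((h1 1).trans (min_le_left _ _))
    have h4 := a (P t 2) ((h1 2).trans (min_le_left _ _))
    rw [HN1_vec (P t)] at h4
    have h5 : |P t 2| ≤ 1 / 2 := (h1 2).trans (min_le_right _ _)
    have h6 : P t 2 * ev ![P t 0, P t 1, 0] (pderiv 2 f) ≤ 1 / 2 * ev (P t) f := by
      refine (le_abs_self _).trans ?_
      rw [abs_mul]
      exact mul_le_mul h5 h3 (abs_nonneg _) (by norm_num)
    linarith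
  refine ⟨F1, ?_⟩
  filter_upwards [E, hpos, F1] with t h1 h2 h3
  obtain ⟨a, b⟩ := H (P t 0) (P t 1) ((h1 0).trans (min_le_left _ _))
    ((h1 1).trans (min_le_left _ _))
  have h4 := b (P t 2) ((h1 2).trans (min_le_left _ _))
  rw [HN1_vec (P t)] at h4
  apply JoinedIn.symm
  refine JoinedIn.ofLine (f := fun θ : ℝ => (![P t 0, P t 1, θ * P t 2] : Pt)) ?_ ?_ ?_ ?_
  · apply Continuous.continuousOn
    apply continuous_pi
    intro i
    fin_cases i
    · exact continuous_const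
    · exact continuous_const
    · exact continuous_id.mul continuous_const
  · simp
  · show (![P t 0, P t 1, 1 * P t 2] : Pt) = P t
    rw [one_mul]
    exact HN1_vec _
  · rintro _ ⟨θ, hθ, rfl⟩
    show 0 < ev ![P t 0, P t 1, θ * P t 2] f
    have h5 := h4 θ hθ
    have h6 : 0 ≤ (1 - θ) * (ev ![P t 0, P t 1, 0] f - ev (P t) f / 2) :=
      mul_nonneg (by linarith [hθ.2]) (by linarith)
    have h7 : 0 ≤ θ * ev (P t) f := mul_nonneg hθ.1 h2.le
    nlinarith

end Pool.Agent.H734R2.SP
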