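import Pool.Agent.H734R2.SP.Stubs3

set_option autoImplicit false

/-! Task HN2 (helper225): the projected arcs. -/

namespace Pool.Agent.H734R2.SP

open MvPolynomial Filter Topology

/-- the projection to `z = 0` -/
noncomputable def HN2_pi (x : Pt) : Pt := ![x 0, x 1, 0]

/-- composition of a polynomial with the projection -/
noncomputable def HN2_gh (g : Poly) : Poly := bind₁ ![X 0, X 1, 0] g

theorem HN2_ev (g : Poly) (x : Pt) : ev x (HN2_gh g) = ev (HN2_pi x) g := by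
  unfold HN2_gh ev
  show eval₂Hom (RingHom.id ℝ) x _ = eval₂Hom (RingHom.id ℝ) (HN2_pi x) g
  rw [eval₂Hom_bind₁]
  have e : (fun i => (eval₂Hom (RingHom.id ℝ) x)
      ((![X 0, X 1, 0] : Fin 3 → MvPolynomial (Fin 3) ℝ) i)) = HN2_pi x := by
    funext i
    fin_cases i <;> simp [HN2_pi]
  rw [e]

theorem HN2_idem (x : Pt) : HN2_pi (HN2_pi x) = HN2_pi x := by
  funext i
  fin_cases i <;> simp [HN2_pi]

theorem HN2_zero : HN2_pi 0 = 0 := by
  funext i
  fin_cases i <;> simp [HN2_pi]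

theorem HN2_cont : Continuous HN2_pi := by
  refine continuous_pi fun i => ?_
  fin_cases i
  · exact continuous_apply (0 : Fin 3)
  · exact continuous_apply (1 : Fin 3)
  · exact continuous_const

theorem HN2_arc {P : ℝ → Pt} (h : Arc P) : Arc (fun t => HN2_pi (P t)) := by
  refine ⟨fun i => ?_, ?_⟩
  · fin_cases i
    · exact h.1 0
    · exact h.1 1
    · exact analyticAt_const
  · show HN2_pi (P 0) = 0
    rw [h.2, HN2_zero]

theorem HN2_ns1 {f : Poly} {P Q : ℝ → Pt} (hpq : NS1 f P Q)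
    (hQ : ∀ᶠ t in 𝓝[>] (0 : ℝ), ev (Q t) f / 2 ≤ ev (HN2_pi (Q t)) f) :
    NS1 (HN2_gh f) (fun t => HN2_pi (P t)) (fun t => HN2_pi (Q t)) := by
  intro g c c' hcc hg
  have h1 := hpq (HN2_gh g - C c' * HN2_gh f) (-((c' - c) / 2)) 0 (by linarith) (by
    filter_upwards [hg] with t ht
    rw [HN2_ev, HN2_idem] at ht
    have e : ev (P t) (HN2_gh g - C c' * HN2_gh f) =
        ev (HN2_pi (P t)) g - c' * ev (HN2_pi (P t)) f := by
      rw [← HN2_ev, ← HN2_ev]
      simp only [ev, map_sub, map_mul, eval_C]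
    rw [e]
    linarith)
  filter_upwards [h1, hQ] with t ht hq
  rw [HN2_ev, HN2_idem]
  have e : ev (Q t) (HN2_gh g - C c' * HN2_gh f) =
      ev (HN2_pi (Q t)) g - c' * ev (HN2_pi (Q t)) f := by
    rw [← HN2_ev, ← HN2_ev]
    simp only [ev, map_sub, map_mul, eval_C]
  rw [e] at ht
  nlinarith [mul_le_mul_of_nonneg_left hq (show (0 : ℝ) ≤ c' - c by linarith)]

theorem t_HN2 (L : Lib) : S_HN2 := by
  intro f P Q hNS hP hQ
  have hP' : ∀ᶠ t in 𝓝[>] (0 : ℝ), ev (P t) f / 2 ≤ ev (HN2_pi (P t)) f := hP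
  have hQ' : ∀ᶠ t in 𝓝[>] (0 : ℝ), ev (Q t) f / 2 ≤ ev (HN2_pi (Q t)) f := hQ
  have hn : NS (HN2_gh f) (fun t => HN2_pi (P t)) (fun t => HN2_pi (Q t)) := by
    refine ⟨HN2_arc hNS.hP, HN2_arc hNS.hQ, ?_, ?_, ?_, HN2_ns1 hNS.pq hQ', HN2_ns1 hNS.qp hP'⟩
    · rw [HN2_ev, HN2_zero]; exact hNS.f0
    · filter_upwards [hNS.fP, hP'] with t h1 h2
      rw [HN2_ev, HN2_idem]; linarith
    · filter_upwards [hNS.fQ, hQ'] with t h1 h2
      rw [HN2_ev, HN2_idem]; linarith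
  have hj := L.coor _ _ _ hn (by
    intro ε hε
    filter_upwards [hn.fP] with t ht
    have e : HN2_pi (P t) 2 = 0 := by simp [HN2_pi]
    rw [e, abs_zero]
    positivity)
  show Join f (fun t => HN2_pi (P t)) (fun t => HN2_pi (Q t))
  intro ε hε
  obtain ⟨s, hs, t, ht, γ, hγ⟩ := hj ε hε
  refine ⟨s, hs, t, ht, (γ.map HN2_cont).cast (HN2_idem _).symm (HN2_idem _).symm, fun r => ?_⟩
  have h1 := hγ r
  show 0 < ev (HN2_pi (γ r)) f
  rw [← HN2_ev]
  exact h1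

end Pool.Agent.H734R2.SP
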