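import Pool.Agent.H734R2.SP.Stubs3

set_option autoImplicit false

namespace Pool.Agent.H734R2.SP

open MvPolynomial Filter Topology

theorem HNEG_lin (P : ℝ → Pt) (hP : Arc P) (i : Fin 3) :
    ∃ c : ℝ, 0 < c ∧ ∀ᶠ t in 𝓝[>] (0 : ℝ), |P t i| ≤ c * t := by
  have h1 : DifferentiableAt ℝ (fun t => P t i) 0 := (hP.1 i).differentiableAt
  obtain ⟨c, hc, hb⟩ := (h1.isBigO_sub).exists_pos
  refine ⟨c, hc, ?_⟩
  have hb' := hb.bound
  have h2 : ∀ᶠ t in 𝓝[>] (0 : ℝ), ‖P t i - P 0 i‖ ≤ c * ‖t - 0‖ :=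
    hb'.filter_mono nhdsWithin_le_nhds
  filter_upwards [h2, self_mem_nhdsWithin] with t ht (htpos : (0 : ℝ) < t)
  have h3 : P 0 i = 0 := by rw [hP.2]; rfl
  rw [h3, sub_zero, sub_zero, Real.norm_eq_abs, Real.norm_eq_abs, abs_of_pos htpos] at ht
  exact ht

theorem HNEG_small (P : ℝ → Pt) (hP : Arc P) (u : ℝ → ℝ) (k N : ℕ) (hkN : k + 1 ≤ N) (F : ℝ)
    (hF : 0 < F) (hk : Tendsto (fun t => u t / t ^ k) (𝓝[>] (0 : ℝ)) (𝓝 F))
    (g : ℝ → ℝ → ℝ) (C ρ : ℝ) (hρ : 0 < ρ)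
    (hg : ∀ x y : ℝ, |x| ≤ ρ → |y| ≤ ρ → |g x y| ≤ C * (|x| + |y|) ^ N) :
    ∀ ε > 0, ∀ᶠ t in 𝓝[>] (0 : ℝ), |g (P t 0) (P t 1)| ≤ ε * u t := by
  intro ε hε
  obtain ⟨c0, hc0, h0⟩ := HNEG_lin P hP 0
  obtain ⟨c1, hc1, h1⟩ := HNEG_lin P hP 1
  obtain ⟨D, hD⟩ : ∃ D : ℝ, D = |C| * (c0 + c1) ^ N := ⟨_, rfl⟩
  have hD0 : 0 ≤ D := by rw [hD]; positivity
  have hid : Tendsto (fun t : ℝ => t) (𝓝[>] (0 : ℝ)) (𝓝 0) :=
    tendsto_nhdsWithin_of_tendsto_nhds tendsto_id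
  have e1 : ∀ᶠ t in 𝓝[>] (0 : ℝ), c0 * t < ρ := by
    have : Tendsto (fun t : ℝ => c0 * t) (𝓝[>] (0 : ℝ)) (𝓝 0) := by
      simpa using hid.const_mul c0
    exact this.eventually_lt_const hρ
  have e2 : ∀ᶠ t in 𝓝[>] (0 : ℝ), c1 * t < ρ := by
    have : Tendsto (fun t : ℝ => c1 * t) (𝓝[>] (0 : ℝ)) (𝓝 0) := by
      simpa using hid.const_mul c1
    exact this.eventually_lt_const hρ
  have e3 : ∀ᶠ t in 𝓝[>] (0 : ℝ), D * t < ε * (F / 2) := by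
    have : Tendsto (fun t : ℝ => D * t) (𝓝[>] (0 : ℝ)) (𝓝 0) := by
      simpa using hid.const_mul D
    exact this.eventually_lt_const (by positivity)
  have e4 : ∀ᶠ t in 𝓝[>] (0 : ℝ), t < 1 := hid.eventually_lt_const one_pos
  have e5 : ∀ᶠ t in 𝓝[>] (0 : ℝ), F / 2 < u t / t ^ k := hk.eventually_const_lt (by linarith)
  filter_upwards [h0, h1, e1, e2, e3, e4, e5, self_mem_nhdsWithin] with
    t a0 a1 b1 b2 b3 b4 b5 (ht : (0 : ℝ) < t)
  have htk : 0 < t ^ k := pow_pos ht k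
  have hu : F / 2 * t ^ k ≤ u t := by
    rw [lt_div_iff₀ htk] at b5
    exact b5.le
  have hs : |P t 0| + |P t 1| ≤ (c0 + c1) * t := by linarith
  calc |g (P t 0) (P t 1)| ≤ C * (|P t 0| + |P t 1|) ^ N := hg _ _ (by linarith) (by linarith)
    _ ≤ |C| * (|P t 0| + |P t 1|) ^ N :=
        mul_le_mul_of_nonneg_right (le_abs_self C) (by positivity)
    _ ≤ |C| * ((c0 + c1) * t) ^ N :=
        mul_le_mul_of_nonneg_left (pow_le_pow_left₀ (by positivity) hs N) (abs_nonneg C)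
    _ = D * t ^ N := by rw [mul_pow, hD]; ring
    _ ≤ D * t ^ (k + 1) :=
        mul_le_mul_of_nonneg_left (pow_le_pow_of_le_one ht.le b4.le hkN) hD0
    _ = (D * t) * t ^ k := by ring
    _ ≤ (ε * (F / 2)) * t ^ k := mul_le_mul_of_nonneg_right b3.le htk.le
    _ = ε * (F / 2 * t ^ k) := by ring
    _ ≤ ε * u t := mul_le_mul_of_nonneg_left hu (le_of_lt hε)

theorem HNEG_rename (ξ : MvPolynomial (Fin 2) ℝ) (x : Pt) :
    ev x (rename (![0, 1] : Fin 2 → Fin 3) ξ) = MvPolynomial.eval ![x 0, x 1] ξ := by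
  have h : x ∘ (![0, 1] : Fin 2 → Fin 3) = ![x 0, x 1] := by
    funext i
    fin_cases i <;> rfl
  rw [ev, eval_rename, h]

theorem HNEG_pdr (ξ : MvPolynomial (Fin 2) ℝ) :
    pderiv 2 (rename (![0, 1] : Fin 2 → Fin 3) ξ) = 0 := by
  classical
  apply pderiv_eq_zero_of_notMem_vars
  intro hm
  have h1 := vars_rename (![0, 1] : Fin 2 → Fin 3) ξ hm
  rw [Finset.mem_image] at h1
  obtain ⟨i, -, hi⟩ := h1
  fin_cases i <;> simp at hi

noncomputable def HNEG_A (q : Poly) : Fin 3 → Poly := ![X 0, X 1, X 2 + q]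

noncomputable def HNEG_B (q : Poly) : Fin 3 → Poly := ![X 0, X 1, X 2 - q]

theorem HNEG_evA (q : Poly) (x : Pt) :
    (fun i => ev x (HNEG_A q i)) = ![x 0, x 1, x 2 + ev x q] := by
  funext i
  fin_cases i
  · show ev x (X 0) = x 0
    exact eval_X _
  · show ev x (X 1) = x 1
    exact eval_X _
  · show ev x (X 2 + q) = x 2 + ev x q
    rw [ev, map_add, eval_X]

theorem HNEG_evB (q : Poly) (x : Pt) :
    (fun i => ev x (HNEG_B q i)) = ![x 0, x 1, x 2 - ev x q] := by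
  funext i
  fin_cases i
  · show ev x (X 0) = x 0
    exact eval_X _
  · show ev x (X 1) = x 1
    exact eval_X _
  · show ev x (X 2 - q) = x 2 - ev x q
    rw [ev, map_sub, eval_X]

theorem HNEG_bind (A : Fin 3 → Poly) (x : Pt) (g : Poly) :
    ev x (bind₁ A g) = ev (fun i => ev x (A i)) g :=
  eval₂Hom_bind₁ (RingHom.id ℝ) x A g

theorem HNEG_pd (hch : S_CHAIN) (q : Poly) (hq : pderiv 2 q = 0) (g : Poly) :
    pderiv 2 (bind₁ (HNEG_A q) g) = bind₁ (HNEG_A q) (pderiv 2 g) := by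
  have hA0 : pderiv 2 (HNEG_A q 0) = 0 := by
    show pderiv 2 (X 0 : Poly) = 0
    exact pderiv_X_of_ne (by decide)
  have hA1 : pderiv 2 (HNEG_A q 1) = 0 := by
    show pderiv 2 (X 1 : Poly) = 0
    exact pderiv_X_of_ne (by decide)
  have hA2 : pderiv 2 (HNEG_A q 2) = 1 := by
    show pderiv 2 (X 2 + q : Poly) = 1
    rw [map_add, pderiv_X_self, hq, add_zero]
  rw [hch, Fin.sum_univ_three, hA0, hA1, hA2, mul_zero, mul_zero, mul_one, zero_add, zero_add]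

theorem t_HNEG (L : Lib) (hch : S_CHAIN) (hi : S_IMP) (h0 : S_HNEG0) : S_HNEG := by
  intro f P Q h hz hzz
  obtain ⟨k, F, hF, hk⟩ := L.order f P Q h
  obtain ⟨k', F', hF', hk'⟩ := L.order f Q P h.symm
  obtain ⟨ξ, hξ0, C, ρ, hρ, hξ⟩ := hi f hz hzz.ne (k + k' + 1)
  obtain ⟨q, hq⟩ : ∃ q : Poly, q = rename (![0, 1] : Fin 2 → Fin 3) ξ := ⟨_, rfl⟩
  have hev : ∀ x : Pt, ev x q = MvPolynomial.eval ![x 0, x 1] ξ := fun x => by
    rw [hq]; exact HNEG_rename ξ x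
  have hp2 : pderiv 2 q = 0 := by rw [hq]; exact HNEG_pdr ξ
  have h00 : (![(0 : Pt) 0, (0 : Pt) 1] : Fin 2 → ℝ) = 0 := by
    funext i
    fin_cases i <;> rfl
  have hq0 : ev 0 q = 0 := by rw [hev, h00, hξ0]
  have hAB : ∀ x : Pt, (fun i => ev (fun j => ev x (HNEG_B q j)) (HNEG_A q i)) = x := by
    intro x
    rw [HNEG_evB, HNEG_evA, hev, hev]
    funext i
    fin_cases i
    · rfl
    · rfl
    · show (x 2 - MvPolynomial.eval ![x 0, x 1] ξ) + MvPolynomial.eval ![x 0, x 1] ξ = x 2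
      ring
  have hA0 : (fun i => ev 0 (HNEG_A q i)) = (0 : Pt) := by
    rw [HNEG_evA, hq0]
    funext i
    fin_cases i
    · rfl
    · rfl
    · show (0 : ℝ) + 0 = 0
      ring
  have hB0 : ∀ i, ev 0 (HNEG_B q i) = 0 := by
    have h1 : (fun i => ev 0 (HNEG_B q i)) = (0 : Pt) := by
      rw [HNEG_evB, hq0]
      funext i
      fin_cases i
      · rfl
      · rfl
      · show (0 : ℝ) - 0 = 0
        ring
    intro i
    exact congrFun h1 i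
  have key : ∀ R : ℝ → Pt, Arc R → ∀ (m : ℕ), m + 1 ≤ k + k' + 1 → ∀ G : ℝ, 0 < G →
      Tendsto (fun t => ev (R t) f / t ^ m) (𝓝[>] (0 : ℝ)) (𝓝 G) →
      ∀ ε > 0, ∀ᶠ t in 𝓝[>] (0 : ℝ),
        |ev ![(fun i => ev (R t) (HNEG_B q i)) 0, (fun i => ev (R t) (HNEG_B q i)) 1, 0]
          (pderiv 2 (bind₁ (HNEG_A q) f))| ≤
          ε * ev (fun i => ev (R t) (HNEG_B q i)) (bind₁ (HNEG_A q) f) := by
    intro R hR m hm G hG hT ε hε
    have h1 := HNEG_small R hR (fun t => ev (R t) f) m (k + k' + 1) hm G hG hT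
      (fun x y => ev ![x, y, MvPolynomial.eval ![x, y] ξ] (pderiv 2 f)) C ρ hρ hξ ε hε
    filter_upwards [h1] with t ht
    have h2 : ev (fun i => ev (R t) (HNEG_B q i)) (bind₁ (HNEG_A q) f) = ev (R t) f := by
      rw [HNEG_bind, hAB]
    have e0 : ev (R t) (HNEG_B q 0) = R t 0 := congrFun (HNEG_evB q (R t)) 0
    have e1 : ev (R t) (HNEG_B q 1) = R t 1 := congrFun (HNEG_evB q (R t)) 1
    rw [h2, HNEG_pd hch q hp2, HNEG_bind, HNEG_evA, hev]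
    show |ev ![ev (R t) (HNEG_B q 0), ev (R t) (HNEG_B q 1),
      (0 : ℝ) + MvPolynomial.eval ![ev (R t) (HNEG_B q 0), ev (R t) (HNEG_B q 1)] ξ]
        (pderiv 2 f)| ≤ _
    rw [e0, e1, zero_add]
    exact ht
  obtain ⟨hNS, hJ⟩ := L.aut (HNEG_A q) (HNEG_B q) hAB hB0 f P Q h
  apply hJ
  apply h0 _ _ _ hNS
  · rw [HNEG_pd hch q hp2, HNEG_pd hch q hp2, HNEG_bind, hA0]
    exact hzz
  · exact key P h.hP k (by omega) F hF hk
  · exact key Q h.hQ k' (by omega) F' hF' hk'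

end Pool.Agent.H734R2.SP
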