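import Pool.Agent.H734R2.SP.Stubs3

set_option autoImplicit false

/-! HNEG0: assembly of HN1 and HN2 (helper334). -/

namespace Pool.Agent.H734R2.SP

open MvPolynomial Filter Topology

theorem t_HNEG0 (_L : Lib) (h1 : S_HN1) (h2 : S_HN2) : S_HNEG0 := by
  intro f P Q hNS hneg hP hQ
  obtain ⟨a1, a2⟩ := h1 f P hNS.hP hNS.fP hneg
    ((hP 1 one_pos).mono (fun t ht => by rwa [one_mul] at ht))
  obtain ⟨b1, b2⟩ := h1 f Q hNS.hQ hNS.fQ hneg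
    ((hQ 1 one_pos).mono (fun t ht => by rwa [one_mul] at ht))
  have hj := h2 f P Q hNS a1 b1
  intro ε hε
  obtain ⟨δ1, hδ1, H1⟩ := mem_nhdsGT_iff_exists_Ioo_subset.1 a2
  obtain ⟨δ2, hδ2, H2⟩ := mem_nhdsGT_iff_exists_Ioo_subset.1 b2
  have hδ1' : (0 : ℝ) < δ1 := hδ1
  have hδ2' : (0 : ℝ) < δ2 := hδ2
  obtain ⟨s, hs, t, ht, hjoin⟩ := hj (min ε (min δ1 δ2)) (lt_min hε (lt_min hδ1' hδ2'))
  have hs1 : s < δ1 := hs.2.trans_le ((min_le_right _ _).trans (min_le_left _ _))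
  have ht2 : t < δ2 := ht.2.trans_le ((min_le_right _ _).trans (min_le_right _ _))
  refine ⟨s, ⟨hs.1, hs.2.trans_le (min_le_left _ _)⟩, t, ⟨ht.1, ht.2.trans_le (min_le_left _ _)⟩,
    ?_⟩
  have c1 : JoinedIn (Pos f) (P s) ![P s 0, P s 1, 0] := H1 ⟨hs.1, hs1⟩
  have c2 : JoinedIn (Pos f) (Q t) ![Q t 0, Q t 1, 0] := H2 ⟨ht.1, ht2⟩
  exact c1.trans (hjoin.trans c2.symm)

end Pool.Agent.H734R2.SP
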