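import Pool.Agent.H734R2.SP.Stubs3

set_option autoImplicit false

namespace Pool.Agent.H734R2.SP

open MvPolynomial Filter Topology

theorem HPOS_mono (u u' : ℝ → ℝ) (ρ : ℝ) (h : ∀ r, HasDerivAt u (u' r) r)
    (h0 : ∀ r ∈ Set.Icc (0 : ℝ) ρ, 0 ≤ u' r) : ∀ r ∈ Set.Icc (0 : ℝ) ρ, u 0 ≤ u r := by
  intro r hr
  have hρ : 0 ≤ ρ := hr.1.trans hr.2
  have h1 : MonotoneOn u (Set.Icc (0 : ℝ) ρ) := by
    apply monotoneOn_of_deriv_nonneg (convex_Icc 0 ρ)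
    · exact fun y _ => (h y).continuousAt.continuousWithinAt
    · exact fun y _ => (h y).differentiableAt.differentiableWithinAt
    · intro y hy
      rw [(h y).deriv]
      exact h0 y (interior_subset hy)
  exact h1 (Set.left_mem_Icc.2 hρ) hr hr.1

theorem HPOS_lin (hl : S_LIN) (f : Poly) (σ : ℝ) (x : Pt) (r : ℝ) :
    HasDerivAt (fun r : ℝ => ev (x + r • (Pi.single 2 σ : Pt)) f)
      (σ * ev (x + r • (Pi.single 2 σ : Pt)) (pderiv 2 f)) r := by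
  have h1 := hl f x (Pi.single 2 σ) r
  rw [Finset.sum_eq_single 2, Pi.single_eq_same] at h1
  · exact h1
  · intro j _ hj
    rw [Pi.single_eq_of_ne hj, zero_mul]
  · intro h
    exact absurd (Finset.mem_univ _) h

theorem HPOS_lem (hl : S_LIN) (f : Poly) (σ : ℝ) (hσ : σ * σ = 1) (ρ A : ℝ) (x : Pt)
    (hx : ∀ r ∈ Set.Icc (0 : ℝ) ρ,
      A / 2 ≤ ev (x + r • (Pi.single 2 σ : Pt)) (pderiv 2 (pderiv 2 f))) :
    ∀ r ∈ Set.Icc (0 : ℝ) ρ, ev x f + r * (σ * ev x (pderiv 2 f)) + A / 4 * r ^ 2 ≤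
      ev (x + r • (Pi.single 2 σ : Pt)) f := by
  have h1 : ∀ r ∈ Set.Icc (0 : ℝ) ρ, σ * ev x (pderiv 2 f) + A / 2 * r ≤
      σ * ev (x + r • (Pi.single 2 σ : Pt)) (pderiv 2 f) := by
    have h2 := HPOS_mono (fun r => σ * ev (x + r • (Pi.single 2 σ : Pt)) (pderiv 2 f) - A / 2 * r)
      (fun r => σ * (σ * ev (x + r • (Pi.single 2 σ : Pt)) (pderiv 2 (pderiv 2 f))) - A / 2 * 1) ρ
      (fun r => ((HPOS_lin hl (pderiv 2 f) σ x r).const_mul σ).sub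
        ((hasDerivAt_id r).const_mul (A / 2)))
      (fun r hr => by
        have h3 := hx r hr
        rw [← mul_assoc, hσ, one_mul]
        linarith)
    intro r hr
    have h3 := h2 r hr
    simp only [zero_smul, add_zero, mul_zero, sub_zero] at h3
    linarith
  have h2 := HPOS_mono (fun r => ev (x + r • (Pi.single 2 σ : Pt)) f -
      (r * (σ * ev x (pderiv 2 f)) + A / 4 * r ^ 2))
    (fun r => σ * ev (x + r • (Pi.single 2 σ : Pt)) (pderiv 2 f) -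
      (1 * (σ * ev x (pderiv 2 f)) + A / 4 * (2 * r))) ρ
    (fun r => by
      have h3 : HasDerivAt (fun r : ℝ => r ^ 2) (2 * r) r := by
        have := hasDerivAt_pow 2 r
        simpa using this
      exact (HPOS_lin hl f σ x r).sub
        (((hasDerivAt_id r).mul_const _).add (h3.const_mul (A / 4))))
    (fun r hr => by
      have h3 := h1 r hr
      linarith)
  intro r hr
  have h3 := h2 r hr
  simp only [zero_smul, add_zero, zero_mul, sub_zero, ne_eq, OfNat.ofNat_ne_zero,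
    not_false_eq_true, zero_pow, mul_zero] at h3
  linarith

theorem HPOS_small (P : ℝ → Pt) (hP : Arc P) (ρ : ℝ) (hρ : 0 < ρ) :
    ∀ᶠ t in 𝓝[>] (0 : ℝ), ∀ i, |P t i| ≤ ρ := by
  rw [Filter.eventually_all]
  intro i
  have h1 : Tendsto (fun t => P t i) (𝓝 0) (𝓝 0) := by
    have h2 := (hP.1 i).continuousAt.tendsto
    have h3 : P 0 i = 0 := by rw [hP.2]; rfl
    rw [h3] at h2
    exact h2
  have h2 : ∀ᶠ t in 𝓝 (0 : ℝ), |P t i| < ρ := by
    have h3 := h1.abs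
    rw [abs_zero] at h3
    exact h3.eventually_lt_const hρ
  exact (h2.filter_mono nhdsWithin_le_nhds).mono fun t ht => ht.le

theorem HPOS_sig (L : Lib) (f g : Poly) (P Q : ℝ → Pt) (h : NS f P Q) :
    ∃ σ : ℝ, σ * σ = 1 ∧ |σ| = 1 ∧ (∀ᶠ t in 𝓝[>] (0 : ℝ), - ev (P t) f ≤ σ * ev (P t) g) ∧
      (∀ᶠ t in 𝓝[>] (0 : ℝ), - ev (Q t) f ≤ σ * ev (Q t) g) := by
  rcases L.dich f P Q h g with h1 | ⟨c, hc, h1, h2⟩ | ⟨c, hc, h1, h2⟩
  · obtain ⟨h2, h3⟩ := h1 1 one_pos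
    refine ⟨1, by norm_num, by norm_num, ?_, ?_⟩
    · filter_upwards [h2] with t ht
      have := (abs_le.1 ht).1
      linarith
    · filter_upwards [h3] with t ht
      have := (abs_le.1 ht).1
      linarith
  · refine ⟨1, by norm_num, by norm_num, ?_, ?_⟩
    · filter_upwards [h1, h.fP] with t ht hf
      have : 0 < c * ev (P t) f := mul_pos hc hf
      linarith
    · filter_upwards [h2, h.fQ] with t ht hf
      have : 0 < c * ev (Q t) f := mul_pos hc hf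
      linarith
  · refine ⟨-1, by norm_num, by norm_num, ?_, ?_⟩
    · filter_upwards [h1, h.fP] with t ht hf
      have : 0 < c * ev (P t) f := mul_pos hc hf
      linarith
    · filter_upwards [h2, h.fQ] with t ht hf
      have : 0 < c * ev (Q t) f := mul_pos hc hf
      linarith

theorem HPOS_arc (hl : S_LIN) (f : Poly) (P : ℝ → Pt) (hP : Arc P) (σ : ℝ) (hσ : σ * σ = 1)
    (hσ1 : |σ| = 1) (ρ A : ℝ) (hρ : 0 < ρ) (hρ4 : ρ ≤ 1 / 4) (hA : 0 < A)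
    (hy : ∀ y : Pt, (∀ i, |y i| ≤ 2 * ρ) → A / 2 ≤ ev y (pderiv 2 (pderiv 2 f)))
    (hf : ∀ᶠ t in 𝓝[>] (0 : ℝ), 0 < ev (P t) f)
    (hg : ∀ᶠ t in 𝓝[>] (0 : ℝ), - ev (P t) f ≤ σ * ev (P t) (pderiv 2 f)) :
    (∀ᶠ t in 𝓝[>] (0 : ℝ), ∀ r ∈ Set.Icc (0 : ℝ) ρ,
      0 < ev (P t + r • (Pi.single 2 σ : Pt)) f) ∧
    (∀ᶠ t in 𝓝[>] (0 : ℝ), A / 4 * ρ ^ 2 ≤ ev (P t + ρ • (Pi.single 2 σ : Pt)) f) := by
  have key : ∀ᶠ t in 𝓝[>] (0 : ℝ), 0 < ev (P t) f ∧ ∀ r ∈ Set.Icc (0 : ℝ) ρ,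
      ev (P t) f * (1 - r) + A / 4 * r ^ 2 ≤ ev (P t + r • (Pi.single 2 σ : Pt)) f := by
    filter_upwards [hf, hg, HPOS_small P hP ρ hρ] with t h1 h2 h3
    refine ⟨h1, fun r hr => ?_⟩
    have h4 := HPOS_lem hl f σ hσ ρ A (P t) (fun s hs => by
      apply hy
      intro i
      have h5 : |s * (Pi.single 2 σ : Pt) i| ≤ ρ := by
        by_cases hi : i = 2
        · rw [hi, Pi.single_eq_same, abs_mul, hσ1, mul_one, abs_of_nonneg hs.1]
          exact hs.2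
        · rw [Pi.single_eq_of_ne hi, mul_zero, abs_zero]
          exact hρ.le
      have h6 : (P t + s • (Pi.single 2 σ : Pt)) i = P t i + s * (Pi.single 2 σ : Pt) i := rfl
      rw [h6]
      have h7 := abs_add_le (P t i) (s * (Pi.single 2 σ : Pt) i)
      have h8 := h3 i
      linarith) r hr
    have h9 : r * (- ev (P t) f) ≤ r * (σ * ev (P t) (pderiv 2 f)) :=
      mul_le_mul_of_nonneg_left h2 hr.1
    linarith
  constructor
  · filter_upwards [key] with t ht r hr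
    have h1 := ht.2 r hr
    have h2 : 0 < ev (P t) f * (1 - r) := mul_pos ht.1 (by linarith [hr.2])
    have h3 : 0 ≤ A / 4 * r ^ 2 := by positivity
    linarith
  · filter_upwards [key] with t ht
    have h1 := ht.2 ρ (Set.right_mem_Icc.2 hρ.le)
    have h2 : 0 < ev (P t) f * (1 - ρ) := mul_pos ht.1 (by linarith)
    linarith

theorem t_HPOS (L : Lib) (hl : S_LIN) (hp : S_PUSH) : S_HPOS := by
  intro f P Q h hA
  obtain ⟨σ, hσ, hσ1, h1, h2⟩ := HPOS_sig L f (pderiv 2 f) P Q h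
  obtain ⟨A, hAdef⟩ : ∃ A, A = ev 0 (pderiv 2 (pderiv 2 f)) := ⟨_, rfl⟩
  rw [← hAdef] at hA
  obtain ⟨K, hK, hlip⟩ := L.lip (pderiv 2 (pderiv 2 f))
  obtain ⟨ρ, hρ, hρ4, hρK⟩ : ∃ ρ : ℝ, 0 < ρ ∧ ρ ≤ 1 / 4 ∧ K * (2 * ρ) ≤ A / 2 := by
    refine ⟨min (1 / 4) (A / (4 * K)), by positivity, min_le_left _ _, ?_⟩
    have h3 : min (1 / 4) (A / (4 * K)) ≤ A / (4 * K) := min_le_right _ _
    calc K * (2 * min (1 / 4) (A / (4 * K))) ≤ K * (2 * (A / (4 * K))) := by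
          apply mul_le_mul_of_nonneg_left _ hK.le
          linarith
      _ = A / 2 := by field_simp; ring
  have hy : ∀ y : Pt, (∀ i, |y i| ≤ 2 * ρ) → A / 2 ≤ ev y (pderiv 2 (pderiv 2 f)) := by
    intro y hy
    have h3 := hlip y 0 (2 * ρ) (fun i => (hy i).trans (by linarith)) (fun i => by simp)
      (fun i => by simpa using hy i)
    rw [← hAdef] at h3
    have h4 := (abs_le.1 h3).1
    linarith
  obtain ⟨p1, p2⟩ := HPOS_arc hl f P h.hP σ hσ hσ1 ρ A hρ hρ4 hA hy h.fP h1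
  obtain ⟨q1, _⟩ := HPOS_arc hl f Q h.hQ σ hσ hσ1 ρ A hρ hρ4 hA hy h.fQ h2
  refine hp f P Q h (Pi.single 2 σ) ρ (A / 4 * ρ ^ 2) hρ (by positivity) ?_ p1 q1 p2
  intro i
  by_cases hi : i = 2
  · rw [hi, Pi.single_eq_same, abs_mul, hσ1, mul_one, abs_of_pos hρ]
    linarith
  · rw [Pi.single_eq_of_ne hi, mul_zero, abs_zero]
    norm_num

end Pool.Agent.H734R2.SP
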