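import Pool.Agent.H734R2.SP.Stubs3

set_option autoImplicit false

namespace Pool.Agent.H734R2.SP

open MvPolynomial Filter Topology

theorem IMP_vec (x y r : ℝ) : (![x, y, 0] : Pt) + r • (Pi.single 2 1 : Pt) = ![x, y, r] := by
  funext i
  fin_cases i <;> simp [Pi.single_apply]

theorem IMP_deriv (hl : S_LIN) (g : Poly) (x y r : ℝ) :
    HasDerivAt (fun r : ℝ => ev ![x, y, r] g) (ev ![x, y, r] (pderiv 2 g)) r := by
  have h := hl g ![x, y, 0] (Pi.single 2 1) r
  simp only [IMP_vec] at h
  rw [Fin.sum_univ_three] at h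
  have e0 : (Pi.single 2 1 : Pt) 0 = 0 := by simp [Pi.single_apply]
  have e1 : (Pi.single 2 1 : Pt) 1 = 0 := by simp [Pi.single_apply]
  have e2 : (Pi.single 2 1 : Pt) 2 = 1 := by simp [Pi.single_apply]
  rw [e0, e1, e2, zero_mul, zero_mul, one_mul, zero_add, zero_add] at h
  exact h

theorem IMP_small (hlip : S_LIP) (ξ : MvPolynomial (Fin 2) ℝ)
    (h0 : MvPolynomial.eval (0 : Fin 2 → ℝ) ξ = 0) :
    ∃ K : ℝ, 0 < K ∧ ∀ x y : ℝ, |x| ≤ 1 → |y| ≤ 1 →
      |MvPolynomial.eval ![x, y] ξ| ≤ K * (|x| + |y|) := by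
  obtain ⟨K, hK, h⟩ := hlip (rename Fin.castSucc ξ)
  refine ⟨K, hK, fun x y hx hy => ?_⟩
  have h1 := h ![x, y, 0] 0 (|x| + |y|) (by
    intro i
    fin_cases i
    · exact hx
    · exact hy
    · simp) (by
    intro i
    simp) (by
    intro i
    have := abs_nonneg x
    have := abs_nonneg y
    fin_cases i
    · simp
    · simp
    · simp; positivity)
  have e1 : ev ![x, y, 0] (rename Fin.castSucc ξ) = MvPolynomial.eval ![x, y] ξ := by
    rw [ev, MvPolynomial.eval_rename]
    congr 2
    funext i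
    fin_cases i <;> rfl
  have e2 : ev 0 (rename Fin.castSucc ξ) = 0 := by
    rw [ev, MvPolynomial.eval_rename]
    exact h0
  rw [e1, e2, sub_zero] at h1
  exact h1

theorem IMP_bind (ξ : MvPolynomial (Fin 2) ℝ) (g : Poly) (v : Fin 2 → ℝ) :
    MvPolynomial.eval v (bind₁ ![X 0, X 1, ξ] g) =
      ev ![v 0, v 1, MvPolynomial.eval v ξ] g := by
  show eval₂Hom (RingHom.id ℝ) v (bind₁ _ g) = eval₂Hom (RingHom.id ℝ) _ g
  rw [eval₂Hom_bind₁]
  have : (fun i => eval₂Hom (RingHom.id ℝ) v ((![X 0, X 1, ξ] : Fin 3 → MvPolynomial (Fin 2) ℝ) i))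
      = ![v 0, v 1, MvPolynomial.eval v ξ] := by
    funext i
    fin_cases i
    · simp
    · simp
    · rfl
  rw [this]

theorem t_IMP (hlip : S_LIP) (hl : S_LIN) : S_IMP := by
  intro f hg hb N
  set g := pderiv 2 f with hgdef
  set h := pderiv 2 g with hhdef
  set b := ev 0 h with hbdef
  have hb' : 0 < |b| := abs_pos.2 hb
  induction N with
  | zero =>
    obtain ⟨K, hK, hk⟩ := hlip g
    refine ⟨0, by simp, K, 1, one_pos, fun x y hx hy => ?_⟩
    have h1 := hk ![x, y, 0] 0 1 (by
      intro i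
      fin_cases i
      · exact hx
      · exact hy
      · simp) (by
      intro i
      simp) (by
      intro i
      fin_cases i
      · simpa using hx
      · simpa using hy
      · simp)
    rw [hg, sub_zero] at h1
    simpa using h1
  | succ N ih =>
    obtain ⟨ξ, h0, C, ρ, hρ, hC⟩ := ih
    set ξ' : MvPolynomial (Fin 2) ℝ := ξ - MvPolynomial.C (1 / b) * bind₁ ![X 0, X 1, ξ] g
      with hξ'
    have hev : ∀ v : Fin 2 → ℝ, MvPolynomial.eval v ξ' =
        MvPolynomial.eval v ξ - 1 / b * ev ![v 0, v 1, MvPolynomial.eval v ξ] g := by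
      intro v
      rw [hξ', map_sub, map_mul, MvPolynomial.eval_C, IMP_bind]
    have h0' : MvPolynomial.eval (0 : Fin 2 → ℝ) ξ' = 0 := by
      rw [hev, h0]
      have : (![(0 : Fin 2 → ℝ) 0, (0 : Fin 2 → ℝ) 1, 0] : Pt) = 0 := by
        funext i
        fin_cases i <;> rfl
      rw [this, hg]
      simp
    obtain ⟨K₁, hK₁, hk₁⟩ := IMP_small hlip ξ h0
    obtain ⟨K₂, hK₂, hk₂⟩ := IMP_small hlip ξ' h0'
    obtain ⟨K₃, hK₃, hk₃⟩ := hlip h
    set E := 1 + K₁ + K₂ with hE
    have hEpos : 0 < E := by positivity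
    refine ⟨ξ', h0', C * (K₃ * E / |b|), min (min ρ 1) (1 / (2 * E)), by positivity,
      fun x y hx hy => ?_⟩
    have hx1 : |x| ≤ ρ := hx.trans ((min_le_left _ _).trans (min_le_left _ _))
    have hx2 : |x| ≤ 1 := hx.trans ((min_le_left _ _).trans (min_le_right _ _))
    have hx3 : |x| ≤ 1 / (2 * E) := hx.trans (min_le_right _ _)
    have hy1 : |y| ≤ ρ := hy.trans ((min_le_left _ _).trans (min_le_left _ _))
    have hy2 : |y| ≤ 1 := hy.trans ((min_le_left _ _).trans (min_le_right _ _))
    have hy3 : |y| ≤ 1 / (2 * E) := hy.trans (min_le_right _ _)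
    set s := |x| + |y| with hs
    have hs0 : 0 ≤ s := by positivity
    have hsE : E * s ≤ 1 := by
      have : s ≤ 1 / E := by
        have e : 1 / (2 * E) + 1 / (2 * E) = 1 / E := by field_simp; norm_num
        linarith
      calc E * s ≤ E * (1 / E) := mul_le_mul_of_nonneg_left this hEpos.le
        _ = 1 := by field_simp
    have hz := hk₁ x y hx2 hy2
    have hz' := hk₂ x y hx2 hy2
    have hG := hC x y hx1 hy1
    have hzz : MvPolynomial.eval ![x, y] ξ' = MvPolynomial.eval ![x, y] ξ -
        1 / b * ev ![x, y, MvPolynomial.eval ![x, y] ξ] g := hev ![x, y]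
    generalize MvPolynomial.eval ![x, y] ξ' = z' at *
    generalize MvPolynomial.eval ![x, y] ξ = z at *
    have hKs1 : 0 ≤ K₁ * s := by positivity
    have hKs2 : 0 ≤ K₂ * s := by positivity
    have hEs : E * s = s + K₁ * s + K₂ * s := by rw [hE]; ring
    -- the derivative bound
    have hder : ∀ r ∈ Set.Icc (-(E * s)) (E * s), |ev ![x, y, r] h - b| ≤ K₃ * (E * s) := by
      intro r hr
      have hr' : |r| ≤ E * s := abs_le.2 hr
      have hxs : |x| ≤ E * s := by
        have := abs_nonneg y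
        linarith
      have hys : |y| ≤ E * s := by
        have := abs_nonneg x
        linarith
      exact hk₃ ![x, y, r] 0 (E * s) (by
        intro i
        fin_cases i
        · exact hx2
        · exact hy2
        · exact hr'.trans hsE) (by
        intro i
        simp) (by
        intro i
        fin_cases i
        · simpa using hxs
        · simpa using hys
        · simpa using hr')
    have hmv := Convex.norm_image_sub_le_of_norm_hasDerivWithin_le
      (f := fun r : ℝ => ev ![x, y, r] g - b * r) (f' := fun r : ℝ => ev ![x, y, r] h - b)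
      (C := K₃ * (E * s)) (s := Set.Icc (-(E * s)) (E * s)) (x := z) (y := z')
      (fun r _ => by
        have h1 := (IMP_deriv hl g x y r).sub ((hasDerivAt_id r).const_mul b)
        simp only [mul_one] at h1
        exact h1.hasDerivWithinAt)
      (fun r hr => hder r hr) (convex_Icc _ _)
      (abs_le.1 (by linarith)) (abs_le.1 (by linarith))
    simp only [Real.norm_eq_abs] at hmv
    have hd : z' - z = -(1 / b * ev ![x, y, z] g) := by rw [hzz]; ring
    have e1 : ev ![x, y, z'] g - b * z' - (ev ![x, y, z] g - b * z) = ev ![x, y, z'] g := by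
      have : b * z' - b * z = - ev ![x, y, z] g := by
        rw [← mul_sub, hd]
        field_simp
      linarith
    rw [e1, hd, abs_neg, abs_mul, abs_div, abs_one] at hmv
    calc |ev ![x, y, z'] g| ≤ K₃ * (E * s) * (1 / |b| * |ev ![x, y, z] g|) := hmv
      _ = (K₃ * E / |b|) * s * |ev ![x, y, z] g| := by ring
      _ ≤ (K₃ * E / |b|) * s * (C * s ^ N) := mul_le_mul_of_nonneg_left hG (by positivity)
      _ = C * (K₃ * E / |b|) * s ^ (N + 1) := by ring

end Pool.Agent.H734R2.SP
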