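import Pool.Agent.H734R2.SP.PTB

set_option autoImplicit false

namespace Pool.Agent.H734R2.SP

open MvPolynomial Filter Topology

theorem inter_mon_pos (m : Ex) (x : Pt) (hx : ∀ i, 0 < x i) : 0 < mon m x :=
  Finset.prod_pos fun i _ => pow_pos (hx i) _

theorem inter_le_wt (w : Fin 3 → ℕ) (hw : ∀ i, 1 ≤ w i) (m : Ex) (c : Fin 3) : m c ≤ wt w m := by
  have h1 : w c * m c ≤ wt w m :=
    Finset.single_le_sum (f := fun i => w i * m i) (fun i _ => Nat.zero_le _) (Finset.mem_univ c)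
  exact (Nat.le_mul_of_pos_left _ (hw c)).trans h1

theorem t_INTER : S_INTER := by
  intro w k K c hw ε' hε'
  -- choose η₀
  set δ : ℝ := ε' / 4 * (1 / 2) ^ k with hδ
  have hδ0 : 0 < δ := by positivity
  have hev : ∀ᶠ η in 𝓝 (0 : ℝ), ∀ n ∈ Finset.range (k + 1), |(1 + η) ^ n - 1| ≤ δ := by
    rw [Filter.eventually_all_finset]
    intro n _
    have hc : Tendsto (fun η : ℝ => |(1 + η) ^ n - 1|) (𝓝 0) (𝓝 0) := by
      have : Continuous (fun η : ℝ => |(1 + η) ^ n - 1|) := by fun_prop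
      simpa using this.tendsto 0
    exact (hc.eventually_lt_const hδ0).mono fun η h => h.le
  obtain ⟨r, hr, hrη⟩ := Metric.eventually_nhds_iff.1 hev
  set ε : ℝ := min (1 / 2) (min (ε' / 2 ^ (K + k)) (ε' / (2 * 2 ^ (k + k)))) with hε
  have hε0 : 0 < ε := by positivity
  refine ⟨ε, hε0, min (r / 2) (1 / 2), by positivity, min_le_right _ _, ?_⟩
  intro p q hp hq κ hκ η hη
  have hη1 : |η| ≤ 1 / 2 := hη.trans (min_le_right _ _)
  have hηr : |η| < r := by
    have := hη.trans (min_le_left _ _)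
    linarith
  have hη2 := abs_le.1 hη1
  have hηδ := hrη (y := η) (by rw [Real.dist_eq, sub_zero]; exact hηr)
  obtain ⟨hp0, hp1, hp2⟩ := hp
  obtain ⟨hq0, hq1, hq2⟩ := hq
  obtain ⟨_, _, _, hmon, _, _⟩ := t_PTB c p q hp0 hq0
  have hmon' : ∀ m : Ex, mon m (pt c p q κ η) =
      (mon m q) ^ (1 - κ) * (mon m p) ^ κ * (1 + η) ^ m c :=
    fun m => hmon m κ η (by linarith)
  have h1κ : 0 ≤ 1 - κ := by linarith [hκ.2]
  have hlow : ∀ n : ℕ, (1 / 2 : ℝ) ^ n ≤ (1 + η) ^ n := fun n =>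
    pow_le_pow_left₀ (by norm_num) (by linarith) n
  have hup : ∀ n : ℕ, (1 + η) ^ n ≤ 2 ^ n := fun n =>
    pow_le_pow_left₀ (by linarith) (by linarith) n
  have hG : ∀ m : Ex, 0 < (mon m q) ^ (1 - κ) * (mon m p) ^ κ := fun m =>
    mul_pos (Real.rpow_pos_of_pos (inter_mon_pos m q hq0) _)
      (Real.rpow_pos_of_pos (inter_mon_pos m p hp0) _)
  -- scaled comparison
  have hscale : ∀ (m : Ex) (s : ℝ), 0 < s → (s * mon m q) ^ (1 - κ) * (s * mon m p) ^ κ
      = s * ((mon m q) ^ (1 - κ) * (mon m p) ^ κ) := by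
    intro m s hs
    rw [Real.mul_rpow hs.le (inter_mon_pos m q hq0).le,
      Real.mul_rpow hs.le (inter_mon_pos m p hp0).le]
    have : s ^ (1 - κ) * s ^ κ = s := by
      rw [← Real.rpow_add hs]
      simp
    calc s ^ (1 - κ) * mon m q ^ (1 - κ) * (s ^ κ * mon m p ^ κ)
        = (s ^ (1 - κ) * s ^ κ) * (mon m q ^ (1 - κ) * mon m p ^ κ) := by ring
      _ = _ := by rw [this]
  refine ⟨?_, ?_, ?_⟩
  · intro i
    unfold pt
    have h5 : (0 : ℝ) < (if i = c then 1 + η else 1) := by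
      split_ifs <;> linarith [hη2.1]
    exact mul_pos (mul_pos (Real.rpow_pos_of_pos (hq0 i) _) (Real.rpow_pos_of_pos (hp0 i) _)) h5
  · intro m m' hm' hm hlt
    have e1 := hp1 m m' hm' hm hlt
    have e2 := hq1 m m' hm' hm hlt
    rw [hmon' m, hmon' m']
    have h1 : (mon m' q) ^ (1 - κ) * (mon m' p) ^ κ ≤
        ε * ((mon m q) ^ (1 - κ) * (mon m p) ^ κ) := by
      rw [← hscale m ε hε0]
      exact mul_le_mul (Real.rpow_le_rpow (inter_mon_pos m' q hq0).le e2 h1κ)
        (Real.rpow_le_rpow (inter_mon_pos m' p hp0).le e1 hκ.1)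
        (Real.rpow_nonneg (inter_mon_pos m' p hp0).le _)
        (Real.rpow_nonneg (mul_nonneg hε0.le (inter_mon_pos m q hq0).le) _)
    have hcK : m' c ≤ K := (inter_le_wt w hw m' c).trans hm'
    have hck : m c ≤ k := (inter_le_wt w hw m c).trans hm
    have h2 : (1 + η) ^ m' c ≤ 2 ^ K :=
      (hup _).trans (pow_le_pow_right₀ (by norm_num) hcK)
    have h3 : (1 / 2 : ℝ) ^ k ≤ (1 + η) ^ m c :=
      (pow_le_pow_of_le_one (by norm_num) (by norm_num) hck).trans (hlow _)
    have h4 : ε * 2 ^ K ≤ ε' * (1 / 2) ^ k := by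
      have : ε ≤ ε' / 2 ^ (K + k) := (min_le_right _ _).trans (min_le_left _ _)
      calc ε * 2 ^ K ≤ ε' / 2 ^ (K + k) * 2 ^ K := by gcongr
        _ = ε' * (1 / 2) ^ k := by
            rw [pow_add, one_div, inv_pow]
            field_simp
    calc (mon m' q) ^ (1 - κ) * (mon m' p) ^ κ * (1 + η) ^ m' c
        ≤ (ε * ((mon m q) ^ (1 - κ) * (mon m p) ^ κ)) * 2 ^ K := by
          refine mul_le_mul h1 h2 (pow_nonneg (by linarith) _) ?_
          exact (mul_pos hε0 (hG m)).le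
      _ = ((mon m q) ^ (1 - κ) * (mon m p) ^ κ) * (ε * 2 ^ K) := by ring
      _ ≤ ((mon m q) ^ (1 - κ) * (mon m p) ^ κ) * (ε' * (1 + η) ^ m c) := by
          refine mul_le_mul_of_nonneg_left ?_ (hG m).le
          exact h4.trans (mul_le_mul_of_nonneg_left h3 hε'.le)
      _ = ε' * ((mon m q) ^ (1 - κ) * (mon m p) ^ κ * (1 + η) ^ m c) := by ring
  · intro m m' hm hmm'
    have e1 := abs_le.1 (hp2 m m' hm hmm')
    have e2 := abs_le.1 (hq2 m m' hm hmm')
    have hm' : wt w m' ≤ k := hmm' ▸ hm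
    rw [hmon' m, hmon' m']
    have hεh : ε ≤ 1 / 2 := min_le_left _ _
    set G := (mon m q) ^ (1 - κ) * (mon m p) ^ κ with hGd
    set G' := (mon m' q) ^ (1 - κ) * (mon m' p) ^ κ with hGd'
    have hG1 : G' ≤ (1 + ε) * G := by
      rw [hGd, hGd', ← hscale m (1 + ε) (by linarith)]
      refine mul_le_mul (Real.rpow_le_rpow (inter_mon_pos m' q hq0).le ?_ h1κ)
        (Real.rpow_le_rpow (inter_mon_pos m' p hp0).le ?_ hκ.1)
        (Real.rpow_nonneg (inter_mon_pos m' p hp0).le _)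
        (Real.rpow_nonneg (mul_nonneg (by linarith) (inter_mon_pos m q hq0).le) _)
      · linarith [e2.1]
      · linarith [e1.1]
    have hG2 : (1 - ε) * G ≤ G' := by
      rw [hGd, hGd', ← hscale m (1 - ε) (by linarith)]
      refine mul_le_mul (Real.rpow_le_rpow (mul_nonneg (by linarith)
        (inter_mon_pos m q hq0).le) ?_ h1κ)
        (Real.rpow_le_rpow (mul_nonneg (by linarith) (inter_mon_pos m p hp0).le) ?_ hκ.1)
        (Real.rpow_nonneg (mul_nonneg (by linarith) (inter_mon_pos m p hp0).le) _)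
        (Real.rpow_nonneg (inter_mon_pos m' q hq0).le _)
      · linarith [e2.2]
      · linarith [e1.2]
    have hGpos : 0 < G := hG m
    have hcm : m c ≤ k := (inter_le_wt w hw m c).trans hm
    have hcm' : m' c ≤ k := (inter_le_wt w hw m' c).trans hm'
    set A := (1 + η) ^ m c with hA
    set B := (1 + η) ^ m' c with hB
    have hA1 : |A - 1| ≤ δ := hηδ _ (Finset.mem_range.2 (by omega))
    have hB1 : |B - 1| ≤ δ := hηδ _ (Finset.mem_range.2 (by omega))
    have hAlow : (1 / 2 : ℝ) ^ k ≤ A :=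
      (pow_le_pow_of_le_one (by norm_num) (by norm_num) hcm).trans (hlow _)
    have hBup : B ≤ 2 ^ k := (hup _).trans (pow_le_pow_right₀ (by norm_num) hcm')
    have hB0 : 0 ≤ B := pow_nonneg (by linarith) _
    have hGG' : |G - G'| ≤ ε * G := by
      rw [abs_le]
      constructor <;> nlinarith
    have hAB : |A - B| ≤ ε' / 2 * (1 / 2) ^ k := by
      have : A - B = (A - 1) - (B - 1) := by ring
      rw [this]
      refine (abs_sub _ _).trans ?_
      rw [hδ] at hA1 hB1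
      linarith
    have hεB : ε * B ≤ ε' / 2 * (1 / 2) ^ k := by
      have : ε ≤ ε' / (2 * 2 ^ (k + k)) := (min_le_right _ _).trans (min_le_right _ _)
      calc ε * B ≤ ε' / (2 * 2 ^ (k + k)) * 2 ^ k := by gcongr
        _ = ε' / 2 * (1 / 2) ^ k := by
            rw [pow_add, one_div, inv_pow]
            field_simp
    calc |G * A - G' * B| = |G * (A - B) + (G - G') * B| := by congr 1; ring
      _ ≤ |G * (A - B)| + |(G - G') * B| := abs_add_le _ _
      _ = G * |A - B| + |G - G'| * B := by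
          rw [abs_mul G (A - B), abs_mul (G - G') B, abs_of_pos hGpos, abs_of_nonneg hB0]
      _ ≤ G * (ε' / 2 * (1 / 2) ^ k) + ε * G * B := by gcongr
      _ = G * (ε' / 2 * (1 / 2) ^ k) + G * (ε * B) := by ring
      _ ≤ G * (ε' / 2 * (1 / 2) ^ k) + G * (ε' / 2 * (1 / 2) ^ k) := by gcongr
      _ = ε' * (G * (1 / 2) ^ k) := by ring
      _ ≤ ε' * (G * A) := by gcongr

end Pool.Agent.H734R2.SP
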