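import Pool.Agent.H734R2.SP.Stubs2

set_option autoImplicit false

namespace Pool.Agent.H734R2.SP

open MvPolynomial Filter Topology

namespace LATaux

lemma wt_add (w : Fin 3 → ℕ) (a b : Ex) : wt w (a + b) = wt w a + wt w b := by
  simp [wt, mul_add, Finset.sum_add_distrib]

lemma wt_smul (w : Fin 3 → ℕ) (n : ℕ) (a : Ex) : wt w (n • a) = n * wt w a := by
  simp only [wt, Finsupp.smul_apply, smul_eq_mul, Finset.mul_sum]
  refine Finset.sum_congr rfl fun i _ => ?_
  ring

lemma wt_single (w : Fin 3 → ℕ) (i : Fin 3) : wt w (Finsupp.single i 1) = w i := by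
  simp [wt, Finsupp.single_apply]

lemma eq_zero_of_wt (w : Fin 3 → ℕ) (hw : ∀ i, 1 ≤ w i) (a : Ex) (h : wt w a = 0) : a = 0 := by
  ext i
  have h1 : w i * a i = 0 := by
    have := (Finset.sum_eq_zero_iff (s := Finset.univ) (f := fun i => w i * a i)).1 h i
      (Finset.mem_univ i)
    exact this
  have h2 := hw i
  rcases Nat.mul_eq_zero.1 h1 with h3 | h3
  · omega
  · simpa using h3

end LATaux

open LATaux

theorem t_LAT : S_LAT := by
  intro w hw u v huv hwt hmin
  have hdisj : ∀ i, u i = 0 ∨ v i = 0 := by
    intro i
    by_contra hcon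
    push Not at hcon
    obtain ⟨h1, h2⟩ := hcon
    have e1 : ∀ x : Ex, x i ≠ 0 → x = (x - Finsupp.single i 1) + Finsupp.single i 1 := by
      intro x hx
      ext j
      by_cases hj : j = i
      · subst hj
        simp
        omega
      · have : (Finsupp.single i 1 : Ex) j = 0 := by
          rw [Finsupp.single_apply, if_neg (fun h => hj h.symm)]
        simp [this]
    have hu := e1 u h1
    have hv := e1 v h2
    have w1 : wt w u = wt w (u - Finsupp.single i 1) + w i := by
      conv_lhs => rw [hu]
      rw [wt_add, wt_single]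
    have w2 : wt w v = wt w (v - Finsupp.single i 1) + w i := by
      conv_lhs => rw [hv]
      rw [wt_add, wt_single]
    have hne : u - Finsupp.single i 1 ≠ v - Finsupp.single i 1 := by
      intro h
      apply huv
      rw [hu, hv, h]
    have := hmin _ _ hne (by omega)
    have := hw i
    omega
  refine ⟨hdisj, ?_⟩
  -- primitivity
  have hprim : ∀ g : ℕ, (∀ i, (g : ℤ) ∣ ((u i : ℤ) - (v i : ℤ))) → g = 1 := by
    intro g hg
    have hgu : ∀ i, g ∣ u i := by
      intro i
      rcases hdisj i with h | h
      · rw [h]; exact dvd_zero _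
      · have := hg i
        rw [h] at this
        simpa using Int.natCast_dvd_natCast.1 (by simpa using this)
    have hgv : ∀ i, g ∣ v i := by
      intro i
      rcases hdisj i with h | h
      · have := hg i
        rw [h] at this
        have h3 : (g : ℤ) ∣ (v i : ℤ) := by
          have := dvd_neg.2 this
          simpa using this
        exact Int.natCast_dvd_natCast.1 h3
      · rw [h]; exact dvd_zero _
    choose U hU using hgu
    choose V hV using hgv
    have eu : u = g • (Finsupp.equivFunOnFinite.symm U) := by
      ext i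
      simp [hU]
    have ev' : v = g • (Finsupp.equivFunOnFinite.symm V) := by
      ext i
      simp [hV]
    have hne : (Finsupp.equivFunOnFinite.symm U : Ex) ≠ Finsupp.equivFunOnFinite.symm V := by
      intro h
      apply huv
      rw [eu, ev', h]
    have hw1 : wt w u = g * wt w (Finsupp.equivFunOnFinite.symm U) := by
      conv_lhs => rw [eu]
      rw [wt_smul]
    have hw2 : wt w v = g * wt w (Finsupp.equivFunOnFinite.symm V) := by
      conv_lhs => rw [ev']
      rw [wt_smul]
    have hg0 : g ≠ 0 := by
      intro h
      apply huv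
      rw [eu, ev', h]
      simp
    have hWW : wt w (Finsupp.equivFunOnFinite.symm U) = wt w (Finsupp.equivFunOnFinite.symm V) := by
      have : g * wt w (Finsupp.equivFunOnFinite.symm U) = g * wt w (Finsupp.equivFunOnFinite.symm V) := by
        rw [← hw1, ← hw2, hwt]
      exact Nat.eq_of_mul_eq_mul_left (Nat.pos_of_ne_zero hg0) this
    have hle := hmin _ _ hne hWW
    by_contra hg1
    have hg2 : 2 ≤ g := by omega
    have hW0 : wt w (Finsupp.equivFunOnFinite.symm U) = 0 := by
      rw [hw1] at hle
      nlinarith
    apply hne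
    rw [eq_zero_of_wt w hw _ hW0, eq_zero_of_wt w hw _ (hWW.symm.trans hW0)]
  intro m m' hmm ⟨p, q, hq, hpq⟩
  -- q divides p
  have hqp : q ∣ p := by
    set d : Fin 3 → ℤ := fun i => (u i : ℤ) - (v i : ℤ) with hd
    have hgcd : Finset.univ.gcd d = 1 := by
      have h0 : (0 : ℤ) ≤ Finset.univ.gcd d := by
        exact (Int.nonneg_iff_normalize_eq_self _).1 Finset.normalize_gcd
      obtain ⟨n, hn⟩ := Int.eq_ofNat_of_zero_le h0
      have : n = 1 := hprim n (fun i => by
        rw [← hn]
        exact Finset.gcd_dvd (Finset.mem_univ i))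
      rw [hn, this]
      rfl
    have h1 : q ∣ Finset.univ.gcd (fun i => p * d i) := by
      refine Finset.dvd_gcd fun i _ => ?_
      rw [← hpq i]
      exact dvd_mul_right _ _
    rw [Finset.gcd_mul_left, hgcd, mul_one] at h1
    exact (dvd_normalize_iff).1 h1
  obtain ⟨a, ha⟩ := hqp
  have hma : ∀ i, (m i : ℤ) - (m' i : ℤ) = a * ((u i : ℤ) - (v i : ℤ)) := by
    intro i
    have := hpq i
    rw [ha, mul_assoc] at this
    exact mul_left_cancel₀ hq this
  rcases Int.eq_nat_or_neg a with ⟨n, rfl | rfl⟩
  · refine ⟨m - n • u, n, Or.inl ⟨?_, ?_⟩⟩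
    · ext i
      have h1 := hma i
      have h2 : n * u i ≤ m i := by
        rcases hdisj i with h | h
        · rw [h]; simp
        · rw [h] at h1
          have : ((n * u i : ℕ) : ℤ) ≤ m i := by push_cast; push_cast at h1; linarith [Int.natCast_nonneg (m' i)]
          exact_mod_cast this
      simp
      omega
    · ext i
      have h1 := hma i
      have h2 : n * u i ≤ m i := by
        rcases hdisj i with h | h
        · rw [h]; simp
        · rw [h] at h1
          have : ((n * u i : ℕ) : ℤ) ≤ m i := by push_cast; push_cast at h1; linarith [Int.natCast_nonneg (m' i)]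
          exact_mod_cast this
      have h3 : ((m i - n * u i : ℕ) : ℤ) = (m i : ℤ) - n * u i := by
        rw [Nat.cast_sub h2]; push_cast; ring
      simp only [Finsupp.add_apply, Finsupp.tsub_apply, Finsupp.smul_apply, smul_eq_mul]
      zify [h2]
      linarith
  · refine ⟨m - n • v, n, Or.inr ⟨?_, ?_⟩⟩
    · ext i
      have h1 := hma i
      have h2 : n * v i ≤ m i := by
        rcases hdisj i with h | h
        · rw [h] at h1
          have : ((n * v i : ℕ) : ℤ) ≤ m i := by push_cast; push_cast at h1; linarith [Int.natCast_nonneg (m' i)]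
          exact_mod_cast this
        · rw [h]; simp
      simp
      omega
    · ext i
      have h1 := hma i
      have h2 : n * v i ≤ m i := by
        rcases hdisj i with h | h
        · rw [h] at h1
          have : ((n * v i : ℕ) : ℤ) ≤ m i := by push_cast; push_cast at h1; linarith [Int.natCast_nonneg (m' i)]
          exact_mod_cast this
        · rw [h]; simp
      simp only [Finsupp.add_apply, Finsupp.tsub_apply, Finsupp.smul_apply, smul_eq_mul]
      zify [h2]
      linarith

end Pool.Agent.H734R2.SP
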