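import Pool.Agent.H734R2.SP.Stubs

set_option autoImplicit false

namespace Pool.Agent.H734R2.SP

open MvPolynomial Filter Topology

private lemma LEMA_aux (L R : ℝ) (hLR : L ≤ R) : ∀ (N : ℕ) (G : Polynomial ℝ), G.natDegree ≤ N →
    (∀ k ≤ N, 0 < (Polynomial.derivative^[k] G).eval L * (Polynomial.derivative^[k] G).eval R) →
    (∀ y ∈ Set.Icc L R, 0 < G.eval y) ∨ (∀ y ∈ Set.Icc L R, G.eval y < 0) := by
  intro N
  induction N with
  | zero =>
    intro G hG h
    have h0 := h 0 le_rfl
    rw [Function.iterate_zero_apply] at h0
    rw [Polynomial.eq_C_of_natDegree_le_zero hG] at h0 ⊢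
    simp only [Polynomial.eval_C] at h0 ⊢
    rcases lt_trichotomy (G.coeff 0) 0 with h1 | h1 | h1
    · exact Or.inr fun _ _ => h1
    · rw [h1] at h0; simp at h0
    · exact Or.inl fun _ _ => h1
  | succ N ih =>
    intro G hG h
    have hd : G.derivative.natDegree ≤ N := by
      have := Polynomial.natDegree_derivative_le G
      omega
    have h0 := h 0 (Nat.zero_le _)
    rw [Function.iterate_zero_apply] at h0
    have hL : L ∈ Set.Icc L R := ⟨le_rfl, hLR⟩
    have hR : R ∈ Set.Icc L R := ⟨hLR, le_rfl⟩
    rcases ih G.derivative hd (fun k hk => by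
      have := h (k + 1) (by omega)
      rwa [Function.iterate_succ_apply] at this) with h1 | h1
    · have hmono : MonotoneOn (fun y => G.eval y) (Set.Icc L R) := by
        apply monotoneOn_of_deriv_nonneg (convex_Icc L R) (Polynomial.continuous G).continuousOn
          (Polynomial.differentiable G).differentiableOn
        intro x hx
        rw [Polynomial.deriv]
        exact (h1 x (interior_subset hx)).le
      rcases lt_or_ge 0 (G.eval L) with h2 | h2
      · exact Or.inl fun y hy => h2.trans_le (hmono hL hy hy.1)
      · right
        intro y hy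
        have h3 : G.eval R < 0 := by
          by_contra hcon
          rw [not_lt] at hcon
          nlinarith [mul_nonneg (neg_nonneg.2 h2) hcon]
        exact (hmono hy hR hy.2).trans_lt h3
    · have hmono : AntitoneOn (fun y => G.eval y) (Set.Icc L R) := by
        apply antitoneOn_of_deriv_nonpos (convex_Icc L R) (Polynomial.continuous G).continuousOn
          (Polynomial.differentiable G).differentiableOn
        intro x hx
        rw [Polynomial.deriv]
        exact (h1 x (interior_subset hx)).le
      rcases lt_or_ge 0 (G.eval R) with h2 | h2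
      · exact Or.inl fun y hy => h2.trans_le (hmono hy hR hy.2)
      · right
        intro y hy
        have h3 : G.eval L < 0 := by
          by_contra hcon
          rw [not_lt] at hcon
          nlinarith [mul_nonneg (neg_nonneg.2 h2) hcon]
        exact (hmono hL hy hy.1).trans_lt h3

theorem t_LEMA : S_LEMA := by
  intro G N L R hLR hG h h0 y hy
  rcases LEMA_aux L R hLR N G hG h with h1 | h1
  · exact h1 y hy
  · exact absurd (h1 L ⟨le_rfl, hLR⟩) (not_lt.2 h0.le)

end Pool.Agent.H734R2.SP
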