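import Pool.Agent.H734R2.SP.Stubs

set_option autoImplicit false

namespace Pool.Agent.H734R2.SP

open Polynomial in
/-- the correction polynomial -/
noncomputable def corrB (a : ℕ → ℝ) (L : ℝ) (N : ℕ) : Polynomial ℝ :=
  ∑ k ∈ Finset.Icc 1 N, C (a k / (k.factorial : ℝ)) * (X - C L) ^ k

open Polynomial in
lemma corrB_deriv (a : ℕ → ℝ) (L : ℝ) (N j : ℕ) (y : ℝ) :
    (derivative^[j] (corrB a L N)).eval y =
      ∑ k ∈ Finset.Icc 1 N,
        if j ≤ k then a k * (y - L) ^ (k - j) / ((k - j).factorial : ℝ) else 0 := by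
  unfold corrB
  rw [iterate_derivative_sum, eval_finsetSum]
  refine Finset.sum_congr rfl fun k _ => ?_
  rw [iterate_derivative_C_mul, iterate_derivative_X_sub_pow]
  simp only [nsmul_eq_mul, eval_mul, eval_C, eval_natCast, eval_pow, eval_sub, eval_X]
  split_ifs with h
  · have h1 : (((k - j).factorial : ℕ) : ℝ) * (k.descFactorial j : ℝ) = (k.factorial : ℝ) := by
      exact_mod_cast Nat.factorial_mul_descFactorial h
    have h2 : ((k - j).factorial : ℝ) ≠ 0 := by positivity
    have h3 : (k.factorial : ℝ) ≠ 0 := by positivity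
    field_simp
    rw [← h1]; ring
  · rw [Nat.descFactorial_of_lt (by omega)]; simp

lemma corrB_natDegree (a : ℕ → ℝ) (L : ℝ) (N : ℕ) : (corrB a L N).natDegree ≤ N := by
  unfold corrB
  refine Polynomial.natDegree_sum_le_of_forall_le _ _ fun k hk => ?_
  refine (Polynomial.natDegree_C_mul_le _ _).trans ?_
  refine (Polynomial.natDegree_pow_le).trans ?_
  rw [Polynomial.natDegree_X_sub_C]
  have := (Finset.mem_Icc.1 hk).2
  omega

/-- geometric bound for the tail -/
lemma geoB (N : ℕ) : ∀ j : ℕ, ∑ k ∈ Finset.Ioc j (j + N), (1 / 2 : ℝ) ^ (k - j) = 1 - (1/2) ^ N := by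
  intro j
  induction N with
  | zero => simp
  | succ n ih =>
    rw [← add_assoc, Finset.sum_Ioc_succ_top (by omega), ih]
    have : j + n + 1 - j = n + 1 := by omega
    rw [this, pow_succ]; ring

lemma tailB (a : ℕ → ℝ) (A L y : ℝ) (hA : 0 < A) (ha : ∀ k, |a k| ≤ A) (h0 : 0 ≤ y - L)
    (h1 : y - L ≤ 1 / 2) (N j : ℕ) :
    |∑ k ∈ Finset.Ioc j N, a k * (y - L) ^ (k - j) / ((k - j).factorial : ℝ)| < A := by
  have hb : ∀ k ∈ Finset.Ioc j N, |a k * (y - L) ^ (k - j) / ((k - j).factorial : ℝ)| ≤
      A * (1 / 2) ^ (k - j) := by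
    intro k _
    rw [abs_div, abs_mul, abs_of_nonneg (pow_nonneg h0 _),
      abs_of_pos (by positivity : (0 : ℝ) < ((k - j).factorial : ℝ))]
    have hf : (1 : ℝ) ≤ ((k - j).factorial : ℝ) := by
      exact_mod_cast Nat.one_le_iff_ne_zero.2 (Nat.factorial_ne_zero _)
    have hp : (y - L) ^ (k - j) ≤ (1 / 2 : ℝ) ^ (k - j) := pow_le_pow_left₀ h0 h1 _
    have hm : |a k| * (y - L) ^ (k - j) ≤ A * (1 / 2) ^ (k - j) :=
      mul_le_mul (ha k) hp (pow_nonneg h0 _) hA.le
    refine (div_le_self ?_ hf).trans hm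
    exact mul_nonneg (abs_nonneg _) (pow_nonneg h0 _)
  refine (Finset.abs_sum_le_sum_abs _ _).trans_lt ((Finset.sum_le_sum hb).trans_lt ?_)
  rw [← Finset.mul_sum]
  rcases le_or_gt N j with h | h
  · rw [Finset.Ioc_eq_empty (by omega)]; simpa using hA
  · obtain ⟨n, rfl⟩ := Nat.exists_eq_add_of_lt h
    rw [add_assoc, geoB]
    have : (0 : ℝ) < (1 / 2) ^ (n + 1) := by positivity
    nlinarith

/-- value of the derivatives of the correction: main coefficient plus tail -/
lemma corrB_split (a : ℕ → ℝ) (L : ℝ) (N j : ℕ) (y : ℝ) (hj : 1 ≤ j) (hN : j ≤ N) :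
    (Polynomial.derivative^[j] (corrB a L N)).eval y =
      a j + ∑ k ∈ Finset.Ioc j N, a k * (y - L) ^ (k - j) / ((k - j).factorial : ℝ) := by
  rw [corrB_deriv, ← Finset.sum_filter]
  have : (Finset.Icc 1 N).filter (fun k => j ≤ k) = insert j (Finset.Ioc j N) := by
    ext k; simp only [Finset.mem_filter, Finset.mem_Icc, Finset.mem_insert, Finset.mem_Ioc]; omega
  rw [this, Finset.sum_insert (by simp)]
  simp

lemma corrB_zero (a : ℕ → ℝ) (L : ℝ) (N : ℕ) (y : ℝ) :
    (corrB a L N).eval y =
      ∑ k ∈ Finset.Ioc 0 N, a k * (y - L) ^ (k - 0) / ((k - 0).factorial : ℝ) := by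
  have h := corrB_deriv a L N 0 y
  simp only [Function.iterate_zero, id_eq, Nat.zero_le, if_true] at h
  rw [h]
  refine Finset.sum_congr ?_ fun _ _ => rfl
  ext k; simp only [Finset.mem_Icc, Finset.mem_Ioc]; omega

lemma tail_at_L (a : ℕ → ℝ) (L : ℝ) (N j : ℕ) :
    ∑ k ∈ Finset.Ioc j N, a k * (L - L) ^ (k - j) / ((k - j).factorial : ℝ) = 0 := by
  refine Finset.sum_eq_zero fun k hk => ?_
  have := (Finset.mem_Ioc.1 hk).1
  rw [sub_self, zero_pow (by omega)]; simp

/-- the case `F(L) ≤ F(R)` -/
lemma lembLe (hA : S_LEMA) (F : Polynomial ℝ) (L R ε c : ℝ) (hLR : L ≤ R) (hh : R - L ≤ 1 / 2)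
    (he : 0 < ε) (hc : ε ≤ c / 16) (he1 : ε ≤ 1 / 16) (hL : 0 < F.eval L) (hle : F.eval L ≤ F.eval R)
    (hk : ∀ k : ℕ, 1 ≤ k →
    (|(Polynomial.derivative^[k] F).eval L| ≤ ε * F.eval L ∧
      |(Polynomial.derivative^[k] F).eval R| ≤ ε * F.eval R) ∨
    (c * F.eval L ≤ (Polynomial.derivative^[k] F).eval L ∧
      c * F.eval R ≤ (Polynomial.derivative^[k] F).eval R) ∨
    (c * F.eval L ≤ - (Polynomial.derivative^[k] F).eval L ∧
      c * F.eval R ≤ - (Polynomial.derivative^[k] F).eval R)) :
    ∀ y ∈ Set.Icc L R, 0 < F.eval y := by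
  classical
  set m := F.eval L with hm
  set N := F.natDegree with hN
  set A := 2 * ε * m with hAdef
  have hApos : 0 < A := by positivity
  have hcpos : 0 < c := by linarith
  let a : ℕ → ℝ := fun k =>
    if |(Polynomial.derivative^[k] F).eval L| ≤ ε * m then
      (if 0 ≤ (Polynomial.derivative^[k] F).eval R then A else -A) else 0
  have ha : ∀ k, |a k| ≤ A := by
    intro k
    simp only [a]
    split_ifs
    · rw [abs_of_pos hApos]
    · rw [abs_neg, abs_of_pos hApos]
    · simpa using hApos.le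
  have htail : ∀ (y : ℝ), y ∈ Set.Icc L R → ∀ j : ℕ,
      |∑ k ∈ Finset.Ioc j N, a k * (y - L) ^ (k - j) / ((k - j).factorial : ℝ)| < A := by
    intro y hy j
    exact tailB a A L y hApos ha (by linarith [hy.1]) (by linarith [hy.2]) N j
  set G : Polynomial ℝ := F - Polynomial.C (m / 2) + corrB a L N with hG
  have hderiv : ∀ j : ℕ, 1 ≤ j → j ≤ N → ∀ y : ℝ, (Polynomial.derivative^[j] G).eval y =
      (Polynomial.derivative^[j] F).eval y + (a j +
        ∑ k ∈ Finset.Ioc j N, a k * (y - L) ^ (k - j) / ((k - j).factorial : ℝ)) := by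
    intro j hj hjN y
    rw [hG, iterate_map_add, Polynomial.iterate_derivative_sub,
      Polynomial.iterate_derivative_C (by omega), sub_zero, Polynomial.eval_add,
      corrB_split a L N j y hj hjN]
  have hG0 : ∀ y : ℝ, G.eval y = F.eval y - m / 2 +
      ∑ k ∈ Finset.Ioc 0 N, a k * (y - L) ^ (k - 0) / ((k - 0).factorial : ℝ) := by
    intro y
    rw [hG, Polynomial.eval_add, Polynomial.eval_sub, Polynomial.eval_C, corrB_zero]
  have hGdeg : G.natDegree ≤ N := by
    rw [hG]
    refine (Polynomial.natDegree_add_le _ _).trans (max_le ?_ (corrB_natDegree a L N))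
    refine (Polynomial.natDegree_sub_le _ _).trans (max_le le_rfl ?_)
    simp
  have hGL : G.eval L = m / 2 := by
    rw [hG0, tail_at_L]; ring
  have hAm : A ≤ m / 8 := by rw [hAdef]; nlinarith
  have hcA : 8 * A ≤ c * m := by
    rw [hAdef]
    have : 16 * ε ≤ c := by linarith
    nlinarith
  have hpos : ∀ k ≤ N, 0 < (Polynomial.derivative^[k] G).eval L *
      (Polynomial.derivative^[k] G).eval R := by
    intro k hkN
    rcases Nat.eq_zero_or_pos k with rfl | hk1
    · simp only [Function.iterate_zero, id_eq]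
      rw [hGL, hG0]
      have h1 := htail R ⟨hLR, le_rfl⟩ 0
      have h2 := (abs_lt.1 h1).1
      refine mul_pos (by positivity) ?_
      linarith
    · rw [hderiv k hk1 hkN, hderiv k hk1 hkN, tail_at_L, add_zero]
      have h1 := htail R ⟨hLR, le_rfl⟩ k
      have h2 := (abs_lt.1 h1).1
      have h3 := (abs_lt.1 h1).2
      set T := ∑ i ∈ Finset.Ioc k N, a i * (R - L) ^ (i - k) / ((i - k).factorial : ℝ) with hT
      by_cases hb : |(Polynomial.derivative^[k] F).eval L| ≤ ε * m
      · have hb1 := (abs_le.1 hb).1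
        have hb2 := (abs_le.1 hb).2
        have hem : ε * m = A / 2 := by rw [hAdef]; ring
        by_cases hs : 0 ≤ (Polynomial.derivative^[k] F).eval R
        · have hak : a k = A := by simp only [a]; rw [if_pos hb, if_pos hs]
          rw [hak]
          refine mul_pos ?_ ?_ <;> linarith
        · have hak : a k = -A := by simp only [a]; rw [if_pos hb, if_neg hs]
          rw [hak]
          push Not at hs
          refine mul_pos_of_neg_of_neg ?_ ?_ <;> linarith
      · have hak : a k = 0 := by simp only [a]; rw [if_neg hb]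
        rw [hak]
        have hcR : c * m ≤ c * F.eval R := mul_le_mul_of_nonneg_left hle hcpos.le
        have hcm : 0 < c * m := mul_pos hcpos hL
        rcases hk k hk1 with h | h | h
        · exact absurd h.1 hb
        · refine mul_pos ?_ ?_ <;> linarith [h.1, h.2]
        · refine mul_pos_of_neg_of_neg ?_ ?_ <;> linarith [h.1, h.2]
  intro y hy
  have hGy := hA G N L R hLR hGdeg hpos (by rw [hGL]; positivity) y hy
  rw [hG0] at hGy
  have h1 := htail y hy 0
  have h3 := (abs_lt.1 h1).2
  linarith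

open Polynomial in
lemma iter_reflect (F : Polynomial ℝ) (s : ℝ) (k : ℕ) :
    derivative^[k] (F.comp (C s - X)) = (-1) ^ k * (derivative^[k] F).comp (C s - X) := by
  induction k with
  | zero => simp
  | succ n ih =>
    rw [Function.iterate_succ_apply', ih, Function.iterate_succ_apply']
    have h1 : derivative ((-1 : Polynomial ℝ) ^ n) = 0 := by
      have : ((-1 : Polynomial ℝ) ^ n) = C ((-1 : ℝ) ^ n) := by simp
      rw [this, derivative_C]
    rw [derivative_mul, h1, zero_mul, zero_add, derivative_comp, derivative_sub, derivative_C,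
      derivative_X, zero_sub, pow_succ]
    ring

theorem t_LEMB : S_LEMA → S_LEMB := by
  intro hA F L R ε c hLR hh he hc he1 hL hR hk
  rcases le_total (F.eval L) (F.eval R) with hle | hle
  · exact lembLe hA F L R ε c hLR hh he hc he1 hL hle hk
  · set F' := F.comp (Polynomial.C (L + R) - Polynomial.X) with hF'
    have hev : ∀ y : ℝ, F'.eval y = F.eval (L + R - y) := by
      intro y; rw [hF', Polynomial.eval_comp]; simp
    have hevk : ∀ (k : ℕ) (y : ℝ), (Polynomial.derivative^[k] F').eval y =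
        (-1) ^ k * (Polynomial.derivative^[k] F).eval (L + R - y) := by
      intro k y
      rw [hF', iter_reflect]
      simp [Polynomial.eval_comp]
    have e1 : L + R - L = R := by ring
    have e2 : L + R - R = L := by ring
    have hFL : F'.eval L = F.eval R := by rw [hev, e1]
    have hFR : F'.eval R = F.eval L := by rw [hev, e2]
    have key := lembLe hA F' L R ε c hLR hh he hc he1 (by rw [hFL]; exact hR)
      (by rw [hFL, hFR]; exact hle) (by
        intro k hk1
        rw [hevk, hevk, e1, e2, hFL, hFR]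
        rcases Nat.even_or_odd k with hev2 | hodd
        · rw [hev2.neg_one_pow, one_mul, one_mul]
          rcases hk k hk1 with h | h | h
          · exact Or.inl ⟨h.2, h.1⟩
          · exact Or.inr (Or.inl ⟨h.2, h.1⟩)
          · exact Or.inr (Or.inr ⟨h.2, h.1⟩)
        · rw [hodd.neg_one_pow]
          simp only [neg_mul, one_mul, abs_neg, neg_neg]
          rcases hk k hk1 with h | h | h
          · exact Or.inl ⟨h.2, h.1⟩
          · exact Or.inr (Or.inr ⟨h.2, h.1⟩)
          · exact Or.inr (Or.inl ⟨h.2, h.1⟩))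
    intro y hy
    have := key (L + R - y) ⟨by linarith [hy.2], by linarith [hy.1]⟩
    rw [hev] at this
    simpa using this

end Pool.Agent.H734R2.SP
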