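import Pool.Agent.H734R2.SP.Stubs3

set_option autoImplicit false

namespace Pool.Agent.H734R2.SP

open MvPolynomial Filter Topology

theorem LIN_X (x w : Pt) (r : ℝ) (i : Fin 3) :
    HasDerivAt (fun r : ℝ => ev (x + r • w) (X i)) (w i) r := by
  have h : (fun r : ℝ => ev (x + r • w) (X i)) = fun r : ℝ => x i + r * w i := by
    funext r
    simp [ev]
  rw [h]
  have h1 : HasDerivAt (fun r : ℝ => r * w i) (1 * w i) r := (hasDerivAt_id r).mul_const (w i)
  rw [one_mul] at h1
  exact h1.const_add (x i)

theorem t_LIN : S_LIN := by
  intro f x w r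
  induction f using MvPolynomial.induction_on with
  | C a =>
    have h : (fun r : ℝ => ev (x + r • w) (C a)) = fun _ : ℝ => a := by
      funext r
      simp [ev]
    rw [h]
    have h2 : ∑ j, w j * ev (x + r • w) (pderiv j (C a)) = 0 := by
      simp [ev]
    rw [h2]
    exact hasDerivAt_const r a
  | add p q hp hq =>
    have h := hp.add hq
    have h1 : (fun r : ℝ => ev (x + r • w) (p + q)) =
        (fun r : ℝ => ev (x + r • w) p) + (fun r : ℝ => ev (x + r • w) q) := by
      funext r
      simp [ev]
    have h2 : ∑ j, w j * ev (x + r • w) (pderiv j (p + q)) =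
        ∑ j, w j * ev (x + r • w) (pderiv j p) + ∑ j, w j * ev (x + r • w) (pderiv j q) := by
      rw [← Finset.sum_add_distrib]
      refine Finset.sum_congr rfl fun j _ => ?_
      simp only [ev, map_add]
      ring
    rw [h1, h2]
    exact h
  | mul_X p i hp =>
    have h := hp.mul (LIN_X x w r i)
    have h1 : (fun r : ℝ => ev (x + r • w) (p * X i)) =
        (fun r : ℝ => ev (x + r • w) p) * (fun r : ℝ => ev (x + r • w) (X i)) := by
      funext r
      simp [ev]
    have h2 : ∑ j, w j * ev (x + r • w) (pderiv j (p * X i)) =
        (∑ j, w j * ev (x + r • w) (pderiv j p)) * ev (x + r • w) (X i) +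
          ev (x + r • w) p * w i := by
      have h3 : ∀ j, w j * ev (x + r • w) (pderiv j (p * X i)) =
          w j * ev (x + r • w) (pderiv j p) * ev (x + r • w) (X i) +
            (if j = i then ev (x + r • w) p * w i else 0) := by
        intro j
        rw [Derivation.leibniz, smul_eq_mul, smul_eq_mul, pderiv_X]
        by_cases hji : j = i
        · subst hji
          simp only [ev, Pi.single_eq_same, map_add, map_mul, map_one, if_true]
          ring
        · rw [Pi.single_eq_of_ne (Ne.symm hji), if_neg hji]
          simp only [ev, map_add, map_mul, map_zero]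
          ring
      rw [Finset.sum_congr rfl fun j _ => h3 j, Finset.sum_add_distrib, ← Finset.sum_mul,
        Finset.sum_ite_eq' Finset.univ i, if_pos (Finset.mem_univ i)]
    rw [h1, h2]
    exact h

end Pool.Agent.H734R2.SP
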