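import Pool.Agent.H734R2.SP.Stubs2

set_option autoImplicit false

namespace Pool.Agent.H734R2.SP

open MvPolynomial Filter Topology

theorem linr_mon_pos (m : Ex) (x : Pt) (hx : ∀ i, 0 < x i) : 0 < mon m x :=
  Finset.prod_pos fun i _ => pow_pos (hx i) _

theorem linr_exp1 (z : ℝ) : |Real.exp z - 1| ≤ |z| * Real.exp |z| := by
  rcases le_total 0 z with h | h
  · rw [abs_of_nonneg h, abs_of_nonneg (by linarith [Real.add_one_le_exp z])]
    have h1 := Real.add_one_le_exp (-z)
    have h2 : Real.exp z * Real.exp (-z) = 1 := by rw [← Real.exp_add]; simp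
    have h3 := Real.exp_pos z
    nlinarith
  · rw [abs_of_nonpos h, abs_of_nonpos (by linarith [Real.exp_le_one_iff.2 h])]
    have h1 := Real.add_one_le_exp z
    have h2 : 1 ≤ Real.exp (-z) := Real.one_le_exp (by linarith)
    nlinarith

theorem linr_exp2 (z : ℝ) : |Real.exp z - 1 - z| ≤ z ^ 2 * Real.exp |z| := by
  have h0 := Real.add_one_le_exp z
  rw [abs_of_nonneg (by linarith)]
  rcases le_total 0 z with h | h
  · rw [abs_of_nonneg h]
    have h1 := Real.add_one_le_exp (-z)
    have h2 : Real.exp z * Real.exp (-z) = 1 := by rw [← Real.exp_add]; simp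
    have h3 := Real.exp_pos z
    have h4 : Real.exp z - 1 ≤ z * Real.exp z := by nlinarith
    have h5 : z * (Real.exp z - 1) ≤ z * (z * Real.exp z) := mul_le_mul_of_nonneg_left h4 h
    nlinarith
  · rw [abs_of_nonpos h]
    -- exp z - 1 - z ≤ z^2 for z ≤ 0
    have h1 := Real.add_one_le_exp (-z)
    have h2 : Real.exp z * Real.exp (-z) = 1 := by rw [← Real.exp_add]; simp
    have h3 := Real.exp_pos z
    have h4 : 1 ≤ Real.exp (-z) := Real.one_le_exp (by linarith)
    have h5 : Real.exp z - 1 - z ≤ z ^ 2 := by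
      have h6 : Real.exp z * (1 - z) ≤ 1 := by nlinarith
      -- exp z ≤ 1/(1-z) ≤ 1 + z + z^2
      have h7 : 0 < 1 - z := by linarith
      have h8 : 1 ≤ (1 + z + z ^ 2) * (1 - z) := by nlinarith [mul_nonneg (sq_nonneg z) (neg_nonneg.2 h)]
      have h9 : Real.exp z * (1 - z) ≤ (1 + z + z ^ 2) * (1 - z) := h6.trans h8
      have := le_of_mul_le_mul_right h9 h7
      linarith
    nlinarith [sq_nonneg z]

theorem t_LINR : S_LINR := by
  intro w k hw a b c hab hac hbc u v h₁ huv huk hh₁
  set W : Ex → ℝ := fun m => (m b : ℝ) + m c with hW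
  have hW0 : ∀ m, 0 ≤ W m := fun m => by simp only [hW]; positivity
  set K : ℕ := h₁.support.sup (fun m => wt w m) with hK
  set S : ℝ := ∑ m ∈ h₁.support, |coeff m h₁| * (W m * Real.exp (2 * W m)) with hS
  have hS0 : 0 ≤ S := Finset.sum_nonneg fun m _ =>
    mul_nonneg (abs_nonneg _) (mul_nonneg (hW0 m) (Real.exp_pos _).le)
  set C : ℝ := W u * Real.exp (2 * W u) + 2 * W u ^ 2 * Real.exp (2 * W u)
    + 2 * W v ^ 2 * Real.exp (2 * W v) + S + 1 with hC
  have hC0 : 0 < C := by
    have h1 := hW0 u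
    have h2 := hW0 v
    have := Real.exp_pos (2 * W u)
    have := Real.exp_pos (2 * W v)
    positivity
  refine ⟨K, C, hC0, ?_⟩
  intro ε hε hε1 p hp δ₁ δ₂ hδ₁ hδ₂ x hxa hxb hxc
  obtain ⟨hp0, hp1, hp2⟩ := hp
  set D : ℝ := |δ₁| + |δ₂| with hD
  have hD0 : 0 ≤ D := by positivity
  have hDε : D ≤ 2 * ε := by linarith
  set L : Ex → ℝ := fun m => (m b : ℝ) * δ₁ + m c * δ₂ with hL
  have hLW : ∀ m, |L m| ≤ W m * D := by
    intro m
    simp only [hL, hW, hD]
    refine (abs_add_le _ _).trans ?_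
    rw [abs_mul, abs_mul, Nat.abs_cast, Nat.abs_cast]
    have h1 : (0 : ℝ) ≤ (m b : ℝ) := Nat.cast_nonneg _
    have h2 : (0 : ℝ) ≤ (m c : ℝ) := Nat.cast_nonneg _
    nlinarith [abs_nonneg δ₁, abs_nonneg δ₂, mul_nonneg h1 (abs_nonneg δ₂), mul_nonneg h2 (abs_nonneg δ₁)]
  have hLW2 : ∀ m, |L m| ≤ 2 * W m := by
    intro m
    refine (hLW m).trans ?_
    have := hW0 m
    nlinarith
  have huniv : (Finset.univ : Finset (Fin 3)) = {a, b, c} := by
    symm
    apply Finset.eq_univ_of_card
    rw [Finset.card_insert_of_notMem (by simp [hab, hac]), Finset.card_pair hbc]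
    rfl
  have hmonx : ∀ m : Ex, mon m x = mon m p * Real.exp (L m) := by
    intro m
    unfold mon
    rw [huniv, Finset.prod_insert (by simp [hab, hac]), Finset.prod_pair hbc,
      Finset.prod_insert (by simp [hab, hac]), Finset.prod_pair hbc, hxa, hxb, hxc, mul_pow, mul_pow,
      ← Real.exp_nat_mul, ← Real.exp_nat_mul]
    simp only [hL]
    rw [Real.exp_add]
    ring
  have hevrel : ∀ y : Pt, ev y (rel u v h₁) = mon u y - mon v y -
      ∑ m ∈ h₁.support, coeff m h₁ * mon m y := by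
    intro y
    have h3 : ∀ m : Ex, MvPolynomial.eval y (monomial m (1 : ℝ)) = mon m y := by
      intro m
      rw [MvPolynomial.eval_monomial, one_mul]
      exact Finsupp.prod_fintype m _ (fun i => pow_zero _)
    have h4 : MvPolynomial.eval y h₁ = ∑ m ∈ h₁.support, coeff m h₁ * mon m y :=
      MvPolynomial.eval_eq' y h₁
    simp only [rel, ev, map_sub, h3, h4]
  have hvp := linr_mon_pos v p hp0
  -- elementary bounds
  have hb1 : ∀ m, |Real.exp (L m) - 1| ≤ W m * Real.exp (2 * W m) * D := by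
    intro m
    refine (linr_exp1 _).trans ?_
    have h1 : Real.exp |L m| ≤ Real.exp (2 * W m) := Real.exp_le_exp.2 (hLW2 m)
    calc |L m| * Real.exp |L m| ≤ (W m * D) * Real.exp (2 * W m) :=
          mul_le_mul (hLW m) h1 (Real.exp_pos _).le (mul_nonneg (hW0 m) hD0)
      _ = _ := by ring
  have hb2 : ∀ m, |Real.exp (L m) - 1 - L m| ≤ ε * (2 * W m ^ 2 * Real.exp (2 * W m)) * D := by
    intro m
    refine (linr_exp2 _).trans ?_
    have h1 : Real.exp |L m| ≤ Real.exp (2 * W m) := Real.exp_le_exp.2 (hLW2 m)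
    have h2 : L m ^ 2 ≤ (W m * D) ^ 2 := by
      rw [← sq_abs]
      exact pow_le_pow_left₀ (abs_nonneg _) (hLW m) 2
    calc L m ^ 2 * Real.exp |L m| ≤ (W m * D) ^ 2 * Real.exp (2 * W m) :=
          mul_le_mul h2 h1 (Real.exp_pos _).le (sq_nonneg _)
      _ = W m ^ 2 * Real.exp (2 * W m) * D * D := by ring
      _ ≤ W m ^ 2 * Real.exp (2 * W m) * D * (2 * ε) := by
          have := Real.exp_pos (2 * W m)
          exact mul_le_mul_of_nonneg_left hDε (by positivity)
      _ = _ := by ring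
  have hdiff : |mon u p - mon v p| ≤ ε * mon v p := by
    rw [abs_sub_comm]
    exact hp2 v u (huv ▸ huk) huv.symm
  have hsum : |∑ m ∈ h₁.support, coeff m h₁ * (mon m p * (Real.exp (L m) - 1))|
      ≤ ε * mon v p * S * D := by
    refine (Finset.abs_sum_le_sum_abs _ _).trans ?_
    rw [hS, Finset.mul_sum, Finset.sum_mul]
    refine Finset.sum_le_sum fun m hm => ?_
    rw [abs_mul, abs_mul, abs_of_pos (linr_mon_pos m p hp0)]
    have h1 : mon m p ≤ ε * mon v p := by
      refine hp1 v m ?_ (huv ▸ huk) (huv ▸ hh₁ m hm)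
      exact Finset.le_sup (f := fun m => wt w m) hm
    calc |coeff m h₁| * (mon m p * |Real.exp (L m) - 1|)
        ≤ |coeff m h₁| * ((ε * mon v p) * (W m * Real.exp (2 * W m) * D)) := by
          refine mul_le_mul_of_nonneg_left ?_ (abs_nonneg _)
          exact mul_le_mul h1 (hb1 m) (abs_nonneg _) (by positivity)
      _ = _ := by ring
  have hmain : ev x (rel u v h₁) - ev p (rel u v h₁) -
      mon v p * (((u b : ℝ) - v b) * δ₁ + ((u c : ℝ) - v c) * δ₂)
      = (mon u p - mon v p) * (Real.exp (L u) - 1) + mon v p * (Real.exp (L u) - 1 - L u)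
        - mon v p * (Real.exp (L v) - 1 - L v)
        - ∑ m ∈ h₁.support, coeff m h₁ * (mon m p * (Real.exp (L m) - 1)) := by
    rw [hevrel x, hevrel p, hmonx u, hmonx v]
    have : ∑ m ∈ h₁.support, coeff m h₁ * (mon m p * (Real.exp (L m) - 1))
        = ∑ m ∈ h₁.support, coeff m h₁ * mon m x - ∑ m ∈ h₁.support, coeff m h₁ * mon m p := by
      rw [← Finset.sum_sub_distrib]
      refine Finset.sum_congr rfl fun m _ => ?_
      rw [hmonx m]
      ring
    rw [this]
    simp only [hL]
    ring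
  rw [hmain]
  have e1 : |(mon u p - mon v p) * (Real.exp (L u) - 1)|
      ≤ ε * mon v p * (W u * Real.exp (2 * W u)) * D := by
    rw [abs_mul]
    calc |mon u p - mon v p| * |Real.exp (L u) - 1|
        ≤ (ε * mon v p) * (W u * Real.exp (2 * W u) * D) :=
          mul_le_mul hdiff (hb1 u) (abs_nonneg _) (by positivity)
      _ = _ := by ring
  have e2 : ∀ m, |mon v p * (Real.exp (L m) - 1 - L m)|
      ≤ ε * mon v p * (2 * W m ^ 2 * Real.exp (2 * W m)) * D := by
    intro m
    rw [abs_mul, abs_of_pos hvp]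
    calc mon v p * |Real.exp (L m) - 1 - L m|
        ≤ mon v p * (ε * (2 * W m ^ 2 * Real.exp (2 * W m)) * D) :=
          mul_le_mul_of_nonneg_left (hb2 m) hvp.le
      _ = _ := by ring
  have e3 := e2 u
  have e4 := e2 v
  have htri : ∀ A B E G : ℝ, |A + B - E - G| ≤ |A| + |B| + |E| + |G| := by
    intro A B E G
    have t1 := abs_sub (A + B - E) G
    have t2 := abs_sub (A + B) E
    have t3 := abs_add_le A B
    linarith
  refine (htri _ _ _ _).trans ?_
  have : 0 ≤ ε * mon v p * D := by positivity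
  have hfin : C * ε * mon v p * D = ε * mon v p * (W u * Real.exp (2 * W u)) * D
      + ε * mon v p * (2 * W u ^ 2 * Real.exp (2 * W u)) * D
      + ε * mon v p * (2 * W v ^ 2 * Real.exp (2 * W v)) * D
      + ε * mon v p * S * D + ε * mon v p * D := by
    rw [hC]; ring
  rw [hfin]
  linarith

end Pool.Agent.H734R2.SP
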