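import Pool.Agent.H734R2.SP.Stubs

set_option autoImplicit false

/-! Task LIP: polynomials are Lipschitz on the unit box. -/

namespace Pool.Agent.H734R2.SP

open MvPolynomial Filter Topology

theorem lip_aux (g : Poly) : ∃ K : ℝ, 0 < K ∧
    (∀ x : Pt, (∀ i, |x i| ≤ 1) → |ev x g| ≤ K) ∧
    ∀ (x y : Pt) (δ : ℝ), (∀ i, |x i| ≤ 1) → (∀ i, |y i| ≤ 1) → (∀ i, |x i - y i| ≤ δ) →
      |ev x g - ev y g| ≤ K * δ := by
  induction g using MvPolynomial.induction_on with
  | C a =>
    refine ⟨|a| + 1, by positivity, ?_, ?_⟩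
    · intro x _
      simp only [eval_C]
      linarith
    · intro x y δ _ _ h
      have hδ : 0 ≤ δ := le_trans (abs_nonneg _) (h 0)
      simp only [eval_C, sub_self, abs_zero]
      positivity
  | add p q hp hq =>
    obtain ⟨K, hK, h1, h2⟩ := hp
    obtain ⟨K', hK', h1', h2'⟩ := hq
    refine ⟨K + K', by positivity, ?_, ?_⟩
    · intro x hx
      simp only [ev, map_add]
      exact le_trans (abs_add_le _ _) (add_le_add (h1 x hx) (h1' x hx))
    · intro x y δ hx hy h
      simp only [ev, map_add]
      have e : eval x p + eval x q - (eval y p + eval y q) =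
          (eval x p - eval y p) + (eval x q - eval y q) := by ring
      rw [e, add_mul]
      exact le_trans (abs_add_le _ _) (add_le_add (h2 x y δ hx hy h) (h2' x y δ hx hy h))
  | mul_X p i hp =>
    obtain ⟨K, hK, h1, h2⟩ := hp
    refine ⟨K + K, by positivity, ?_, ?_⟩
    · intro x hx
      simp only [ev, map_mul, eval_X]
      rw [abs_mul]
      have a1 : |eval x p| ≤ K := h1 x hx
      have a2 := hx i
      nlinarith [abs_nonneg (x i), abs_nonneg (eval x p)]
    · intro x y δ hx hy h
      simp only [ev, map_mul, eval_X]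
      have e : eval x p * x i - eval y p * y i =
          (eval x p - eval y p) * x i + eval y p * (x i - y i) := by ring
      rw [e, add_mul]
      refine le_trans (abs_add_le _ _) (add_le_add ?_ ?_)
      · rw [abs_mul]
        have a1 : |eval x p - eval y p| ≤ K * δ := h2 x y δ hx hy h
        have a2 := hx i
        nlinarith [abs_nonneg (x i), abs_nonneg (eval x p - eval y p)]
      · rw [abs_mul]
        exact mul_le_mul (h1 y hy) (h i) (abs_nonneg _) hK.le

theorem t_LIP : S_LIP := by
  intro g
  obtain ⟨K, hK, _, h⟩ := lip_aux g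
  exact ⟨K, hK, h⟩

end Pool.Agent.H734R2.SP
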