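import Pool.Agent.H734R2.SP.Stubs3

/-! Task LOWF, proved by helper973. -/

set_option autoImplicit false

namespace Pool.Agent.H734R2.SP

open MvPolynomial Filter Topology

theorem LOWF_dec {m : Fin 3 →₀ ℕ} (hm : m ≠ 0) : ∃ (i : Fin 3) (m' : Fin 3 →₀ ℕ),
    m = m' + Finsupp.single i 1 ∧ ∑ k, m k = ∑ k, m' k + 1 := by
  obtain ⟨i, hi⟩ : ∃ i, m i ≠ 0 := by
    by_contra hno
    push Not at hno
    exact hm (Finsupp.ext hno)
  have h1 : m - Finsupp.single i 1 + Finsupp.single i 1 = m :=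
    tsub_add_cancel_of_le (Finsupp.single_le_iff.2 (Nat.one_le_iff_ne_zero.2 hi))
  refine ⟨i, m - Finsupp.single i 1, h1.symm, ?_⟩
  have h2 : ∑ k, (Finsupp.single i 1 : Fin 3 →₀ ℕ) k = 1 := by
    simp [Finsupp.single_apply]
  obtain ⟨m', hm'⟩ : ∃ m' : Fin 3 →₀ ℕ, m' = m - Finsupp.single i 1 := ⟨_, rfl⟩
  rw [← hm'] at h1 ⊢
  have h3 : ∑ k, m k = ∑ k, (m' k + (Finsupp.single i 1 : Fin 3 →₀ ℕ) k) := by
    rw [← h1]
    rfl
  rw [h3, Finset.sum_add_distrib, h2]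

theorem LOWF_zero {m : Fin 3 →₀ ℕ} (h : ∑ k, m k = 0) : m = 0 := by
  ext k
  exact (Finset.sum_eq_zero_iff.1 h) k (Finset.mem_univ k)

theorem LOWF_ev (g : Poly) : ev 0 g = coeff 0 g := by
  show MvPolynomial.eval (0 : Fin 3 → ℝ) g = _
  rw [MvPolynomial.eval_zero, MvPolynomial.constantCoeff_eq]

theorem t_LOWF (hc : S_COEF) (hg : S_GRAD) (ho : S_OFF) : S_LOWF := by
  intro f P Q h ⟨m, hm, hs⟩
  rw [MvPolynomial.mem_support_iff] at hm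
  by_cases h0 : m = 0
  · exfalso
    rw [h0, ← LOWF_ev] at hm
    exact hm h.f0
  obtain ⟨i, m', hi, hsi⟩ := LOWF_dec h0
  by_cases h1 : m' = 0
  · refine hg f P Q h ⟨i, ?_⟩
    rw [LOWF_ev, hc f i 0, ← h1, ← hi]
    have : ((m' i : ℕ) : ℝ) + 1 = 1 := by rw [h1]; simp
    rw [this, mul_one]
    exact hm
  obtain ⟨j, m'', hj, hsj⟩ := LOWF_dec h1
  have h2 : m'' = 0 := LOWF_zero (by omega)
  refine ho f P Q h ⟨j, i, ?_⟩
  rw [LOWF_ev, hc (pderiv i f) j 0, hc f i (0 + Finsupp.single j 1), ← h2, ← hj, ← hi]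
  have h3 : (0 : ℝ) < ((m' i : ℕ) : ℝ) + 1 := by positivity
  have h4 : (0 : ℝ) < ((m'' j : ℕ) : ℝ) + 1 := by positivity
  exact mul_ne_zero (mul_ne_zero hm h3.ne') h4.ne'

end Pool.Agent.H734R2.SP
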