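import Pool.Agent.H734R2.SP.Stubs2

set_option autoImplicit false

namespace Pool.Agent.H734R2.SP

open MvPolynomial Filter Topology

theorem t_MATCH : S_MATCH := by
  intro P Q a hP hQ hPa hQa ε hε
  have hP0 : AnalyticAt ℝ (fun t => P t a) 0 := hP.1 a
  have hQ0 : AnalyticAt ℝ (fun t => Q t a) 0 := hQ.1 a
  have hPz : P 0 a = 0 := by
    have := hP.2
    rw [this]
    rfl
  have hQz : Q 0 a = 0 := by
    have := hQ.2
    rw [this]
    rfl
  -- `P · a` is continuous near 0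
  have hcont : ∀ᶠ s in 𝓝 (0 : ℝ), ContinuousAt (fun t => P t a) s := by
    filter_upwards [hP0.eventually_analyticAt] with s hs
    exact hs.continuousAt
  obtain ⟨r, hr, hcr⟩ := Metric.eventually_nhds_iff.mp hcont
  obtain ⟨r', hr', hPr'⟩ := mem_nhdsGT_iff_exists_Ioo_subset.mp hPa
  obtain ⟨s0, hs0, hs0lt⟩ : ∃ s0, 0 < s0 ∧ s0 < min r (min r' ε) :=
    exists_between (lt_min hr (lt_min hr' hε))
  have hs0r : s0 < r := lt_of_lt_of_le hs0lt (min_le_left _ _)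
  have hs0r' : s0 < r' := lt_of_lt_of_le hs0lt ((min_le_right _ _).trans (min_le_left _ _))
  have hs0ε : s0 < ε := lt_of_lt_of_le hs0lt ((min_le_right _ _).trans (min_le_right _ _))
  have hPs0 : 0 < P s0 a := hPr' ⟨hs0, hs0r'⟩
  have hQt : Tendsto (fun t => Q t a) (𝓝[>] (0 : ℝ)) (𝓝 0) := by
    have h1 : Tendsto (fun t => Q t a) (𝓝 (0 : ℝ)) (𝓝 (Q 0 a)) := hQ0.continuousAt
    rw [hQz] at h1
    exact h1.mono_left nhdsWithin_le_nhds
  have hev : ∀ᶠ t in 𝓝[>] (0 : ℝ), t ∈ Set.Ioo (0 : ℝ) ε ∧ 0 < Q t a ∧ Q t a < P s0 a := by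
    filter_upwards [Ioo_mem_nhdsGT hε, hQa, hQt.eventually (gt_mem_nhds hPs0)] with t h1 h2 h3
    exact ⟨h1, h2, h3⟩
  obtain ⟨t, ht, hQ1, hQ2⟩ := hev.exists
  have hcon : ContinuousOn (fun s => P s a) (Set.Icc 0 s0) := by
    intro s hs
    refine (hcr ?_).continuousWithinAt
    rw [Real.dist_eq, sub_zero, abs_of_nonneg hs.1]
    exact lt_of_le_of_lt hs.2 hs0r
  have hiv := intermediate_value_Icc hs0.le hcon
  have hmem : Q t a ∈ Set.Icc (P 0 a) (P s0 a) := by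
    rw [hPz]
    exact ⟨hQ1.le, hQ2.le⟩
  obtain ⟨s, hs, hse⟩ := hiv hmem
  have hse' : P s a = Q t a := hse
  refine ⟨s, ⟨lt_of_le_of_ne hs.1 ?_, lt_of_le_of_lt hs.2 hs0ε⟩, t, ht, hse'⟩
  rintro rfl
  rw [hPz] at hse'
  linarith

end Pool.Agent.H734R2.SP
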