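import Pool.Agent.H734R2.SP.Stubs

set_option autoImplicit false

namespace Pool.Agent.H734R2.SP

open MvPolynomial Filter Topology

/-- two-sided comparison of `f(P t)` with `t ^ μ` -/
private lemma MON_two {u : ℝ → ℝ} {μ : ℕ} {c0 : ℝ} (hc0 : 0 < c0)
    (h : Tendsto (fun t => u t / t ^ μ) (𝓝[>] (0 : ℝ)) (𝓝 c0)) :
    ∀ᶠ t in 𝓝[>] (0 : ℝ), c0 / 2 * t ^ μ ≤ u t ∧ u t ≤ 2 * c0 * t ^ μ := by
  have h1 : ∀ᶠ t in 𝓝[>] (0 : ℝ), c0 / 2 < u t / t ^ μ := h.eventually_const_lt (by linarith)
  have h2 : ∀ᶠ t in 𝓝[>] (0 : ℝ), u t / t ^ μ < 2 * c0 := h.eventually_lt_const (by linarith)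
  have h3 : ∀ᶠ t in 𝓝[>] (0 : ℝ), t ∈ Set.Ioi (0 : ℝ) := self_mem_nhdsWithin
  filter_upwards [h1, h2, h3] with t h1 h2 h3
  have h4 : 0 < t ^ μ := pow_pos h3 μ
  exact ⟨((lt_div_iff₀ h4).1 h1).le, ((div_lt_iff₀ h4).1 h2).le⟩

/-- terms of higher order are negligible -/
private lemma MON_high {u : ℝ → ℝ} {μ m : ℕ} {c0 : ℝ} (hc0 : 0 < c0)
    (h : ∀ᶠ t in 𝓝[>] (0 : ℝ), c0 / 2 * t ^ μ ≤ u t ∧ u t ≤ 2 * c0 * t ^ μ) (hm : μ < m)
    (a ε : ℝ) (hε : 0 < ε) : ∀ᶠ t in 𝓝[>] (0 : ℝ), |a * t ^ m| ≤ ε * u t := by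
  have h1 : 0 < min 1 (ε * (c0 / 2) / (|a| + 1)) := by positivity
  filter_upwards [h, Ioo_mem_nhdsGT h1] with t ht ht2
  have ht0 : 0 < t := ht2.1
  have ht1 : t ≤ 1 := (ht2.2.trans_le (min_le_left _ _)).le
  have ht3 : t ≤ ε * (c0 / 2) / (|a| + 1) := (ht2.2.trans_le (min_le_right _ _)).le
  rw [le_div_iff₀ (by positivity)] at ht3
  rw [abs_mul, abs_of_pos (pow_pos ht0 m)]
  have h2 : t ^ m ≤ t ^ (μ + 1) := pow_le_pow_of_le_one ht0.le ht1 (by omega)
  have h3 : 0 < t ^ μ := pow_pos ht0 μ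
  calc |a| * t ^ m ≤ |a| * t ^ (μ + 1) := mul_le_mul_of_nonneg_left h2 (abs_nonneg a)
    _ = (|a| * t) * t ^ μ := by rw [pow_succ]; ring
    _ ≤ (ε * (c0 / 2)) * t ^ μ := by
        apply mul_le_mul_of_nonneg_right _ h3.le
        nlinarith
    _ = ε * (c0 / 2 * t ^ μ) := by ring
    _ ≤ ε * u t := mul_le_mul_of_nonneg_left ht.1 hε.le

theorem t_MON : S_MON := by
  intro hTRI hEVA hDICH hLIP hCONG hORD hred f P Q h c w hw happ
  obtain ⟨μ, c0, hc0, hlim⟩ := hORD.2 (fun t => ev (P t) f) (hEVA P h.hP f) h.fP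
  have h2 := MON_two hc0 hlim
  -- the new coefficients
  set c' : Fin 3 → ℝ := fun i => if w i ≤ μ then c i else 0 with hc'
  have hP' : Arc (fun t i => c' i * t ^ w i) := by
    refine ⟨fun i => ?_, ?_⟩
    · fun_prop
    · funext i
      simp [zero_pow (Nat.one_le_iff_ne_zero.1 (hw i))]
  -- closeness of `P'`
  have hclose : ∀ i, ∀ ε > 0, ∀ᶠ t in 𝓝[>] (0 : ℝ), |c' i * t ^ w i - P t i| ≤ ε * ev (P t) f := by
    intro i ε hε
    by_cases hi : w i ≤ μ
    · filter_upwards [happ ε hε] with t ht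
      rw [abs_sub_comm]
      simp only [hc', if_pos hi]
      exact ht i
    · filter_upwards [happ (ε / 2) (by positivity), MON_high hc0 h2 (not_le.1 hi) (c i) (ε / 2)
        (by positivity)] with t ht ht2
      simp only [hc', if_neg hi, zero_mul, zero_sub, abs_neg]
      have h3 : |P t i| ≤ |P t i - c i * t ^ w i| + |c i * t ^ w i| := by
        have := abs_add_le (P t i - c i * t ^ w i) (c i * t ^ w i)
        rwa [sub_add_cancel] at this
      have := ht i
      linarith
  -- `Q i` is negligible if `c' i = 0`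
  have hQneg : ∀ i, c' i = 0 → ∀ ε > 0, ∀ᶠ t in 𝓝[>] (0 : ℝ), |Q t i| ≤ ε * ev (Q t) f := by
    intro i hi ε hε
    rcases hDICH hTRI hEVA f P Q h (X i) with h1 | ⟨a, ha, h1, -⟩ | ⟨a, ha, h1, -⟩
    · filter_upwards [(h1 ε hε).2] with t ht
      simpa only [ev, eval_X] using ht
    · exfalso
      obtain ⟨t, ht1, ht2, ht3⟩ := (h1.and ((hclose i (a / 2) (by positivity)).and h.fP)).exists
      simp only [ev, eval_X] at ht1
      rw [hi, zero_mul, zero_sub, abs_neg] at ht2
      have h4 := (le_abs_self _).trans ht2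
      simp only [ev] at ht2 ht3 h4
      nlinarith
    · exfalso
      obtain ⟨t, ht1, ht2, ht3⟩ := (h1.and ((hclose i (a / 2) (by positivity)).and h.fP)).exists
      simp only [ev, eval_X] at ht1
      rw [hi, zero_mul, zero_sub, abs_neg] at ht2
      have h4 := (neg_abs_le (P t i))
      simp only [ev] at ht2 ht3 h4
      nlinarith
  -- sign of `Q i` if `c' i ≠ 0`
  have hQsgn : ∀ i, c' i ≠ 0 → ∀ᶠ t in 𝓝[>] (0 : ℝ), 0 < Q t i / c' i := by
    intro i hi
    have hwi : w i ≤ μ := by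
      by_contra hcon
      exact hi (by simp only [hc', if_neg hcon])
    have hci : c' i = c i := by simp only [hc', if_pos hwi]
    rw [hci] at hi ⊢
    have hci0 : 0 < |c i| := abs_pos.2 hi
    rcases hDICH hTRI hEVA f P Q h (X i) with h1 | ⟨a, ha, h1, h1Q⟩ | ⟨a, ha, h1, h1Q⟩
    · exfalso
      have he : 0 < |c i| / (8 * c0) := by positivity
      obtain ⟨t, ht1, ht2, ht3, ht4⟩ := ((h1 _ he).1.and ((happ _ he).and
        (h2.and (Ioo_mem_nhdsGT one_pos)))).exists
      simp only [ev, eval_X] at ht1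
      have ht0 : 0 < t := ht4.1
      have h5 : t ^ μ ≤ t ^ w i := pow_le_pow_of_le_one ht0.le ht4.2.le hwi
      have h6 : 0 < t ^ w i := pow_pos ht0 _
      have h7 : |c i * t ^ w i| ≤ |P t i - c i * t ^ w i| + |P t i| := by
        have := abs_sub (P t i) (P t i - c i * t ^ w i)
        rw [sub_sub_cancel] at this
        linarith
      have h8 := ht2 i
      rw [abs_mul, abs_of_pos h6] at h7
      have h9 : |c i| * t ^ w i ≤ 2 * (|c i| / (8 * c0) * (2 * c0 * t ^ w i)) := by
        calc |c i| * t ^ w i ≤ 2 * (|c i| / (8 * c0) * eval (P t) f) := by linarith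
          _ ≤ 2 * (|c i| / (8 * c0) * (2 * c0 * t ^ w i)) := by
            have := ht3.2
            have h10 : eval (P t) f ≤ 2 * c0 * t ^ w i := by
              refine ht3.2.trans ?_
              gcongr
            gcongr
      have h11 : 2 * (|c i| / (8 * c0) * (2 * c0 * t ^ w i)) = |c i| * t ^ w i / 2 := by
        field_simp
        ring
      rw [h11] at h9
      have := mul_pos hci0 h6
      linarith
    · have hcp : 0 < c i := by
        obtain ⟨t, ht1, ht2, ht3, ht4⟩ := (h1.and ((happ (a / 2) (by positivity)).and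
          (h.fP.and (Ioo_mem_nhdsGT one_pos)))).exists
        simp only [ev, eval_X] at ht1
        have h5 := (le_abs_self _).trans (ht2 i)
        have h6 : 0 < t ^ w i := pow_pos ht4.1 _
        simp only [ev] at ht3 h5
        have h7 : 0 < c i * t ^ w i := by nlinarith
        exact (pos_iff_pos_of_mul_pos h7).2 h6
      filter_upwards [h1Q, h.fQ] with t ht1 ht2
      simp only [ev, eval_X] at ht1 ht2
      exact div_pos ((mul_pos ha ht2).trans_le ht1) hcp
    · have hcp : c i < 0 := by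
        obtain ⟨t, ht1, ht2, ht3, ht4⟩ := (h1.and ((happ (a / 2) (by positivity)).and
          (h.fP.and (Ioo_mem_nhdsGT one_pos)))).exists
        simp only [ev, eval_X] at ht1
        have h5 := (neg_abs_le (P t i - c i * t ^ w i))
        have h6 : 0 < t ^ w i := pow_pos ht4.1 _
        have h8 := ht2 i
        simp only [ev] at ht3 h5 h8
        have h7 : c i * t ^ w i < 0 := by nlinarith
        by_contra hcon
        have := mul_nonneg (not_lt.1 hcon) h6.le
        linarith
      filter_upwards [h1Q, h.fQ] with t ht1 ht2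
      simp only [ev, eval_X] at ht1 ht2
      have h9 : Q t i < 0 := by
        have := (mul_pos ha ht2).trans_le ht1
        linarith
      exact div_pos_of_neg_of_neg h9 hcp
  -- the new `Q`
  have hQ' : Arc (fun t i => if c' i = 0 then 0 else Q t i) := by
    refine ⟨fun i => ?_, ?_⟩
    · by_cases hi : c' i = 0
      · simp only [if_pos hi]
        exact analyticAt_const
      · simp only [if_neg hi]
        exact h.hQ.1 i
    · funext i
      by_cases hi : c' i = 0
      · simp only [if_pos hi]; rfl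
      · simp only [if_neg hi]
        rw [h.hQ.2]
  obtain ⟨hNS, hJ⟩ := hCONG hLIP f P Q _ _ h hP' hQ' (fun ε hε => by
    rw [eventually_all]
    intro i
    exact hclose i ε hε) (fun ε hε => by
    rw [eventually_all]
    intro i
    by_cases hi : c' i = 0
    · filter_upwards [hQneg i hi ε hε] with t ht
      simp only [if_pos hi]
      rwa [zero_sub, abs_neg]
    · filter_upwards [h.fQ] with t ht
      simp only [if_neg hi, sub_self, abs_zero]
      exact (mul_pos hε ht).le)
  apply hJ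
  refine hred f _ _ hNS c' w hw (fun t i => rfl) (fun i => ?_)
  by_cases hi : c' i = 0
  · exact Or.inl fun t => ⟨hi, by simp only [if_pos hi]⟩
  · right
    refine ⟨hi, ?_⟩
    simp only [if_neg hi]
    exact hQsgn i hi

end Pool.Agent.H734R2.SP
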