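import Pool.Agent.H734R2.SP.Stubs

set_option autoImplicit false

namespace Pool.Agent.H734R2.SP

open MvPolynomial Filter Topology

namespace MON0x

/-! ### the positivity of a sum of exponentials -/

theorem abs_le_two_mul {τ : ℝ} (h : |Real.exp τ - 1| ≤ 1 / 2) : |τ| ≤ 2 * |Real.exp τ - 1| := by
  have h1 : Real.exp τ ≥ 1 / 2 := by
    have := (abs_le.mp h).1
    linarith
  have hpos : 0 < Real.exp τ := Real.exp_pos τ
  have h2 : τ ≤ Real.exp τ - 1 := by
    have := Real.add_one_le_exp τ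
    linarith
  have h3 : 1 - (Real.exp τ)⁻¹ ≤ τ := by
    have := Real.add_one_le_exp (-τ)
    rw [Real.exp_neg] at this
    linarith
  rw [abs_le]
  constructor
  · rcases le_total 1 (Real.exp τ) with h4 | h4
    · have h5 : 0 ≤ 1 - (Real.exp τ)⁻¹ := by
        have : (Real.exp τ)⁻¹ ≤ 1 := inv_le_one_of_one_le₀ h4
        linarith
      have := abs_nonneg (Real.exp τ - 1)
      linarith
    · have h5 : |Real.exp τ - 1| = 1 - Real.exp τ := by
        rw [abs_sub_comm, abs_of_nonneg (by linarith)]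
      rw [h5]
      refine le_trans ?_ h3
      have h6 : (Real.exp τ)⁻¹ ≤ 2 := by
        rw [inv_le_comm₀ hpos (by norm_num)]
        linarith
      have h7 : 1 - (Real.exp τ)⁻¹ = -((1 - Real.exp τ) * (Real.exp τ)⁻¹) := by
        field_simp
        ring
      rw [h7]
      have h8 : (1 - Real.exp τ) * (Real.exp τ)⁻¹ ≤ (1 - Real.exp τ) * 2 :=
        mul_le_mul_of_nonneg_left h6 (by linarith)
      linarith
  · have := le_abs_self (Real.exp τ - 1)
    have := abs_nonneg (Real.exp τ - 1)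
    linarith

theorem weighted {τ e A A0 n μ b k : ℝ} (he : 0 < e) (hb : b < 0) (hn : 0 ≤ n)
    (hk0 : 0 ≤ k) (hk1 : k ≤ 1) (h1 : |τ| * Real.exp A ≤ e / 2 * Real.exp A0)
    (h2 : |τ| ≤ e / 2 * Real.exp (μ * b)) :
    |τ| * Real.exp ((1 - k) * A + k * (n * b)) ≤
      e / 2 * Real.exp ((1 - k) * A0 + k * (μ * b)) := by
  rcases (abs_nonneg τ).eq_or_lt with h0 | h0
  · rw [← h0, zero_mul]
    positivity
  · have he2 : 0 < e / 2 := by linarith
    have l1 := Real.log_le_log (mul_pos h0 (Real.exp_pos A)) h1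
    have l2 := Real.log_le_log h0 h2
    rw [Real.log_mul h0.ne' (Real.exp_pos _).ne', Real.log_mul he2.ne' (Real.exp_pos _).ne',
      Real.log_exp, Real.log_exp] at l1
    rw [Real.log_mul he2.ne' (Real.exp_pos _).ne', Real.log_exp] at l2
    rw [← Real.log_le_log_iff (mul_pos h0 (Real.exp_pos _)) (mul_pos he2 (Real.exp_pos _)),
      Real.log_mul h0.ne' (Real.exp_pos _).ne', Real.log_mul he2.ne' (Real.exp_pos _).ne',
      Real.log_exp, Real.log_exp]
    have m1 := mul_le_mul_of_nonneg_left l1 (show 0 ≤ 1 - k by linarith)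
    have m2 := mul_le_mul_of_nonneg_left l2 hk0
    have m3 : k * (n * b) ≤ 0 := by
      have : n * b ≤ 0 := mul_nonpos_of_nonneg_of_nonpos hn hb.le
      exact mul_nonpos_of_nonneg_of_nonpos hk0 this
    nlinarith

theorem pair_bound {τ e A A' A0 n μ b k : ℝ} (he : 0 < e) (hb : b < 0) (hn : 0 ≤ n)
    (hk0 : 0 ≤ k) (hk1 : k ≤ 1) (hτ : τ = A - A') (hτ1 : |τ| ≤ 1)
    (h1 : |τ| * Real.exp A' ≤ e / 2 * Real.exp A0)
    (h2 : |τ| ≤ e / 2 * Real.exp (μ * b)) :
    |Real.exp ((1 - k) * A + k * (n * b)) - Real.exp ((1 - k) * A' + k * (n * b))| ≤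
      e * Real.exp ((1 - k) * A0 + k * (μ * b)) := by
  have h3 : Real.exp ((1 - k) * A + k * (n * b)) =
      Real.exp ((1 - k) * A' + k * (n * b)) * Real.exp ((1 - k) * τ) := by
    rw [← Real.exp_add, hτ]
    congr 1
    ring
  have h4 : |(1 - k) * τ| ≤ |τ| := by
    rw [abs_mul, abs_of_nonneg (show 0 ≤ 1 - k by linarith)]
    have := abs_nonneg τ
    nlinarith
  have h5 := Real.abs_exp_sub_one_le (h4.trans hτ1)
  have h6 := weighted (n := n) he hb hn hk0 hk1 h1 h2
  have h7 : Real.exp ((1 - k) * A' + k * (n * b)) * Real.exp ((1 - k) * τ) -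
      Real.exp ((1 - k) * A' + k * (n * b)) =
      Real.exp ((1 - k) * A' + k * (n * b)) * (Real.exp ((1 - k) * τ) - 1) := by ring
  rw [h3, h7, abs_mul, abs_of_pos (Real.exp_pos _)]
  have hp := Real.exp_pos ((1 - k) * A' + k * (n * b))
  calc Real.exp ((1 - k) * A' + k * (n * b)) * |Real.exp ((1 - k) * τ) - 1|
      ≤ Real.exp ((1 - k) * A' + k * (n * b)) * (2 * |τ|) :=
        mul_le_mul_of_nonneg_left (by linarith) hp.le
    _ = 2 * (|τ| * Real.exp ((1 - k) * A' + k * (n * b))) := by ring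
    _ ≤ 2 * (e / 2 * Real.exp ((1 - k) * A0 + k * (μ * b))) := by linarith
    _ = e * Real.exp ((1 - k) * A0 + k * (μ * b)) := by ring

theorem up_bound {e A A0 n μ b k : ℝ} (he : 0 < e) (hb : b < 0) (hbe : b ≤ Real.log e)
    (hn : μ + 1 ≤ n) (hk0 : 0 ≤ k) (hk1 : k ≤ 1) (h1 : Real.exp A ≤ e * Real.exp A0) :
    Real.exp ((1 - k) * A + k * (n * b)) ≤ e * Real.exp ((1 - k) * A0 + k * (μ * b)) := by
  have l1 := Real.log_le_log (Real.exp_pos A) h1
  rw [Real.log_mul he.ne' (Real.exp_pos _).ne', Real.log_exp, Real.log_exp] at l1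
  rw [← Real.log_le_log_iff (Real.exp_pos _) (mul_pos he (Real.exp_pos _)),
    Real.log_mul he.ne' (Real.exp_pos _).ne', Real.log_exp, Real.log_exp]
  have m1 := mul_le_mul_of_nonneg_left l1 (show 0 ≤ 1 - k by linarith)
  have l2 : n * b ≤ Real.log e + μ * b := by nlinarith
  have m2 := mul_le_mul_of_nonneg_left l2 hk0
  nlinarith

open Classical in
theorem core {ι : Type} (S : Finset ι) (a : ι → ℝ) (W : ι → ℕ) (μ : ℕ) (F : ℝ) (m0 : ι)
    (hm0 : m0 ∈ S) (hW0 : W m0 = μ) (hF : ∑ m ∈ S.filter (fun m => W m = μ), a m = F)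
    (hlow : ∀ n < μ, ∑ m ∈ S.filter (fun m => W m = n), a m = 0) (e : ℝ) (he : 0 < e)
    (heF : e * ∑ m ∈ S, |a m| < F) (A : ι → ℝ) (b : ℝ) (hb : b < 0) (hbe : b ≤ Real.log e)
    (hup : ∀ m ∈ S, μ < W m → Real.exp (A m) ≤ e * Real.exp (A m0))
    (hpair : ∀ m ∈ S, ∀ m' ∈ S, W m = W m' → W m ≤ μ → |A m - A m'| ≤ 1 ∧
      |A m - A m'| * Real.exp (A m') ≤ e / 2 * Real.exp (A m0) ∧
      |A m - A m'| ≤ e / 2 * Real.exp (μ * b)) (k : ℝ) (hk0 : 0 ≤ k) (hk1 : k ≤ 1) :
    0 < ∑ m ∈ S, a m * Real.exp ((1 - k) * A m + k * (W m * b)) := by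
  obtain ⟨z, hz⟩ : ∃ z : ι → ℝ, z = fun m => Real.exp ((1 - k) * A m + k * (W m * b)) :=
    ⟨_, rfl⟩
  obtain ⟨Y, hY⟩ : ∃ Y : ℝ, Y = Real.exp ((1 - k) * A m0 + k * (μ * b)) := ⟨_, rfl⟩
  have hY0 : 0 < Y := by rw [hY]; exact Real.exp_pos _
  obtain ⟨rep, hrep⟩ : ∃ rep : ℕ → ι, ∀ n, (∃ m ∈ S, W m = n) → rep n ∈ S ∧ W (rep n) = n := by
    refine ⟨fun n => if h : ∃ m ∈ S, W m = n then h.choose else m0, ?_⟩
    intro n h
    simp only [dif_pos h]
    exact h.choose_spec
  obtain ⟨v, hv⟩ : ∃ v : ℕ → ℝ, v = fun n => if n < μ then z (rep n) else if n = μ then Y else 0 :=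
    ⟨_, rfl⟩
  have hpb : ∀ m ∈ S, ∀ m' ∈ S, W m = W m' → W m ≤ μ → |z m - z m'| ≤ e * Y := by
    intro m hm m' hm' h1 h2
    obtain ⟨p1, p2, p3⟩ := hpair m hm m' hm' h1 h2
    rw [hz, hY]
    show |Real.exp ((1 - k) * A m + k * (W m * b)) - Real.exp ((1 - k) * A m' + k * (W m' * b))| ≤ _
    rw [← h1]
    exact pair_bound he hb (Nat.cast_nonneg _) hk0 hk1 rfl p1 p2 p3
  have hdiff : ∀ m ∈ S, |z m - v (W m)| ≤ e * Y := by
    intro m hm
    rcases lt_trichotomy (W m) μ with h | h | h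
    · have e1 : v (W m) = z (rep (W m)) := by rw [hv]; exact if_pos h
      obtain ⟨r1, r2⟩ := hrep (W m) ⟨m, hm, rfl⟩
      rw [e1]
      exact hpb m hm _ r1 r2.symm h.le
    · have e1 : v (W m) = z m0 := by
        rw [hv, hz]
        show (if W m < μ then _ else if W m = μ then Y else 0) =
          Real.exp ((1 - k) * A m0 + k * (W m0 * b))
        rw [if_neg (by omega), if_pos h, hY, hW0]
      rw [e1]
      exact hpb m hm m0 hm0 (by rw [h, hW0]) h.le
    · have e1 : v (W m) = 0 := by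
        rw [hv]
        show (if W m < μ then _ else if W m = μ then Y else 0) = _
        rw [if_neg (by omega), if_neg (by omega)]
      rw [e1, sub_zero, hz, hY]
      show |Real.exp ((1 - k) * A m + k * (W m * b))| ≤ _
      rw [abs_of_pos (Real.exp_pos _)]
      exact up_bound he hb hbe (by exact_mod_cast h) hk0 hk1 (hup m hm h)
  have hsum : ∑ m ∈ S, a m * v (W m) = F * Y := by
    rw [← Finset.sum_fiberwise_of_maps_to (s := S) (t := S.image W) (g := W)
      (fun m hm => Finset.mem_image_of_mem W hm)]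
    rw [Finset.sum_eq_single μ]
    · rw [← hF, Finset.sum_mul]
      apply Finset.sum_congr rfl
      intro m hm
      rw [Finset.mem_filter] at hm
      rw [hm.2, hv]
      show a m * (if μ < μ then _ else if μ = μ then Y else 0) = _
      rw [if_neg (lt_irrefl μ), if_pos rfl]
    · intro n _ hne
      have e1 : ∑ m ∈ S.filter (fun m => W m = n), a m * v (W m) =
          (∑ m ∈ S.filter (fun m => W m = n), a m) * v n := by
        rw [Finset.sum_mul]
        apply Finset.sum_congr rfl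
        intro m hm
        rw [Finset.mem_filter] at hm
        rw [hm.2]
      rw [e1]
      rcases lt_or_gt_of_ne hne with h | h
      · rw [hlow n h, zero_mul]
      · have e2 : v n = 0 := by
          rw [hv]
          show (if n < μ then _ else if n = μ then Y else 0) = _
          rw [if_neg (by omega), if_neg (by omega)]
        rw [e2, mul_zero]
    · intro h
      exact absurd (Finset.mem_image.mpr ⟨m0, hm0, hW0⟩) h
  have hgoal : ∑ m ∈ S, a m * Real.exp ((1 - k) * A m + k * (W m * b)) =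
      ∑ m ∈ S, a m * (z m - v (W m)) + F * Y := by
    rw [← hsum, ← Finset.sum_add_distrib]
    apply Finset.sum_congr rfl
    intro m _
    rw [hz]
    ring
  rw [hgoal]
  have hb1 : |∑ m ∈ S, a m * (z m - v (W m))| ≤ (∑ m ∈ S, |a m|) * (e * Y) := by
    refine (Finset.abs_sum_le_sum_abs _ _).trans ?_
    rw [Finset.sum_mul]
    apply Finset.sum_le_sum
    intro m hm
    rw [abs_mul]
    exact mul_le_mul_of_nonneg_left (hdiff m hm) (abs_nonneg _)
  have hb2 := (abs_le.mp hb1).1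
  have hb3 : (∑ m ∈ S, |a m|) * (e * Y) < F * Y := by
    have : (∑ m ∈ S, |a m|) * (e * Y) = (e * ∑ m ∈ S, |a m|) * Y := by ring
    rw [this]
    exact mul_lt_mul_of_pos_right heF hY0
  linarith

/-! ### the leading term -/

theorem leading (G : Polynomial ℝ) (h : ∀ᶠ t in 𝓝[>] (0 : ℝ), 0 < G.eval t) :
    ∃ (μ : ℕ) (F : ℝ), 0 < F ∧ G.coeff μ = F ∧ (∀ n < μ, G.coeff n = 0) ∧
      ∀ᶠ t in 𝓝[>] (0 : ℝ), F / 2 * t ^ μ ≤ G.eval t ∧ G.eval t ≤ 2 * F * t ^ μ := by
  have hG : G ≠ 0 := by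
    rintro rfl
    obtain ⟨t, ht⟩ := h.exists
    simp at ht
  have hlow : ∀ n < G.natTrailingDegree, G.coeff n = 0 := fun n hn =>
    Polynomial.coeff_eq_zero_of_lt_natTrailingDegree hn
  obtain ⟨K, hK⟩ := Polynomial.X_pow_dvd_iff.mpr hlow
  have hF0 : G.coeff G.natTrailingDegree ≠ 0 := Polynomial.trailingCoeff_nonzero_iff_nonzero.mpr hG
  obtain ⟨μ, hμ⟩ : ∃ μ, μ = G.natTrailingDegree := ⟨_, rfl⟩
  rw [← hμ] at hlow hK hF0
  have hKc : K.eval 0 = G.coeff μ := by
    rw [hK, Polynomial.coeff_X_pow_mul', if_pos le_rfl, Nat.sub_self,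
      Polynomial.coeff_zero_eq_eval_zero]
  have hlim : Tendsto (fun t => K.eval t) (𝓝[>] (0 : ℝ)) (𝓝 (G.coeff μ)) := by
    rw [← hKc]
    exact (K.continuous.tendsto 0).mono_left nhdsWithin_le_nhds
  have hpos : ∀ᶠ t in 𝓝[>] (0 : ℝ), 0 < t := eventually_mem_nhdsWithin
  have heval : ∀ t : ℝ, G.eval t = t ^ μ * K.eval t := by
    intro t
    rw [hK]
    simp
  have hFpos : 0 < G.coeff μ := by
    rcases lt_or_gt_of_ne hF0 with hneg | hp
    · exfalso
      have h1 := hlim.eventually (gt_mem_nhds hneg)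
      obtain ⟨t, h2, h3, h4⟩ := (h.and (hpos.and h1)).exists
      rw [heval] at h2
      have h5 : 0 < t ^ μ := pow_pos h3 μ
      have := mul_neg_of_pos_of_neg h5 h4
      linarith
    · exact hp
  refine ⟨μ, G.coeff μ, hFpos, rfl, hlow, ?_⟩
  have h1 := hlim.eventually (lt_mem_nhds (show G.coeff μ / 2 < G.coeff μ by linarith))
  have h2 := hlim.eventually (gt_mem_nhds (show G.coeff μ < 2 * G.coeff μ by linarith))
  filter_upwards [hpos, h1, h2] with t ht h3 h4
  rw [heval]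
  have h5 : 0 < t ^ μ := pow_pos ht μ
  constructor
  · rw [mul_comm]
    exact mul_le_mul_of_nonneg_left h3.le h5.le
  · rw [mul_comm]
    exact mul_le_mul_of_nonneg_right h4.le h5.le

/-! ### monomials -/

/-- the value of a monomial -/
def cm (c : Fin 3 → ℝ) (m : Fin 3 →₀ ℕ) : ℝ := ∏ i, c i ^ m i

/-- the normalised monomial -/
noncomputable def GG (c : Fin 3 → ℝ) (m : Fin 3 →₀ ℕ) : Poly :=
  C (cm c m)⁻¹ * ∏ i, X i ^ m i

/-- the weight -/
def Wt (w : Fin 3 → ℕ) (m : Fin 3 →₀ ℕ) : ℕ := ∑ i, w i * m i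

theorem cm_mul (c z : Fin 3 → ℝ) (m : Fin 3 →₀ ℕ) :
    cm (fun i => c i * z i) m = cm c m * cm z m := by
  unfold cm
  rw [← Finset.prod_mul_distrib]
  apply Finset.prod_congr rfl
  intro i _
  rw [mul_pow]

theorem ev_GG {c z : Fin 3 → ℝ} {m : Fin 3 →₀ ℕ} (h : cm c m ≠ 0) :
    ev (fun i => c i * z i) (GG c m) = cm z m := by
  have h1 : ev (fun i => c i * z i) (GG c m) = (cm c m)⁻¹ * cm (fun i => c i * z i) m := by
    unfold GG cm ev
    simp
  rw [h1, cm_mul, inv_mul_cancel_left₀ h]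

theorem cm_pow (w : Fin 3 → ℕ) (t : ℝ) (m : Fin 3 →₀ ℕ) :
    cm (fun i => t ^ w i) m = t ^ Wt w m := by
  unfold cm Wt
  rw [← Finset.prod_pow_eq_pow_sum]
  apply Finset.prod_congr rfl
  intro i _
  rw [pow_mul]

theorem cm_exp (x : Fin 3 → ℝ) (m : Fin 3 →₀ ℕ) :
    cm (fun i => Real.exp (x i)) m = Real.exp (∑ i, m i * x i) := by
  unfold cm
  rw [Real.exp_sum]
  apply Finset.prod_congr rfl
  intro i _
  rw [← Real.exp_nat_mul]

theorem ev_sum (f : Poly) (c z : Fin 3 → ℝ) :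
    ev (fun i => c i * z i) f =
      ∑ m ∈ f.support.filter (fun m => f.coeff m * cm c m ≠ 0), (f.coeff m * cm c m) * cm z m := by
  have h1 : ev (fun i => c i * z i) f = ∑ m ∈ f.support, (f.coeff m * cm c m) * cm z m := by
    unfold ev
    rw [MvPolynomial.eval_eq']
    apply Finset.sum_congr rfl
    intro m _
    have := cm_mul c z m
    unfold cm at this ⊢
    rw [this]
    ring
  rw [h1]
  symm
  apply Finset.sum_subset (Finset.filter_subset _ _)
  intro m hm hm2
  rw [Finset.mem_filter, not_and, not_not] at hm2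
  rw [hm2 hm, zero_mul]

end MON0x

open MON0x in
theorem t_MON0 : S_MON0 := by
  classical
  intro _ _ _ f P Q h c w hw hPc hQc ε hε
  obtain ⟨y, hy⟩ : ∃ y : ℝ → Pt, y = fun t i => if c i = 0 then 1 else Q t i / c i := ⟨_, rfl⟩
  have hQy : ∀ t, Q t = fun i => c i * y t i := by
    intro t
    funext i
    rw [hy]
    show Q t i = c i * (if c i = 0 then 1 else Q t i / c i)
    rcases hQc i with hi | hi
    · rw [(hi t).1, zero_mul]
      exact (hi t).2
    · rw [if_neg hi.1, mul_div_cancel₀ _ hi.1]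
  have hPy : ∀ t, P t = fun i => c i * t ^ w i := fun t => funext (hPc t)
  have hypos : ∀ᶠ t in 𝓝[>] (0 : ℝ), ∀ i, 0 < y t i := by
    rw [Filter.eventually_all]
    intro i
    rcases hQc i with hi | hi
    · refine Filter.Eventually.of_forall (fun t => ?_)
      rw [hy]
      show 0 < (if c i = 0 then (1 : ℝ) else _)
      rw [if_pos (hi t).1]
      exact one_pos
    · filter_upwards [hi.2] with t ht
      rw [hy]
      show 0 < (if c i = 0 then (1 : ℝ) else _)
      rw [if_neg hi.1]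
      exact ht
  obtain ⟨a, ha⟩ : ∃ a : (Fin 3 →₀ ℕ) → ℝ, a = fun m => f.coeff m * cm c m := ⟨_, rfl⟩
  obtain ⟨S, hS⟩ : ∃ S : Finset (Fin 3 →₀ ℕ),
    S = f.support.filter (fun m => f.coeff m * cm c m ≠ 0) := ⟨_, rfl⟩
  have hev : ∀ z : Fin 3 → ℝ, ev (fun i => c i * z i) f = ∑ m ∈ S, a m * cm z m := by
    intro z
    rw [ev_sum, hS, ha]
  have hcm : ∀ m ∈ S, cm c m ≠ 0 := by
    intro m hm
    rw [hS, Finset.mem_filter] at hm
    exact right_ne_zero_of_mul hm.2
  obtain ⟨Fp, hFp⟩ : ∃ Fp : Polynomial ℝ, Fp = ∑ m ∈ S, Polynomial.monomial (Wt w m) (a m) :=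
    ⟨_, rfl⟩
  have hFpe : ∀ t, ev (P t) f = Fp.eval t := by
    intro t
    rw [hPy, hev, hFp, Polynomial.eval_finsetSum]
    apply Finset.sum_congr rfl
    intro m _
    rw [cm_pow, Polynomial.eval_monomial]
  have hcoeff : ∀ n, Fp.coeff n = ∑ m ∈ S.filter (fun m => Wt w m = n), a m := by
    intro n
    rw [hFp, Polynomial.finsetSum_coeff, Finset.sum_filter]
    apply Finset.sum_congr rfl
    intro m _
    rw [Polynomial.coeff_monomial]
  obtain ⟨μ, F, hF0, hFc, hlow, hbd⟩ := leading Fp (by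
    filter_upwards [h.fP] with t ht
    rw [← hFpe]
    exact ht)
  rw [hcoeff] at hFc
  obtain ⟨m0, hm0, hWm0⟩ : ∃ m0 ∈ S, Wt w m0 = μ := by
    by_contra hcon
    have h1 : S.filter (fun m => Wt w m = μ) = ∅ := by
      rw [Finset.filter_eq_empty_iff]
      intro m hm hW
      exact hcon ⟨m, hm, hW⟩
    rw [h1, Finset.sum_empty] at hFc
    exact hF0.ne hFc
  have htpos : ∀ᶠ t in 𝓝[>] (0 : ℝ), 0 < t := eventually_mem_nhdsWithin
  have htlt : ∀ r : ℝ, 0 < r → ∀ᶠ t in 𝓝[>] (0 : ℝ), t < r := fun r hr =>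
    (gt_mem_nhds hr).filter_mono nhdsWithin_le_nhds
  have hGQ : ∀ m ∈ S, ∀ t, ev (Q t) (GG c m) = cm (y t) m := by
    intro m hm t
    rw [hQy]
    exact ev_GG (hcm m hm)
  have hGP : ∀ m ∈ S, ∀ t, ev (P t) (GG c m) = t ^ Wt w m := by
    intro m hm t
    rw [hPy, ← cm_pow]
    exact ev_GG (hcm m hm)
  have hA1 : ∀ m ∈ S, ∀ m' ∈ S, Wt w m = Wt w m' → ∀ e > 0, ∀ᶠ t in 𝓝[>] (0 : ℝ),
      -(e * ev (Q t) f) < cm (y t) m - cm (y t) m' := by
    intro m hm m' hm' hW e he
    have h1 := h.pq (GG c m - GG c m') (-e) 0 (by linarith) (by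
      refine Filter.Eventually.of_forall (fun t => ?_)
      rw [zero_mul, ev, map_sub]
      have := hGP m hm t
      have h2 := hGP m' hm' t
      rw [ev] at this h2
      rw [this, h2, hW, sub_self])
    filter_upwards [h1] with t ht
    have e1 : ev (Q t) (GG c m - GG c m') = cm (y t) m - cm (y t) m' := by
      rw [← hGQ m hm t, ← hGQ m' hm' t, ev, ev, ev, map_sub]
    rw [e1] at ht
    linarith
  have hB : ∀ m ∈ S, μ < Wt w m → ∀ e > 0, ∀ᶠ t in 𝓝[>] (0 : ℝ),
      cm (y t) m ≤ e * ev (Q t) f := by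
    intro m hm hW e he
    have h1 := h.pq (-GG c m) (-e) (-e / 2) (by linarith) (by
      filter_upwards [htpos, htlt 1 one_pos, htlt (e * F / 4) (by positivity), hbd]
        with t t1 t2 t3 t4
      have e1 : ev (P t) (-GG c m) = - t ^ Wt w m := by
        rw [← hGP m hm t, ev, ev, map_neg]
      rw [e1, hFpe]
      obtain ⟨d, hd⟩ : ∃ d, Wt w m = μ + (d + 1) := ⟨Wt w m - μ - 1, by omega⟩
      have h2 : t ^ Wt w m ≤ t ^ μ * t := by
        rw [hd, pow_add, pow_succ]
        have h3 : t ^ d ≤ 1 := pow_le_one₀ t1.le t2.le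
        have h4 : 0 < t ^ μ := pow_pos t1 μ
        have h5 : t ^ d * t ≤ 1 * t := mul_le_mul_of_nonneg_right h3 t1.le
        rw [one_mul] at h5
        exact mul_le_mul_of_nonneg_left h5 h4.le
      have h4 : 0 < t ^ μ := pow_pos t1 μ
      have h5 : t ^ μ * t ≤ t ^ μ * (e * F / 4) := mul_le_mul_of_nonneg_left t3.le h4.le
      have h6 : e / 2 * (F / 2 * t ^ μ) ≤ e / 2 * Fp.eval t :=
        mul_le_mul_of_nonneg_left t4.1 (by linarith)
      have h7 : e / 2 * (F / 2 * t ^ μ) = t ^ μ * (e * F / 4) := by ring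
      linarith)
    filter_upwards [h1] with t ht
    have e1 : ev (Q t) (-GG c m) = - cm (y t) m := by
      rw [← hGQ m hm t, ev, ev, map_neg]
    rw [e1] at ht
    linarith
  obtain ⟨κ, hκ⟩ : ∃ κ : ℝ, κ = 1 / (4 * F) := ⟨_, rfl⟩
  have hκ0 : 0 < κ := by rw [hκ]; positivity
  have hC : ∀ m ∈ S, Wt w m ≤ μ → ∀ᶠ t in 𝓝[>] (0 : ℝ), κ * ev (Q t) f ≤ cm (y t) m := by
    intro m hm hW
    have h1 := h.pq (GG c m) κ (2 * κ) (by linarith) (by
      filter_upwards [htpos, htlt 1 one_pos, hbd] with t t1 t2 t4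
      rw [hGP m hm t, hFpe]
      have h2 : t ^ μ ≤ t ^ Wt w m := pow_le_pow_of_le_one t1.le t2.le hW
      have h3 : 2 * κ * Fp.eval t ≤ 2 * κ * (2 * F * t ^ μ) :=
        mul_le_mul_of_nonneg_left t4.2 (by linarith)
      have h4 : 2 * κ * (2 * F * t ^ μ) = t ^ μ := by
        rw [hκ]
        field_simp
        ring
      linarith)
    filter_upwards [h1] with t ht
    rw [hGQ m hm t] at ht
    exact ht.le
  -- the constants
  obtain ⟨M, hM⟩ : ∃ M : ℝ, M = ∑ m ∈ S, |a m| := ⟨_, rfl⟩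
  have hM0 : 0 ≤ M := by
    rw [hM]
    exact Finset.sum_nonneg (fun _ _ => abs_nonneg _)
  obtain ⟨e, he⟩ : ∃ e : ℝ, e = F / (2 * (M + 1)) := ⟨_, rfl⟩
  have he0 : 0 < e := by rw [he]; positivity
  have heM : e * M < F := by
    rw [he, div_mul_eq_mul_div, div_lt_iff₀ (by positivity)]
    nlinarith
  obtain ⟨s, hs⟩ : ∃ s : ℝ, s = min (ε / 2) (min e (1 / 2)) := ⟨_, rfl⟩
  have hs0 : 0 < s := by
    rw [hs]
    exact lt_min (by linarith) (lt_min he0 (by norm_num))
  have hsε : s < ε := by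
    have : s ≤ ε / 2 := by rw [hs]; exact min_le_left _ _
    linarith
  have hse : s ≤ e := by
    rw [hs]
    exact (min_le_right _ _).trans (min_le_left _ _)
  have hs1 : s < 1 := by
    have : s ≤ 1 / 2 := by
      rw [hs]
      exact (min_le_right _ _).trans (min_le_right _ _)
    linarith
  obtain ⟨b, hb⟩ : ∃ b : ℝ, b = Real.log s := ⟨_, rfl⟩
  have hb0 : b < 0 := by rw [hb]; exact Real.log_neg hs0 hs1
  have hbe : b ≤ Real.log e := by rw [hb]; exact Real.log_le_log hs0 hse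
  have hsb : ∀ n : ℕ, Real.exp (n * b) = s ^ n := by
    intro n
    rw [Real.exp_nat_mul, hb, Real.exp_log hs0]
  obtain ⟨δ, hδ⟩ : ∃ δ : ℝ, δ = min (1 / 2) (e / 4 * s ^ μ) := ⟨_, rfl⟩
  have hsμ0 : 0 < s ^ μ := pow_pos hs0 μ
  have hsμ1 : s ^ μ ≤ 1 := pow_le_one₀ hs0.le hs1.le
  have hδ0 : 0 < δ := by
    rw [hδ]
    exact lt_min (by norm_num) (by positivity)
  have hδ1 : δ ≤ 1 / 2 := by rw [hδ]; exact min_le_left _ _
  have hδ2 : δ ≤ e / 4 * s ^ μ := by rw [hδ]; exact min_le_right _ _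
  have hδ3 : δ ≤ e / 4 := by
    refine hδ2.trans ?_
    have := mul_le_mul_of_nonneg_left hsμ1 (show 0 ≤ e / 4 by linarith)
    linarith
  -- choose t
  have hE1 : ∀ᶠ t in 𝓝[>] (0 : ℝ), ∀ m ∈ S, ∀ m' ∈ S, Wt w m = Wt w m' →
      -(δ * κ * ev (Q t) f) < cm (y t) m - cm (y t) m' := by
    rw [Filter.eventually_all_finset]
    intro m hm
    rw [Filter.eventually_all_finset]
    intro m' hm'
    by_cases hW : Wt w m = Wt w m'
    · filter_upwards [hA1 m hm m' hm' hW (δ * κ) (by positivity)] with t ht _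
      exact ht
    · exact Filter.Eventually.of_forall (fun t h1 => absurd h1 hW)
  have hE2 : ∀ᶠ t in 𝓝[>] (0 : ℝ), ∀ m ∈ S, μ < Wt w m →
      cm (y t) m ≤ e * κ * ev (Q t) f := by
    rw [Filter.eventually_all_finset]
    intro m hm
    by_cases hW : μ < Wt w m
    · filter_upwards [hB m hm hW (e * κ) (by positivity)] with t ht _
      exact ht
    · exact Filter.Eventually.of_forall (fun t h1 => absurd h1 hW)
  have hE3 : ∀ᶠ t in 𝓝[>] (0 : ℝ), ∀ m ∈ S, Wt w m ≤ μ →
      κ * ev (Q t) f ≤ cm (y t) m := by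
    rw [Filter.eventually_all_finset]
    intro m hm
    by_cases hW : Wt w m ≤ μ
    · filter_upwards [hC m hm hW] with t ht _
      exact ht
    · exact Filter.Eventually.of_forall (fun t h1 => absurd h1 hW)
  obtain ⟨t, t0, tε, ty, tQ, t1, t2, t3⟩ :=
    (htpos.and ((htlt ε hε).and (hypos.and (h.fQ.and (hE1.and (hE2.and hE3)))))).exists
  refine ⟨s, ⟨hs0, hsε⟩, t, ⟨t0, tε⟩, ?_⟩
  obtain ⟨A, hA⟩ : ∃ A : (Fin 3 →₀ ℕ) → ℝ, A = fun m => ∑ i, m i * Real.log (y t i) := ⟨_, rfl⟩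
  have hexpA : ∀ m, Real.exp (A m) = cm (y t) m := by
    intro m
    rw [hA]
    show Real.exp (∑ i, m i * Real.log (y t i)) = _
    rw [← cm_exp]
    congr 1
    funext i
    exact Real.exp_log (ty i)
  have hκφ : 0 < κ * ev (Q t) f := mul_pos hκ0 tQ
  have hm0' := t3 m0 hm0 hWm0.le
  have hcore := core S a (Wt w) μ F m0 hm0 hWm0 hFc (fun n hn => by rw [← hcoeff]; exact hlow n hn)
    e he0 (by rw [← hM]; exact heM) A b hb0 hbe (by
      intro m hm hW
      rw [hexpA, hexpA]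
      refine (t2 m hm hW).trans ?_
      rw [mul_assoc]
      exact mul_le_mul_of_nonneg_left hm0' he0.le) (by
      intro m hm m' hm' hW hWμ
      have p1 := t1 m hm m' hm' hW
      have p2 := t1 m' hm' m hm hW.symm
      have p3 := t3 m' hm' (by omega)
      have p4 : |cm (y t) m - cm (y t) m'| ≤ δ * (κ * ev (Q t) f) := by
        rw [abs_le]
        constructor
        · linarith
        · linarith
      have hy0 : 0 < cm (y t) m' := by rw [← hexpA]; exact Real.exp_pos _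
      have p5 : Real.exp (A m - A m') - 1 = (cm (y t) m - cm (y t) m') / cm (y t) m' := by
        rw [Real.exp_sub, hexpA, hexpA]
        field_simp
      have p6 : |Real.exp (A m - A m') - 1| ≤ δ := by
        rw [p5, abs_div, abs_of_pos hy0, div_le_iff₀ hy0]
        exact p4.trans (mul_le_mul_of_nonneg_left p3 hδ0.le)
      have p7 := abs_le_two_mul (p6.trans hδ1)
      refine ⟨by linarith, ?_, ?_⟩
      · have p8 : |A m - A m'| * Real.exp (A m') ≤
            2 * |Real.exp (A m - A m') - 1| * Real.exp (A m') :=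
          mul_le_mul_of_nonneg_right p7 (Real.exp_pos _).le
        have p9 : 2 * |Real.exp (A m - A m') - 1| * Real.exp (A m') =
            2 * |cm (y t) m - cm (y t) m'| := by
          rw [p5, abs_div, abs_of_pos hy0, hexpA]
          field_simp
        rw [hexpA m0]
        have p10 : δ * (κ * ev (Q t) f) ≤ e / 4 * (κ * ev (Q t) f) :=
          mul_le_mul_of_nonneg_right hδ3 hκφ.le
        have p11 : e / 4 * (κ * ev (Q t) f) ≤ e / 4 * cm (y t) m0 :=
          mul_le_mul_of_nonneg_left hm0' (by linarith)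
        rw [p9] at p8
        linarith
      · rw [hsb]
        linarith)
  have hgam : ∀ k : ℝ, ev (fun i => c i * Real.exp ((1 - k) * Real.log (y t i) + k * (w i * b))) f
      = ∑ m ∈ S, a m * Real.exp ((1 - k) * A m + k * (Wt w m * b)) := by
    intro k
    rw [hev (fun i => Real.exp ((1 - k) * Real.log (y t i) + k * (w i * b)))]
    apply Finset.sum_congr rfl
    intro m _
    rw [cm_exp]
    congr 2
    rw [hA]
    show _ = (1 - k) * ∑ i, m i * Real.log (y t i) + k * (Wt w m * b)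
    unfold Wt
    push_cast
    rw [Finset.mul_sum, Finset.sum_mul, Finset.mul_sum, ← Finset.sum_add_distrib]
    apply Finset.sum_congr rfl
    intro i _
    ring
  apply JoinedIn.symm
  refine JoinedIn.ofLine
    (f := fun k i => c i * Real.exp ((1 - k) * Real.log (y t i) + k * (w i * b))) ?_ ?_ ?_ ?_
  · apply Continuous.continuousOn
    fun_prop
  · rw [hQy t]
    funext i
    show c i * Real.exp ((1 - 0) * Real.log (y t i) + 0 * (w i * b)) = _
    rw [zero_mul, add_zero, sub_zero, one_mul, Real.exp_log (ty i)]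
  · rw [hPy s]
    funext i
    show c i * Real.exp ((1 - 1) * Real.log (y t i) + 1 * (w i * b)) = _
    rw [sub_self, zero_mul, zero_add, one_mul, hsb]
  · rintro x ⟨k, hk, rfl⟩
    show 0 < ev _ f
    rw [hgam k]
    exact hcore k hk.1 hk.2

end Pool.Agent.H734R2.SP
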