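import Pool.Agent.H734R2.SP.Stubs2

set_option autoImplicit false

namespace Pool.Agent.H734R2.SP

open MvPolynomial Filter Topology

namespace MONOaux

/-- weighted geometric mean -/
noncomputable def gm (κ a b : ℝ) : ℝ := a ^ (1 - κ) * b ^ κ

lemma gm_pos (κ a b : ℝ) (ha : 0 < a) (hb : 0 < b) : 0 < gm κ a b :=
  mul_pos (Real.rpow_pos_of_pos ha _) (Real.rpow_pos_of_pos hb _)

lemma gm_mul (κ e a b : ℝ) (he : 0 < e) (ha : 0 < a) (hb : 0 < b) :
    gm κ (e * a) (e * b) = e * gm κ a b := by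
  unfold gm
  rw [Real.mul_rpow he.le ha.le, Real.mul_rpow he.le hb.le]
  have : e ^ (1 - κ) * e ^ κ = e := by
    rw [← Real.rpow_add he]; simp
  calc e ^ (1 - κ) * a ^ (1 - κ) * (e ^ κ * b ^ κ)
      = (e ^ (1 - κ) * e ^ κ) * (a ^ (1 - κ) * b ^ κ) := by ring
    _ = e * (a ^ (1 - κ) * b ^ κ) := by rw [this]

lemma gm_mono (κ a b a' b' : ℝ) (hκ : κ ∈ Set.Icc (0 : ℝ) 1) (ha : 0 ≤ a) (hb : 0 ≤ b)
    (h1 : a ≤ a') (h2 : b ≤ b') : gm κ a b ≤ gm κ a' b' := by
  unfold gm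
  have h0 := hκ.1
  have h3 := hκ.2
  exact mul_le_mul (Real.rpow_le_rpow ha h1 (by linarith)) (Real.rpow_le_rpow hb h2 h0)
    (Real.rpow_nonneg hb _) (Real.rpow_nonneg (ha.trans h1) _)

lemma mon_pos (m : Ex) (x : Pt) (hx : ∀ i, 0 < x i) : 0 < mon m x :=
  Finset.prod_pos fun i _ => pow_pos (hx i) _

lemma ev_rel (u v : Ex) (h₁ : Poly) (x : Pt) :
    ev x (rel u v h₁) = mon u x - mon v x - ∑ m ∈ h₁.support, h₁.coeff m * mon m x := by
  unfold rel
  simp only [ev, map_sub, eval_monomial, one_mul]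
  rw [MvPolynomial.eval_eq' x h₁]
  rw [Finsupp.prod_fintype _ _ (fun i => by simp), Finsupp.prod_fintype _ _ (fun i => by simp)]
  rfl

lemma pow_diff_lower (x y : ℝ) (a : ℕ) (ha : 1 ≤ a) (hy : 1 / 2 ≤ y) (hxy : y ≤ x) :
    (x - y) * (1 / 2) ^ (a - 1) ≤ x ^ a - y ^ a := by
  have e1 : x ^ a = x * x ^ (a - 1) := by
    rw [← pow_succ']; congr 1; omega
  have e2 : y ^ a = y * y ^ (a - 1) := by
    rw [← pow_succ']; congr 1; omega
  have h1 : y ^ (a - 1) ≤ x ^ (a - 1) := pow_le_pow_left₀ (by linarith) hxy _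
  have h2 : (1 / 2 : ℝ) ^ (a - 1) ≤ y ^ (a - 1) := pow_le_pow_left₀ (by norm_num) hy _
  rw [e1, e2]
  have h3 : x * y ^ (a - 1) ≤ x * x ^ (a - 1) := mul_le_mul_of_nonneg_left h1 (by linarith)
  have h4 : (x - y) * (1 / 2) ^ (a - 1) ≤ (x - y) * y ^ (a - 1) :=
    mul_le_mul_of_nonneg_left h2 (by linarith)
  nlinarith

end MONOaux

open MONOaux

theorem t_MONO : S_MONO := by
  intro hPTB w k c hw u v h₁ huv huk hh1 huc hvc η₀ hη0 hη1
  set C1 : ℝ := ∑ m ∈ h₁.support, |h₁.coeff m| * ((m c : ℝ) * (3 / 2) ^ (m c - 1)) with hC1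
  set C2 : ℝ := ∑ m ∈ h₁.support, |h₁.coeff m| * (3 / 2) ^ (m c) with hC2
  have hC1n : 0 ≤ C1 := Finset.sum_nonneg fun m _ => by positivity
  have hC2n : 0 ≤ C2 := Finset.sum_nonneg fun m _ => by positivity
  set D : ℝ := 1 + C1 + C2 with hD
  have hDpos : 0 < D := by positivity
  set mn : ℝ := min η₀ ((1 / 2) ^ (u c - 1)) with hmn
  have hmnpos : 0 < mn := lt_min hη0 (by positivity)
  set ε : ℝ := mn / (2 * D) with hε
  have hεpos : 0 < ε := by positivity
  have hεD : ε * D = mn / 2 := by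
    rw [hε]; field_simp
  have hmn1 : mn ≤ η₀ := min_le_left _ _
  have hmn2 : mn ≤ (1 / 2) ^ (u c - 1) := min_le_right _ _
  have hεC1 : ε * C1 < (1 / 2) ^ (u c - 1) := by
    have : ε * C1 ≤ ε * D := mul_le_mul_of_nonneg_left (by linarith) hεpos.le
    linarith
  have hεC2 : ε * (1 + C2) < η₀ := by
    have : ε * (1 + C2) ≤ ε * D := mul_le_mul_of_nonneg_left (by linarith) hεpos.le
    linarith
  have hε1 : ε < 1 := by
    have : ε * 1 ≤ ε * D := mul_le_mul_of_nonneg_left (by linarith) hεpos.le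
    linarith
  refine ⟨h₁.support.sup (wt w), ε, hεpos, ?_⟩
  intro p q hp hq κ hκ
  obtain ⟨hp0, hp1, hp2⟩ := hp
  obtain ⟨hq0, hq1, hq2⟩ := hq
  have hmon := (hPTB c p q hp0 hq0).2.2.2.1
  set M : Ex → ℝ := fun m => gm κ (mon m q) (mon m p) with hM
  have hMpos : ∀ m, 0 < M m := fun m => gm_pos _ _ _ (mon_pos m q hq0) (mon_pos m p hp0)
  have hMm : ∀ m ∈ h₁.support, M m ≤ ε * M u := by
    intro m hm
    have hK : wt w m ≤ h₁.support.sup (wt w) := Finset.le_sup hm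
    have e1 := hq1 u m hK huk (hh1 m hm)
    have e2 := hp1 u m hK huk (hh1 m hm)
    calc M m ≤ gm κ (ε * mon u q) (ε * mon u p) :=
          gm_mono κ _ _ _ _ hκ (mon_pos m q hq0).le (mon_pos m p hp0).le e1 e2
      _ = ε * M u := gm_mul κ ε _ _ hεpos (mon_pos u q hq0) (mon_pos u p hp0)
  have hVub : M v ≤ (1 + ε) * M u := by
    have e1 := abs_le.1 (hq2 u v huk huv)
    have e2 := abs_le.1 (hp2 u v huk huv)
    calc M v ≤ gm κ ((1 + ε) * mon u q) ((1 + ε) * mon u p) :=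
          gm_mono κ _ _ _ _ hκ (mon_pos v q hq0).le (mon_pos v p hp0).le (by linarith) (by linarith)
      _ = (1 + ε) * M u := gm_mul κ _ _ _ (by linarith) (mon_pos u q hq0) (mon_pos u p hp0)
  have hVlb : (1 - ε) * M u ≤ M v := by
    have e1 := abs_le.1 (hq2 u v huk huv)
    have e2 := abs_le.1 (hp2 u v huk huv)
    have h1 : 0 < 1 - ε := by linarith
    calc (1 - ε) * M u = gm κ ((1 - ε) * mon u q) ((1 - ε) * mon u p) :=
          (gm_mul κ _ _ _ h1 (mon_pos u q hq0) (mon_pos u p hp0)).symm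
      _ ≤ M v := gm_mono κ _ _ _ _ hκ (mul_pos h1 (mon_pos u q hq0)).le
          (mul_pos h1 (mon_pos u p hp0)).le (by linarith) (by linarith)
  have hval : ∀ η : ℝ, -1 < η → ev (pt c p q κ η) (rel u v h₁) =
      M u * (1 + η) ^ u c - M v - ∑ m ∈ h₁.support, h₁.coeff m * (M m * (1 + η) ^ m c) := by
    intro η hη
    rw [ev_rel, hmon u κ η hη, hmon v κ η hη, hvc, pow_zero, mul_one]
    congr 1
    refine Finset.sum_congr rfl fun m _ => ?_
    rw [hmon m κ η hη]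
    rfl
  have hU := hMpos u
  have hsumbd : ∀ η : ℝ, η ∈ Set.Icc (-η₀) η₀ →
      |∑ m ∈ h₁.support, h₁.coeff m * (M m * (1 + η) ^ m c)| ≤ ε * C2 * M u := by
    intro η hη
    refine (Finset.abs_sum_le_sum_abs _ _).trans ?_
    rw [hC2, Finset.mul_sum, Finset.sum_mul]
    refine Finset.sum_le_sum fun m hm => ?_
    have h0 : 0 ≤ 1 + η := by linarith [hη.1]
    have h1 : (1 + η) ^ m c ≤ (3 / 2 : ℝ) ^ m c := pow_le_pow_left₀ h0 (by linarith [hη.2]) _
    rw [abs_mul, abs_of_nonneg (mul_nonneg (hMpos m).le (pow_nonneg h0 _))]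
    calc |h₁.coeff m| * (M m * (1 + η) ^ m c)
        ≤ |h₁.coeff m| * ((ε * M u) * (3 / 2) ^ m c) :=
          mul_le_mul_of_nonneg_left (mul_le_mul (hMm m hm) h1 (pow_nonneg h0 _)
            (by positivity)) (abs_nonneg _)
      _ = ε * (|h₁.coeff m| * (3 / 2) ^ m c) * M u := by ring
  refine ⟨?_, ?_, ?_⟩
  · intro η hη η' hη' hlt
    simp only
    rw [hval η (by linarith [hη.1]), hval η' (by linarith [hη'.1])]
    have hlow := pow_diff_lower (1 + η') (1 + η) (u c) huc (by linarith [hη.1]) (by linarith)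
    have hdiff : |∑ m ∈ h₁.support, h₁.coeff m * (M m * (1 + η') ^ m c) -
        ∑ m ∈ h₁.support, h₁.coeff m * (M m * (1 + η) ^ m c)| ≤ ε * C1 * M u * (η' - η) := by
      rw [← Finset.sum_sub_distrib]
      refine (Finset.abs_sum_le_sum_abs _ _).trans ?_
      rw [hC1, Finset.mul_sum, Finset.sum_mul, Finset.sum_mul]
      refine Finset.sum_le_sum fun m hm => ?_
      have e1 : h₁.coeff m * (M m * (1 + η') ^ m c) - h₁.coeff m * (M m * (1 + η) ^ m c) =
          h₁.coeff m * (M m * ((1 + η') ^ m c - (1 + η) ^ m c)) := by ring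
      rw [e1, abs_mul, abs_mul, abs_of_pos (hMpos m)]
      have e2 := abs_pow_sub_pow_le (1 + η') (1 + η) (m c)
      have e3 : |(1 + η') - (1 + η)| = η' - η := by
        rw [show (1 + η') - (1 + η) = η' - η by ring]
        exact abs_of_pos (by linarith)
      have e4 : max |1 + η'| |1 + η| ≤ 3 / 2 := by
        rw [abs_of_nonneg (by linarith [hη'.1]), abs_of_nonneg (by linarith [hη.1])]
        exact max_le (by linarith [hη'.2]) (by linarith [hη.2])
      have e5 : (max |1 + η'| |1 + η|) ^ (m c - 1) ≤ (3 / 2 : ℝ) ^ (m c - 1) :=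
        pow_le_pow_left₀ (le_max_of_le_left (abs_nonneg _)) e4 _
      rw [e3] at e2
      have e6 : |(1 + η') ^ m c - (1 + η) ^ m c| ≤ (η' - η) * (m c : ℝ) * (3 / 2) ^ (m c - 1) :=
        e2.trans (mul_le_mul_of_nonneg_left e5 (mul_nonneg (by linarith) (Nat.cast_nonneg _)))
      calc |h₁.coeff m| * (M m * |(1 + η') ^ m c - (1 + η) ^ m c|)
          ≤ |h₁.coeff m| * ((ε * M u) * ((η' - η) * (m c : ℝ) * (3 / 2) ^ (m c - 1))) :=
            mul_le_mul_of_nonneg_left (mul_le_mul (hMm m hm) e6 (abs_nonneg _) (by positivity))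
              (abs_nonneg _)
        _ = ε * (|h₁.coeff m| * ((m c : ℝ) * (3 / 2) ^ (m c - 1))) * M u * (η' - η) := by ring
    have hd2 := abs_le.1 hdiff
    have h5 : (1 + η' - (1 + η)) * (1 / 2) ^ (u c - 1) * M u ≤
        ((1 + η') ^ u c - (1 + η) ^ u c) * M u := mul_le_mul_of_nonneg_right hlow hU.le
    have h6 : 0 < (η' - η) * M u * ((1 / 2) ^ (u c - 1) - ε * C1) :=
      mul_pos (mul_pos (by linarith) hU) (by linarith)
    nlinarith
  · rw [hval (-η₀) (by linarith)]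
    have h1 := abs_le.1 (hsumbd (-η₀) ⟨le_rfl, by linarith⟩)
    have h2 : (1 + -η₀) ^ u c ≤ 1 - η₀ := by
      calc (1 + -η₀) ^ u c ≤ (1 + -η₀) ^ 1 :=
            pow_le_pow_of_le_one (by linarith) (by linarith) huc
        _ = 1 - η₀ := by ring
    have h3 : M u * (1 + -η₀) ^ u c ≤ M u * (1 - η₀) := mul_le_mul_of_nonneg_left h2 hU.le
    have h4 : 0 < M u * (η₀ - ε * (1 + C2)) := mul_pos hU (by linarith)
    nlinarith
  · rw [hval η₀ (by linarith)]
    have h1 := abs_le.1 (hsumbd η₀ ⟨by linarith, le_rfl⟩)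
    have h2 : 1 + η₀ ≤ (1 + η₀) ^ u c := by
      calc 1 + η₀ = (1 + η₀) ^ 1 := by ring
        _ ≤ (1 + η₀) ^ u c := pow_le_pow_right₀ (by linarith) huc
    have h3 : M u * (1 + η₀) ≤ M u * (1 + η₀) ^ u c := mul_le_mul_of_nonneg_left h2 hU.le
    have h4 : 0 < M u * (η₀ - ε * (1 + C2)) := mul_pos hU (by linarith)
    nlinarith

end Pool.Agent.H734R2.SP
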