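import Pool.Agent.H734R2.SP.Stubs6

set_option autoImplicit false

/-! MONU: moving an arc to the plane z = ρ when f is nondecreasing in z (helper836). -/

namespace Pool.Agent.H734R2.SP

open MvPolynomial Filter Topology

theorem MONU_vec (x y r : ℝ) : (![x, y, 0] : Pt) + r • (Pi.single 2 1 : Pt) = ![x, y, r] := by
  funext j
  fin_cases j <;> simp

theorem MONU_vec' (x : Pt) : ![x 0, x 1, x 2] = x := by
  ext i
  fin_cases i <;> rfl

theorem MONU_deriv (hl : S_LIN) (f : Poly) (x y z : ℝ) :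
    HasDerivAt (fun r : ℝ => ev ![x, y, r] f) (ev ![x, y, z] (pderiv 2 f)) z := by
  have h := hl f ![x, y, 0] (Pi.single 2 1) z
  simp only [MONU_vec] at h
  have e : (∑ j, (Pi.single 2 1 : Pt) j * ev ![x, y, z] (pderiv j f)) = ev ![x, y, z] (pderiv 2 f) := by
    rw [Finset.sum_eq_single (2 : Fin 3)]
    · simp
    · intro j _ hj
      rw [Pi.single_eq_of_ne hj, zero_mul]
    · intro h2
      exact absurd (Finset.mem_univ _) h2
  rw [e] at h
  exact h

theorem MONU_mono (hl : S_LIN) (f : Poly) (x y ρ : ℝ)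
    (hpos : ∀ z : ℝ, |z| ≤ ρ → 0 ≤ ev ![x, y, z] (pderiv 2 f)) :
    MonotoneOn (fun r : ℝ => ev ![x, y, r] f) (Set.Icc (-ρ) ρ) := by
  refine monotoneOn_of_deriv_nonneg (convex_Icc _ _) ?_ ?_ ?_
  · intro z _
    exact (MONU_deriv hl f x y z).continuousAt.continuousWithinAt
  · intro z _
    exact (MONU_deriv hl f x y z).differentiableAt.differentiableWithinAt
  · intro z hz
    rw [(MONU_deriv hl f x y z).deriv]
    have hz' : z ∈ Set.Icc (-ρ) ρ := interior_subset hz
    exact hpos z (abs_le.2 hz')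

theorem t_MONU (hl : S_LIN) : S_MONU := by
  intro f P ρ hP hfP hρ hmon
  have hz : ∀ i, ∀ᶠ t in 𝓝[>] (0 : ℝ), |P t i| ≤ ρ := by
    intro i
    have hc : ContinuousAt (fun t => P t i) 0 := (hP.1 i).continuousAt
    have h0 : P 0 i = 0 := by rw [hP.2]; rfl
    have h5 : ∀ᶠ t in 𝓝 (0 : ℝ), |P t i| < ρ := by
      have := hc.abs
      refine this.eventually_lt continuousAt_const ?_
      simp only [h0, abs_zero]
      exact hρ
    exact (h5.filter_mono nhdsWithin_le_nhds).mono (fun t ht => le_of_lt ht)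
  have key : ∀ᶠ t in 𝓝[>] (0 : ℝ), ∀ θ : ℝ, 0 ≤ θ → θ ≤ 1 →
      ev (P t) f ≤ ev ![P t 0, P t 1, P t 2 + θ * (ρ - P t 2)] f := by
    filter_upwards [hz 0, hz 1, hz 2] with t a0 a1 a2
    intro θ b0 b1
    have hm := MONU_mono hl f (P t 0) (P t 1) ρ (fun z hz => hmon _ _ z a0 a1 hz)
    have a2' := abs_le.1 a2
    have h1 : P t 2 ∈ Set.Icc (-ρ) ρ := ⟨a2'.1, a2'.2⟩
    have hnn : 0 ≤ θ * (ρ - P t 2) := mul_nonneg b0 (by linarith [a2'.2])
    have hle : θ * (ρ - P t 2) ≤ 1 * (ρ - P t 2) :=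
      mul_le_mul_of_nonneg_right b1 (by linarith [a2'.2])
    have h2 : P t 2 + θ * (ρ - P t 2) ∈ Set.Icc (-ρ) ρ :=
      ⟨by linarith [a2'.1], by linarith⟩
    have h3 := hm h1 h2 (by linarith)
    simp only [MONU_vec'] at h3
    exact h3
  constructor
  · filter_upwards [key, hfP] with t a hp
    have h1 := a 1 zero_le_one le_rfl
    have e : P t 2 + 1 * (ρ - P t 2) = ρ := by ring
    rw [e] at h1
    linarith
  · filter_upwards [key, hfP] with t a b
    refine JoinedIn.ofLine
      (f := fun θ : ℝ => ![P t 0, P t 1, P t 2 + θ * (ρ - P t 2)]) ?_ ?_ ?_ ?_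
    · apply Continuous.continuousOn
      refine continuous_pi (fun i => ?_)
      fin_cases i
      · exact continuous_const
      · exact continuous_const
      · show Continuous (fun θ : ℝ => P t 2 + θ * (ρ - P t 2))
        fun_prop
    · simp only [zero_mul, add_zero]
      exact MONU_vec' _
    · have e : P t 2 + 1 * (ρ - P t 2) = ρ := by ring
      simp only [e]
    · rintro _ ⟨θ, hθ, rfl⟩
      have := a θ hθ.1 hθ.2
      show 0 < ev ![P t 0, P t 1, P t 2 + θ * (ρ - P t 2)] f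
      linarith

end Pool.Agent.H734R2.SP
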