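import Pool.Agent.H734R2.SP.Stubs2

set_option autoImplicit false

/-! (MUL3) arcs with a coordinate of order exactly three (helper303) -/

namespace Pool.Agent.H734R2.SP

open MvPolynomial Filter Topology

/-- an analytic germ that is `O(t^k)` has a coefficient at `t^k` -/
theorem mul3_an1 (u : ℝ → ℝ) (hu : AnalyticAt ℝ u 0) (k : ℕ) (C : ℝ)
    (hC : ∀ᶠ t in 𝓝[>] (0 : ℝ), |u t| ≤ C * t ^ k) :
    ∃ c, Tendsto (fun t => u t / t ^ k) (𝓝[>] (0 : ℝ)) (𝓝 c) ∧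
      (c = 0 → ∃ C', ∀ᶠ t in 𝓝[>] (0 : ℝ), |u t| ≤ C' * t ^ (k + 1)) := by
  have hpos : ∀ᶠ t in 𝓝[>] (0 : ℝ), 0 < t := self_mem_nhdsWithin
  by_cases hz : ∀ᶠ z in 𝓝 (0 : ℝ), u z = 0
  · have hz' : ∀ᶠ z in 𝓝[>] (0 : ℝ), u z = 0 := nhdsWithin_le_nhds hz
    refine ⟨0, ?_, fun _ => ⟨0, ?_⟩⟩
    · refine (tendsto_congr' ?_).mpr tendsto_const_nhds
      filter_upwards [hz'] with t ht
      rw [ht, zero_div]
    · filter_upwards [hz'] with t ht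
      rw [ht]; simp
  obtain ⟨n, g, hg, hg0, hug⟩ := (hu.exists_eventuallyEq_pow_smul_nonzero_iff).mpr hz
  have hug' : ∀ᶠ t in 𝓝[>] (0 : ℝ), u t = t ^ n * g t := by
    filter_upwards [nhdsWithin_le_nhds hug] with t ht
    rw [ht, sub_zero, smul_eq_mul]
  have hgt : Tendsto g (𝓝[>] (0 : ℝ)) (𝓝 (g 0)) := hg.continuousAt.tendsto.mono_left nhdsWithin_le_nhds
  have hid : Tendsto (fun t : ℝ => t) (𝓝[>] (0 : ℝ)) (𝓝 0) := tendsto_id.mono_left nhdsWithin_le_nhds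
  have hkn : k ≤ n := by
    by_contra hn
    rw [not_le] at hn
    have h1 : ∀ᶠ t in 𝓝[>] (0 : ℝ), |g t| ≤ C * t ^ (k - n) := by
      filter_upwards [hug', hC, hpos] with t h1 h2 h3
      rw [h1, abs_mul, abs_of_pos (pow_pos h3 n)] at h2
      have h4 : C * t ^ k = t ^ n * (C * t ^ (k - n)) := by
        rw [show t ^ k = t ^ n * t ^ (k - n) by rw [← pow_add]; congr 1; omega]
        ring
      rw [h4] at h2
      exact le_of_mul_le_mul_left h2 (pow_pos h3 n)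
    have h2 : Tendsto (fun t : ℝ => C * t ^ (k - n)) (𝓝[>] (0 : ℝ)) (𝓝 (C * 0 ^ (k - n))) :=
      (hid.pow _).const_mul C
    rw [zero_pow (by omega), mul_zero] at h2
    have h3 := le_of_tendsto_of_tendsto hgt.abs h2 h1
    exact hg0 (abs_eq_zero.mp (le_antisymm h3 (abs_nonneg _)))
  rcases hkn.eq_or_lt with h | h
  · subst h
    refine ⟨g 0, ?_, fun h => absurd h hg0⟩
    refine (tendsto_congr' ?_).mpr hgt
    filter_upwards [hug', hpos] with t h1 h2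
    rw [h1]
    exact mul_div_cancel_left₀ _ (pow_pos h2 k).ne'
  · refine ⟨0, ?_, fun _ => ⟨|g 0| + 1, ?_⟩⟩
    · have h1 : Tendsto (fun t => t ^ (n - k) * g t) (𝓝[>] (0 : ℝ)) (𝓝 (0 ^ (n - k) * g 0)) :=
        (hid.pow _).mul hgt
      rw [zero_pow (by omega), zero_mul] at h1
      refine (tendsto_congr' ?_).mpr h1
      filter_upwards [hug', hpos] with t h1 h2
      rw [h1, show t ^ n = t ^ k * t ^ (n - k) by rw [← pow_add]; congr 1; omega, mul_assoc]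
      exact mul_div_cancel_left₀ _ (pow_pos h2 k).ne'
    · have h1 : ∀ᶠ t in 𝓝[>] (0 : ℝ), |g t| < |g 0| + 1 :=
        hgt.abs.eventually (gt_mem_nhds (by linarith))
      have h2 : ∀ᶠ t in 𝓝[>] (0 : ℝ), t < 1 := hid.eventually (gt_mem_nhds one_pos)
      filter_upwards [hug', hpos, h1, h2] with t h1 h2 h3 h4
      rw [h1, abs_mul, abs_of_pos (pow_pos h2 n), mul_comm]
      refine mul_le_mul h3.le ?_ (pow_pos h2 n).le (by positivity)
      exact pow_le_pow_of_le_one h2.le h4.le h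

/-- `u = O(t^k)` -/
def BigO (u : ℝ → ℝ) (k : ℕ) : Prop := ∃ C : ℝ, ∀ᶠ t in 𝓝[>] (0 : ℝ), |u t| ≤ C * t ^ k

/-- `u ~ c t^k` -/
def Ld (u : ℝ → ℝ) (k : ℕ) (c : ℝ) : Prop := Tendsto (fun t => u t / t ^ k) (𝓝[>] (0 : ℝ)) (𝓝 c)

theorem mul3_bigO_mono {u : ℝ → ℝ} {k l : ℕ} (h : BigO u k) (hl : l ≤ k) : BigO u l := by
  obtain ⟨C, hC⟩ := h
  have hpos : ∀ᶠ t in 𝓝[>] (0 : ℝ), 0 < t := self_mem_nhdsWithin
  have hid : Tendsto (fun t : ℝ => t) (𝓝[>] (0 : ℝ)) (𝓝 0) := tendsto_id.mono_left nhdsWithin_le_nhds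
  have h2 : ∀ᶠ t in 𝓝[>] (0 : ℝ), t < 1 := hid.eventually (gt_mem_nhds one_pos)
  refine ⟨|C|, ?_⟩
  filter_upwards [hC, hpos, h2] with t h1 h2 h3
  calc |u t| ≤ C * t ^ k := h1
    _ ≤ |C| * t ^ k := mul_le_mul_of_nonneg_right (le_abs_self C) (pow_pos h2 k).le
    _ ≤ |C| * t ^ l :=
      mul_le_mul_of_nonneg_left (pow_le_pow_of_le_one h2.le h3.le hl) (abs_nonneg C)

theorem mul3_bigO_add {u v : ℝ → ℝ} {k : ℕ} (h : BigO u k) (h' : BigO v k) :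
    BigO (fun t => u t + v t) k := by
  obtain ⟨C, hC⟩ := h
  obtain ⟨D, hD⟩ := h'
  refine ⟨C + D, ?_⟩
  filter_upwards [hC, hD] with t h1 h2
  calc |u t + v t| ≤ |u t| + |v t| := abs_add_le _ _
    _ ≤ (C + D) * t ^ k := by linarith

theorem mul3_bigO_of_ld {u : ℝ → ℝ} {k : ℕ} {c : ℝ} (h : Ld u k c) : BigO u k := by
  have hpos : ∀ᶠ t in 𝓝[>] (0 : ℝ), 0 < t := self_mem_nhdsWithin
  refine ⟨|c| + 1, ?_⟩
  have h1 : ∀ᶠ t in 𝓝[>] (0 : ℝ), |u t / t ^ k| < |c| + 1 :=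
    h.abs.eventually (gt_mem_nhds (by linarith))
  filter_upwards [h1, hpos] with t h1 h2
  rw [abs_div, abs_of_pos (pow_pos h2 k), div_lt_iff₀ (pow_pos h2 k)] at h1
  exact h1.le

/-- removal of the orders in `J` -/
theorem mul3_rem (J : ℕ → Prop) (W : (ℝ → ℝ) → Prop) (W0 : W fun _ => 0)
    (Wadd : ∀ u v, W u → W v → W fun t => u t + v t) (k1 : ℕ)
    (hJ : ∀ j, k1 ≤ j → J j → ∀ c : ℝ, ∃ m, W m ∧ AnalyticAt ℝ m 0 ∧ Ld m j c) (n : ℕ) :
    ∀ k0, k1 ≤ k0 → ∀ u : ℝ → ℝ, AnalyticAt ℝ u 0 → BigO u k0 →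
      ∃ v, W v ∧ AnalyticAt ℝ v 0 ∧ (BigO (fun t => u t - v t) (k0 + n) ∨
        ∃ l, k0 ≤ l ∧ ¬ J l ∧ ∃ c, c ≠ 0 ∧ Ld (fun t => u t - v t) l c) := by
  induction n with
  | zero =>
    intro k0 _ u _ hO
    refine ⟨fun _ => 0, W0, analyticAt_const, Or.inl ?_⟩
    simpa using hO
  | succ n ih =>
    intro k0 hk u hu hO
    obtain ⟨C, hC⟩ := hO
    obtain ⟨c, hc, hc0⟩ := mul3_an1 u hu k0 C hC
    by_cases h0 : c = 0
    · obtain ⟨v, hv, hva, h⟩ := ih (k0 + 1) (by omega) u hu (hc0 h0)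
      refine ⟨v, hv, hva, ?_⟩
      rcases h with h | ⟨l, hl, hJl, d, hd, hld⟩
      · left
        rw [show k0 + (n + 1) = k0 + 1 + n by ring]
        exact h
      · exact Or.inr ⟨l, by omega, hJl, d, hd, hld⟩
    by_cases hJk : J k0
    · obtain ⟨m, hm, hma, hml⟩ := hJ k0 hk hJk c
      have h1 : Ld (fun t => u t - m t) k0 0 := by
        have := hc.sub hml
        rw [sub_self] at this
        refine this.congr fun t => ?_
        rw [sub_div]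
      have h2 : AnalyticAt ℝ (fun t => u t - m t) 0 := hu.sub hma
      obtain ⟨C2, hC2⟩ := mul3_bigO_of_ld h1
      obtain ⟨c2, hc2, hc20⟩ := mul3_an1 _ h2 k0 C2 hC2
      have h3 : c2 = 0 := tendsto_nhds_unique hc2 h1
      obtain ⟨v, hv, hva, h⟩ := ih (k0 + 1) (by omega) _ h2 (hc20 h3)
      refine ⟨fun t => m t + v t, Wadd _ _ hm hv, hma.add hva, ?_⟩
      have h4 : (fun t => u t - (m t + v t)) = fun t => u t - m t - v t := by
        funext t; ring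
      rw [h4]
      rcases h with h | ⟨l, hl, hJl, d, hd, hld⟩
      · left
        rw [show k0 + (n + 1) = k0 + 1 + n by ring]
        exact h
      · exact Or.inr ⟨l, by omega, hJl, d, hd, hld⟩
    · refine ⟨fun _ => 0, W0, analyticAt_const, Or.inr ⟨k0, le_rfl, hJk, c, h0, ?_⟩⟩
      simpa [Ld] using hc

theorem mul3_ld_pow {x : ℝ → ℝ} {k : ℕ} {a : ℝ} (h : Ld x k a) (q : ℕ) :
    Ld (fun t => x t ^ q) (k * q) (a ^ q) := by
  have := h.pow q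
  refine this.congr fun t => ?_
  rw [div_pow, pow_mul]

theorem mul3_ld_mul {x y : ℝ → ℝ} {k l : ℕ} {a b : ℝ} (h : Ld x k a) (h' : Ld y l b) :
    Ld (fun t => x t * y t) (k + l) (a * b) := by
  have := h.mul h'
  refine this.congr fun t => ?_
  rw [div_mul_div_comm, pow_add]

theorem mul3_ld_const {x : ℝ → ℝ} {k : ℕ} {a : ℝ} (h : Ld x k a) (c : ℝ) :
    Ld (fun t => c * x t) k (c * a) := by
  have := h.const_mul c
  refine this.congr fun t => ?_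
  rw [mul_div_assoc]

/-- polynomials in `x` -/
def W1 (x : ℝ → ℝ) (u : ℝ → ℝ) : Prop :=
  ∃ φ : Polynomial ℝ, φ.eval 0 = 0 ∧ u = fun t => φ.eval (x t)

/-- `φ(x) + ψ(x) y` -/
def W2 (x y : ℝ → ℝ) (u : ℝ → ℝ) : Prop :=
  ∃ φ ψ : Polynomial ℝ, φ.eval 0 = 0 ∧ u = fun t => φ.eval (x t) + ψ.eval (x t) * y t

/-- polynomials in `x` and `y` -/
def W3 (x y : ℝ → ℝ) (u : ℝ → ℝ) : Prop :=
  ∃ Φ : MvPolynomial (Fin 2) ℝ, MvPolynomial.eval (0 : Fin 2 → ℝ) Φ = 0 ∧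
    u = fun t => MvPolynomial.eval ![x t, y t] Φ

theorem mul3_an_pol {x : ℝ → ℝ} (hx : AnalyticAt ℝ x 0) (φ : Polynomial ℝ) :
    AnalyticAt ℝ (fun t => φ.eval (x t)) 0 := by
  have := hx.aeval_polynomial φ
  simpa [Polynomial.aeval_def, Polynomial.eval₂_eq_eval_map] using this

/-- the polynomial `φ(X₀)` -/
noncomputable def P1 (φ : Polynomial ℝ) : MvPolynomial (Fin 2) ℝ :=
  Polynomial.aeval (X 0 : MvPolynomial (Fin 2) ℝ) φ

theorem mul3_P1 (φ : Polynomial ℝ) (v : Fin 2 → ℝ) : MvPolynomial.eval v (P1 φ) = φ.eval (v 0) := by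
  unfold P1
  rw [Polynomial.aeval_def, Polynomial.hom_eval₂]
  have : (MvPolynomial.eval v).comp (algebraMap ℝ (MvPolynomial (Fin 2) ℝ)) = RingHom.id ℝ := by
    ext r; simp
  rw [this, Polynomial.eval₂_id]
  simp

theorem mul3_P1c (φ : Polynomial ℝ) : MvPolynomial.constantCoeff (P1 φ) = φ.eval 0 := by
  have h := mul3_P1 φ 0
  simpa using h

theorem mul3_W1_W3 {x y u : ℝ → ℝ} (h : W1 x u) : W3 x y u := by
  obtain ⟨φ, h0, rfl⟩ := h
  refine ⟨P1 φ, ?_, ?_⟩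
  · rw [mul3_P1]; exact h0
  · funext t
    rw [mul3_P1]; rfl

theorem mul3_W3_add {x y u v : ℝ → ℝ} (h : W3 x y u) (h' : W3 x y v) :
    W3 x y fun t => u t + v t := by
  obtain ⟨Φ, h0, rfl⟩ := h
  obtain ⟨Ψ, h1, rfl⟩ := h'
  exact ⟨Φ + Ψ, by rw [map_add, h0, h1, add_zero], by funext t; rw [map_add]⟩

theorem mul3_W2_W3 {x y u : ℝ → ℝ} (φ₁ : Polynomial ℝ) (h₁ : φ₁.eval 0 = 0)
    (h : W2 x (fun t => y t - φ₁.eval (x t)) u) : W3 x y u := by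
  obtain ⟨φ, ψ, h0, rfl⟩ := h
  refine ⟨P1 φ + P1 ψ * (X 1 - P1 φ₁), ?_, ?_⟩
  · simp [mul3_P1c, h0, h₁]
  · funext t
    simp [mul3_P1]

theorem mul3_core (x y z : ℝ → ℝ) (hx : AnalyticAt ℝ x 0) (hy : AnalyticAt ℝ y 0)
    (hz : AnalyticAt ℝ z 0) (a₀ a₁ : ℝ) (ha₀ : a₀ ≠ 0) (ha₁ : a₁ ≠ 0) (l : ℕ) (hl : 3 < l)
    (hl3 : ¬ 3 ∣ l) (φ₁ φ : Polynomial ℝ) (h₁ : φ₁.eval 0 = 0) (h₀ : φ.eval 0 = 0)
    (lx : Ld x 3 a₀) (ly : Ld (fun t => y t - φ₁.eval (x t)) l a₁)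
    (lz : BigO (fun t => z t - φ.eval (x t)) l) (N : ℕ) :
    (∃ v, W3 x y v ∧ BigO (fun t => z t - v t) N) ∨
    (∃ (φ₂ ψ : Polynomial ℝ) (l' : ℕ) (a₂ : ℝ), φ₂.eval 0 = 0 ∧ a₂ ≠ 0 ∧ l < l' ∧ l' ≤ 2 * l ∧
      l' % 3 ≠ 0 ∧ l % 3 ≠ l' % 3 ∧
      Ld (fun t => z t - φ₂.eval (x t) - ψ.eval (x t) * (y t - φ₁.eval (x t))) l' a₂) := by
  set y' : ℝ → ℝ := fun t => y t - φ₁.eval (x t) with hy'
  have hy'a : AnalyticAt ℝ y' 0 := hy.sub (mul3_an_pol hx φ₁)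
  have hza : AnalyticAt ℝ (fun t => z t - φ.eval (x t)) 0 := hz.sub (mul3_an_pol hx φ)
  -- the monomials
  have hmon : ∀ (q p : ℕ) (c : ℝ), Ld (fun t => c / (a₀ ^ q * a₁ ^ p) * (x t ^ q * y' t ^ p))
      (3 * q + l * p) c := by
    intro q p c
    have h1 := mul3_ld_const (mul3_ld_mul (mul3_ld_pow lx q) (mul3_ld_pow ly p))
      (c / (a₀ ^ q * a₁ ^ p))
    have h2 : a₀ ^ q * a₁ ^ p ≠ 0 := mul_ne_zero (pow_ne_zero _ ha₀) (pow_ne_zero _ ha₁)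
    rwa [div_mul_cancel₀ _ h2] at h1
  -- first removal
  obtain ⟨v, hv, hva, hres⟩ := mul3_rem (fun k => 3 ∣ k ∨ 3 ∣ k - l) (W2 x y')
    ⟨0, 0, by simp, by funext t; simp⟩
    (by
      rintro u v ⟨f1, g1, hf1, rfl⟩ ⟨f2, g2, hf2, rfl⟩
      refine ⟨f1 + f2, g1 + g2, by simp [hf1, hf2], ?_⟩
      funext t
      simp only [Polynomial.eval_add]
      ring)
    l
    (by
      rintro j hj hJ c
      rcases hJ with ⟨q, rfl⟩ | ⟨q, hq⟩
      · have hq0 : q ≠ 0 := by omega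
        refine ⟨fun t => (Polynomial.C (c / a₀ ^ q) * Polynomial.X ^ q).eval (x t) +
          (0 : Polynomial ℝ).eval (x t) * y' t, ⟨_, _, ?_, rfl⟩, ?_, ?_⟩
        · simp [hq0]
        · exact (mul3_an_pol hx _).add ((mul3_an_pol hx _).mul hy'a)
        · have := hmon q 0 c
          simpa using this
      · have hj' : j = 3 * q + l := by omega
        refine ⟨fun t => (0 : Polynomial ℝ).eval (x t) +
          (Polynomial.C (c / (a₀ ^ q * a₁)) * Polynomial.X ^ q).eval (x t) * y' t,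
          ⟨_, _, ?_, rfl⟩, ?_, ?_⟩
        · simp
        · exact (mul3_an_pol hx _).add ((mul3_an_pol hx _).mul hy'a)
        · have := hmon q 1 c
          rw [hj']
          simpa [mul_assoc] using this)
    N l le_rfl _ hza lz
  have hvW3 : W3 x y v := mul3_W2_W3 φ₁ h₁ hv
  have hφW3 : W3 x y fun t => φ.eval (x t) := mul3_W1_W3 ⟨φ, h₀, rfl⟩
  rcases hres with hres | ⟨l', hl', hJ', a₂, ha₂, hld⟩
  · left
    refine ⟨fun t => φ.eval (x t) + v t, mul3_W3_add hφW3 hvW3, ?_⟩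
    have h1 : (fun t => z t - (φ.eval (x t) + v t)) = fun t => z t - φ.eval (x t) - v t := by
      funext t; ring
    rw [h1]
    exact mul3_bigO_mono hres (by omega)
  · rw [not_or] at hJ'
    obtain ⟨hJ1, hJ2⟩ := hJ'
    by_cases h2 : l' ≤ 2 * l
    · right
      obtain ⟨φv, ψv, hφv, rfl⟩ := hv
      refine ⟨φ + φv, ψv, l', a₂, by simp [h₀, hφv], ha₂, ?_, h2, by omega, by omega, ?_⟩
      · rcases hl'.lt_or_eq with h | h
        · exact h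
        · exfalso
          apply hJ2
          rw [← h]; simp
      · refine hld.congr fun t => ?_
        simp only [hy', Polynomial.eval_add]
        ring
    · left
      rw [not_le] at h2
      obtain ⟨v3, hv3, -, hres3⟩ := mul3_rem (fun _ => True) (W3 x y)
        ⟨0, by simp, by funext t; simp⟩ (fun u v hu hv => mul3_W3_add hu hv) (2 * l)
        (by
          rintro j hj - c
          obtain ⟨q, p, hqp, hjq⟩ : ∃ q p : ℕ, (q ≠ 0 ∨ p ≠ 0) ∧ j = 3 * q + l * p := by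
            have hlm : l % 3 = 1 ∨ l % 3 = 2 := by omega
            have hjm : j % 3 = 0 ∨ j % 3 = 1 ∨ j % 3 = 2 := by omega
            have h3 : j % 3 = 0 ∨ j % 3 = l % 3 ∨ j % 3 = (2 * l) % 3 := by
              rcases hlm with h | h <;> rcases hjm with h' | h' | h' <;> omega
            rcases h3 with h3 | h3 | h3
            · exact ⟨j / 3, 0, Or.inl (by omega), by omega⟩
            · exact ⟨(j - l) / 3, 1, Or.inr one_ne_zero, by omega⟩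
            · exact ⟨(j - 2 * l) / 3, 2, Or.inr two_ne_zero, by omega⟩
          have he : (fun t => c / (a₀ ^ q * a₁ ^ p) * (x t ^ q * y' t ^ p)) =
              fun t => MvPolynomial.eval ![x t, y t]
                (C (c / (a₀ ^ q * a₁ ^ p)) * (X 0 ^ q * (X 1 - P1 φ₁) ^ p)) := by
            funext t
            simp [mul3_P1, hy']
          refine ⟨_, ⟨_, ?_, he⟩, ?_, ?_⟩
          · rcases hqp with h | h <;> simp [mul3_P1c, h₁, h]
          · exact analyticAt_const.mul ((hx.pow q).mul (hy'a.pow p))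
          · rw [hjq]
            exact hmon q p c)
        N (2 * l) le_rfl (fun t => z t - φ.eval (x t) - v t) (hza.sub hva)
        (mul3_bigO_mono (mul3_bigO_of_ld hld) h2.le)
      rcases hres3 with hres3 | ⟨_, _, h, _⟩
      · refine ⟨fun t => φ.eval (x t) + v t + v3 t,
          mul3_W3_add (mul3_W3_add hφW3 hvW3) hv3, ?_⟩
        have h1 : (fun t => z t - (φ.eval (x t) + v t + v3 t)) =
            fun t => z t - φ.eval (x t) - v t - v3 t := by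
          funext t; ring
        rw [h1]
        exact mul3_bigO_mono hres3 (by omega)
      · exact absurd trivial h

/-- removal by polynomials in `x` -/
theorem mul3_R1 (x y : ℝ → ℝ) (hx : AnalyticAt ℝ x 0) (hy : AnalyticAt ℝ y 0) (a₀ : ℝ)
    (ha₀ : a₀ ≠ 0) (lx : Ld x 3 a₀) (hO : BigO y 3) (N : ℕ) :
    ∃ φ : Polynomial ℝ, φ.eval 0 = 0 ∧ (BigO (fun t => y t - φ.eval (x t)) N ∨
      ∃ l, 3 < l ∧ ¬ 3 ∣ l ∧ ∃ c, c ≠ 0 ∧ Ld (fun t => y t - φ.eval (x t)) l c) := by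
  obtain ⟨v, ⟨φ, h0, rfl⟩, -, hres⟩ := mul3_rem (fun k => 3 ∣ k) (W1 x)
    ⟨0, by simp, by funext t; simp⟩
    (by
      rintro u v ⟨f1, hf1, rfl⟩ ⟨f2, hf2, rfl⟩
      exact ⟨f1 + f2, by simp [hf1, hf2], by funext t; simp⟩)
    3
    (by
      rintro j hj ⟨q, rfl⟩ c
      have hq0 : q ≠ 0 := by omega
      refine ⟨fun t => (Polynomial.C (c / a₀ ^ q) * Polynomial.X ^ q).eval (x t),
        ⟨_, ?_, rfl⟩, mul3_an_pol hx _, ?_⟩
      · simp [hq0]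
      · have h1 := mul3_ld_const (mul3_ld_pow lx q) (c / a₀ ^ q)
        rw [div_mul_cancel₀ _ (pow_ne_zero _ ha₀)] at h1
        simpa using h1)
    N 3 le_rfl y hy hO
  refine ⟨φ, h0, ?_⟩
  rcases hres with h | ⟨l, hl, hJ, c, hc, hld⟩
  · exact Or.inl (mul3_bigO_mono h (by omega))
  · refine Or.inr ⟨l, ?_, hJ, c, hc, hld⟩
    rcases hl.lt_or_eq with h | h
    · exact h
    · exact absurd (h ▸ dvd_refl 3) hJ

theorem t_MUL3 : S_MUL3 := by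
  intro _ _ P hP hi hC N
  obtain ⟨i0, a₀, ha₀, hx⟩ := hi
  have hPa : ∀ i, AnalyticAt ℝ (fun t => P t i) 0 := hP.1
  by_contra hcon
  -- the two alternatives
  have alt1 : ∀ e : Equiv.Perm (Fin 3), (∃ v, W3 (fun t => P t (e 0)) (fun t => P t (e 1)) v ∧
      BigO (fun t => P t (e 2) - v t) N) →
      ∃ (e : Equiv.Perm (Fin 3)) (Φ : MvPolynomial (Fin 2) ℝ),
        MvPolynomial.eval (0 : Fin 2 → ℝ) Φ = 0 ∧ ∃ C : ℝ, ∀ᶠ t in 𝓝[>] (0 : ℝ),
        |P t (e 2) - MvPolynomial.eval ![P t (e 0), P t (e 1)] Φ| ≤ C * t ^ N := by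
    rintro e ⟨v, ⟨Φ, h0, rfl⟩, C, hC⟩
    exact ⟨e, Φ, h0, C, hC⟩
  -- the main case distinction for a permutation
  have main : ∀ e : Equiv.Perm (Fin 3), e 0 = i0 → ∀ (φ₁ φ : Polynomial ℝ) (l : ℕ) (a₁ : ℝ),
      φ₁.eval 0 = 0 → φ.eval 0 = 0 → 3 < l → ¬ 3 ∣ l → a₁ ≠ 0 →
      Ld (fun t => P t (e 1) - φ₁.eval (P t (e 0))) l a₁ →
      BigO (fun t => P t (e 2) - φ.eval (P t (e 0))) l → False := by
    intro e he φ₁ φ l a₁ h₁ h₀ hl hl3 ha₁ ly lz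
    have lx : Ld (fun t => P t (e 0)) 3 a₀ := by rw [he]; exact hx
    rcases mul3_core (fun t => P t (e 0)) (fun t => P t (e 1)) (fun t => P t (e 2)) (hPa _) (hPa _)
      (hPa _) a₀ a₁ ha₀ ha₁ l hl hl3 φ₁ φ h₁ h₀ lx ly lz N with h | h
    · exact hcon (Or.inl (alt1 e h))
    · obtain ⟨φ₂, ψ, l', a₂, h2, ha₂, hll', hl2, hm1, hm2, hld⟩ := h
      exact hcon (Or.inr ⟨e, φ₁, φ₂, ψ, l, l', a₀, a₁, a₂, h₁, h2, ha₀, ha₁, ha₂, hl, hll', hl2,
        fun h => hl3 (Nat.dvd_of_mod_eq_zero h), hm1, hm2, lx, ly, hld⟩)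
  -- choose the permutation
  obtain ⟨e, he⟩ : ∃ e : Equiv.Perm (Fin 3), e 0 = i0 := ⟨Equiv.swap 0 i0, by simp⟩
  set e' : Equiv.Perm (Fin 3) := (Equiv.swap 1 2).trans e with he'
  have e0 : e' 0 = e 0 := by
    simp only [he', Equiv.trans_apply]
    rw [Equiv.swap_apply_of_ne_of_ne (by decide) (by decide)]
  have e1 : e' 1 = e 2 := by simp [he']
  have e2 : e' 2 = e 1 := by simp [he']
  have lx : Ld (fun t => P t (e 0)) 3 a₀ := by rw [he]; exact hx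
  obtain ⟨φy, hφy, hy⟩ := mul3_R1 (fun t => P t (e 0)) (fun t => P t (e 1)) (hPa _) (hPa _) a₀ ha₀ lx
    (hC _) N
  obtain ⟨φz, hφz, hz⟩ := mul3_R1 (fun t => P t (e 0)) (fun t => P t (e 2)) (hPa _) (hPa _) a₀ ha₀ lx
    (hC _) N
  rcases hy with hy | ⟨ly, hly, hly3, cy, hcy, hldy⟩
  · refine hcon (Or.inl (alt1 e' ⟨fun t => φy.eval (P t (e' 0)), mul3_W1_W3 ⟨φy, hφy, rfl⟩, ?_⟩))
    rw [e0, e2]; exact hy
  rcases hz with hz | ⟨lz, hlz, hlz3, cz, hcz, hldz⟩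
  · exact hcon (Or.inl (alt1 e ⟨fun t => φz.eval (P t (e 0)), mul3_W1_W3 ⟨φz, hφz, rfl⟩, hz⟩))
  rcases le_total ly lz with h | h
  · exact main e he φy φz ly cy hφy hφz hly hly3 hcy hldy
      (mul3_bigO_mono (mul3_bigO_of_ld hldz) h)
  · refine main e' (by rw [e0, he]) φz φy lz cz hφz hφy hlz hlz3 hcz ?_ ?_
    · rw [e0, e1]; exact hldz
    · rw [e0, e2]; exact mul3_bigO_mono (mul3_bigO_of_ld hldy) h

end Pool.Agent.H734R2.SP
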