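import Pool.Agent.H734R2.SP.Part2
import Pool.Agent.H734R2.SP.Bridge

set_option autoImplicit false

/-! Rational arcs of low multiplicity. -/

namespace Pool.Agent.H734R2.SP

open MvPolynomial Filter Topology

open POW in
theorem lowMult3_of_rational (a : Fin 3 → Polynomial ℝ) (b : Polynomial ℝ) (hb : b.eval 0 ≠ 0)
    (ha : ∀ i, (a i).eval 0 = 0) (i : Fin 3) (h : ¬ Polynomial.X ^ 4 ∣ a i) :
    LowMult3 (fun t j => (a j).eval t / b.eval t) := by
  have harc := arc_rational a b hb ha
  have hne : a i ≠ 0 := by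
    intro h0; apply h; rw [h0]; exact dvd_zero _
  obtain ⟨q, hq, hnd⟩ := Polynomial.exists_eq_pow_rootMultiplicity_mul_and_not_dvd (a i) hne 0
  set m := Polynomial.rootMultiplicity 0 (a i) with hm
  rw [Polynomial.C_0, sub_zero] at hq hnd
  have hm3 : m ≤ 3 := by
    by_contra hcon
    apply h
    rw [hq]
    exact Dvd.dvd.mul_right (pow_dvd_pow _ (by omega)) _
  have hq0 : q.eval 0 ≠ 0 := by
    intro h0
    apply hnd
    rw [Polynomial.X_dvd_iff, Polynomial.coeff_zero_eq_eval_zero]
    exact h0
  have hm1 : 1 ≤ m := by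
    by_contra hcon
    have hm0 : m = 0 := by omega
    have := ha i
    rw [hq, hm0] at this
    simp at this
    exact hq0 this
  -- the coordinate has order exactly m
  have hex : ExO (fun t => (a i).eval t / b.eval t) m := by
    refine ⟨fun t => q.eval t / b.eval t, ?_, div_ne_zero hq0 hb, ?_⟩
    · have h1 : AnalyticAt ℝ (fun t => q.eval t) 0 := by
        have := AnalyticAt.aeval_polynomial (analyticAt_id (𝕜 := ℝ) (z := (0:ℝ))) q
        simpa using this
      have h2 : AnalyticAt ℝ (fun t => b.eval t) 0 := by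
        have := AnalyticAt.aeval_polynomial (analyticAt_id (𝕜 := ℝ) (z := (0:ℝ))) b
        simpa using this
      exact h1.div h2 hb
    · refine Eventually.of_forall fun t => ?_
      have : (a i).eval t = t ^ m * q.eval t := by
        conv_lhs => rw [hq]
        simp
      show (a i).eval t / b.eval t = t ^ m * (q.eval t / b.eval t)
      rw [this, mul_div_assoc]
  have hu := harc.1 i
  have hge : ((m : ℕ) : ℕ∞) ≤ analyticOrderAt (fun t => (a i).eval t / b.eval t) 0 :=
    (geo_iff hu m).1 hex.ge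
  have hnot : ¬ (((m + 1 : ℕ) : ℕ∞) ≤ analyticOrderAt (fun t => (a i).eval t / b.eval t) 0) := by
    intro hcon
    obtain ⟨g, hg, he⟩ := (geo_iff hu (m + 1)).2 hcon
    obtain ⟨c, hc, hct⟩ := ExO.tendsto hex
    have h0 : Tendsto (fun t => (a i).eval t / b.eval t / t ^ m) (𝓝[>] (0 : ℝ)) (𝓝 0) := by
      have h1 : Tendsto (fun t : ℝ => t * g t) (𝓝[>] (0 : ℝ)) (𝓝 (0 * g 0)) :=
        (tendsto_id.mono_left nhdsWithin_le_nhds).mul
          (hg.continuousAt.tendsto.mono_left nhdsWithin_le_nhds)
      rw [zero_mul] at h1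
      refine h1.congr' ?_
      filter_upwards [nhdsWithin_le_nhds he, self_mem_nhdsWithin] with t t1 t0
      have t0' : (t:ℝ) ≠ 0 := ne_of_gt t0
      rw [t1, pow_succ]; field_simp
    exact hc (tendsto_nhds_unique hct h0)
  rw [natCast_le_analyticOrderAt_iff_iteratedDeriv_eq_zero hu] at hge hnot
  push Not at hnot
  obtain ⟨n, hn, hn0⟩ := hnot
  have hnm : n = m := by
    by_contra hcon
    exact hn0 (hge n (by omega))
  exact ⟨i, n, by omega, by omega, hn0⟩

end Pool.Agent.H734R2.SP
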