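import Pool.Agent.H734R2.SP.Stubs2

set_option autoImplicit false

/-!
ND: `f` is nondegenerate along `P`.
-/

namespace Pool.Agent.H734R2.SP

open Filter Topology

namespace NDh

theorem ev_eq (f : Poly) (x : Pt) :
    ev x f = ∑ m ∈ f.support, MvPolynomial.coeff m f * mon m x :=
  MvPolynomial.eval_eq' x f

theorem mon_lim (P : ℝ → Pt) (w : Fin 3 → ℕ)
    (h : ∀ i, Tendsto (fun t => P t i / t ^ w i) (𝓝[>] (0 : ℝ)) (𝓝 1)) (m : Ex) :
    Tendsto (fun t => mon m (P t) / t ^ wt w m) (𝓝[>] (0 : ℝ)) (𝓝 1) := by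
  have h1 : Tendsto (fun t => ∏ i, (P t i / t ^ w i) ^ m i) (𝓝[>] (0 : ℝ))
      (𝓝 (∏ i : Fin 3, (1 : ℝ) ^ m i)) :=
    tendsto_finsetProd _ fun i _ => (h i).pow (m i)
  have h2 : (∏ i : Fin 3, (1 : ℝ) ^ m i) = 1 := by simp
  rw [h2] at h1
  refine h1.congr fun t => ?_
  unfold mon wt
  rw [← Finset.prod_pow_eq_pow_sum, ← Finset.prod_div_distrib]
  refine Finset.prod_congr rfl fun i _ => ?_
  rw [div_pow, pow_mul]

theorem term_lim (P : ℝ → Pt) (w : Fin 3 → ℕ) (k : ℕ)
    (h : ∀ i, Tendsto (fun t => P t i / t ^ w i) (𝓝[>] (0 : ℝ)) (𝓝 1)) (m : Ex)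
    (hm : k ≤ wt w m) :
    Tendsto (fun t => mon m (P t) / t ^ k) (𝓝[>] (0 : ℝ))
      (𝓝 (if wt w m = k then 1 else 0)) := by
  have h0 := mon_lim P w h m
  split_ifs with he
  · rw [he] at h0
    exact h0
  · have hlt : k < wt w m := lt_of_le_of_ne hm (Ne.symm he)
    have h1 : Tendsto (fun t : ℝ => t ^ (wt w m - k)) (𝓝[>] (0 : ℝ)) (𝓝 0) := by
      have h2 : Tendsto (fun t : ℝ => t ^ (wt w m - k)) (𝓝 (0 : ℝ)) (𝓝 (0 ^ (wt w m - k))) :=
        (continuous_pow (wt w m - k)).tendsto 0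
      rw [zero_pow (by omega)] at h2
      exact h2.mono_left nhdsWithin_le_nhds
    have h3 := h0.mul h1
    rw [one_mul] at h3
    refine h3.congr' ?_
    filter_upwards [self_mem_nhdsWithin] with t ht
    have ht0 : (t : ℝ) ≠ 0 := ne_of_gt ht
    have e1 : t ^ wt w m = t ^ k * t ^ (wt w m - k) := by
      rw [← pow_add, Nat.add_sub_cancel' hm]
    rw [e1, div_mul_eq_mul_div, div_eq_div_iff (by positivity) (by positivity)]
    ring

theorem F_eq (f : Poly) (P : ℝ → Pt) (w : Fin 3 → ℕ) (k : ℕ) (F : ℝ) (h : Norm f P w k F)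
    (hs : ∀ m ∈ f.support, k ≤ wt w m) :
    F = ∑ m ∈ f.support, MvPolynomial.coeff m f * (if wt w m = k then 1 else 0) := by
  have h1 : Tendsto (fun t => ∑ m ∈ f.support, MvPolynomial.coeff m f * (mon m (P t) / t ^ k))
      (𝓝[>] (0 : ℝ)) (𝓝 (∑ m ∈ f.support, MvPolynomial.coeff m f *
        (if wt w m = k then 1 else 0))) :=
    tendsto_finsetSum _ fun m hm => (term_lim P w k h.lim m (hs m hm)).const_mul _
  have h2 : (fun t => ∑ m ∈ f.support, MvPolynomial.coeff m f * (mon m (P t) / t ^ k)) =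
      fun t => ev (P t) f / t ^ k := by
    funext t
    rw [ev_eq, Finset.sum_div]
    refine Finset.sum_congr rfl fun m _ => ?_
    rw [mul_div_assoc]
  rw [h2] at h1
  exact tendsto_nhds_unique h.flim h1

end NDh

open NDh

theorem t_ND : S_ND := by
  classical
  intro hCLO hINTER hPTB f P Q hNS w k F hN hs
  have hF := F_eq f P w k F hN hs
  have hF0 := hN.F0
  -- a monomial of weight `k`
  obtain ⟨M, hM, hMk⟩ : ∃ M ∈ f.support, wt w M = k := by
    by_contra hcon
    push Not at hcon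
    rw [hF] at hF0
    have : ∑ m ∈ f.support, MvPolynomial.coeff m f * (if wt w m = k then (1 : ℝ) else 0) = 0 :=
      Finset.sum_eq_zero fun m hm => by rw [if_neg (hcon m hm), mul_zero]
    rw [this] at hF0
    exact lt_irrefl _ hF0
  set K : ℕ := f.support.sup (wt w) with hK
  have hKm : ∀ m ∈ f.support, wt w m ≤ K := fun m hm => Finset.le_sup (f := wt w) hm
  set S : ℝ := ∑ m ∈ f.support, |MvPolynomial.coeff m f| with hS
  have hS0 : 0 ≤ S := Finset.sum_nonneg fun m _ => abs_nonneg _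
  set ε' : ℝ := F / (2 * (S + 1)) with hε'
  have hε'0 : 0 < ε' := by positivity
  -- positivity
  have hpos : ∀ x : Pt, Close w k K ε' x → 0 < ev x f := by
    intro x hx
    obtain ⟨hx1, hx2, hx3⟩ := hx
    have hmon : ∀ m : Ex, 0 < mon m x := by
      intro m
      unfold mon
      exact Finset.prod_pos fun i _ => pow_pos (hx1 i) _
    have hterm : ∀ m ∈ f.support, MvPolynomial.coeff m f * (if wt w m = k then 1 else 0) *
        mon M x - |MvPolynomial.coeff m f| * (ε' * mon M x) ≤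
        MvPolynomial.coeff m f * mon m x := by
      intro m hm
      split_ifs with he
      · have h1 := hx3 M m hMk.le (hMk.trans he.symm)
        have h2 : |MvPolynomial.coeff m f * (mon M x - mon m x)| ≤
            |MvPolynomial.coeff m f| * (ε' * mon M x) := by
          rw [abs_mul]
          exact mul_le_mul_of_nonneg_left h1 (abs_nonneg _)
        have h3 := (abs_le.1 h2).2
        linarith
      · have hlt : k < wt w m := lt_of_le_of_ne (hs m hm) (Ne.symm he)
        have h1 := hx2 M m (hKm m hm) hMk.le (by rw [hMk]; exact hlt)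
        have h2 : |MvPolynomial.coeff m f * mon m x| ≤
            |MvPolynomial.coeff m f| * (ε' * mon M x) := by
          rw [abs_mul, abs_of_pos (hmon m)]
          exact mul_le_mul_of_nonneg_left h1 (abs_nonneg _)
        have h3 := (abs_le.1 h2).1
        linarith
    have hsum := Finset.sum_le_sum hterm
    rw [Finset.sum_sub_distrib, ← Finset.sum_mul, ← Finset.sum_mul, ← hF, ← hS, ← ev_eq] at hsum
    refine lt_of_lt_of_le ?_ hsum
    have h4 : S * ε' ≤ F / 2 := by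
      rw [hε', mul_div_assoc', div_le_div_iff₀ (by positivity) (by positivity)]
      nlinarith
    have h5 := hmon M
    have h6 : S * (ε' * mon M x) ≤ F / 2 * mon M x := by
      rw [← mul_assoc]
      exact mul_le_mul_of_nonneg_right h4 h5.le
    nlinarith
  obtain ⟨ε, hε, η₀, hη₀, -, hint⟩ := hINTER w k K 0 hN.w1 ε' hε'0
  obtain ⟨hcP, hcQ⟩ := hCLO f P Q hNS w k F hN K ε hε
  intro δ hδ
  have hδI : ∀ᶠ t in 𝓝[>] (0 : ℝ), t ∈ Set.Ioo (0 : ℝ) δ := Ioo_mem_nhdsGT hδ
  obtain ⟨s, hs1, hs2⟩ := (hδI.and hcP).exists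
  obtain ⟨t, ht1, ht2⟩ := (hδI.and hcQ).exists
  refine ⟨s, hs1, t, ht1, ?_⟩
  obtain ⟨p0, p1, -, -, p4, -⟩ := hPTB 0 (P s) (Q t) hs2.1 ht2.1
  refine JoinedIn.symm (JoinedIn.ofLine (f := fun κ => pt 0 (P s) (Q t) κ 0) ?_ p0 p1 ?_)
  · have h1 : Continuous fun κ : ℝ => ((κ, 0) : ℝ × ℝ) := by fun_prop
    exact (p4.comp h1).continuousOn
  · rintro _ ⟨κ, hκ, rfl⟩
    exact hpos _ (hint (P s) (Q t) hs2 ht2 κ hκ 0 (by rw [abs_zero]; exact hη₀.le))

end Pool.Agent.H734R2.SP
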