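import Pool.Agent.H734R2.SP.AuxC

set_option autoImplicit false

namespace Pool.Agent.H734R2.SP

open MvPolynomial Filter Topology AuxC

/-- Cramer -/
private lemma NEAR_cramer {lb lc lb' lc' : ℝ} (hdet : lb * lc' - lc * lb' ≠ 0) :
    ∃ C : ℝ, 0 < C ∧ ∀ d₁ d₂ : ℝ,
      |d₁| + |d₂| ≤ C * (|lb * d₁ + lc * d₂| + |lb' * d₁ + lc' * d₂|) := by
  set Δ := lb * lc' - lc * lb' with hΔ
  have hΔ0 : 0 < |Δ| := abs_pos.2 hdet
  refine ⟨(|lb| + |lc| + |lb'| + |lc'| + 1) / |Δ|, by positivity, fun d₁ d₂ => ?_⟩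
  set L := lb * d₁ + lc * d₂ with hL
  set L' := lb' * d₁ + lc' * d₂ with hL'
  have h1 : Δ * d₁ = lc' * L - lc * L' := by rw [hΔ, hL, hL']; ring
  have h2 : Δ * d₂ = lb * L' - lb' * L := by rw [hΔ, hL, hL']; ring
  have h3 : |Δ| * |d₁| ≤ |lc'| * |L| + |lc| * |L'| := by
    rw [← abs_mul, h1]
    refine (abs_sub _ _).trans ?_
    rw [abs_mul, abs_mul]
  have h4 : |Δ| * |d₂| ≤ |lb| * |L'| + |lb'| * |L| := by
    rw [← abs_mul, h2]
    refine (abs_sub _ _).trans ?_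
    rw [abs_mul, abs_mul]
  rw [div_mul_eq_mul_div, le_div_iff₀ hΔ0]
  have := abs_nonneg L
  have := abs_nonneg L'
  have := abs_nonneg lb
  have := abs_nonneg lb'
  have := abs_nonneg lc
  have := abs_nonneg lc'
  nlinarith [mul_nonneg (abs_nonneg lb) (abs_nonneg L), mul_nonneg (abs_nonneg lb) (abs_nonneg L'),
    mul_nonneg (abs_nonneg lc) (abs_nonneg L), mul_nonneg (abs_nonneg lc) (abs_nonneg L'),
    mul_nonneg (abs_nonneg lb') (abs_nonneg L), mul_nonneg (abs_nonneg lb') (abs_nonneg L'),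
    mul_nonneg (abs_nonneg lc') (abs_nonneg L), mul_nonneg (abs_nonneg lc') (abs_nonneg L')]

/-- the linear form of a relation is small at two close points with the same coordinate `a` -/
private lemma NEAR_lin {w : Fin 3 → ℕ} {k K : ℕ} {ε : ℝ} {p q : Pt} {a b c : Fin 3}
    (hab : a ≠ b) (hac : a ≠ c) (hbc : b ≠ c) (hp : Close w k K ε p) (hq : Close w k K ε q)
    (hε : ε ≤ 1 / 2) (hpq : q a = p a) {u v : Ex} (huk : wt w u ≤ k) (huv : wt w u = wt w v)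
    {d₁ d₂ : ℝ} (hb : q b = p b * Real.exp d₁) (hc : q c = p c * Real.exp d₂) :
    |((u b : ℝ) - v b) * d₁ + ((u c : ℝ) - v c) * d₂| ≤ 4 * ε := by
  have h1 := AuxC.Close.log hp hε huk huv
  have h2 := AuxC.Close.log hq hε huk huv
  have h3 : ∀ m : Ex, Real.log (mon m q) = Real.log (mon m p) + (m b * d₁ + m c * d₂) := by
    intro m
    rw [mon_exp hab hac hbc hpq hb hc m, Real.log_mul (mon_pos hp.1 m).ne' (Real.exp_pos _).ne',
      Real.log_exp]
  have h4 : ((u b : ℝ) - v b) * d₁ + ((u c : ℝ) - v c) * d₂ =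
      (Real.log (mon v p) - Real.log (mon u p)) - (Real.log (mon v q) - Real.log (mon u q)) := by
    rw [h3 u, h3 v]; ring
  rw [h4]
  refine (abs_sub _ _).trans ?_
  linarith

set_option maxHeartbeats 1000000 in
theorem t_NEAR : S_NEAR := by
  intro hCLO hNEGQ hLINR f P Q h w k F hN M hM a b c hab hac hbc u v u' v' h₁ h₂ huv huv' huu' huk'
    hh1 hh2 hn1 hn2 hdet ε hε
  obtain ⟨C0, hC0, hCr⟩ := NEAR_cramer hdet
  have huk : wt w u ≤ k := huu'.trans huk'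
  obtain ⟨K1, C1, hC1, hL1⟩ := hLINR w k hN.w1 a b c hab hac hbc u v h₁ huv huk hh1
  obtain ⟨K2, C2, hC2, hL2⟩ := hLINR w k hN.w1 a b c hab hac hbc u' v' h₂ huv' huk' hh2
  -- the small constants
  set mm : ℝ := (M b : ℝ) + M c with hmm
  have hmm0 : 0 ≤ mm := by positivity
  obtain ⟨ε1, hε1, hε1a, hε1b, hε1c⟩ : ∃ ε1 : ℝ, 0 < ε1 ∧ ε1 ≤ 1 ∧ mm * ε1 ≤ 1 / 2 ∧
      C0 * (C1 + C2) * ε1 ≤ 1 / 2 := by
    refine ⟨min 1 (min (1 / (2 * (mm + 1))) (1 / (2 * (C0 * (C1 + C2))))), by positivity,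
      min_le_left _ _, ?_, ?_⟩
    · have h1 : min 1 (min (1 / (2 * (mm + 1))) (1 / (2 * (C0 * (C1 + C2))))) ≤ 1 / (2 * (mm + 1)) :=
        (min_le_right _ _).trans (min_le_left _ _)
      rw [le_div_iff₀ (by positivity)] at h1
      have h2 : 0 < min 1 (min (1 / (2 * (mm + 1))) (1 / (2 * (C0 * (C1 + C2))))) := by positivity
      nlinarith
    · have h1 : min 1 (min (1 / (2 * (mm + 1))) (1 / (2 * (C0 * (C1 + C2))))) ≤
          1 / (2 * (C0 * (C1 + C2))) :=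
        (min_le_right _ _).trans (min_le_right _ _)
      rw [le_div_iff₀ (by positivity)] at h1
      nlinarith
  obtain ⟨ε3, hε3, hε3a, hε3b, hε3c⟩ : ∃ ε3 : ℝ, 0 < ε3 ∧ ε3 ≤ ε1 ∧ ε3 ≤ 1 / 2 ∧ 8 * C0 * ε3 ≤ ε1 := by
    refine ⟨min ε1 (min (1 / 2) (ε1 / (8 * C0))), by positivity, min_le_left _ _,
      (min_le_right _ _).trans (min_le_left _ _), ?_⟩
    have h1 : min ε1 (min (1 / 2) (ε1 / (8 * C0))) ≤ ε1 / (8 * C0) :=
      (min_le_right _ _).trans (min_le_right _ _)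
    rw [le_div_iff₀ (by positivity)] at h1
    linarith
  set ε2 : ℝ := ε / (48 * C0) with hε2
  have hε2pos : 0 < ε2 := by positivity
  -- the eventual statements
  obtain ⟨hCP, hCQ⟩ := hCLO f P Q h w k F hN (max K1 K2) ε3 hε3
  obtain ⟨h1P, h1Q⟩ := hNEGQ f P Q h w k F hN M hM (rel u v h₁) hn1 ε2 hε2pos
  obtain ⟨h2P, h2Q⟩ := hNEGQ f P Q h w k F hN M hM (rel u' v' h₂) hn2 ε2 hε2pos
  have hev1 := (hCP.and (h1P.and h2P)).and ((mon_bounds hN.lim M).and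
    ((mon_bounds hN.lim v).and (mon_bounds hN.lim v')))
  obtain ⟨e1, he1, he1'⟩ := eventually_Ioo hev1
  obtain ⟨e2, he2, he2'⟩ := eventually_Ioo (hCQ.and (h1Q.and h2Q))
  refine ⟨min 1 (min e1 e2), by positivity, fun s hs t ht hst => ?_⟩
  have hs0 : 0 < s := hs.1
  have hs1 : s ≤ 1 := (hs.2.trans_le (min_le_left _ _)).le
  obtain ⟨⟨hp, hp1, hp2⟩, hbM, hbv, hbv'⟩ :=
    he1' s ⟨hs.1, hs.2.trans_le ((min_le_right _ _).trans (min_le_left _ _))⟩
  obtain ⟨hq, hq1, hq2⟩ := he2' t ⟨ht.1, ht.2.trans_le ((min_le_right _ _).trans (min_le_right _ _))⟩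
  set p := P s with hpdef
  set q := Q t with hqdef
  set d₁ := Real.log (q b / p b) with hd1
  set d₂ := Real.log (q c / p c) with hd2
  have hqb : q b = p b * Real.exp d₁ := by
    rw [hd1, Real.exp_log (div_pos (hq.1 b) (hp.1 b))]
    field_simp [(hp.1 b).ne']
  have hqc : q c = p c * Real.exp d₂ := by
    rw [hd2, Real.exp_log (div_pos (hq.1 c) (hp.1 c))]
    field_simp [(hp.1 c).ne']
  have hqa : q a = p a := hst.symm
  -- step 1
  have hA1 := NEAR_lin hab hac hbc hp hq hε3b hqa huk huv hqb hqc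
  have hA2 := NEAR_lin hab hac hbc hp hq hε3b hqa huk' huv' hqb hqc
  have hA3 := hCr d₁ d₂
  have hA4 : |d₁| + |d₂| ≤ ε1 := by
    refine hA3.trans ((mul_le_mul_of_nonneg_left (add_le_add hA1 hA2) hC0.le).trans ?_)
    linarith
  have hd1' : |d₁| ≤ ε1 := by linarith [abs_nonneg d₂]
  have hd2' : |d₂| ≤ ε1 := by linarith [abs_nonneg d₁]
  -- step 2
  have hB1 := hL1 ε1 hε1 hε1a p (AuxC.Close.mono (le_max_left _ _) hε3a hp) d₁ d₂ hd1' hd2' q hqa hqb hqc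
  have hB2 := hL2 ε1 hε1 hε1a p (AuxC.Close.mono (le_max_right _ _) hε3a hp) d₁ d₂ hd1' hd2' q hqa hqb hqc
  have hMq : mon M q ≤ 2 * mon M p := by
    rw [mon_exp hab hac hbc hqa hqb hqc M, mul_comm]
    apply mul_le_mul_of_nonneg_right _ (mon_pos hp.1 M).le
    apply exp_le_two
    refine (abs_add_le _ _).trans ?_
    rw [abs_mul, abs_mul, Nat.abs_cast, Nat.abs_cast]
    calc (M b : ℝ) * |d₁| + M c * |d₂| ≤ (M b : ℝ) * ε1 + M c * ε1 := by gcongr
      _ = mm * ε1 := by rw [hmm]; ring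
      _ ≤ 1 / 2 := hε1b
  rw [hM] at hbM
  -- the general estimate
  have key : ∀ (u v : Ex) (r₁ r₂ : ℝ) (C : ℝ), 0 < C → wt w u = wt w v → wt w u ≤ wt w u' →
      s ^ wt w v / 2 ≤ mon v p → |r₁| ≤ ε2 * mon M q → |r₂| ≤ ε2 * mon M p →
      |r₁ - r₂ - mon v p * (((u b : ℝ) - v b) * d₁ + ((u c : ℝ) - v c) * d₂)| ≤
        C * ε1 * mon v p * (|d₁| + |d₂|) →
      |((u b : ℝ) - v b) * d₁ + ((u c : ℝ) - v c) * d₂| ≤
        C * ε1 * (|d₁| + |d₂|) + 12 * ε2 * s ^ (k - wt w u') := by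
    intro u v r₁ r₂ C hC huv huu hv hr1 hr2 hr
    set L := ((u b : ℝ) - v b) * d₁ + ((u c : ℝ) - v c) * d₂ with hL
    have hvp := mon_pos hp.1 v
    have h5 : mon v p * |L| ≤ C * ε1 * mon v p * (|d₁| + |d₂|) + (ε2 * mon M q + ε2 * mon M p) := by
      have h6 : mon v p * |L| = |mon v p * L| := by rw [abs_mul, abs_of_pos hvp]
      rw [h6]
      have h7 : mon v p * L = (r₁ - r₂) - (r₁ - r₂ - mon v p * L) := by ring
      rw [h7]
      refine (abs_sub _ _).trans ?_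
      have h8 := abs_sub r₁ r₂
      linarith
    have h6 : ε2 * mon M q + ε2 * mon M p ≤ 6 * ε2 * s ^ k := by
      have h7 : mon M q + mon M p ≤ 6 * s ^ k := by linarith [hbM.2]
      calc ε2 * mon M q + ε2 * mon M p = ε2 * (mon M q + mon M p) := by ring
        _ ≤ ε2 * (6 * s ^ k) := mul_le_mul_of_nonneg_left h7 hε2pos.le
        _ = 6 * ε2 * s ^ k := by ring
    have h9 : s ^ k ≤ 2 * mon v p * s ^ (k - wt w u') := by
      have h10 : s ^ k ≤ s ^ wt w v * s ^ (k - wt w u') := by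
        rw [← pow_add]
        apply pow_le_pow_of_le_one hs0.le hs1
        omega
      have h11 : s ^ wt w v ≤ 2 * mon v p := by linarith
      exact h10.trans (mul_le_mul_of_nonneg_right h11 (pow_nonneg hs0.le _))
    have h12 : mon v p * |L| ≤ mon v p * (C * ε1 * (|d₁| + |d₂|) + 12 * ε2 * s ^ (k - wt w u')) := by
      calc mon v p * |L| ≤ C * ε1 * mon v p * (|d₁| + |d₂|) + 6 * ε2 * s ^ k := by linarith
        _ ≤ C * ε1 * mon v p * (|d₁| + |d₂|) + 6 * ε2 * (2 * mon v p * s ^ (k - wt w u')) := by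
          gcongr
        _ = mon v p * (C * ε1 * (|d₁| + |d₂|) + 12 * ε2 * s ^ (k - wt w u')) := by ring
    exact le_of_mul_le_mul_left h12 hvp
  have hK1 := key u v _ _ C1 hC1 huv huu' hbv.1 hq1 hp1 hB1
  have hK2 := key u' v' _ _ C2 hC2 huv' le_rfl hbv'.1 hq2 hp2 hB2
  have hS : |d₁| + |d₂| ≤ 48 * C0 * ε2 * s ^ (k - wt w u') := by
    have h5 := hA3.trans (mul_le_mul_of_nonneg_left (add_le_add hK1 hK2) hC0.le)
    have h6 : C0 * (C1 + C2) * ε1 * (|d₁| + |d₂|) ≤ 1 / 2 * (|d₁| + |d₂|) :=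
      mul_le_mul_of_nonneg_right hε1c (by positivity)
    nlinarith
  have hfin : 48 * C0 * ε2 = ε := by
    rw [hε2]; field_simp
  rw [hfin] at hS
  exact ⟨by linarith [abs_nonneg d₂], by linarith [abs_nonneg d₁]⟩

end Pool.Agent.H734R2.SP
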