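import Pool.Agent.H734R2.SP.CLO

set_option autoImplicit false

namespace Pool.Agent.H734R2.SP

open MvPolynomial Filter Topology

theorem t_NEGQ : S_NEGQ := by
  intro f P Q h w k F hN M hM g hg ε hε
  have l := lim_monomial P w hN.lim M ε
  rw [hM] at l
  have hl1 : Tendsto (fun t => ev (P t) (monomial M ε - g) / t ^ k) (𝓝[>] (0 : ℝ)) (𝓝 ε) := by
    have := l.sub hg
    rw [sub_zero] at this
    refine this.congr fun t => ?_
    simp only [ev, map_sub]; ring
  have hl2 : Tendsto (fun t => ev (P t) (monomial M ε + g) / t ^ k) (𝓝[>] (0 : ℝ)) (𝓝 ε) := by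
    have := l.add hg
    rw [add_zero] at this
    refine this.congr fun t => ?_
    simp only [ev, map_add]; ring
  have a1 := ns_pos h hN _ _ ε hε le_rfl hl1
  have a2 := ns_pos h hN _ _ ε hε le_rfl hl2
  constructor
  · filter_upwards [a1.1, a2.1] with t ht1 ht2
    simp only [ev, map_sub, map_add] at ht1 ht2
    have e1 := ev_monomial M ε (P t)
    simp only [ev] at e1
    rw [e1] at ht1 ht2
    rw [abs_le]; constructor <;> linarith
  · filter_upwards [a1.2, a2.2] with t ht1 ht2
    simp only [ev, map_sub, map_add] at ht1 ht2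
    have e1 := ev_monomial M ε (Q t)
    simp only [ev] at e1
    rw [e1] at ht1 ht2
    rw [abs_le]; constructor <;> linarith

end Pool.Agent.H734R2.SP
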