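import Pool.Agent.H734R2.SP.Stubs2

set_option autoImplicit false

namespace Pool.Agent.H734R2.SP

open MvPolynomial Filter Topology

theorem nm0_mon (P : ℝ → Pt) (w : Fin 3 → ℕ)
    (h : ∀ i, Tendsto (fun t => P t i / t ^ w i) (𝓝[>] (0 : ℝ)) (𝓝 1)) (m : Ex) :
    Tendsto (fun t => mon m (P t) / t ^ wt w m) (𝓝[>] (0 : ℝ)) (𝓝 1) := by
  have h1 : Tendsto (fun t => ∏ i, (P t i / t ^ w i) ^ m i) (𝓝[>] (0 : ℝ))
      (𝓝 (∏ i : Fin 3, (1 : ℝ) ^ m i)) :=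
    tendsto_finsetProd _ fun i _ => (h i).pow (m i)
  have h2 : (fun t => mon m (P t) / t ^ wt w m) = fun t => ∏ i, (P t i / t ^ w i) ^ m i := by
    funext t
    unfold mon wt
    simp only [div_pow, Finset.prod_div_distrib, ← pow_mul, Finset.prod_pow_eq_pow_sum]
  rw [h2]
  simpa using h1

theorem nm0_small (P : ℝ → Pt) (hP : Arc P) : ∀ᶠ t in 𝓝[>] (0 : ℝ), ∀ i, P t i ≤ 1 := by
  rw [Filter.eventually_all]
  intro i
  have h1 : Tendsto (fun t => P t i) (𝓝 0) (𝓝 (P 0 i)) := (hP.1 i).continuousAt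
  have h2 : P 0 i = 0 := by rw [hP.2]; rfl
  rw [h2] at h1
  exact ((h1.eventually_lt_const one_pos).mono fun t h => h.le).filter_mono nhdsWithin_le_nhds

theorem t_NM0 : S_NM0 := by
  intro hRED0 hCLO hINTER hPTB hPOS1 f P Q hNS w k F hN M hM hinj
  set g : Poly := f - monomial M F with hg
  have hneg : Neg P k g := by
    have h1 := (nm0_mon P w hN.lim M).const_mul F
    have h2 := hN.flim.sub h1
    rw [mul_one, sub_self] at h2
    refine h2.congr fun t => ?_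
    have h3 : MvPolynomial.eval (P t) (monomial M F) = F * mon M (P t) := by
      rw [MvPolynomial.eval_monomial]
      congr 1
      exact Finsupp.prod_fintype M _ (fun i => pow_zero _)
    simp only [hg, ev, map_sub, h3, hM]
    ring
  have hsupp := hRED0 P w k hN.w1 hN.lim hinj g hneg
  obtain ⟨K, ε, hε, hpos⟩ := hPOS1 w k hN.w1 f 0 g 0 F M hN.F0 hM (by rw [hg]; ring) hsupp
  obtain ⟨ε₂, hε₂, η₀, hη₀, hη₀', hint⟩ := hINTER w k K 0 hN.w1 ε hε
  obtain ⟨hcP, hcQ⟩ := hCLO f P Q hNS w k F hN K ε₂ hε₂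
  intro r hr
  obtain ⟨t, hr', hP, hQ, hP1, hQ1⟩ :=
    ((Ioo_mem_nhdsGT hr : Set.Ioo (0 : ℝ) r ∈ 𝓝[>] (0 : ℝ)) |>
      fun h => ((Filter.eventually_of_mem h fun _ h => h).and
        (hcP.and (hcQ.and ((nm0_small P hNS.hP).and (nm0_small Q hNS.hQ)))))).exists
  refine ⟨t, hr', t, hr', JoinedIn.symm ?_⟩
  obtain ⟨h0, h1, h2, _, hc, _⟩ := hPTB 0 (P t) (Q t) hP.1 hQ.1
  refine JoinedIn.ofLine (f := fun κ : ℝ => pt 0 (P t) (Q t) κ 0)
    (hc.comp (by fun_prop : Continuous (fun κ : ℝ => (κ, (0 : ℝ))))).continuousOn h0 h1 ?_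
  rintro _ ⟨κ, hκ, rfl⟩
  have hclose := hint (P t) (Q t) hP hQ κ hκ 0 (by rw [abs_zero]; exact hη₀.le)
  have hle2 := h2 κ hκ 0 (by norm_num) hP1 hQ1
  refine hpos _ (fun i => (hle2 i).2) hclose ?_
  have hmp : 0 < mon M (pt 0 (P t) (Q t) κ 0) :=
    Finset.prod_pos fun i _ => pow_pos (hle2 i).1 _
  simp only [ev, map_zero, abs_zero]
  positivity

end Pool.Agent.H734R2.SP
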