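import Pool.Agent.H734R2.SP.Stubs2

set_option autoImplicit false

namespace Pool.Agent.H734R2.SP

open MvPolynomial Filter Topology

theorem nm1_mon_pos (m : Ex) (x : Pt) (hx : ∀ i, 0 < x i) : 0 < mon m x :=
  Finset.prod_pos (fun i _ => pow_pos (hx i) _)

theorem nm1_close_mono {w : Fin 3 → ℕ} {k K K' : ℕ} {ε ε' : ℝ} {x : Pt} (hK : K' ≤ K)
    (hε : ε ≤ ε') (h : Close w k K ε x) : Close w k K' ε' x := by
  refine ⟨h.1, fun m m' h1 h2 h3 => (h.2.1 m m' (h1.trans hK) h2 h3).trans ?_,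
    fun m m' h1 h2 => (h.2.2 m m' h1 h2).trans ?_⟩
  · exact mul_le_mul_of_nonneg_right hε (nm1_mon_pos m x h.1).le
  · exact mul_le_mul_of_nonneg_right hε (nm1_mon_pos m x h.1).le

theorem nm1_ev_monomial (M : Ex) (F : ℝ) (x : Pt) : ev x (monomial M F) = F * mon M x := by
  unfold ev mon
  rw [MvPolynomial.eval_monomial, Finsupp.prod_fintype]
  intro i
  simp

theorem nm1_mon_tendsto (P : ℝ → Pt) (w : Fin 3 → ℕ)
    (hlim : ∀ i, Tendsto (fun t => P t i / t ^ w i) (𝓝[>] (0 : ℝ)) (𝓝 1)) (M : Ex) :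
    Tendsto (fun t => mon M (P t) / t ^ (wt w M)) (𝓝[>] (0 : ℝ)) (𝓝 1) := by
  have h1 : ∀ t, mon M (P t) / t ^ (wt w M) = ∏ i, (P t i / t ^ w i) ^ M i := by
    intro t
    unfold mon wt
    rw [← Finset.prod_pow_eq_pow_sum, ← Finset.prod_div_distrib]
    refine Finset.prod_congr rfl (fun i _ => ?_)
    rw [div_pow, ← pow_mul]
  simp_rw [h1]
  have h2 : Tendsto (fun t => ∏ i, (P t i / t ^ w i) ^ M i) (𝓝[>] (0 : ℝ))
      (𝓝 (∏ i : Fin 3, (1 : ℝ) ^ M i)) :=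
    tendsto_finset_prod _ (fun i _ => (hlim i).pow (M i))
  simpa using h2

theorem nm1_small {P : ℝ → Pt} (hP : Arc P) : ∀ᶠ t in 𝓝[>] (0 : ℝ), ∀ i, P t i ≤ 1 := by
  rw [Filter.eventually_all]
  intro i
  have h1 : Tendsto (fun t => P t i) (𝓝 0) (𝓝 (P 0 i)) := (hP.1 i).continuousAt
  rw [hP.2] at h1
  have h2 : ∀ᶠ t in 𝓝 (0 : ℝ), P t i < 1 := h1.eventually (gt_mem_nhds (by simp))
  filter_upwards [nhdsWithin_le_nhds h2] with t ht using ht.le

theorem t_NM1 : S_NM1 := by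
  intro hRED1 hCLO hNEGQ hINTER hPTB hMONO hPATH hPOS1
  intro f P Q hNS w k F hN M hM u v h₁ c huv huk hh₁ hneg huc hvc hT
  have hg : Neg P k (f - monomial M F) := by
    unfold Neg
    have h1 := nm1_mon_tendsto P w hN.lim M
    rw [hM] at h1
    have h2 := hN.flim.sub (h1.const_mul F)
    rw [mul_one, sub_self] at h2
    refine h2.congr (fun t => ?_)
    rw [show ev (P t) (f - monomial M F) = ev (P t) f - ev (P t) (monomial M F) from
      map_sub _ _ _, nm1_ev_monomial]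
    ring
  obtain ⟨h, g₂, hgeq, hg₂⟩ := hRED1 P w k hN.w1 hN.lim u v h₁ huv hh₁ hneg (k + 1) le_rfl hT
    (f - monomial M F) hg
  obtain ⟨K1, ε1, hε1, hpos⟩ := hPOS1 w k hN.w1 f h g₂ (rel u v h₁) F M hN.F0 hM
    (by rw [add_assoc, ← hgeq]; ring) (fun m hm => hg₂ m hm)
  obtain ⟨ε2, hε2, η0, hη0, hη1, hinter⟩ := hINTER w k K1 c hN.w1 ε1 hε1
  obtain ⟨K2, ε3, hε3, hmono⟩ := hMONO hPTB w k c hN.w1 u v h₁ huv huk hh₁ huc hvc η0 hη0 hη1
  have hclo := hCLO f P Q hNS w k F hN (max K1 K2) (min ε2 ε3) (lt_min hε2 hε3)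
  have hε4 : 0 < ε1 * (1 / 2 : ℝ) ^ (M c) := by positivity
  have hnq := hNEGQ f P Q hNS w k F hN M hM (rel u v h₁) hneg _ hε4
  intro ε hε
  have hIoo : ∀ᶠ t in 𝓝[>] (0 : ℝ), t ∈ Set.Ioo (0 : ℝ) ε := Ioo_mem_nhdsGT hε
  obtain ⟨s, hs, hcs, hns, hss⟩ := (hIoo.and (hclo.1.and (hnq.1.and (nm1_small hNS.hP)))).exists
  obtain ⟨t, ht, hct, hnt, hst⟩ := (hIoo.and (hclo.2.and (hnq.2.and (nm1_small hNS.hQ)))).exists
  refine ⟨s, hs, t, ht, ?_⟩
  generalize P s = p at *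
  generalize Q t = q at *
  have hp2 : Close w k K1 ε2 p := nm1_close_mono (le_max_left _ _) (min_le_left _ _) hcs
  have hp3 : Close w k K2 ε3 p := nm1_close_mono (le_max_right _ _) (min_le_right _ _) hcs
  have hq2 : Close w k K1 ε2 q := nm1_close_mono (le_max_left _ _) (min_le_left _ _) hct
  have hq3 : Close w k K2 ε3 q := nm1_close_mono (le_max_right _ _) (min_le_right _ _) hct
  obtain ⟨h00, h10, hbd, hmon, hcont, -⟩ := hPTB c p q hcs.1 hct.1
  have hMp := nm1_mon_pos M p hcs.1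
  have hMq := nm1_mon_pos M q hct.1
  have hev : Continuous (fun x : Pt => ev x (rel u v h₁)) := MvPolynomial.continuous_eval _
  have hΦ : Continuous (fun z : ℝ × ℝ => ev (pt c p q z.1 z.2) (rel u v h₁)) := hev.comp hcont
  have hpow : ∀ η : ℝ, |η| ≤ η0 → (1 / 2 : ℝ) ^ (M c) ≤ (1 + η) ^ (M c) := by
    intro η hη
    refine pow_le_pow_left₀ (by norm_num) ?_ _
    have := (abs_le.mp hη).1
    linarith
  have hjoin := hPATH (fun z : ℝ × ℝ => ev (pt c p q z.1 z.2) (rel u v h₁)) η0 hΦ hη0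
    (fun κ hκ => hmono p q hp3 hq3 κ hκ)
  obtain ⟨γ, hγ⟩ := hjoin
  have hJ : JoinedIn (Pos f) (pt c p q 0 0) (pt c p q 1 0) := by
    refine ⟨γ.map hcont, fun τ => ?_⟩
    obtain ⟨hκ, hη, hor⟩ := hγ τ
    show 0 < ev (pt c p q (γ τ).1 (γ τ).2) f
    generalize (γ τ) = z at *
    obtain ⟨κ, η⟩ := z
    simp only at hκ hη hor ⊢
    have hη2 : |η| ≤ 1 / 2 := hη.trans hη1
    have hηl : -1 < η := by
      have := (abs_le.mp hη2).1
      linarith
    have hx2 : ∀ i, pt c p q κ η i ≤ 2 := fun i => (hbd κ hκ η hη2 hss hst i).2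
    have hxc : Close w k K1 ε1 (pt c p q κ η) := hinter p q hp2 hq2 κ hκ η hη
    have hxm := nm1_mon_pos M _ hxc.1
    refine hpos _ hx2 hxc ?_
    rcases hor with h0 | ⟨hκ0, h0⟩ | ⟨hκ1, h0⟩
    · rw [h0, abs_zero]
      positivity
    · subst hκ0
      rw [h00] at h0
      refine h0.trans (hnt.trans ?_)
      rw [hmon M 0 η hηl, sub_zero, Real.rpow_one, Real.rpow_zero, mul_one, mul_assoc]
      refine mul_le_mul_of_nonneg_left ?_ hε1.le
      rw [mul_comm]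
      exact mul_le_mul_of_nonneg_left (hpow η hη) hMq.le
    · subst hκ1
      rw [h10] at h0
      refine h0.trans (hns.trans ?_)
      rw [hmon M 1 η hηl, sub_self, Real.rpow_one, Real.rpow_zero, one_mul, mul_assoc]
      refine mul_le_mul_of_nonneg_left ?_ hε1.le
      rw [mul_comm]
      exact mul_le_mul_of_nonneg_left (hpow η hη) hMp.le
  rw [h00, h10] at hJ
  exact hJ.symm

end Pool.Agent.H734R2.SP
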