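import Pool.Agent.H734R2.SP.Stubs2

set_option autoImplicit false

/-!
Task NM2: assembly in the case of two independent relations.
-/

namespace Pool.Agent.H734R2.SP

open MvPolynomial Filter Topology

namespace NM2

theorem ev_monomial (x : Pt) (m : Ex) (a : ℝ) : ev x (monomial m a) = a * mon m x := by
  simp only [ev, mon, eval_monomial]
  rw [Finsupp.prod_fintype]
  intro i
  exact pow_zero _

/-- monomials along the arc -/
theorem mon_lim (P : ℝ → Pt) (w : Fin 3 → ℕ)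
    (hlim : ∀ i, Tendsto (fun t => P t i / t ^ w i) (𝓝[>] (0 : ℝ)) (𝓝 1)) (m : Ex) :
    Tendsto (fun t => mon m (P t) / t ^ wt w m) (𝓝[>] (0 : ℝ)) (𝓝 1) := by
  have h1 : Tendsto (fun t => ∏ i, (P t i / t ^ w i) ^ m i) (𝓝[>] (0 : ℝ)) (𝓝 (∏ i : Fin 3, (1 : ℝ) ^ m i)) :=
    tendsto_finsetProd _ (fun i _ => (hlim i).pow (m i))
  have h2 : (∏ i : Fin 3, (1 : ℝ) ^ m i) = 1 := by simp
  rw [h2] at h1
  refine h1.congr (fun t => ?_)
  simp only [mon, wt]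
  rw [← Finset.prod_pow_eq_pow_sum, ← Finset.prod_div_distrib]
  refine Finset.prod_congr rfl (fun i _ => ?_)
  rw [div_pow, ← pow_mul]

theorem neg_sub (f : Poly) (P : ℝ → Pt) (w : Fin 3 → ℕ) (k : ℕ) (F : ℝ) (hN : Norm f P w k F)
    (M : Ex) (hM : wt w M = k) : Neg P k (f - monomial M F) := by
  have h1 := mon_lim P w hN.lim M
  rw [hM] at h1
  have h2 := hN.flim.sub (h1.const_mul F)
  have h3 : F - F * 1 = 0 := by ring
  rw [h3] at h2
  refine h2.congr (fun t => ?_)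
  have : ev (P t) (f - monomial M F) = ev (P t) f - F * mon M (P t) := by
    rw [← ev_monomial]
    exact map_sub _ _ _
  rw [this]
  ring

end NM2

open NM2 in
theorem t_NM2 : S_NM2 := by
  intro hRED1 hCLO hNEGQ hINTER hPTB hMONO hPATH hLINR hNEAR hPOS2 hMATCH
  intro f P Q hNS w k F hN M hM a b c hab hac hbc u v u' v' h₁ h₂ huv huv' huu' hu'k hh₁ hh₂
    hn₁ hn₂ hu hv hdet hT1
  have hD : wt w u' ≤ k + 1 := by omega
  have huk : wt w u ≤ k := le_trans huu' hu'k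
  obtain ⟨h, g₂, hf, hg₂⟩ := hRED1 P w k hN.w1 hN.lim u v h₁ huv hh₁ hn₁ (wt w u') hD hT1
    (f - monomial M F) (neg_sub f P w k F hN M hM)
  have hf' : f = monomial M F + h * rel u v h₁ + g₂ := by
    have : f = monomial M F + (f - monomial M F) := by ring
    rw [this, hf]
    ring
  have hnear := hNEAR hCLO hNEGQ hLINR f P Q hNS w k F hN M hM a b c hab hac hbc u v u' v' h₁ h₂
    huv huv' huu' hu'k hh₁ hh₂ hn₁ hn₂ hdet
  obtain ⟨η₁, hη₁, ε, hε, ε₀, hε₀, hpos⟩ := hPOS2 hCLO hNEGQ hLINR hPTB hINTER f P Q hNS w k F hN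
    M hM a b c hab hac hbc u v h₁ huv huk hh₁ hn₁ hu hv (wt w u') huu' hu'k hnear h g₂ hf' hg₂
  set η₀ : ℝ := min η₁ (1 / 2) with hη₀def
  have hη₀ : 0 < η₀ := lt_min hη₁ (by norm_num)
  have hη₀1 : η₀ ≤ η₁ := min_le_left _ _
  have hη₀2 : η₀ ≤ 1 / 2 := min_le_right _ _
  obtain ⟨K, ε', hε', hmono⟩ := hMONO hPTB w k c hN.w1 u v h₁ huv huk hh₁ hu hv η₀ hη₀ hη₀2
  obtain ⟨hcP, hcQ⟩ := hCLO f P Q hNS w k F hN K ε' hε'
  have hε₂ : 0 < ε * (1 / 2) ^ M c := by positivity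
  obtain ⟨hqP, hqQ⟩ := hNEGQ f P Q hNS w k F hN M hM (rel u v h₁) hn₁ _ hε₂
  have hPa : ∀ᶠ t in 𝓝[>] (0 : ℝ), 0 < P t a := hcP.mono (fun t ht => ht.1 a)
  have hQa : ∀ᶠ t in 𝓝[>] (0 : ℝ), 0 < Q t a := hcQ.mono (fun t ht => ht.1 a)
  have hall := hcP.and (hcQ.and (hqP.and hqQ))
  rw [eventually_nhdsWithin_iff, Metric.eventually_nhds_iff] at hall
  obtain ⟨δ, hδ, hall⟩ := hall
  have hall' : ∀ t ∈ Set.Ioo (0 : ℝ) δ, Close w k K ε' (P t) ∧ Close w k K ε' (Q t) ∧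
      |ev (P t) (rel u v h₁)| ≤ ε * (1 / 2) ^ M c * mon M (P t) ∧
      |ev (Q t) (rel u v h₁)| ≤ ε * (1 / 2) ^ M c * mon M (Q t) := by
    intro t ht
    refine hall ?_ ht.1
    rw [Real.dist_eq, sub_zero, abs_of_pos ht.1]
    exact ht.2
  intro ρ hρ
  obtain ⟨s, hs, t, ht, hst⟩ := hMATCH P Q a hNS.hP hNS.hQ hPa hQa (min ρ (min δ ε₀))
    (lt_min hρ (lt_min hδ hε₀))
  have hsρ : s ∈ Set.Ioo (0 : ℝ) ρ := ⟨hs.1, lt_of_lt_of_le hs.2 (min_le_left _ _)⟩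
  have htρ : t ∈ Set.Ioo (0 : ℝ) ρ := ⟨ht.1, lt_of_lt_of_le ht.2 (min_le_left _ _)⟩
  have hsδ : s ∈ Set.Ioo (0 : ℝ) δ :=
    ⟨hs.1, lt_of_lt_of_le hs.2 (le_trans (min_le_right _ _) (min_le_left _ _))⟩
  have htδ : t ∈ Set.Ioo (0 : ℝ) δ :=
    ⟨ht.1, lt_of_lt_of_le ht.2 (le_trans (min_le_right _ _) (min_le_left _ _))⟩
  have hsε : s ∈ Set.Ioo (0 : ℝ) ε₀ :=
    ⟨hs.1, lt_of_lt_of_le hs.2 (le_trans (min_le_right _ _) (min_le_right _ _))⟩
  have htε : t ∈ Set.Ioo (0 : ℝ) ε₀ :=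
    ⟨ht.1, lt_of_lt_of_le ht.2 (le_trans (min_le_right _ _) (min_le_right _ _))⟩
  refine ⟨s, hsρ, t, htρ, ?_⟩
  obtain ⟨hclP, -, hrP, -⟩ := hall' s hsδ
  obtain ⟨-, hclQ, -, hrQ⟩ := hall' t htδ
  have hposst := hpos s hsε t htε hst
  have hm := hmono (P s) (Q t) hclP hclQ
  clear hall hall' hpos hmono
  obtain ⟨h00, h10, -, hmon, hcont, -⟩ := hPTB c (P s) (Q t) hclP.1 hclQ.1
  set Φ : ℝ × ℝ → ℝ := fun z => ev (pt c (P s) (Q t) z.1 z.2) (rel u v h₁) with hΦ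
  have hΦc : Continuous Φ := by
    have h1 : Continuous (fun x : Pt => ev x (rel u v h₁)) := MvPolynomial.continuous_eval _
    exact h1.comp hcont
  have hpath := hPATH Φ η₀ hΦc hη₀ (fun κ hκ => hm κ hκ)
  have hj : JoinedIn (Pos f) (pt c (P s) (Q t) (0 : ℝ) 0) (pt c (P s) (Q t) 1 0) := by
    have h1 := hpath.map_continuousOn (f := fun z : ℝ × ℝ => pt c (P s) (Q t) z.1 z.2)
      hcont.continuousOn
    refine h1.mono ?_
    rintro x ⟨z, ⟨hz1, hz2, hz3⟩, rfl⟩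
    have hη : -(1 / 2) ≤ z.2 := by
      have := abs_le.1 hz2
      linarith [this.1]
    have hη' : (-1 : ℝ) < z.2 := by linarith
    have hmonpos : ∀ (x : Pt), (∀ i, 0 < x i) → 0 < mon M x := fun x hx =>
      Finset.prod_pos (fun i _ => pow_pos (hx i) _)
    have hpow : (1 / 2 : ℝ) ^ M c ≤ (1 + z.2) ^ M c :=
      pow_le_pow_left₀ (by norm_num) (by linarith) _
    have hpowpos : (0 : ℝ) < (1 + z.2) ^ M c := pow_pos (by linarith) _
    refine hposst z.1 hz1 z.2 (le_trans hz2 hη₀1) ?_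
    rcases hz3 with hz | ⟨hz0, hz⟩ | ⟨hz0, hz⟩
    · have e : ev (pt c (P s) (Q t) z.1 z.2) (rel u v h₁) = 0 := hz
      rw [e, abs_zero, hmon M z.1 z.2 hη']
      have e1 : 0 < mon M (P s) ^ z.1 := Real.rpow_pos_of_pos (hmonpos _ hclP.1) _
      have e2 : 0 < mon M (Q t) ^ (1 - z.1) := Real.rpow_pos_of_pos (hmonpos _ hclQ.1) _
      positivity
    · have e : |ev (pt c (P s) (Q t) z.1 z.2) (rel u v h₁)| ≤
          |ev (pt c (P s) (Q t) 0 0) (rel u v h₁)| := hz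
      rw [h00] at e
      refine le_trans e (le_trans hrQ ?_)
      rw [hmon M z.1 z.2 hη', hz0, sub_zero, Real.rpow_one, Real.rpow_zero, mul_one]
      have e1 := hmonpos _ hclQ.1
      calc ε * (1 / 2) ^ M c * mon M (Q t) = ε * (mon M (Q t) * (1 / 2) ^ M c) := by ring
        _ ≤ ε * (mon M (Q t) * (1 + z.2) ^ M c) := by gcongr
    · have e : |ev (pt c (P s) (Q t) z.1 z.2) (rel u v h₁)| ≤
          |ev (pt c (P s) (Q t) 1 0) (rel u v h₁)| := hz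
      rw [h10] at e
      refine le_trans e (le_trans hrP ?_)
      rw [hmon M z.1 z.2 hη', hz0, sub_self, Real.rpow_one, Real.rpow_zero, one_mul]
      have e1 := hmonpos _ hclP.1
      calc ε * (1 / 2) ^ M c * mon M (P s) = ε * (mon M (P s) * (1 / 2) ^ M c) := by ring
        _ ≤ ε * (mon M (P s) * (1 + z.2) ^ M c) := by gcongr
  rw [h00, h10] at hj
  exact hj.symm

end Pool.Agent.H734R2.SP
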