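import Pool.Agent.H734R2.SP.Stubs2

set_option autoImplicit false

/-!
NMALL: case distinction.
-/

namespace Pool.Agent.H734R2.SP

open MvPolynomial Filter Topology

theorem NMALL_sum3 (a b c : Fin 3) (hab : a ≠ b) (hac : a ≠ c) (hbc : b ≠ c) (g : Fin 3 → ℤ) :
    ∑ i, g i = g a + g b + g c := by
  have h : ∀ a b c : Fin 3, a ≠ b → a ≠ c → b ≠ c →
      (Finset.univ : Finset (Fin 3)) = {a, b, c} := by decide
  rw [h a b c hab hac hbc, Finset.sum_insert, Finset.sum_insert, Finset.sum_singleton]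
  · ring
  · simp [hbc]
  · simp [hab, hac]

theorem NMALL_lim (P : ℝ → Pt) (w : Fin 3 → ℕ)
    (hlim : ∀ i, Tendsto (fun t => P t i / t ^ w i) (𝓝[>] (0 : ℝ)) (𝓝 1)) (m : Ex) :
    Tendsto (fun t => ev (P t) (monomial m (1 : ℝ)) / t ^ wt w m) (𝓝[>] (0 : ℝ)) (𝓝 1) := by
  have h1 : Tendsto (fun t => ∏ i, (P t i / t ^ w i) ^ m i) (𝓝[>] (0 : ℝ)) (𝓝 (∏ i : Fin 3, (1 : ℝ) ^ m i)) :=
    tendsto_finset_prod _ (fun i _ => (hlim i).pow (m i))
  simp only [one_pow, Finset.prod_const_one] at h1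
  refine h1.congr (fun t => ?_)
  rw [ev, MvPolynomial.eval_monomial, one_mul, Finsupp.prod_fintype _ _ (fun i => pow_zero _), wt,
    ← Finset.prod_pow_eq_pow_sum, ← Finset.prod_div_distrib]
  refine Finset.prod_congr rfl (fun i _ => ?_)
  rw [div_pow, pow_mul]

theorem NMALL_neg (P : ℝ → Pt) (w : Fin 3 → ℕ)
    (hlim : ∀ i, Tendsto (fun t => P t i / t ^ w i) (𝓝[>] (0 : ℝ)) (𝓝 1)) (u v : Ex)
    (huv : wt w u = wt w v) :
    Neg P (wt w u) (monomial u (1 : ℝ) - monomial v (1 : ℝ)) := by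
  unfold Neg
  have h1 := NMALL_lim P w hlim u
  have h2 := NMALL_lim P w hlim v
  rw [← huv] at h2
  have h3 := h1.sub h2
  rw [sub_self] at h3
  refine h3.congr (fun t => ?_)
  rw [ev, ev, ev, map_sub, sub_div]

theorem t_NMALL : S_NMALL := by
  intro hEXP hEVA hLAT hC0 hC1 hC2 f P Q hNS w k F hN hVG
  obtain ⟨M, hM⟩ := hVG f k F le_rfl hN.F0.ne' hN.flim
  by_cases hA : ∀ m m' : Ex, wt w m = wt w m' → wt w m ≤ k → m = m'
  · exact hC0 f P Q hNS w k F hN M hM hA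
  push Not at hA
  obtain ⟨m0, m0', hm1, hm2, hm3⟩ := hA
  classical
  -- the minimal coincidence
  have hex : ∃ n : ℕ, ∃ m m' : Ex, m ≠ m' ∧ wt w m = wt w m' ∧ wt w m = n :=
    ⟨wt w m0, m0, m0', hm3, hm1, rfl⟩
  obtain ⟨u, v, huv, hwuv, hun⟩ := Nat.find_spec hex
  have hmin : ∀ m m' : Ex, m ≠ m' → wt w m = wt w m' → wt w u ≤ wt w m := by
    intro m m' h1 h2
    rw [hun]
    exact Nat.find_min' hex ⟨m, m', h1, h2, rfl⟩
  have huk : wt w u ≤ k := (hmin m0 m0' hm3 hm1).trans hm2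
  obtain ⟨hdis, hlat⟩ := hLAT w hN.w1 u v huv hwuv hmin
  -- `u ≠ 0`
  have hu0 : ∃ c, 1 ≤ u c := by
    by_contra hne
    push Not at hne
    have hu : u = 0 := by
      ext i
      have := hne i
      simp only [Finsupp.coe_zero, Pi.zero_apply]
      omega
    apply huv
    have h0 : wt w v = 0 := by
      rw [← hwuv, hu]
      simp [wt]
    rw [hu]
    ext i
    have h1 : w i * v i = 0 := by
      have h2 : ∑ i, w i * v i = 0 := h0
      exact (Finset.sum_eq_zero_iff.mp h2) i (Finset.mem_univ i)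
    have h3 := hN.w1 i
    rcases Nat.mul_eq_zero.mp h1 with h | h
    · omega
    · simp [h]
  obtain ⟨c, huc⟩ := hu0
  have hvc : v c = 0 := by
    rcases hdis c with h | h
    · omega
    · exact h
  obtain ⟨h₁, hh1, hneg1⟩ := hEXP hEVA P w k hNS.hP hN.w1 hN.lim hVG
    (monomial u 1 - monomial v 1) (wt w u) (NMALL_neg P w hN.lim u v hwuv)
  by_cases hB : ∀ m m' : Ex, m ≠ m' → wt w m = wt w m' → wt w m < k + 1 → T1 u v m m'
  · exact hC1 f P Q hNS w k F hN M hM u v h₁ c hwuv huk hh1 hneg1 huc hvc hB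
  push Not at hB
  obtain ⟨m1, m1', hn1, hn2, hn3, hn4⟩ := hB
  have hex2 : ∃ n : ℕ, ∃ m m' : Ex, m ≠ m' ∧ wt w m = wt w m' ∧ wt w m = n ∧ ¬ T1 u v m m' :=
    ⟨wt w m1, m1, m1', hn1, hn2, rfl, hn4⟩
  obtain ⟨u', v', huv', hwuv', hun', hnT⟩ := Nat.find_spec hex2
  have hu'k : wt w u' ≤ k := by
    have h1 : wt w u' ≤ wt w m1 := by
      rw [hun']
      exact Nat.find_min' hex2 ⟨m1, m1', hn1, hn2, rfl, hn4⟩
    omega
  have hT1 : ∀ m m' : Ex, m ≠ m' → wt w m = wt w m' → wt w m < wt w u' → T1 u v m m' := by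
    intro m m' h1 h2 h3
    by_contra h4
    rw [hun'] at h3
    exact Nat.find_min hex2 h3 ⟨m, m', h1, h2, rfl, h4⟩
  obtain ⟨h₂, hh2, hneg2⟩ := hEXP hEVA P w k hNS.hP hN.w1 hN.lim hVG
    (monomial u' 1 - monomial v' 1) (wt w u') (NMALL_neg P w hN.lim u' v' hwuv')
  obtain ⟨a, b, hab, hac, hbc⟩ : ∃ a b : Fin 3, a ≠ b ∧ a ≠ c ∧ b ≠ c := by
    have : ∀ c : Fin 3, ∃ a b : Fin 3, a ≠ b ∧ a ≠ c ∧ b ≠ c := by decide
    exact this c
  have hdet : ((u b : ℝ) - v b) * ((u' c : ℝ) - v' c) - ((u c : ℝ) - v c) * ((u' b : ℝ) - v' b) ≠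
      0 := by
    intro h0
    apply hnT
    apply hlat u' v' hwuv'
    have hz : ((u b : ℤ) - v b) * ((u' c : ℤ) - v' c) - ((u c : ℤ) - v c) * ((u' b : ℤ) - v' b) =
        0 := by
      exact_mod_cast h0
    refine ⟨(u' c : ℤ) - v' c, (u c : ℤ) - v c, ?_, ?_⟩
    · rw [hvc]
      have : (1 : ℤ) ≤ u c := by exact_mod_cast huc
      push_cast
      omega
    · have hb : ((u c : ℤ) - v c) * ((u' b : ℤ) - v' b) =
          ((u' c : ℤ) - v' c) * ((u b : ℤ) - v b) := by linarith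
      have hc : ((u c : ℤ) - v c) * ((u' c : ℤ) - v' c) =
          ((u' c : ℤ) - v' c) * ((u c : ℤ) - v c) := by ring
      have s1 : (w a : ℤ) * ((u a : ℤ) - v a) + (w b : ℤ) * ((u b : ℤ) - v b) +
          (w c : ℤ) * ((u c : ℤ) - v c) = 0 := by
        rw [← NMALL_sum3 a b c hab hac hbc (fun i => (w i : ℤ) * ((u i : ℤ) - v i))]
        have h1 : ((wt w u : ℕ) : ℤ) = ((wt w v : ℕ) : ℤ) := by rw [hwuv]
        simp only [wt] at h1
        push_cast at h1
        simp only [mul_sub, Finset.sum_sub_distrib]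
        linarith
      have s2 : (w a : ℤ) * ((u' a : ℤ) - v' a) + (w b : ℤ) * ((u' b : ℤ) - v' b) +
          (w c : ℤ) * ((u' c : ℤ) - v' c) = 0 := by
        rw [← NMALL_sum3 a b c hab hac hbc (fun i => (w i : ℤ) * ((u' i : ℤ) - v' i))]
        have h1 : ((wt w u' : ℕ) : ℤ) = ((wt w v' : ℕ) : ℤ) := by rw [hwuv']
        simp only [wt] at h1
        push_cast at h1
        simp only [mul_sub, Finset.sum_sub_distrib]
        linarith
      have ha : ((u c : ℤ) - v c) * ((u' a : ℤ) - v' a) =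
          ((u' c : ℤ) - v' c) * ((u a : ℤ) - v a) := by
        have hwa : (w a : ℤ) ≠ 0 := by
          have := hN.w1 a
          have : (1 : ℤ) ≤ w a := by exact_mod_cast this
          omega
        apply mul_left_cancel₀ hwa
        linear_combination ((u c : ℤ) - v c) * s2 - ((u' c : ℤ) - v' c) * s1 - (w b : ℤ) * hb
      intro i
      have hi : ∀ a b c : Fin 3, a ≠ b → a ≠ c → b ≠ c → ∀ i, i = a ∨ i = b ∨ i = c := by decide
      rcases hi a b c hab hac hbc i with h | h | h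
      · rw [h]; exact ha
      · rw [h]; exact hb
      · rw [h]; exact hc
  exact hC2 f P Q hNS w k F hN M hM a b c hab hac hbc u v u' v' h₁ h₂ hwuv hwuv'
    (hmin u' v' huv' hwuv') hu'k hh1 hh2 hneg1 hneg2 huc hvc hdet hT1

end Pool.Agent.H734R2.SP
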