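import Pool.Agent.H734R2.SP.Stubs2

set_option autoImplicit false

namespace Pool.Agent.H734R2.SP

open MvPolynomial Filter Topology

namespace NORMaux

theorem ev_bind (x : Pt) (A : Fin 3 → Poly) (g : Poly) :
    ev x (bind₁ A g) = ev (fun i => ev x (A i)) g := by
  have h := MvPolynomial.aeval_bind₁ (R := ℝ) x A g
  simpa [MvPolynomial.aeval_eq_eval] using h

theorem bind_mono (c : Fin 3 → ℝ) (d : Ex) (r : ℝ) :
    bind₁ (fun i => (C (c i) * X i : Poly)) (monomial d r) =
      monomial d (r * ∏ i ∈ d.support, c i ^ d i) := by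
  rw [bind₁_monomial]
  simp only [mul_pow, Finset.prod_mul_distrib, ← map_pow, ← map_prod]
  rw [monomial_eq, Finsupp.prod, C_mul]
  ring

theorem coeff_bind (c : Fin 3 → ℝ) (f : Poly) (m : Ex) :
    coeff m (bind₁ (fun i => (C (c i) * X i : Poly)) f) =
      coeff m f * ∏ i ∈ m.support, c i ^ m i := by
  induction f using MvPolynomial.induction_on' with
  | monomial d r =>
    rw [bind_mono, coeff_monomial, coeff_monomial]
    split_ifs with h
    · rw [h]
    · rw [zero_mul]
  | add p q hp hq => rw [map_add, coeff_add, coeff_add, hp, hq]; ring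

end NORMaux

open NORMaux

theorem t_NORM : S_NORM := by
  intro hEVA _ hAUT hCO hNO f P Q hNS w c k F hw hc hlim hF hflim hVG
  by_cases hwk : ∀ i, w i ≤ k
  · obtain ⟨A, hA⟩ : ∃ A : Fin 3 → Poly, A = fun i => (C (c i) * X i : Poly) := ⟨_, rfl⟩
    obtain ⟨B, hB⟩ : ∃ B : Fin 3 → Poly, B = fun i => (C (1 / c i) * X i : Poly) := ⟨_, rfl⟩
    have hAB : ∀ x : Pt, (fun i => ev (fun j => ev x (B j)) (A i)) = x := by
      intro x
      funext i
      rw [hA, hB]
      simp only [ev, map_mul, eval_C, eval_X]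
      have := hc i
      field_simp
    have hB0 : ∀ i, ev 0 (B i) = 0 := by
      intro i
      rw [hB]
      simp [ev]
    have hBi : ∀ (x : Pt) (i : Fin 3), ev x (B i) = 1 / c i * x i := by
      intro x i
      rw [hB]
      simp [ev]
    obtain ⟨h1, h2⟩ := hAUT hEVA A B hAB hB0 f P Q hNS
    apply h2
    have hev : ∀ t, ev (fun i => ev (P t) (B i)) (bind₁ A f) = ev (P t) f := by
      intro t
      rw [ev_bind, hAB (P t)]
    refine hNO _ _ _ h1 w k F ⟨hw, hwk, fun i => ?_, hF, ?_⟩ ?_
    · have h3 := (hlim i).const_mul (1 / c i)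
      have h4 : 1 / c i * c i = 1 := by
        have := hc i
        field_simp
      rw [h4] at h3
      refine h3.congr fun t => ?_
      show 1 / c i * (P t i / t ^ w i) = ev (P t) (B i) / t ^ w i
      rw [hBi]
      ring
    · refine hflim.congr fun t => ?_
      show ev (P t) f / t ^ k = ev (fun i => ev (P t) (B i)) (bind₁ A f) / t ^ k
      rw [hev]
    · rcases hVG with hVG | hsup
      · left
        intro g j a hj ha hg
        refine hVG (bind₁ B g) j a hj ha (hg.congr fun t => ?_)
        show ev (fun i => ev (P t) (B i)) g / t ^ j = ev (P t) (bind₁ B g) / t ^ j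
        rw [ev_bind]
      · right
        intro m hm
        apply hsup m
        rw [mem_support_iff] at hm ⊢
        intro h
        apply hm
        rw [hA, coeff_bind, h, zero_mul]
  · -- a coordinate is negligible
    rw [not_forall] at hwk
    obtain ⟨i, hi⟩ := hwk
    rw [not_le] at hi
    refine hCO f P Q hNS i fun ε hε => ?_
    have h1 : Tendsto (fun t => (P t i / t ^ w i) * t ^ (w i - k)) (𝓝[>] (0 : ℝ))
        (𝓝 (c i * 0)) := by
      refine (hlim i).mul ?_
      have h2 : Tendsto (fun t : ℝ => t ^ (w i - k)) (𝓝 0) (𝓝 (0 ^ (w i - k))) :=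
        (continuous_pow (w i - k)).tendsto 0
      rw [zero_pow (by omega)] at h2
      exact h2.mono_left nhdsWithin_le_nhds
    rw [mul_zero] at h1
    have h3 : ∀ᶠ t in 𝓝[>] (0 : ℝ), |(P t i / t ^ w i) * t ^ (w i - k)| < ε * (F / 2) := by
      have := (h1.abs).eventually_lt_const (u := ε * (F / 2)) (by rw [abs_zero]; positivity)
      exact this
    have h4 : ∀ᶠ t in 𝓝[>] (0 : ℝ), F / 2 < ev (P t) f / t ^ k :=
      hflim.eventually_const_lt (by linarith)
    filter_upwards [h3, h4, self_mem_nhdsWithin] with t a1 a2 a3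
    have ht : 0 < t := a3
    have htk : 0 < t ^ k := pow_pos ht k
    have e1 : (P t i / t ^ w i) * t ^ (w i - k) = P t i / t ^ k := by
      have : t ^ w i = t ^ (w i - k) * t ^ k := by rw [← pow_add, Nat.sub_add_cancel hi.le]
      rw [this]
      field_simp
    rw [e1, abs_div, abs_of_pos htk, div_lt_iff₀ htk] at a1
    rw [lt_div_iff₀ htk] at a2
    calc |P t i| ≤ ε * (F / 2) * t ^ k := a1.le
      _ = ε * (F / 2 * t ^ k) := by ring
      _ ≤ ε * ev (P t) f := mul_le_mul_of_nonneg_left a2.le hε.le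

end Pool.Agent.H734R2.SP
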