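import Pool.Agent.H734R2.SP.Stubs

set_option autoImplicit false

/-! Task NSI: no separating polynomial implies `NS`. -/

namespace Pool.Agent.H734R2.SP

open MvPolynomial Filter Topology

theorem t_NSI : S_NSI := by
  intro hT hE f P Q hP hQ f0 fP fQ hno
  refine ⟨hP, hQ, f0, fP, fQ, ?_, ?_⟩
  · intro g c c' hc hg
    have hc' : 0 < c' - c := by linarith
    have hA : AnalyticAt ℝ (fun t => ev (Q t) (g - C c * f)) 0 := hE Q hQ _
    have key : ¬ ∀ᶠ t in 𝓝[>] (0 : ℝ), ev (Q t) (g - C c * f) ≤ 0 := by
      intro h
      apply hno
      refine ⟨C (1 / (c' - c)) * (g - C c * f), ?_⟩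
      filter_upwards [h, hg] with t h1 h2
      simp only [ev, map_mul, map_sub, eval_C] at *
      constructor
      · rw [one_div, inv_mul_eq_div, le_div_iff₀ hc']
        nlinarith
      · have : 0 ≤ 1 / (c' - c) := by positivity
        nlinarith
    rcases hT _ hA with h | h | h
    · refine h.mono fun t ht => ?_
      simp only [ev, map_mul, map_sub, eval_C] at *
      linarith
    · exact absurd (h.mono fun t ht => le_of_eq ht) key
    · exact absurd (h.mono fun t ht => le_of_lt ht) key
  · intro g c c' hc hg
    have hc' : 0 < c' - c := by linarith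
    have hA : AnalyticAt ℝ (fun t => ev (P t) (g - C c * f)) 0 := hE P hP _
    have key : ¬ ∀ᶠ t in 𝓝[>] (0 : ℝ), ev (P t) (g - C c * f) ≤ 0 := by
      intro h
      apply hno
      refine ⟨C (1 / (c' - c)) * (C c' * f - g), ?_⟩
      filter_upwards [h, hg] with t h1 h2
      simp only [ev, map_mul, map_sub, eval_C] at *
      constructor
      · rw [one_div, inv_mul_eq_div, le_div_iff₀ hc']
        nlinarith
      · have : 0 ≤ 1 / (c' - c) := by positivity
        nlinarith
    rcases hT _ hA with h | h | h
    · refine h.mono fun t ht => ?_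
      simp only [ev, map_mul, map_sub, eval_C] at *
      linarith
    · exact absurd (h.mono fun t ht => le_of_eq ht) key
    · exact absurd (h.mono fun t ht => le_of_lt ht) key

end Pool.Agent.H734R2.SP
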