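import Pool.Agent.H734R2.SP.Stubs3

set_option autoImplicit false

namespace Pool.Agent.H734R2.SP

open MvPolynomial Filter Topology

theorem OFF_comm (i j : Fin 3) (f : Poly) : pderiv i (pderiv j f) = pderiv j (pderiv i f) := by
  have h : ⁅(pderiv i : Derivation ℝ Poly Poly), (pderiv j : Derivation ℝ Poly Poly)⁆ = 0 := by
    apply MvPolynomial.derivation_ext
    intro k
    rw [Derivation.commutator_apply]
    have h1 : ∀ a b : Fin 3, pderiv a (X b : Poly) = C (if a = b then (1 : ℝ) else 0) := by
      intro a b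
      by_cases hab : a = b
      · subst hab
        rw [pderiv_X_self, if_pos rfl, C_1]
      · rw [pderiv_X_of_ne (Ne.symm hab), if_neg hab, C_0]
    rw [h1, h1, pderiv_C, pderiv_C, sub_zero]
    rfl
  have h2 := congrArg (fun D : Derivation ℝ Poly Poly => D f) h
  have h3 : pderiv i (pderiv j f) - pderiv j (pderiv i f) = 0 := by
    have h4 : ⁅(pderiv i : Derivation ℝ Poly Poly), (pderiv j : Derivation ℝ Poly Poly)⁆ f = 0 := h2
    rw [Derivation.commutator_apply] at h4
    exact h4
  exact sub_eq_zero.mp h3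

theorem OFF_evb (A : Fin 3 → Poly) (hA : ∀ i, ev 0 (A i) = 0) (g : Poly) :
    ev 0 (bind₁ A g) = ev 0 g := by
  have h1 : ev 0 (bind₁ A g) = ev (fun i => ev 0 (A i)) g := by
    show (MvPolynomial.eval (0 : Pt)) (bind₁ A g) = _
    rw [← MvPolynomial.aeval_eq_eval]
    show (aeval (0 : Pt)) (bind₁ A g) = _
    rw [aeval_bind₁]
    rfl
  rw [h1]
  have h2 : (fun i => ev 0 (A i)) = (0 : Pt) := funext hA
  rw [h2]

theorem t_OFF (L : Lib) (hch : S_CHAIN) (hd : S_DIAG) : S_OFF := by
  intro f P Q hN hij
  by_cases h : ∃ i, ev 0 (pderiv i (pderiv i f)) ≠ 0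
  · exact hd f P Q hN h
  have h0 : ∀ i, ev 0 (pderiv i (pderiv i f)) = 0 := by
    intro i
    by_contra hc
    exact h ⟨i, hc⟩
  obtain ⟨i, j, hne⟩ := hij
  have hneq : i ≠ j := by
    intro e
    subst e
    exact hne (h0 i)
  let A : Fin 3 → Poly := fun k => if k = j then X j + X i else X k
  let B : Fin 3 → Poly := fun k => if k = j then X j - X i else X k
  have hAj : A j = X j + X i := if_pos rfl
  have hAn : ∀ k, k ≠ j → A k = X k := fun k hk => if_neg hk
  have hBj : B j = X j - X i := if_pos rfl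
  have hBn : ∀ k, k ≠ j → B k = X k := fun k hk => if_neg hk
  have hAB : ∀ x : Pt, (fun k => ev (fun l => ev x (B l)) (A k)) = x := by
    intro x
    funext k
    by_cases hk : k = j
    · subst hk
      rw [hAj]
      show MvPolynomial.eval _ (X k + X i) = x k
      rw [map_add, eval_X, eval_X, hBj, hBn i hneq]
      show MvPolynomial.eval x (X k - X i) + MvPolynomial.eval x (X i) = x k
      rw [map_sub, eval_X, eval_X]
      ring
    · rw [hAn k hk]
      show MvPolynomial.eval _ (X k) = x k
      rw [eval_X, hBn k hk]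
      exact eval_X k
  have hB0 : ∀ k, ev 0 (B k) = 0 := by
    intro k
    by_cases hk : k = j
    · subst hk
      rw [hBj]
      show MvPolynomial.eval 0 (X k - X i) = 0
      rw [map_sub, eval_X, eval_X]
      simp
    · rw [hBn k hk]
      show MvPolynomial.eval 0 (X k) = 0
      rw [eval_X]
      rfl
  have hA0 : ∀ k, ev 0 (A k) = 0 := by
    intro k
    by_cases hk : k = j
    · subst hk
      rw [hAj]
      show MvPolynomial.eval 0 (X k + X i) = 0
      rw [map_add, eval_X, eval_X]
      simp
    · rw [hAn k hk]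
      show MvPolynomial.eval 0 (X k) = 0
      rw [eval_X]
      rfl
  obtain ⟨hN', hJ⟩ := L.aut A B hAB hB0 f P Q hN
  apply hJ
  apply hd _ _ _ hN'
  refine ⟨i, ?_⟩
  have hD : ∀ g : Poly, pderiv i (bind₁ A g) = bind₁ A (pderiv i g + pderiv j g) := by
    intro g
    rw [hch A g i]
    have h1 : ∀ l : Fin 3, bind₁ A (pderiv l g) * pderiv i (A l) =
        (if l = i then bind₁ A (pderiv i g) else 0) + (if l = j then bind₁ A (pderiv j g) else 0) := by
      intro l
      by_cases hl : l = j
      · subst hl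
        rw [hAj, map_add, pderiv_X_of_ne hneq.symm, pderiv_X_self, zero_add, mul_one,
          if_neg hneq.symm, if_pos rfl, zero_add]
      · rw [hAn l hl, if_neg hl, add_zero]
        by_cases hli : l = i
        · subst hli
          rw [pderiv_X_self, mul_one, if_pos rfl]
        · rw [pderiv_X_of_ne hli, mul_zero, if_neg hli]
    rw [Finset.sum_congr rfl fun l _ => h1 l, Finset.sum_add_distrib,
      Finset.sum_ite_eq' Finset.univ i, Finset.sum_ite_eq' Finset.univ j,
      if_pos (Finset.mem_univ _), if_pos (Finset.mem_univ _), map_add]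
  rw [hD, hD, OFF_evb A hA0, map_add, map_add, OFF_comm j i]
  show MvPolynomial.eval 0 (_ + _) ≠ 0
  rw [map_add, map_add, map_add]
  have e1 : MvPolynomial.eval (0 : Pt) (pderiv i (pderiv i f)) = 0 := h0 i
  have e2 : MvPolynomial.eval (0 : Pt) (pderiv j (pderiv j f)) = 0 := h0 j
  have e3 : MvPolynomial.eval (0 : Pt) (pderiv i (pderiv j f)) ≠ 0 := hne
  rw [e1, e2]
  intro hz
  apply e3
  linarith

end Pool.Agent.H734R2.SP
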