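import Pool.Agent.H734R2.SP.Stubs

set_option autoImplicit false

/-!
ORD: orders of analytic germs.
-/

namespace Pool.Agent.H734R2.SP

open Filter Topology

namespace ORDh

/-- normal form of an analytic germ on the right of 0 -/
theorem form (u : ℝ → ℝ) (hu : AnalyticAt ℝ u 0) :
    (∀ᶠ t in 𝓝[>] (0 : ℝ), u t = 0) ∨
      ∃ (n : ℕ) (g : ℝ → ℝ), ContinuousAt g 0 ∧ g 0 ≠ 0 ∧ ∀ᶠ t in 𝓝[>] (0 : ℝ), u t = t ^ n * g t := by
  by_cases h : ∀ᶠ t in 𝓝 (0 : ℝ), u t = 0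
  · exact Or.inl (h.filter_mono nhdsWithin_le_nhds)
  · right
    obtain ⟨n, g, hg, hg0, he⟩ := hu.exists_eventuallyEq_pow_smul_nonzero_iff.mpr h
    refine ⟨n, g, hg.continuousAt, hg0, ?_⟩
    have h2 := he.filter_mono (nhdsWithin_le_nhds (s := Set.Ioi (0 : ℝ)))
    filter_upwards [h2] with t ht
    rw [ht, sub_zero, smul_eq_mul]

theorem comp (u v : ℝ → ℝ) (n m : ℕ) (g h : ℝ → ℝ) (hg : ContinuousAt g 0)
    (hh : ContinuousAt h 0) (hh0 : h 0 ≠ 0)
    (hu : ∀ᶠ t in 𝓝[>] (0 : ℝ), u t = t ^ n * g t) (hv : ∀ᶠ t in 𝓝[>] (0 : ℝ), v t = t ^ m * h t)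
    (hnm : m ≤ n) : ∃ C : ℝ, ∀ᶠ t in 𝓝[>] (0 : ℝ), |u t| ≤ C * |v t| := by
  have hhp : 0 < |h 0| := abs_pos.2 hh0
  refine ⟨(|g 0| + 1) / (|h 0| / 2), ?_⟩
  have e1 : ∀ᶠ t in 𝓝[>] (0 : ℝ), |g t| < |g 0| + 1 :=
    ((hg.abs).eventually_lt continuousAt_const (by simp)).filter_mono nhdsWithin_le_nhds
  have e2 : ∀ᶠ t in 𝓝[>] (0 : ℝ), |h 0| / 2 < |h t| :=
    ((continuousAt_const).eventually_lt hh.abs (half_lt_self hhp)).filter_mono
      nhdsWithin_le_nhds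
  have e3 : ∀ᶠ t in 𝓝[>] (0 : ℝ), t < 1 :=
    (eventually_lt_nhds (show (0 : ℝ) < 1 by norm_num)).filter_mono nhdsWithin_le_nhds
  filter_upwards [hu, hv, e1, e2, e3, self_mem_nhdsWithin] with t h1 h2 h3 h4 h5 h6
  have ht : (0 : ℝ) < t := h6
  rw [h1, h2, abs_mul, abs_mul, abs_of_pos (pow_pos ht n), abs_of_pos (pow_pos ht m)]
  have p1 : t ^ n ≤ t ^ m := pow_le_pow_of_le_one ht.le h5.le hnm
  have p2 : 0 < t ^ m := pow_pos ht m
  have p3 : t ^ n * |g t| ≤ t ^ m * (|g 0| + 1) :=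
    mul_le_mul p1 h3.le (abs_nonneg _) p2.le
  refine p3.trans ?_
  have p4 : |g 0| + 1 ≤ (|g 0| + 1) / (|h 0| / 2) * |h t| := by
    rw [div_mul_eq_mul_div, le_div_iff₀ (by positivity)]
    exact mul_le_mul_of_nonneg_left h4.le (by positivity)
  calc t ^ m * (|g 0| + 1) ≤ t ^ m * ((|g 0| + 1) / (|h 0| / 2) * |h t|) :=
        mul_le_mul_of_nonneg_left p4 p2.le
    _ = (|g 0| + 1) / (|h 0| / 2) * (t ^ m * |h t|) := by ring

end ORDh

open ORDh

theorem t_ORD : S_ORD := by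
  refine ⟨?_, ?_⟩
  · intro u v hu hv
    rcases form u hu with h | ⟨n, g, hg, hg0, he⟩
    · left
      refine ⟨0, ?_⟩
      filter_upwards [h] with t ht
      rw [ht]
      simp
    rcases form v hv with h | ⟨m, k, hk, hk0, he'⟩
    · right
      refine ⟨0, ?_⟩
      filter_upwards [h] with t ht
      rw [ht]
      simp
    rcases le_total m n with hmn | hmn
    · exact Or.inl (comp u v n m g k hg hk hk0 he he' hmn)
    · exact Or.inr (comp v u m n k g hk hg hg0 he' he hmn)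
  · intro u hu hpos
    rcases form u hu with h | ⟨n, g, hg, hg0, he⟩
    · exfalso
      obtain ⟨t, h1, h2⟩ := (h.and hpos).exists
      rw [h1] at h2
      exact lt_irrefl _ h2
    · have hlim : Tendsto g (𝓝[>] (0 : ℝ)) (𝓝 (g 0)) := hg.tendsto.mono_left nhdsWithin_le_nhds
      have hev : ∀ᶠ t in 𝓝[>] (0 : ℝ), g t = u t / t ^ n := by
        filter_upwards [he, self_mem_nhdsWithin] with t h1 h2
        have ht : (0 : ℝ) < t := h2
        rw [h1]
        field_simp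
      refine ⟨n, g 0, ?_, hlim.congr' hev⟩
      have hge : 0 ≤ g 0 := by
        refine ge_of_tendsto hlim ?_
        filter_upwards [hev, hpos, self_mem_nhdsWithin] with t h1 h2 h3
        have ht : (0 : ℝ) < t := h3
        rw [h1]
        positivity
      exact lt_of_le_of_ne hge (Ne.symm hg0)

end Pool.Agent.H734R2.SP
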