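import Pool.Agent.H734R2.SP.Stubs2

set_option autoImplicit false

namespace Pool.Agent.H734R2.SP

open MvPolynomial Filter Topology

theorem t_PATH : S_PATH := by
  intro Φ a hΦ ha hmono
  -- the zero
  have hz : ∀ κ ∈ Set.Icc (0 : ℝ) 1, ∃ η ∈ Set.Ioo (-a) a, Φ (κ, η) = 0 := by
    intro κ hκ
    obtain ⟨_, h1, h2⟩ := hmono κ hκ
    have hc : ContinuousOn (fun η => Φ (κ, η)) (Set.Icc (-a) a) :=
      (hΦ.comp (by fun_prop : Continuous (fun η : ℝ => (κ, η)))).continuousOn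
    have := intermediate_value_Ioo (by linarith : -a ≤ a) hc
    obtain ⟨η, hη, h0⟩ := this ⟨h1, h2⟩
    exact ⟨η, hη, h0⟩
  choose! z hzI hz0 using hz
  -- comparison
  have hlt : ∀ κ ∈ Set.Icc (0 : ℝ) 1, ∀ l ∈ Set.Icc (-a) a, Φ (κ, l) < 0 ↔ l < z κ := by
    intro κ hκ l hl
    have hs := (hmono κ hκ).1
    have hzm : z κ ∈ Set.Icc (-a) a := ⟨(hzI κ hκ).1.le, (hzI κ hκ).2.le⟩
    have := hs.lt_iff_lt hl hzm
    simp only [hz0 κ hκ] at this
    exact this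
  have hgt : ∀ κ ∈ Set.Icc (0 : ℝ) 1, ∀ l ∈ Set.Icc (-a) a, 0 < Φ (κ, l) ↔ z κ < l := by
    intro κ hκ l hl
    have hs := (hmono κ hκ).1
    have hzm : z κ ∈ Set.Icc (-a) a := ⟨(hzI κ hκ).1.le, (hzI κ hκ).2.le⟩
    have := hs.lt_iff_lt hzm hl
    simp only [hz0 κ hκ] at this
    exact this
  -- continuity
  have hcont : ContinuousOn z (Set.Icc 0 1) := by
    intro κ₀ hκ₀
    have hI := hzI κ₀ hκ₀
    refine tendsto_order.2 ⟨?_, ?_⟩
    · intro l hl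
      by_cases hla : l < -a
      · filter_upwards [self_mem_nhdsWithin] with κ hκ
        exact hla.trans (hzI κ hκ).1
      · push Not at hla
        have hlI : l ∈ Set.Icc (-a) a := ⟨hla, (hl.trans hI.2).le⟩
        have h1 : Φ (κ₀, l) < 0 := (hlt κ₀ hκ₀ l hlI).2 hl
        have hc : Continuous (fun κ => Φ (κ, l)) :=
          hΦ.comp (by fun_prop : Continuous (fun κ : ℝ => (κ, l)))
        have h2 : ∀ᶠ κ in 𝓝 κ₀, Φ (κ, l) < 0 := hc.continuousAt.eventually_lt continuousAt_const h1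
        filter_upwards [self_mem_nhdsWithin, h2.filter_mono nhdsWithin_le_nhds] with κ hκ h3
        exact (hlt κ hκ l hlI).1 h3
    · intro l hl
      by_cases hla : a < l
      · filter_upwards [self_mem_nhdsWithin] with κ hκ
        exact (hzI κ hκ).2.trans hla
      · push Not at hla
        have hlI : l ∈ Set.Icc (-a) a := ⟨(hI.1.trans hl).le, hla⟩
        have h1 : 0 < Φ (κ₀, l) := (hgt κ₀ hκ₀ l hlI).2 hl
        have hc : Continuous (fun κ => Φ (κ, l)) :=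
          hΦ.comp (by fun_prop : Continuous (fun κ : ℝ => (κ, l)))
        have h2 : ∀ᶠ κ in 𝓝 κ₀, 0 < Φ (κ, l) := continuousAt_const.eventually_lt hc.continuousAt h1
        filter_upwards [self_mem_nhdsWithin, h2.filter_mono nhdsWithin_le_nhds] with κ hκ h3
        exact (hgt κ hκ l hlI).1 h3
  -- segment bounds
  have hseg : ∀ κ ∈ Set.Icc (0 : ℝ) 1, ∀ t ∈ Set.Icc (0 : ℝ) 1,
      |t * z κ| ≤ a ∧ |Φ (κ, t * z κ)| ≤ |Φ (κ, 0)| := by
    intro κ hκ t ht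
    have hs := (hmono κ hκ).1.monotoneOn
    have hzm : z κ ∈ Set.Icc (-a) a := ⟨(hzI κ hκ).1.le, (hzI κ hκ).2.le⟩
    have h0m : (0 : ℝ) ∈ Set.Icc (-a) a := ⟨by linarith, ha.le⟩
    have hza : |z κ| ≤ a := abs_le.2 hzm
    have h1 : |t * z κ| ≤ a := by
      rw [abs_mul, abs_of_nonneg ht.1]
      calc t * |z κ| ≤ 1 * |z κ| := mul_le_mul_of_nonneg_right ht.2 (abs_nonneg _)
        _ ≤ a := by linarith
    have htm : t * z κ ∈ Set.Icc (-a) a := abs_le.1 h1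
    refine ⟨h1, ?_⟩
    rcases le_total 0 (z κ) with h | h
    · have h2 : 0 ≤ t * z κ := mul_nonneg ht.1 h
      have h3 : t * z κ ≤ z κ := by nlinarith [ht.2]
      have h4 := hs h0m htm h2
      have h5 := hs htm hzm h3
      simp only [hz0 κ hκ] at h4 h5
      rw [abs_of_nonpos h5, abs_of_nonpos (h4.trans h5)]
      linarith
    · have h2 : t * z κ ≤ 0 := mul_nonpos_of_nonneg_of_nonpos ht.1 h
      have h3 : z κ ≤ t * z κ := by nlinarith [ht.2]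
      have h4 := hs htm h0m h2
      have h5 := hs hzm htm h3
      simp only [hz0 κ hκ] at h4 h5
      rw [abs_of_nonneg h5, abs_of_nonneg (h5.trans h4)]
      exact h4
  have h0I : (0 : ℝ) ∈ Set.Icc (0 : ℝ) 1 := ⟨le_refl _, zero_le_one⟩
  have h1I : (1 : ℝ) ∈ Set.Icc (0 : ℝ) 1 := ⟨zero_le_one, le_refl _⟩
  set S : Set (ℝ × ℝ) := {z : ℝ × ℝ | z.1 ∈ Set.Icc (0 : ℝ) 1 ∧ |z.2| ≤ a ∧
    (Φ z = 0 ∨ (z.1 = 0 ∧ |Φ z| ≤ |Φ (0, 0)|) ∨ (z.1 = 1 ∧ |Φ z| ≤ |Φ (1, 0)|))} with hS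
  have j1 : JoinedIn S (0, 0) (0, z 0) := by
    refine JoinedIn.ofLine (f := fun t : ℝ => ((0 : ℝ), t * z 0)) (by fun_prop) (by simp) (by simp) ?_
    rintro _ ⟨t, ht, rfl⟩
    have := hseg 0 h0I t ht
    exact ⟨h0I, this.1, Or.inr (Or.inl ⟨rfl, this.2⟩)⟩
  have j3 : JoinedIn S (1, 0) (1, z 1) := by
    refine JoinedIn.ofLine (f := fun t : ℝ => ((1 : ℝ), t * z 1)) (by fun_prop) (by simp) (by simp) ?_
    rintro _ ⟨t, ht, rfl⟩
    have := hseg 1 h1I t ht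
    exact ⟨h1I, this.1, Or.inr (Or.inr ⟨rfl, this.2⟩)⟩
  have j2 : JoinedIn S (0, z 0) (1, z 1) := by
    refine JoinedIn.ofLine (f := fun t : ℝ => (t, z t)) (continuousOn_id.prodMk hcont) rfl rfl ?_
    rintro _ ⟨t, ht, rfl⟩
    have hI := hzI t ht
    exact ⟨ht, abs_le.2 ⟨hI.1.le, hI.2.le⟩, Or.inl (hz0 t ht)⟩
  exact (j1.trans j2).trans j3.symm

end Pool.Agent.H734R2.SP
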