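import Pool.Agent.H734R2.SP.Stubs

set_option autoImplicit false

namespace Pool.Agent.H734R2.SP

open MvPolynomial Filter Topology

/-- coordinates of an arc are eventually small -/
private lemma PLANE_small {P : ℝ → Pt} (hP : Arc P) {δ : ℝ} (hδ : 0 < δ) :
    ∀ᶠ t in 𝓝[>] (0 : ℝ), ∀ i, |P t i| < δ := by
  rw [eventually_all]
  intro i
  have h1 : Tendsto (fun t => P t i) (𝓝[>] (0 : ℝ)) (𝓝 0) := by
    have h2 := (hP.1 i).continuousAt.tendsto
    simp only [hP.2, Pi.zero_apply] at h2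
    exact h2.mono_left nhdsWithin_le_nhds
  have h3 := h1.eventually (Metric.ball_mem_nhds (0 : ℝ) hδ)
  filter_upwards [h3] with t ht
  rwa [Real.dist_eq, sub_zero] at ht

/-- the sign of the first coordinate -/
private lemma PLANE_sign (hTRI : S_TRI) (hEVA : S_EVA) (hDICH : S_DICH) (hLIP : S_LIP)
    (f : Poly) (P Q : ℝ → Pt) (h : NS f P Q) (hP2 : ∀ t, P t 2 = 0)
    (hC : ∃ C : ℝ, ∀ᶠ t in 𝓝[>] (0 : ℝ), |P t 1| ≤ C * |P t 0|) :
    ∃ σ : ℝ, (σ = 1 ∨ σ = -1) ∧ (∀ᶠ t in 𝓝[>] (0 : ℝ), 0 < σ * P t 0) ∧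
      (∀ᶠ t in 𝓝[>] (0 : ℝ), 0 < σ * Q t 0) := by
  obtain ⟨C, hC⟩ := hC
  rcases hDICH hTRI hEVA f P Q h (X 0) with h1 | ⟨c, hc, h1, h2⟩ | ⟨c, hc, h1, h2⟩
  · exfalso
    obtain ⟨K, hK, hLf⟩ := hLIP f
    have hC1 : 0 < max 1 C := lt_of_lt_of_le one_pos (le_max_left _ _)
    have hpos : 0 < 1 / (2 * K * max 1 C) := by positivity
    have h3 := (h1 _ hpos).1
    obtain ⟨t, ht3, htC, hts, htf⟩ := (h3.and (hC.and ((PLANE_small h.hP one_pos).and h.fP))).exists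
    simp only [ev, eval_X] at ht3
    have ha : 0 ≤ |P t 0| := abs_nonneg _
    have hb : ∀ i, |P t i - (0 : Pt) i| ≤ max 1 C * |P t 0| := by
      intro i
      rw [Pi.zero_apply, sub_zero]
      fin_cases i
      · exact le_mul_of_one_le_left ha (le_max_left _ _)
      · exact htC.trans (mul_le_mul_of_nonneg_right (le_max_right _ _) ha)
      · change |P t 2| ≤ _
        rw [hP2 t, abs_zero]
        positivity
    have h4 := hLf (P t) 0 _ (fun i => (hts i).le) (fun i => by simp) hb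
    rw [h.f0, sub_zero, abs_of_pos htf] at h4
    have h5 : K * (max 1 C * |P t 0|) ≤ K * (max 1 C * (1 / (2 * K * max 1 C) * ev (P t) f)) := by
      gcongr
    have h6 : K * (max 1 C * (1 / (2 * K * max 1 C) * ev (P t) f)) = ev (P t) f / 2 := by
      field_simp
    linarith
  · refine ⟨1, Or.inl rfl, ?_, ?_⟩
    · filter_upwards [h1, h.fP] with t ht1 ht2
      simp only [ev, eval_X] at ht1
      rw [one_mul]
      exact (mul_pos hc ht2).trans_le ht1
    · filter_upwards [h2, h.fQ] with t ht1 ht2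
      simp only [ev, eval_X] at ht1
      rw [one_mul]
      exact (mul_pos hc ht2).trans_le ht1
  · refine ⟨-1, Or.inr rfl, ?_, ?_⟩
    · filter_upwards [h1, h.fP] with t ht1 ht2
      simp only [ev, eval_X] at ht1
      rw [neg_one_mul]
      exact (mul_pos hc ht2).trans_le ht1
    · filter_upwards [h2, h.fQ] with t ht1 ht2
      simp only [ev, eval_X] at ht1
      rw [neg_one_mul]
      exact (mul_pos hc ht2).trans_le ht1

/-- the plane case (`S_SEG` needs `S_LEMB` and `S_DIR`) -/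
theorem t_PLANE : S_LEMB → S_DIR → S_PLANE := by
  intro hLEMB hDIR hTRI hEVA hDICH hSEG hLIP f P Q h hP2 hQ2 hC
  obtain ⟨σ, hσ, hσP, hσQ⟩ := PLANE_sign hTRI hEVA hDICH hLIP f P Q h hP2 hC
  obtain ⟨ε1, hε1, hseg⟩ := hSEG hTRI hEVA hDICH hLEMB hDIR f P Q h (Pi.single 1 1)
  intro ε hε
  have hm : 0 < min ε ε1 := lt_min hε hε1
  -- a point `s0` with positive value and continuity on `[0, s0]`
  have hIoo : ∀ᶠ t in 𝓝[>] (0 : ℝ), t ∈ Set.Ioo (0 : ℝ) (min ε ε1) := Ioo_mem_nhdsGT hm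
  have han : ∀ᶠ x in 𝓝 (0 : ℝ), ContinuousAt (fun t => P t 0) x := by
    filter_upwards [(h.hP.1 0).eventually_analyticAt] with x hx
    exact hx.continuousAt
  obtain ⟨d, hd, hd'⟩ := Metric.eventually_nhds_iff.1 han
  have hIoo2 : ∀ᶠ t in 𝓝[>] (0 : ℝ), t ∈ Set.Ioo (0 : ℝ) d := Ioo_mem_nhdsGT hd
  obtain ⟨s0, hs0, hs0d, hs0P⟩ := (hIoo.and (hIoo2.and hσP)).exists
  have hcont : ContinuousOn (fun t => σ * P t 0) (Set.Icc 0 s0) := by
    intro x hx
    apply ContinuousAt.continuousWithinAt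
    apply ContinuousAt.mul continuousAt_const
    apply hd'
    rw [Real.dist_eq, sub_zero, abs_of_nonneg hx.1]
    exact hx.2.trans_lt hs0d.2
  obtain ⟨t, ht, htQ, hts⟩ := (hIoo.and (hσQ.and (PLANE_small h.hQ hs0P))).exists
  have h0 : σ * P 0 0 = 0 := by rw [h.hP.2]; simp
  have hle : σ * Q t 0 ≤ σ * P s0 0 := by
    have h1 := (hts 0).le
    refine le_trans ?_ h1
    refine (le_abs_self _).trans ?_
    rw [abs_mul]
    rcases hσ with rfl | rfl <;> simp
  have hmem : σ * Q t 0 ∈ Set.Icc (σ * P 0 0) (σ * P s0 0) := by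
    rw [h0]
    exact ⟨htQ.le, hle⟩
  obtain ⟨s, hs, hsQ⟩ := intermediate_value_Icc hs0.1.le hcont hmem
  simp only at hsQ
  have hσ0 : σ ≠ 0 := by rcases hσ with rfl | rfl <;> norm_num
  have hPQ : P s 0 = Q t 0 := mul_left_cancel₀ hσ0 hsQ
  have hspos : 0 < s := by
    rcases hs.1.lt_or_eq with h1 | h1
    · exact h1
    · exfalso
      rw [← h1, h0] at hsQ
      rw [← hsQ] at htQ
      exact lt_irrefl _ htQ
  have hslt : s < min ε ε1 := hs.2.trans_lt hs0.2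
  refine ⟨s, ⟨hspos, hslt.trans_le (min_le_left _ _)⟩, t, ⟨ht.1, ht.2.trans_le (min_le_left _ _)⟩, ?_⟩
  refine hseg s ⟨hspos, hslt.trans_le (min_le_right _ _)⟩ t ⟨ht.1, ht.2.trans_le (min_le_right _ _)⟩
    (P s 1 - Q t 1) ?_
  funext i
  fin_cases i
  · simp [hPQ]
  · simp
  · simp [hP2, hQ2]

end Pool.Agent.H734R2.SP
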