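import Pool.Agent.H734R2.SP.Stubs4

set_option autoImplicit false

/-! Task PLK (helper267, after HN2 of helper225): the arcs moved to the plane `z = κ`. -/

namespace Pool.Agent.H734R2.SP

open MvPolynomial Filter Topology

/-- the projection to `z = κ` -/
noncomputable def PLK_pi (κ : ℝ) (x : Pt) : Pt := ![x 0, x 1, κ]

/-- composition of a polynomial with the projection -/
noncomputable def PLK_gh (κ : ℝ) (g : Poly) : Poly := bind₁ ![X 0, X 1, C κ] g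

theorem PLK_ev (κ : ℝ) (g : Poly) (x : Pt) : ev x (PLK_gh κ g) = ev (PLK_pi κ x) g := by
  unfold PLK_gh ev
  show eval₂Hom (RingHom.id ℝ) x _ = eval₂Hom (RingHom.id ℝ) (PLK_pi κ x) g
  rw [eval₂Hom_bind₁]
  have e : (fun i => (eval₂Hom (RingHom.id ℝ) x)
      ((![X 0, X 1, C κ] : Fin 3 → MvPolynomial (Fin 3) ℝ) i)) = PLK_pi κ x := by
    funext i
    fin_cases i <;> simp [PLK_pi]
  rw [e]

theorem PLK_idem (κ μ : ℝ) (x : Pt) : PLK_pi κ (PLK_pi μ x) = PLK_pi κ x := by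
  funext i
  fin_cases i <;> simp [PLK_pi]

theorem PLK_zero : PLK_pi 0 0 = 0 := by
  funext i
  fin_cases i <;> simp [PLK_pi]

theorem PLK_cont (κ : ℝ) : Continuous (PLK_pi κ) := by
  refine continuous_pi fun i => ?_
  fin_cases i
  · exact continuous_apply (0 : Fin 3)
  · exact continuous_apply (1 : Fin 3)
  · exact continuous_const

theorem PLK_arc {P : ℝ → Pt} (h : Arc P) : Arc (fun t => PLK_pi 0 (P t)) := by
  refine ⟨fun i => ?_, ?_⟩
  · fin_cases i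
    · exact h.1 0
    · exact h.1 1
    · exact analyticAt_const
  · show PLK_pi 0 (P 0) = 0
    rw [h.2, PLK_zero]

theorem PLK_ns1 {f : Poly} {P Q : ℝ → Pt} (κ : ℝ) (hpq : NS1 f P Q)
    (hQ : ∀ᶠ t in 𝓝[>] (0 : ℝ), ev (Q t) f / 2 ≤ ev (PLK_pi κ (Q t)) f) :
    NS1 (PLK_gh κ f) (fun t => PLK_pi 0 (P t)) (fun t => PLK_pi 0 (Q t)) := by
  intro g c c' hcc hg
  have h1 := hpq (PLK_gh 0 g - C c' * PLK_gh κ f) (-((c' - c) / 2)) 0 (by linarith) (by
    filter_upwards [hg] with t ht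
    rw [PLK_ev, PLK_idem] at ht
    have e : ev (P t) (PLK_gh 0 g - C c' * PLK_gh κ f) =
        ev (PLK_pi 0 (P t)) g - c' * ev (PLK_pi κ (P t)) f := by
      rw [← PLK_ev, ← PLK_ev]
      simp only [ev, map_sub, map_mul, eval_C]
    rw [e]
    linarith)
  filter_upwards [h1, hQ] with t ht hq
  rw [PLK_ev, PLK_idem]
  have e : ev (Q t) (PLK_gh 0 g - C c' * PLK_gh κ f) =
      ev (PLK_pi 0 (Q t)) g - c' * ev (PLK_pi κ (Q t)) f := by
    rw [← PLK_ev, ← PLK_ev]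
    simp only [ev, map_sub, map_mul, eval_C]
  rw [e] at ht
  nlinarith [mul_le_mul_of_nonneg_left hq (show (0 : ℝ) ≤ c' - c by linarith)]

theorem t_PLK (L : Lib) : S_PLK := by
  intro f P Q κ hNS h0 hP hQ
  have hP' : ∀ᶠ t in 𝓝[>] (0 : ℝ), ev (P t) f / 2 ≤ ev (PLK_pi κ (P t)) f := hP
  have hQ' : ∀ᶠ t in 𝓝[>] (0 : ℝ), ev (Q t) f / 2 ≤ ev (PLK_pi κ (Q t)) f := hQ
  have hn : NS (PLK_gh κ f) (fun t => PLK_pi 0 (P t)) (fun t => PLK_pi 0 (Q t)) := by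
    refine ⟨PLK_arc hNS.hP, PLK_arc hNS.hQ, ?_, ?_, ?_, PLK_ns1 κ hNS.pq hQ',
      PLK_ns1 κ hNS.qp hP'⟩
    · rw [PLK_ev]
      exact h0
    · filter_upwards [hNS.fP, hP'] with t h1 h2
      rw [PLK_ev, PLK_idem]; linarith
    · filter_upwards [hNS.fQ, hQ'] with t h1 h2
      rw [PLK_ev, PLK_idem]; linarith
  have hj := L.coor _ _ _ hn (by
    intro ε hε
    filter_upwards [hn.fP] with t ht
    have e : PLK_pi 0 (P t) 2 = 0 := by simp [PLK_pi]
    rw [e, abs_zero]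
    positivity)
  show Join f (fun t => PLK_pi κ (P t)) (fun t => PLK_pi κ (Q t))
  intro ε hε
  obtain ⟨s, hs, t, ht, γ, hγ⟩ := hj ε hε
  refine ⟨s, hs, t, ht, (γ.map (PLK_cont κ)).cast (PLK_idem κ 0 _).symm (PLK_idem κ 0 _).symm,
    fun r => ?_⟩
  have h1 := hγ r
  show 0 < ev (PLK_pi κ (γ r)) f
  rw [← PLK_ev]
  exact h1

end Pool.Agent.H734R2.SP
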