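import Pool.Agent.H734R2.SP.Stubs2

set_option autoImplicit false

namespace Pool.Agent.H734R2.SP

open MvPolynomial Filter Topology

theorem pos1_mon_pos (m : Ex) (x : Pt) (hx : ∀ i, 0 < x i) : 0 < mon m x :=
  Finset.prod_pos fun i _ => pow_pos (hx i) _

theorem pos1_mon_le (m : Ex) (x : Pt) (hx : ∀ i, 0 < x i) (h2 : ∀ i, x i ≤ 2) :
    mon m x ≤ mon m (fun _ => 2) :=
  Finset.prod_le_prod (fun i _ => (pow_pos (hx i) _).le)
    fun i _ => pow_le_pow_left₀ (hx i).le (h2 i) _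

theorem pos1_ev (g : Poly) (x : Pt) : ev x g = ∑ m ∈ g.support, coeff m g * mon m x :=
  MvPolynomial.eval_eq' x g

theorem t_POS1 : S_POS1 := by
  intro w k hw f h g₂ r F M hF hM hf hg₂
  set Ch : ℝ := ∑ m ∈ h.support, |coeff m h| * mon m (fun _ => 2) with hCh
  set Cg : ℝ := ∑ m ∈ g₂.support, |coeff m g₂| with hCg
  have hCh0 : 0 ≤ Ch := Finset.sum_nonneg fun m _ =>
    mul_nonneg (abs_nonneg _) (pos1_mon_pos m _ (fun _ => by norm_num)).le
  have hCg0 : 0 ≤ Cg := Finset.sum_nonneg fun m _ => abs_nonneg _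
  set K : ℕ := g₂.support.sup (fun m => wt w m) with hK
  refine ⟨K, F / (2 * (Ch + Cg + 1)), by positivity, ?_⟩
  set ε : ℝ := F / (2 * (Ch + Cg + 1)) with hε
  have hε0 : 0 < ε := by positivity
  intro x hx2 hclose hr
  obtain ⟨hx, hc, _⟩ := hclose
  have hMx := pos1_mon_pos M x hx
  have hh : |ev x h| ≤ Ch := by
    rw [pos1_ev]
    refine (Finset.abs_sum_le_sum_abs _ _).trans (Finset.sum_le_sum fun m _ => ?_)
    rw [abs_mul, abs_of_pos (pos1_mon_pos m x hx)]
    exact mul_le_mul_of_nonneg_left (pos1_mon_le m x hx hx2) (abs_nonneg _)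
  have hg : |ev x g₂| ≤ Cg * (ε * mon M x) := by
    rw [pos1_ev, hCg, Finset.sum_mul]
    refine (Finset.abs_sum_le_sum_abs _ _).trans (Finset.sum_le_sum fun m hm => ?_)
    rw [abs_mul, abs_of_pos (pos1_mon_pos m x hx)]
    refine mul_le_mul_of_nonneg_left ?_ (abs_nonneg _)
    refine hc M m ?_ hM.le (by rw [hM]; exact hg₂ m hm)
    exact Finset.le_sup (f := fun m => wt w m) hm
  have hfx : ev x f = F * mon M x + ev x h * ev x r + ev x g₂ := by
    rw [hf]
    simp only [ev, map_add, map_mul, MvPolynomial.eval_monomial]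
    congr 2
    congr 1
    exact Finsupp.prod_fintype M _ (fun i => pow_zero _)
  have hhr : |ev x h * ev x r| ≤ Ch * (ε * mon M x) := by
    rw [abs_mul]
    exact mul_le_mul hh hr (abs_nonneg _) hCh0
  have hkey : (Ch + Cg) * ε < F := by
    rw [hε]
    rw [mul_div_assoc', div_lt_iff₀ (by positivity)]
    nlinarith
  have h1 := neg_abs_le (ev x h * ev x r)
  have h2 := neg_abs_le (ev x g₂)
  have h3 : (Ch + Cg) * ε * mon M x < F * mon M x := mul_lt_mul_of_pos_right hkey hMx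
  rw [hfx]
  nlinarith

end Pool.Agent.H734R2.SP
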