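import Pool.Agent.H734R2.SP.AuxC

set_option autoImplicit false

namespace Pool.Agent.H734R2.SP

open MvPolynomial Filter Topology AuxC

/-- coordinates of an arc are eventually small -/
private lemma POS2_small {P : ℝ → Pt} (hP : Arc P) {δ : ℝ} (hδ : 0 < δ) :
    ∀ᶠ t in 𝓝[>] (0 : ℝ), ∀ i, |P t i| < δ := by
  rw [eventually_all]
  intro i
  have h1 : Tendsto (fun t => P t i) (𝓝[>] (0 : ℝ)) (𝓝 0) := by
    have h2 := (hP.1 i).continuousAt.tendsto
    simp only [hP.2, Pi.zero_apply] at h2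
    exact h2.mono_left nhdsWithin_le_nhds
  have h3 := h1.eventually (Metric.ball_mem_nhds (0 : ℝ) hδ)
  filter_upwards [h3] with t ht
  rwa [Real.dist_eq, sub_zero] at ht

private lemma POS2_abs (m n : ℕ) (x y : ℝ) : |(m : ℝ) * x + n * y| ≤ (m : ℝ) * |x| + n * |y| := by
  refine (abs_add_le _ _).trans ?_
  rw [abs_mul, abs_mul, Nat.abs_cast, Nat.abs_cast]

private lemma POS2_pt {p q : ℝ} (hp : 0 < p) (hq : 0 < q) (κ : ℝ) :
    q ^ (1 - κ) * p ^ κ = p * Real.exp ((1 - κ) * Real.log (q / p)) := by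
  rw [Real.rpow_def_of_pos hq, Real.rpow_def_of_pos hp, ← Real.exp_add, Real.log_div hq.ne' hp.ne']
  conv_rhs => rw [← Real.exp_log hp, ← Real.exp_add, Real.exp_log hp]
  congr 1
  ring

/-- bound of a polynomial on a box -/
private lemma POS2_box (g : Poly) : ∃ H : ℝ, 0 ≤ H ∧ ∀ x : Pt, (∀ i, 0 < x i) → (∀ i, x i ≤ 2) →
    |ev x g| ≤ H := by
  refine ⟨∑ m ∈ g.support, |coeff m g| * mon m (fun _ => 2), ?_, fun x hx hx2 => ?_⟩
  · refine Finset.sum_nonneg fun m _ => mul_nonneg (abs_nonneg _) ?_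
    exact (mon_pos (fun _ => by norm_num) m).le
  · rw [ev_eq_sum]
    refine (Finset.abs_sum_le_sum_abs _ _).trans (Finset.sum_le_sum fun m _ => ?_)
    rw [abs_mul, abs_of_pos (mon_pos hx m)]
    refine mul_le_mul_of_nonneg_left ?_ (abs_nonneg _)
    unfold mon
    exact Finset.prod_le_prod (fun i _ => pow_nonneg (hx i).le _)
      (fun i _ => pow_le_pow_left₀ (hx i).le (hx2 i) _)

/-- negligibility of `g₂` -/
private lemma POS2_neg {f : Poly} {P : ℝ → Pt} {w : Fin 3 → ℕ} {k : ℕ} {F : ℝ} (hP : Arc P)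
    (hN : Norm f P w k F) {M : Ex} (hM : wt w M = k) {r h g₂ : Poly} (hr : Neg P k r)
    (hf : f = monomial M F + h * r + g₂) : Neg P k g₂ := by
  obtain ⟨H, hH0, hH⟩ : ∃ H : ℝ, 0 ≤ H ∧ ∀ᶠ t in 𝓝[>] (0 : ℝ), |ev (P t) h| ≤ H := by
    refine ⟨∑ m ∈ h.support, |coeff m h|, Finset.sum_nonneg fun m _ => abs_nonneg _, ?_⟩
    filter_upwards [POS2_small hP one_pos] with t ht
    rw [ev_eq_sum]
    refine (Finset.abs_sum_le_sum_abs _ _).trans (Finset.sum_le_sum fun m _ => ?_)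
    rw [abs_mul]
    refine mul_le_of_le_one_right (abs_nonneg _) ?_
    unfold mon
    rw [Finset.abs_prod]
    refine Finset.prod_le_one (fun i _ => abs_nonneg _) (fun i _ => ?_)
    rw [abs_pow]
    exact pow_le_one₀ (abs_nonneg _) (ht i).le
  have h1 : Tendsto (fun t => ev (P t) h * (ev (P t) r / t ^ k)) (𝓝[>] (0 : ℝ)) (𝓝 0) := by
    rw [tendsto_zero_iff_abs_tendsto_zero]
    have hr' : Tendsto (fun t => ev (P t) r / t ^ k) (𝓝[>] (0 : ℝ)) (𝓝 0) := hr
    have h2 : Tendsto (fun t => H * |ev (P t) r / t ^ k|) (𝓝[>] (0 : ℝ)) (𝓝 0) := by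
      have h3 := (hr'.abs).const_mul H
      rwa [abs_zero, mul_zero] at h3
    refine squeeze_zero' (Eventually.of_forall fun t => abs_nonneg _) ?_ h2
    filter_upwards [hH] with t ht
    simp only [Function.comp_apply]
    rw [abs_mul]
    exact mul_le_mul_of_nonneg_right ht (abs_nonneg _)
  have h2 : Tendsto (fun t => F * (mon M (P t) / t ^ k)) (𝓝[>] (0 : ℝ)) (𝓝 F) := by
    have h3 := (mon_tendsto hN.lim M).const_mul F
    rwa [mul_one, hM] at h3
  have h3 := (hN.flim.sub h2).sub h1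
  rw [sub_self, sub_zero] at h3
  refine h3.congr fun t => ?_
  have h4 : ev (P t) f = F * mon M (P t) + ev (P t) h * ev (P t) r + ev (P t) g₂ := by
    have h5 := ev_monomial M F (P t)
    unfold ev at *
    conv_lhs => rw [hf]
    rw [map_add, map_add, map_mul, h5]
  rw [h4]
  ring

set_option maxHeartbeats 2000000 in
theorem t_POS2 : S_POS2 := by
  intro hCLO hNEGQ hLINR hPTB hINTER f P Q h w k F hN M hM a b c hab hac hbc u v h₁ huv huk hh1
    hn1 huc hvc D huD hDk hnear hh g₂ hf hg2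
  obtain ⟨K1, C1, hC1, hL1⟩ := hLINR w k hN.w1 a b c hab hac hbc u v h₁ huv huk hh1
  obtain ⟨H, hH0, hH⟩ := POS2_box hh
  set lam : ℝ := |(u b : ℝ) - v b| with hlam
  have hlam0 : 0 ≤ lam := abs_nonneg _
  set mm : ℝ := (M b : ℝ) + M c with hmm
  have hmm0 : 0 ≤ mm := by positivity
  set B : ℝ := ∑ m ∈ g₂.support, |coeff m g₂| * ((m b : ℝ) + m c) with hB
  have hB0 : 0 ≤ B := Finset.sum_nonneg fun m _ => mul_nonneg (abs_nonneg _) (by positivity)
  set N2 : ℝ := ∑ m ∈ g₂.support, ((m b : ℝ) + m c) with hN2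
  have hN20 : 0 ≤ N2 := Finset.sum_nonneg fun m _ => by positivity
  have hN2m : ∀ m ∈ g₂.support, (m b : ℝ) + m c ≤ N2 := fun m hm =>
    Finset.single_le_sum (f := fun m : Ex => (m b : ℝ) + m c) (fun m _ => by positivity) hm
  -- the constants
  obtain ⟨ε4, hε4, hε4a, hε4b, hε4c, hε4d⟩ : ∃ ε4 : ℝ, 0 < ε4 ∧ ε4 ≤ 1 / 2 ∧ mm * ε4 ≤ 1 / 2 ∧
      C1 * ε4 ≤ 1 / 2 ∧ N2 * ε4 ≤ 1 := by
    set X : ℝ := 2 * (mm + C1 + N2 + 1) with hX
    have hX1 : 0 < X := by positivity
    refine ⟨1 / X, by positivity, ?_, ?_, ?_, ?_⟩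
    · rw [div_le_div_iff₀ hX1 (by norm_num)]; linarith
    · rw [mul_one_div, div_le_div_iff₀ hX1 (by norm_num)]; linarith
    · rw [mul_one_div, div_le_div_iff₀ hX1 (by norm_num)]; linarith
    · rw [mul_one_div, div_le_one hX1]; linarith
  set E' : ℝ := 2 * lam + 26 with hE'
  set T : ℝ := H + 16 * B * E' + 4 with hT
  have hT0 : 0 < T := by positivity
  obtain ⟨e, he, hea, heb⟩ : ∃ e : ℝ, 0 < e ∧ e ≤ ε4 / 2 ∧ e * T ≤ F / 2 := by
    have hF := hN.F0
    refine ⟨min (ε4 / 2) (F / (2 * T)), by positivity, min_le_left _ _, ?_⟩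
    have h1 : min (ε4 / 2) (F / (2 * T)) ≤ F / (2 * T) := min_le_right _ _
    rw [le_div_iff₀ (by positivity)] at h1
    linarith
  have hE0 : 0 ≤ E' := by rw [hE']; positivity
  clear_value lam mm N2 E' T B
  -- the eventual statements
  obtain ⟨hCP, hCQ⟩ := hCLO f P Q h w k F hN K1 ε4 hε4
  obtain ⟨h1P, -⟩ := hNEGQ f P Q h w k F hN M hM (rel u v h₁) hn1 e he
  have hg2neg : ∀ᶠ t in 𝓝[>] (0 : ℝ), |ev (P t) g₂| ≤ e * t ^ k := by
    have h2 : Tendsto (fun t => ev (P t) g₂ / t ^ k) (𝓝[>] (0 : ℝ)) (𝓝 0) :=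
      POS2_neg h.hP hN hM hn1 hf
    have h3 : ∀ᶠ t in 𝓝[>] (0 : ℝ), |ev (P t) g₂ / t ^ k| < e := by
      have h4 := h2.abs
      rw [abs_zero] at h4
      exact h4.eventually_lt_const he
    filter_upwards [h3, self_mem_nhdsWithin] with t ht ht0
    have h5 : 0 < t ^ k := pow_pos ht0 k
    rw [abs_div, abs_of_pos h5, div_lt_iff₀ h5] at ht
    exact ht.le
  have hall : ∀ᶠ t in 𝓝[>] (0 : ℝ), ∀ m ∈ g₂.support,
      t ^ wt w m / 2 ≤ mon m (P t) ∧ mon m (P t) ≤ 2 * t ^ wt w m := by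
    rw [Finset.eventually_all]
    exact fun m _ => mon_bounds hN.lim m
  obtain ⟨e1, he1, he1'⟩ := eventually_Ioo ((hCP.and (h1P.and hg2neg)).and
    ((hall.and (POS2_small h.hP one_pos)).and ((mon_bounds hN.lim M).and (mon_bounds hN.lim v))))
  obtain ⟨e2, he2, he2'⟩ := eventually_Ioo hCQ
  obtain ⟨e3, he3, he3'⟩ := hnear e he
  refine ⟨ε4 / 4, by positivity, e, he, min (min 1 e3) (min e1 e2), by positivity,
    fun s hs t ht hst κ hκ η hη hx => ?_⟩
  have hs0 : 0 < s := hs.1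
  have hs1 : s ≤ 1 := (hs.2.trans_le ((min_le_left _ _).trans (min_le_left _ _))).le
  have hse3 : s < e3 := hs.2.trans_le ((min_le_left _ _).trans (min_le_right _ _))
  have hte3 : t < e3 := ht.2.trans_le ((min_le_left _ _).trans (min_le_right _ _))
  obtain ⟨⟨hp, hp1, hpg⟩, ⟨hpm, hpsm⟩, hbM, hbv⟩ :=
    he1' s ⟨hs.1, hs.2.trans_le ((min_le_right _ _).trans (min_le_left _ _))⟩
  have hq := he2' t ⟨ht.1, ht.2.trans_le ((min_le_right _ _).trans (min_le_right _ _))⟩
  obtain ⟨hnb, hnc⟩ := he3' s ⟨hs.1, hse3⟩ t ⟨ht.1, hte3⟩ hst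
  rw [hM] at hbM
  set p := P s with hpdef
  set q := Q t with hqdef
  set x := pt c p q κ η with hxdef
  set d₁ := (1 - κ) * Real.log (q b / p b) with hd1
  set d₂ := (1 - κ) * Real.log (q c / p c) + Real.log (1 + η) with hd2
  have hη1 : |η| ≤ 1 / 2 := hη.trans (by linarith)
  have hη2 := abs_le.1 hη1
  have hη0 : 0 < 1 + η := by linarith [hη2.1]
  -- coordinates of `x`
  have hxa : x a = p a := by
    have h5 := POS2_pt (hp.1 a) (hq.1 a) κ
    have h6 : q a = p a := hst.symm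
    rw [h6, div_self (hp.1 a).ne', Real.log_one, mul_zero, Real.exp_zero, mul_one] at h5
    simp only [hxdef, pt, if_neg hac, mul_one, h6]
    exact h5
  have hxb : x b = p b * Real.exp d₁ := by
    simp only [hxdef, pt, if_neg hbc, mul_one]
    exact POS2_pt (hp.1 b) (hq.1 b) κ
  have hxc : x c = p c * Real.exp d₂ := by
    simp only [hxdef, pt, if_true]
    rw [POS2_pt (hp.1 c) (hq.1 c) κ, hd2, Real.exp_add, Real.exp_log hη0]
    ring
  -- size of `d₁`, `d₂`
  set S := s ^ (k - D) with hS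
  have hS0 : 0 < S := pow_pos hs0 _
  have hS1 : S ≤ 1 := pow_le_one₀ hs0.le hs1
  have hκ1 : |1 - κ| ≤ 1 := by
    rw [abs_le]; constructor <;> linarith [hκ.1, hκ.2]
  have hd1a : |d₁| ≤ e * S := by
    rw [hd1, abs_mul]
    exact (mul_le_of_le_one_left (abs_nonneg _) hκ1).trans hnb
  have heS : e * S ≤ ε4 / 2 := (mul_le_of_le_one_right he.le hS1).trans hea
  have hd2a : |d₂| ≤ ε4 := by
    rw [hd2]
    refine (abs_add_le _ _).trans ?_
    have h5 : |(1 - κ) * Real.log (q c / p c)| ≤ e * S := by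
      rw [abs_mul]
      exact (mul_le_of_le_one_left (abs_nonneg _) hκ1).trans hnc
    have h6 : |Real.log (1 + η)| ≤ 2 * |η| := by
      apply abs_log_le hη1
      rw [add_sub_cancel_left]
    linarith
  have hd1b : |d₁| ≤ ε4 := by linarith
  have hx0 : ∀ i, 0 < x i := by
    intro i
    simp only [hxdef, pt]
    have h5 := Real.rpow_pos_of_pos (hq.1 i) (1 - κ)
    have h6 := Real.rpow_pos_of_pos (hp.1 i) κ
    split_ifs
    · positivity
    · positivity
  have hexp1 : Real.exp d₁ ≤ 2 := exp_le_two (hd1b.trans hε4a)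
  have hexp2 : Real.exp d₂ ≤ 2 := exp_le_two (hd2a.trans hε4a)
  have hx2 : ∀ i, x i ≤ 2 := by
    have hpi : ∀ i, p i ≤ 1 := fun i => (le_abs_self _).trans (hpsm i).le
    intro i
    have h5 : i ∈ ({a, b, c} : Finset (Fin 3)) := by
      rw [← univ_three a b c hab hac hbc]; exact Finset.mem_univ _
    simp only [Finset.mem_insert, Finset.mem_singleton] at h5
    rcases h5 with rfl | rfl | rfl
    · rw [hxa]; linarith [hpi i]
    · rw [hxb]
      have := mul_le_mul (hpi i) hexp1 (Real.exp_pos d₁).le zero_le_one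
      linarith
    · rw [hxc]
      have := mul_le_mul (hpi i) hexp2 (Real.exp_pos d₂).le zero_le_one
      linarith
  clear_value d₁ d₂ x
  -- `mon M x`
  have hMz : |(M b : ℝ) * d₁ + M c * d₂| ≤ 1 / 2 := by
    refine (POS2_abs _ _ _ _).trans ?_
    calc (M b : ℝ) * |d₁| + M c * |d₂| ≤ (M b : ℝ) * ε4 + M c * ε4 := by gcongr
      _ = mm * ε4 := by rw [hmm]; ring
      _ ≤ 1 / 2 := hε4b
  have hMx := mon_exp hab hac hbc hxa hxb hxc M
  have hMp0 := mon_pos hp.1 M
  have hMx0 := mon_pos hx0 M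
  have hMx1 : mon M x ≤ 2 * mon M p := by
    rw [hMx, mul_comm]
    exact mul_le_mul_of_nonneg_right (exp_le_two hMz) hMp0.le
  have hMx2 : mon M p ≤ 2 * mon M x := by
    rw [hMx]
    have h5 := mul_le_mul_of_nonneg_left (half_le_exp hMz) hMp0.le
    linarith
  -- the relation
  have hB1 := hL1 ε4 hε4 (by linarith) p hp d₁ d₂ hd1b hd2a x hxa hxb hxc
  have hvp := mon_pos hp.1 v
  rw [hvc, Nat.cast_zero, sub_zero] at hB1
  set L := ((u b : ℝ) - v b) * d₁ + (u c : ℝ) * d₂ with hL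
  have hskD : s ^ D * S = s ^ k := by
    rw [hS, ← pow_add]
    congr 1
    omega
  have hsk : s ^ k ≤ 2 * mon v p * S := by
    have h5 : s ^ D ≤ s ^ wt w v := pow_le_pow_of_le_one hs0.le hs1 (by omega)
    have h6 : s ^ wt w v ≤ 2 * mon v p := by linarith [hbv.1]
    rw [← hskD]
    exact mul_le_mul_of_nonneg_right (h5.trans h6) hS0.le
  clear_value L S
  have hLb : |L| ≤ C1 * ε4 * (|d₁| + |d₂|) + 12 * e * S := by
    have h5 : mon v p * |L| ≤ C1 * ε4 * mon v p * (|d₁| + |d₂|) +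
        (e * mon M x + e * mon M p) := by
      have h6 : mon v p * |L| = |mon v p * L| := by rw [abs_mul, abs_of_pos hvp]
      rw [h6]
      have h7 : mon v p * L = (ev x (rel u v h₁) - ev p (rel u v h₁)) -
        (ev x (rel u v h₁) - ev p (rel u v h₁) - mon v p * L) := by ring
      rw [h7]
      refine (abs_sub _ _).trans ?_
      have h8 := abs_sub (ev x (rel u v h₁)) (ev p (rel u v h₁))
      linarith
    have h6 : e * mon M x + e * mon M p ≤ 12 * e * S * mon v p := by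
      have h7 : mon M x + mon M p ≤ 6 * s ^ k := by linarith [hbM.2]
      calc e * mon M x + e * mon M p = e * (mon M x + mon M p) := by ring
        _ ≤ e * (6 * (2 * mon v p * S)) := by
          apply mul_le_mul_of_nonneg_left _ he.le
          linarith
        _ = 12 * e * S * mon v p := by ring
    have h12 : mon v p * |L| ≤ mon v p * (C1 * ε4 * (|d₁| + |d₂|) + 12 * e * S) := by
      linarith
    exact le_of_mul_le_mul_left h12 hvp
  have huc1 : (1 : ℝ) ≤ u c := by exact_mod_cast huc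
  have hsum : |d₁| + |d₂| ≤ E' * (e * S) := by
    have h5 : |(u c : ℝ) * d₂| ≤ |L| + lam * |d₁| := by
      have h6 : (u c : ℝ) * d₂ = L - ((u b : ℝ) - v b) * d₁ := by rw [hL]; ring
      rw [h6]
      refine (abs_sub _ _).trans ?_
      rw [abs_mul ((u b : ℝ) - v b) d₁, ← hlam]
    have h6 : |d₂| ≤ |(u c : ℝ) * d₂| := by
      rw [abs_mul, Nat.abs_cast]
      exact le_mul_of_one_le_left (abs_nonneg _) huc1
    have h7 : C1 * ε4 * (|d₁| + |d₂|) ≤ 1 / 2 * (|d₁| + |d₂|) :=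
      mul_le_mul_of_nonneg_right hε4c (by positivity)
    have h8 : lam * |d₁| ≤ lam * (e * S) := mul_le_mul_of_nonneg_left hd1a hlam0
    rw [hE']
    linarith
  -- the value of `g₂`
  have hg2x : |ev x g₂ - ev p g₂| ≤ 4 * B * (E' * e * s ^ k) := by
    rw [ev_eq_sum, ev_eq_sum, ← Finset.sum_sub_distrib]
    refine (Finset.abs_sum_le_sum_abs _ _).trans ?_
    have h5 : ∀ m ∈ g₂.support, |coeff m g₂ * mon m x - coeff m g₂ * mon m p| ≤
        |coeff m g₂| * ((m b : ℝ) + m c) * (4 * (E' * e * s ^ k)) := by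
      intro m hm
      rw [← mul_sub, abs_mul, mul_assoc]
      refine mul_le_mul_of_nonneg_left ?_ (abs_nonneg _)
      rw [mon_exp hab hac hbc hxa hxb hxc m]
      have h6 : mon m p * Real.exp (m b * d₁ + m c * d₂) - mon m p =
        mon m p * (Real.exp (m b * d₁ + m c * d₂) - 1) := by ring
      rw [h6, abs_mul, abs_of_pos (mon_pos hp.1 m)]
      have h7 : |(m b : ℝ) * d₁ + m c * d₂| ≤ ((m b : ℝ) + m c) * (|d₁| + |d₂|) := by
        refine (POS2_abs _ _ _ _).trans ?_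
        have i1 := mul_nonneg (Nat.cast_nonneg (α := ℝ) (m b)) (abs_nonneg d₂)
        have i2 := mul_nonneg (Nat.cast_nonneg (α := ℝ) (m c)) (abs_nonneg d₁)
        linarith
      have h8 : |(m b : ℝ) * d₁ + m c * d₂| ≤ 1 := by
        refine (POS2_abs _ _ _ _).trans ?_
        calc (m b : ℝ) * |d₁| + m c * |d₂| ≤ (m b : ℝ) * ε4 + m c * ε4 := by gcongr
          _ = ((m b : ℝ) + m c) * ε4 := by ring
          _ ≤ N2 * ε4 := mul_le_mul_of_nonneg_right (hN2m m hm) hε4.le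
          _ ≤ 1 := hε4d
      have h9 := abs_exp_sub_one h8
      have h10 : mon m p ≤ 2 * s ^ D := by
        refine (hpm m hm).2.trans ?_
        have := pow_le_pow_of_le_one hs0.le hs1 (hg2 m hm)
        linarith
      have h11 : |(m b : ℝ) * d₁ + m c * d₂| ≤ ((m b : ℝ) + m c) * (E' * (e * S)) :=
        h7.trans (mul_le_mul_of_nonneg_left hsum (by positivity))
      calc mon m p * |Real.exp (m b * d₁ + m c * d₂) - 1|
          ≤ (2 * s ^ D) * (2 * (((m b : ℝ) + m c) * (E' * (e * S)))) := by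
            apply mul_le_mul h10 (h9.trans (by linarith)) (abs_nonneg _) (by positivity)
        _ = ((m b : ℝ) + m c) * (4 * (E' * e * (s ^ D * S))) := by ring
        _ = ((m b : ℝ) + m c) * (4 * (E' * e * s ^ k)) := by rw [hskD]
    refine (Finset.sum_le_sum h5).trans ?_
    rw [← Finset.sum_mul, ← hB]
    linarith
  -- conclusion
  have hfx : ev x f = F * mon M x + ev x hh * ev x (rel u v h₁) + ev x g₂ := by
    have h5 := ev_monomial M F x
    unfold ev at *
    conv_lhs => rw [hf]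
    rw [map_add, map_add, map_mul, h5]
  have hh1' : |ev x hh * ev x (rel u v h₁)| ≤ H * (e * mon M x) := by
    rw [abs_mul]
    exact mul_le_mul (hH x hx0 hx2) hx (abs_nonneg _) hH0
  have hsk4 : s ^ k ≤ 4 * mon M x := by linarith [hbM.1]
  have hg2b : |ev x g₂| ≤ (4 * B * E' + 1) * e * (4 * mon M x) := by
    have h5 : |ev x g₂| ≤ |ev x g₂ - ev p g₂| + |ev p g₂| := by
      have := abs_add_le (ev x g₂ - ev p g₂) (ev p g₂)
      rwa [sub_add_cancel] at this
    calc |ev x g₂| ≤ 4 * B * (E' * e * s ^ k) + e * s ^ k := by linarith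
      _ = (4 * B * E' + 1) * e * s ^ k := by ring
      _ ≤ (4 * B * E' + 1) * e * (4 * mon M x) :=
        mul_le_mul_of_nonneg_left hsk4 (by positivity)
  have h6 := neg_abs_le (ev x hh * ev x (rel u v h₁))
  have h7 := neg_abs_le (ev x g₂)
  have h8 : H * (e * mon M x) + (4 * B * E' + 1) * e * (4 * mon M x) = e * T * mon M x := by
    rw [hT]; ring
  have h9 : e * T * mon M x ≤ F / 2 * mon M x := mul_le_mul_of_nonneg_right heb hMx0.le
  have h10 : 0 < F * mon M x := mul_pos hN.F0 hMx0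
  rw [hfx]
  linarith

end Pool.Agent.H734R2.SP
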