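import Pool.Agent.H734R2.SP.Stubs

set_option autoImplicit false

/-!
Task POW: along an analytic arc one coordinate of which has order at most 2, one of the
coordinates is, up to `O(t^N)`, a polynomial in the other two.
-/

namespace Pool.Agent.H734R2.SP

open MvPolynomial Filter Topology

namespace POW

/-- order at least `k` -/
def GeO (u : ℝ → ℝ) (k : ℕ) : Prop :=
  ∃ g : ℝ → ℝ, AnalyticAt ℝ g 0 ∧ ∀ᶠ t in 𝓝 (0 : ℝ), u t = t ^ k * g t

/-- order exactly `k` -/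
def ExO (u : ℝ → ℝ) (k : ℕ) : Prop :=
  ∃ g : ℝ → ℝ, AnalyticAt ℝ g 0 ∧ g 0 ≠ 0 ∧ ∀ᶠ t in 𝓝 (0 : ℝ), u t = t ^ k * g t

theorem ExO.ge {u : ℝ → ℝ} {k : ℕ} (h : ExO u k) : GeO u k := by
  obtain ⟨g, hg, _, h⟩ := h
  exact ⟨g, hg, h⟩

theorem geo_iff {u : ℝ → ℝ} (hu : AnalyticAt ℝ u 0) (k : ℕ) :
    GeO u k ↔ (k : ℕ∞) ≤ analyticOrderAt u 0 := by
  rw [natCast_le_analyticOrderAt hu]
  simp [GeO]

theorem fac {g : ℝ → ℝ} (hg : AnalyticAt ℝ g 0) (h0 : g 0 = 0) :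
    ∃ h : ℝ → ℝ, AnalyticAt ℝ h 0 ∧ ∀ᶠ t in 𝓝 (0 : ℝ), g t = t * h t := by
  have h1 : ((1 : ℕ) : ℕ∞) ≤ analyticOrderAt g 0 := by
    rw [natCast_le_analyticOrderAt_iff_iteratedDeriv_eq_zero hg]
    intro i hi
    interval_cases i
    simpa using h0
  obtain ⟨h, hh, he⟩ := (geo_iff hg 1).2 h1
  exact ⟨h, hh, by simpa using he⟩

theorem GeO.mono {u : ℝ → ℝ} {k l : ℕ} (h : GeO u k) (hl : l ≤ k) : GeO u l := by
  obtain ⟨g, hg, h⟩ := h
  refine ⟨fun t => t ^ (k - l) * g t, by fun_prop, ?_⟩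
  filter_upwards [h] with t ht
  rw [ht, ← mul_assoc, ← pow_add]
  congr 2
  omega

theorem GeO.exact_or {u : ℝ → ℝ} {k : ℕ} (h : GeO u k) : ExO u k ∨ GeO u (k + 1) := by
  obtain ⟨g, hg, h⟩ := h
  by_cases h0 : g 0 = 0
  · obtain ⟨w, hw, he⟩ := fac hg h0
    refine Or.inr ⟨w, hw, ?_⟩
    filter_upwards [h, he] with t ht ht'
    rw [ht, ht']
    ring
  · exact Or.inl ⟨g, hg, h0, h⟩

theorem step {u v : ℝ → ℝ} {k : ℕ} (hu : GeO u k) (hv : ExO v k) :
    ∃ c : ℝ, GeO (fun t => u t - c * v t) (k + 1) := by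
  obtain ⟨g, hg, hgu⟩ := hu
  obtain ⟨h, hh, h0, hhv⟩ := hv
  obtain ⟨w, hw, he⟩ := fac (g := fun t => g t - g 0 / h 0 * h t) (by fun_prop)
    (by field_simp; ring)
  refine ⟨g 0 / h 0, w, hw, ?_⟩
  filter_upwards [hgu, hhv, he] with t h1 h2 h3
  rw [h1, h2]
  linear_combination t ^ k * h3

theorem ExO.mul {u v : ℝ → ℝ} {k l : ℕ} (hu : ExO u k) (hv : ExO v l) :
    ExO (fun t => u t * v t) (k + l) := by
  obtain ⟨g, hg, g0, hgu⟩ := hu
  obtain ⟨h, hh, h0, hhv⟩ := hv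
  refine ⟨fun t => g t * h t, by fun_prop, mul_ne_zero g0 h0, ?_⟩
  filter_upwards [hgu, hhv] with t h1 h2
  rw [h1, h2]
  ring

theorem ExO.pow {u : ℝ → ℝ} {k : ℕ} (hu : ExO u k) (n : ℕ) :
    ExO (fun t => u t ^ n) (k * n) := by
  obtain ⟨g, hg, g0, hgu⟩ := hu
  refine ⟨fun t => g t ^ n, by fun_prop, pow_ne_zero n g0, ?_⟩
  filter_upwards [hgu] with t h1
  rw [h1, mul_pow, pow_mul]

theorem approx (S : Set (ℝ → ℝ)) (h0 : (fun _ => (0 : ℝ)) ∈ S)
    (hadd : ∀ a ∈ S, ∀ b ∈ S, ∀ c : ℝ, (fun t => a t + c * b t) ∈ S) (N k0 : ℕ)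
    (hS : ∀ k, k0 ≤ k → k < N → ∃ s ∈ S, ExO s k) :
    ∀ d k : ℕ, k0 ≤ k → N ≤ k + d → ∀ u : ℝ → ℝ, GeO u k →
      ∃ s ∈ S, GeO (fun t => u t - s t) N := by
  intro d
  induction d with
  | zero =>
    intro k _ hN u hu
    refine ⟨_, h0, ?_⟩
    simpa using hu.mono hN
  | succ d ih =>
    intro k hk hN u hu
    by_cases hkN : N ≤ k
    · refine ⟨_, h0, ?_⟩
      simpa using hu.mono hkN
    · obtain ⟨s1, hs1, he⟩ := hS k hk (by omega)
      obtain ⟨c, hc⟩ := step hu he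
      obtain ⟨s2, hs2, h2⟩ := ih (k + 1) (by omega) (by omega) _ hc
      refine ⟨_, hadd s2 hs2 s1 hs1 c, ?_⟩
      have : (fun t => u t - (s2 t + c * s1 t)) = fun t => u t - c * s1 t - s2 t := by
        funext t
        ring
      rw [this]
      exact h2

/-- values of polynomials in two germs without constant term -/
def S2 (x y : ℝ → ℝ) : Set (ℝ → ℝ) :=
  {s | ∃ Φ : MvPolynomial (Fin 2) ℝ, MvPolynomial.eval (0 : Fin 2 → ℝ) Φ = 0 ∧
    s = fun t => MvPolynomial.eval ![x t, y t] Φ}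

theorem S2_zero (x y : ℝ → ℝ) : (fun _ => (0 : ℝ)) ∈ S2 x y := ⟨0, by simp, by simp⟩

theorem S2_add (x y : ℝ → ℝ) : ∀ a ∈ S2 x y, ∀ b ∈ S2 x y, ∀ c : ℝ,
    (fun t => a t + c * b t) ∈ S2 x y := by
  rintro a ⟨Φ, h, rfl⟩ b ⟨Ψ, h', rfl⟩ c
  exact ⟨Φ + C c * Ψ, by rw [map_add, map_mul, h, h']; simp, by funext t; simp⟩

theorem S2_mul (x y : ℝ → ℝ) : ∀ a ∈ S2 x y, ∀ b ∈ S2 x y, (fun t => a t * b t) ∈ S2 x y := by
  rintro a ⟨Φ, h, rfl⟩ b ⟨Ψ, h', rfl⟩
  exact ⟨Φ * Ψ, by rw [map_mul, h, h']; simp, by funext t; simp⟩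

theorem S2_x (x y : ℝ → ℝ) : x ∈ S2 x y := ⟨X 0, by simp, by funext t; simp⟩

theorem S2_y (x y : ℝ → ℝ) : y ∈ S2 x y := ⟨X 1, by simp, by funext t; simp⟩

theorem S2_pow (x y : ℝ → ℝ) {k : ℕ} (hk : 1 ≤ k) : (fun t => x t ^ k) ∈ S2 x y := by
  refine ⟨X 0 ^ k, ?_, by funext t; simp⟩
  simp only [map_pow, eval_X, Pi.zero_apply]
  exact zero_pow (by omega)

/-- a product of a power of `x` and a member -/
theorem S2_pow_mul (x y : ℝ → ℝ) (k : ℕ) {b : ℝ → ℝ} (hb : b ∈ S2 x y) :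
    (fun t => x t ^ k * b t) ∈ S2 x y := by
  obtain ⟨Ψ, h', rfl⟩ := hb
  exact ⟨X 0 ^ k * Ψ, by rw [map_mul, h', mul_zero], by funext t; simp⟩

/-- values of polynomials in one germ -/
def S1 (x : ℝ → ℝ) : Set (ℝ → ℝ) :=
  {s | ∃ φ : Polynomial ℝ, φ.eval 0 = 0 ∧ s = fun t => φ.eval (x t)}

theorem S1_zero (x : ℝ → ℝ) : (fun _ => (0 : ℝ)) ∈ S1 x := ⟨0, by simp, by simp⟩

theorem S1_add (x : ℝ → ℝ) : ∀ a ∈ S1 x, ∀ b ∈ S1 x, ∀ c : ℝ,
    (fun t => a t + c * b t) ∈ S1 x := by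
  rintro a ⟨Φ, h, rfl⟩ b ⟨Ψ, h', rfl⟩ c
  exact ⟨Φ + Polynomial.C c * Ψ, by simp [h, h'], by funext t; simp⟩

theorem S1_pow (x : ℝ → ℝ) {k : ℕ} (hk : 1 ≤ k) : (fun t => x t ^ k) ∈ S1 x := by
  refine ⟨Polynomial.X ^ k, ?_, by funext t; simp⟩
  simp only [Polynomial.eval_pow, Polynomial.eval_X]
  exact zero_pow (by omega)

theorem S1_S2 (x y : ℝ → ℝ) : ∀ a ∈ S1 x, a ∈ S2 x y := by
  rintro a ⟨φ, h, rfl⟩
  refine ⟨Polynomial.aeval (X 0 : MvPolynomial (Fin 2) ℝ) φ, ?_, ?_⟩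
  · have := Polynomial.hom_eval₂ φ (algebraMap ℝ (MvPolynomial (Fin 2) ℝ))
      (MvPolynomial.eval (0 : Fin 2 → ℝ)) (X 0)
    rw [Polynomial.aeval_def, this]
    have e : (MvPolynomial.eval (0 : Fin 2 → ℝ)).comp (algebraMap ℝ (MvPolynomial (Fin 2) ℝ))
        = RingHom.id ℝ := by
      ext r
      simp [MvPolynomial.algebraMap_eq]
    rw [e, Polynomial.eval₂_id]
    simpa only [eval_X, Pi.zero_apply] using h
  · funext t
    have := Polynomial.hom_eval₂ φ (algebraMap ℝ (MvPolynomial (Fin 2) ℝ))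
      (MvPolynomial.eval ![x t, y t]) (X 0)
    rw [Polynomial.aeval_def, this]
    have e : (MvPolynomial.eval ![x t, y t]).comp (algebraMap ℝ (MvPolynomial (Fin 2) ℝ))
        = RingHom.id ℝ := by
      ext r
      simp [MvPolynomial.algebraMap_eq]
    rw [e, Polynomial.eval₂_id]
    simp

/-- reduction by even powers -/
theorem odd_red {x : ℝ → ℝ} (hx : ExO x 2) (N : ℕ) :
    ∀ d k : ℕ, 1 ≤ k → N ≤ k + d → ∀ y : ℝ → ℝ, GeO y k →
      (∃ s ∈ S1 x, GeO (fun t => y t - s t) N) ∨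
      ∃ s ∈ S1 x, ∃ l, Odd l ∧ ExO (fun t => y t - s t) l := by
  intro d
  induction d with
  | zero =>
    intro k _ hN u hu
    refine Or.inl ⟨_, S1_zero x, ?_⟩
    simpa using hu.mono hN
  | succ d ih =>
    intro k hk hN u hu
    rcases hu.exact_or with h | h
    · rcases Nat.even_or_odd k with hev | hodd
      · obtain ⟨j, rfl⟩ := hev
        have hj : ExO (fun t => x t ^ j) (j + j) := by
          have := hx.pow j
          rwa [two_mul] at this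
        obtain ⟨c, hc⟩ := step hu hj
        rcases ih (j + j + 1) (by omega) (by omega) _ hc with ⟨s, hs, h2⟩ | ⟨s, hs, l, hl, h2⟩
        · refine Or.inl ⟨_, S1_add x s hs _ (S1_pow x (k := j) (by omega)) c, ?_⟩
          have : (fun t => u t - (s t + c * x t ^ j)) = fun t => u t - c * x t ^ j - s t := by
            funext t
            ring
          rw [this]
          exact h2
        · refine Or.inr ⟨_, S1_add x s hs _ (S1_pow x (k := j) (by omega)) c, l, hl, ?_⟩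
          have : (fun t => u t - (s t + c * x t ^ j)) = fun t => u t - c * x t ^ j - s t := by
            funext t
            ring
          rw [this]
          exact h2
      · refine Or.inr ⟨_, S1_zero x, k, hodd, ?_⟩
        simpa using h
    · exact ih (k + 1) (by omega) (by omega) u h

/-- the case of order 2, two other germs -/
theorem main2 {x y z : ℝ → ℝ} (hx : ExO x 2) (hy : GeO y 1) (hz : GeO z 1) (N : ℕ) :
    (∃ s ∈ S2 x y, GeO (fun t => z t - s t) N) ∨ (∃ s ∈ S2 x z, GeO (fun t => y t - s t) N) := by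
  rcases odd_red hx N N 1 le_rfl (by omega) y hy with ⟨s, hs, h⟩ | ⟨s, hs, l, hl, h⟩
  · exact Or.inr ⟨s, S1_S2 x z s hs, h⟩
  rcases odd_red hx N N 1 le_rfl (by omega) z hz with ⟨s', hs', h'⟩ | ⟨s', hs', l', hl', h'⟩
  · exact Or.inl ⟨s', S1_S2 x y s' hs', h'⟩
  -- the symmetric core
  have core : ∀ (y z s s' : ℝ → ℝ) (l l' : ℕ), s ∈ S1 x → s' ∈ S1 x → Odd l →
      ExO (fun t => y t - s t) l → ExO (fun t => z t - s' t) l' → l ≤ l' →
      ∃ r ∈ S2 x y, GeO (fun t => z t - r t) N := by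
    intro y z s s' l l' hs hs' hl h h' hll
    have hl1 : 1 ≤ l := hl.pos
    have hmem : (fun t => y t - s t) ∈ S2 x y := by
      have := S2_add x y y (S2_y x y) s (S1_S2 x y s hs) (-1)
      have e : (fun t => y t + -1 * s t) = fun t => y t - s t := by
        funext t
        ring
      rwa [e] at this
    have key : ∀ k, l ≤ k → k < N → ∃ s ∈ S2 x y, ExO s k := by
      intro k hk _
      rcases Nat.even_or_odd k with hev | hodd
      · obtain ⟨j, rfl⟩ := hev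
        refine ⟨_, S2_pow x y (k := j) (by omega), ?_⟩
        have := hx.pow j
        rwa [two_mul] at this
      · obtain ⟨j, hj⟩ : Even (k - l) := Nat.Odd.sub_odd hodd hl
        refine ⟨_, S2_pow_mul x y j hmem, ?_⟩
        have := (hx.pow j).mul h
        have e : 2 * j + l = k := by omega
        rwa [e] at this
    obtain ⟨r, hr, hr'⟩ := approx (S2 x y) (S2_zero x y) (S2_add x y) N l key N l le_rfl
      (by omega) (fun t => z t - s' t) (h'.ge.mono hll)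
    refine ⟨_, S2_add x y r hr s' (S1_S2 x y s' hs') 1, ?_⟩
    have : (fun t => z t - (r t + 1 * s' t)) = fun t => z t - s' t - r t := by
      funext t
      ring
    rw [this]
    exact hr'
  rcases le_total l l' with hll | hll
  · exact Or.inl (core y z s s' l l' hs hs' hl h h' hll)
  · exact Or.inr (core z y s' s l' l hs' hs hl' h' h hll)

/-- the case of order 1 -/
theorem main1 {x y z : ℝ → ℝ} (hx : ExO x 1) (hz : GeO z 1) (N : ℕ) :
    ∃ s ∈ S2 x y, GeO (fun t => z t - s t) N := by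
  refine approx (S2 x y) (S2_zero x y) (S2_add x y) N 1 ?_ N 1 le_rfl (by omega) z hz
  intro k hk _
  refine ⟨_, S2_pow x y (k := k) hk, ?_⟩
  have := hx.pow k
  rwa [one_mul] at this

theorem low {x : ℝ → ℝ} (hx : AnalyticAt ℝ x 0) (h0 : x 0 = 0)
    (h : deriv x 0 ≠ 0 ∨ iteratedDeriv 2 x 0 ≠ 0) : ExO x 1 ∨ ExO x 2 := by
  have h1 : GeO x 1 := by
    obtain ⟨g, hg, he⟩ := fac hx h0
    exact ⟨g, hg, by simpa using he⟩
  rcases h1.exact_or with h1 | h1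
  · exact Or.inl h1
  rcases h1.exact_or with h2 | h2
  · exact Or.inr h2
  exfalso
  rw [geo_iff hx, natCast_le_analyticOrderAt_iff_iteratedDeriv_eq_zero hx] at h2
  rcases h with h | h
  · exact h (by simpa using h2 1 (by norm_num))
  · exact h (h2 2 (by norm_num))

theorem bound {u : ℝ → ℝ} {N : ℕ} (h : GeO u N) :
    ∃ C : ℝ, ∀ᶠ t in 𝓝[>] (0 : ℝ), |u t| ≤ C * t ^ N := by
  obtain ⟨g, hg, he⟩ := h
  refine ⟨|g 0| + 1, ?_⟩
  have hc : ∀ᶠ t in 𝓝 (0 : ℝ), |g t| < |g 0| + 1 :=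
    (continuous_abs.continuousAt.comp hg.continuousAt).eventually_lt_const (by simp)
  filter_upwards [nhdsWithin_le_nhds he, nhdsWithin_le_nhds hc, self_mem_nhdsWithin]
    with t h1 h2 h3
  have h3' : (0 : ℝ) < t := h3
  rw [h1, abs_mul, abs_of_pos (pow_pos h3' N), mul_comm]
  exact mul_le_mul_of_nonneg_right h2.le (pow_pos h3' N).le

end POW

open POW in
theorem t_POW : S_POW := by
  intro P hP ⟨i, hi⟩ N
  have hP0 : ∀ j, P 0 j = 0 := fun j => by rw [hP.2]; rfl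
  have h1 : ∀ j, GeO (fun t => P t j) 1 := by
    intro j
    obtain ⟨g, hg, he⟩ := fac (hP.1 j) (hP0 j)
    exact ⟨g, hg, by simpa using he⟩
  -- it suffices to find three different indices
  suffices H : ∃ a b c : Fin 3, a ≠ b ∧ b ≠ c ∧ a ≠ c ∧
      ∃ s ∈ S2 (fun t => P t a) (fun t => P t b), GeO (fun t => P t c - s t) N by
    obtain ⟨a, b, c, hab, hbc, hac, s, ⟨Φ, hΦ, rfl⟩, hs⟩ := H
    have hbij : Function.Bijective (![a, b, c] : Fin 3 → Fin 3) := by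
      rw [← Finite.injective_iff_bijective]
      intro p q hpq
      fin_cases p <;> fin_cases q <;> simp_all
    refine ⟨Equiv.ofBijective _ hbij, Φ, hΦ, ?_⟩
    obtain ⟨C, hC⟩ := bound hs
    exact ⟨C, by simpa using hC⟩
  obtain ⟨a, b, hab, hia, hib⟩ : ∃ a b : Fin 3, a ≠ b ∧ i ≠ a ∧ i ≠ b := by
    fin_cases i
    · exact ⟨1, 2, by decide, by decide, by decide⟩
    · exact ⟨0, 2, by decide, by decide, by decide⟩
    · exact ⟨0, 1, by decide, by decide, by decide⟩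
  rcases low (hP.1 i) (hP0 i) hi with h | h
  · exact ⟨i, a, b, hia, hab, hib, main1 h (h1 b) N⟩
  · rcases main2 h (h1 a) (h1 b) N with h2 | h2
    · exact ⟨i, a, b, hia, hab, hib, h2⟩
    · exact ⟨i, b, a, hib, hab.symm, hia, h2⟩

end Pool.Agent.H734R2.SP
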