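import Pool.Agent.H734R2.SP.Stubs2

set_option autoImplicit false

namespace Pool.Agent.H734R2.SP

open MvPolynomial Filter Topology

theorem ptb_pow (x y κ z : ℝ) (hx : 0 < x) (hy : 0 < y) (n : ℕ) :
    (y ^ (1 - κ) * x ^ κ * z) ^ n = (y ^ n) ^ (1 - κ) * (x ^ n) ^ κ * z ^ n := by
  rw [mul_pow, mul_pow]
  congr 2
  · rw [← Real.rpow_natCast, ← Real.rpow_natCast, ← Real.rpow_mul hy.le, ← Real.rpow_mul hy.le,
      mul_comm]
  · rw [← Real.rpow_natCast, ← Real.rpow_natCast, ← Real.rpow_mul hx.le, ← Real.rpow_mul hx.le,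
      mul_comm]

theorem t_PTB : S_PTB := by
  intro c p q hp hq
  refine ⟨?_, ?_, ?_, ?_, ?_, ?_⟩
  · funext i
    simp [pt]
  · funext i
    simp [pt]
  · intro κ hκ η hη hp1 hq1 i
    have hη' := abs_le.1 hη
    have h1 : 0 < q i ^ (1 - κ) := Real.rpow_pos_of_pos (hq i) _
    have h2 : 0 < p i ^ κ := Real.rpow_pos_of_pos (hp i) _
    have h3 : q i ^ (1 - κ) ≤ 1 := Real.rpow_le_one (hq i).le (hq1 i) (by linarith [hκ.2])
    have h4 : p i ^ κ ≤ 1 := Real.rpow_le_one (hp i).le (hp1 i) hκ.1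
    have h5 : (0 : ℝ) < (if i = c then 1 + η else 1) := by
      split_ifs <;> linarith [hη'.1]
    have h6 : (if i = c then 1 + η else 1) ≤ (2 : ℝ) := by
      split_ifs <;> linarith [hη'.2]
    refine ⟨by unfold pt; positivity, ?_⟩
    unfold pt
    have h7 : q i ^ (1 - κ) * p i ^ κ ≤ 1 := mul_le_one₀ h3 h2.le h4
    calc q i ^ (1 - κ) * p i ^ κ * (if i = c then 1 + η else 1)
        ≤ 1 * (if i = c then 1 + η else 1) := mul_le_mul_of_nonneg_right h7 h5.le
      _ ≤ 2 := by linarith
  · intro m κ η hη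
    have key : ∀ i, pt c p q κ η i ^ m i
        = (q i ^ m i) ^ (1 - κ) * (p i ^ m i) ^ κ * (if i = c then 1 + η else 1) ^ m i := by
      intro i
      exact ptb_pow (p i) (q i) κ _ (hp i) (hq i) (m i)
    unfold mon
    rw [Finset.prod_congr rfl (fun i _ => key i), Finset.prod_mul_distrib, Finset.prod_mul_distrib,
      Real.finsetProd_rpow _ _ (fun i _ => (pow_pos (hq i) _).le),
      Real.finsetProd_rpow _ _ (fun i _ => (pow_pos (hp i) _).le)]
    congr 1
    rw [Finset.prod_eq_single c]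
    · simp
    · intro i _ hi
      simp [hi]
    · intro h
      exact absurd (Finset.mem_univ c) h
  · refine continuous_pi fun i => ?_
    unfold pt
    have h1 : Continuous (fun z : ℝ × ℝ => q i ^ (1 - z.1)) :=
      (Real.continuous_const_rpow (hq i).ne').comp (by fun_prop)
    have h2 : Continuous (fun z : ℝ × ℝ => p i ^ z.1) :=
      (Real.continuous_const_rpow (hp i).ne').comp (by fun_prop)
    refine (h1.mul h2).mul ?_
    split_ifs
    · fun_prop
    · exact continuous_const
  · intro i hic hpq κ η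
    unfold pt
    rw [if_neg hic, mul_one, ← hpq, ← Real.rpow_add (hp i)]
    simp

end Pool.Agent.H734R2.SP
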