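import Pool.Agent.H734R2.SP.Stubs3

/-! Task PUSH: joining two pushed arcs by a short segment. -/

set_option autoImplicit false

namespace Pool.Agent.H734R2.SP

open MvPolynomial Filter Topology

theorem PUSH_small (P : ℝ → Pt) (hP : Arc P) (d : ℝ) (hd : 0 < d) :
    ∀ᶠ t in 𝓝[>] (0 : ℝ), ∀ i, |P t i| ≤ d := by
  refine Filter.eventually_all.2 fun i => ?_
  have h1 : Tendsto (fun t => P t i) (𝓝 (0 : ℝ)) (𝓝 (P 0 i)) := (hP.1 i).continuousAt
  have h2 : P 0 i = 0 := by rw [hP.2]; rfl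
  rw [h2] at h1
  have h3 : Tendsto (fun t => |P t i|) (𝓝 (0 : ℝ)) (𝓝 0) := by simpa using h1.abs
  have h4 : ∀ᶠ t in 𝓝 (0 : ℝ), |P t i| < d := h3.eventually (gt_mem_nhds hd)
  exact (h4.mono fun t ht => ht.le).filter_mono nhdsWithin_le_nhds

theorem PUSH_line (f : Poly) (x w : Pt) (ρ : ℝ) (hρ : 0 < ρ)
    (h : ∀ r ∈ Set.Icc (0 : ℝ) ρ, 0 < ev (x + r • w) f) :
    JoinedIn (Pos f) x (x + ρ • w) := by
  refine JoinedIn.ofLine (f := fun u : ℝ => x + (ρ * u) • w) ?_ ?_ ?_ ?_
  · exact (by fun_prop : Continuous fun u : ℝ => x + (ρ * u) • w).continuousOn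
  · simp
  · simp
  · rintro y ⟨u, hu, rfl⟩
    exact h (ρ * u) ⟨mul_nonneg hρ.le hu.1, by nlinarith [hu.2]⟩

theorem t_PUSH (L : Lib) : S_PUSH := by
  intro f P Q hns w ρ a hρ ha hw hP hQ hPa
  obtain ⟨K, hK, hlip⟩ := L.lip f
  intro ε hε
  obtain ⟨d, hdd⟩ : ∃ d, d = min (1 / 6) (a / (4 * K)) := ⟨_, rfl⟩
  have hd : 0 < d := by
    rw [hdd]
    exact lt_min (by norm_num) (by positivity)
  have hd1 : d ≤ 1 / 6 := by rw [hdd]; exact min_le_left _ _
  have hd2 : d ≤ a / (4 * K) := by rw [hdd]; exact min_le_right _ _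
  have hd3 : d * (4 * K) ≤ a := by
    rw [le_div_iff₀ (by positivity)] at hd2
    exact hd2
  obtain ⟨s, hs1, hs2, hs3, hs4⟩ := ((PUSH_small P hns.hP d hd).and
    (hP.and (hPa.and (Ioo_mem_nhdsGT hε)))).exists
  obtain ⟨t, ht1, ht2, ht3⟩ := ((PUSH_small Q hns.hQ d hd).and
    (hQ.and (Ioo_mem_nhdsGT hε))).exists
  refine ⟨s, hs4, t, ht3, ?_⟩
  have h1 := PUSH_line f (P s) w ρ hρ hs2
  have h3 := (PUSH_line f (Q t) w ρ hρ ht2).symm
  have h2 : JoinedIn (Pos f) (P s + ρ • w) (Q t + ρ • w) := by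
    refine JoinedIn.ofLine (f := fun u : ℝ => (P s + ρ • w) + u • (Q t - P s)) ?_ ?_ ?_ ?_
    · exact (by fun_prop : Continuous fun u : ℝ => (P s + ρ • w) + u • (Q t - P s)).continuousOn
    · simp
    · funext i
      simp only [Pi.add_apply, Pi.smul_apply, Pi.sub_apply, smul_eq_mul]
      ring
    · rintro y ⟨u, hu, rfl⟩
      have hu0 := hu.1
      have hu1 := hu.2
      have hdiff : ∀ i, |u * (Q t i - P s i)| ≤ 2 * d := by
        intro i
        rw [abs_mul, abs_of_nonneg hu0]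
        have e1 : |Q t i - P s i| ≤ 2 * d := by
          have := abs_sub (Q t i) (P s i)
          linarith [hs1 i, ht1 i]
        have e2 : 0 ≤ |Q t i - P s i| := abs_nonneg _
        nlinarith
      have hx : ∀ i, |(P s + ρ • w) i| ≤ 2 / 3 := by
        intro i
        have e1 := abs_add_le (P s i) (ρ * w i)
        have e2 : (P s + ρ • w) i = P s i + ρ * w i := rfl
        rw [e2]
        linarith [hs1 i, hw i]
      have hy : ∀ i, |((P s + ρ • w) + u • (Q t - P s)) i| ≤ 1 := by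
        intro i
        have e2 : ((P s + ρ • w) + u • (Q t - P s)) i =
            (P s + ρ • w) i + u * (Q t i - P s i) := rfl
        have e1 := abs_add_le ((P s + ρ • w) i) (u * (Q t i - P s i))
        rw [e2]
        linarith [hx i, hdiff i]
      have hL := hlip (P s + ρ • w) ((P s + ρ • w) + u • (Q t - P s)) (2 * d)
        (fun i => (hx i).trans (by norm_num)) hy (fun i => by
          have e2 : (P s + ρ • w) i - ((P s + ρ • w) + u • (Q t - P s)) i =
              -(u * (Q t i - P s i)) := by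
            have e3 : ((P s + ρ • w) + u • (Q t - P s)) i =
              (P s + ρ • w) i + u * (Q t i - P s i) := rfl
            rw [e3]
            ring
          rw [e2, abs_neg]
          exact hdiff i)
      have h4 := (abs_le.1 hL).2
      show 0 < ev ((P s + ρ • w) + u • (Q t - P s)) f
      have h5 : K * (2 * d) ≤ a / 2 := by linarith
      linarith
  exact h1.trans (h2.trans h3)

end Pool.Agent.H734R2.SP
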