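import Pool.Agent.H734R2.SP.Stubs

set_option autoImplicit false

namespace Pool.Agent.H734R2.SP

open MvPolynomial Filter Topology

theorem t_REP : S_REP := by
  intro hTRI hEVA θ hθ h0 hpos f P Q hNS
  have hT : Tendsto θ (𝓝[>] (0 : ℝ)) (𝓝[>] (0 : ℝ)) := by
    apply tendsto_nhdsWithin_iff.2
    refine ⟨?_, hpos⟩
    have h1 := hθ.continuousAt.tendsto
    rw [h0] at h1
    exact h1.mono_left nhdsWithin_le_nhds
  have hArc : Arc (fun t => P (θ t)) := by
    refine ⟨fun i => ?_, ?_⟩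
    · have h1 : AnalyticAt ℝ (fun t => P t i) (θ 0) := by
        rw [h0]
        exact hNS.hP.1 i
      exact h1.comp hθ
    · change P (θ 0) = 0
      rw [h0]
      exact hNS.hP.2
  refine ⟨⟨hArc, hNS.hQ, hNS.f0, hT.eventually hNS.fP, hNS.fQ, ?_, ?_⟩, ?_⟩
  · intro g c c' hcc h
    refine hNS.pq g c c' hcc ?_
    have hu : AnalyticAt ℝ (fun t => ev (P t) g - c' * ev (P t) f) 0 :=
      (hEVA P hNS.hP g).sub (analyticAt_const.mul (hEVA P hNS.hP f))
    rcases hTRI _ hu with h1 | h1 | h1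
    · filter_upwards [h1] with t ht
      linarith
    · filter_upwards [h1] with t ht
      linarith
    · exfalso
      obtain ⟨t, ht1, ht2⟩ := ((hT.eventually h1).and h).exists
      simp only at ht1 ht2
      linarith
  · intro g c c' hcc h
    exact hT.eventually (hNS.qp g c c' hcc h)
  · intro hJ ε hε
    have h1 : ∀ᶠ s in 𝓝[>] (0 : ℝ), θ s ∈ Set.Ioo (0 : ℝ) ε :=
      hT.eventually (Ioo_mem_nhdsGT hε)
    obtain ⟨δ, hδ, hsub⟩ := mem_nhdsGT_iff_exists_Ioo_subset.1 h1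
    obtain ⟨s, hs, t, ht, hj⟩ := hJ (min ε δ) (lt_min hε hδ)
    exact ⟨θ s, hsub ⟨hs.1, hs.2.trans_le (min_le_right _ _)⟩, t,
      ⟨ht.1, ht.2.trans_le (min_le_left _ _)⟩, hj⟩

end Pool.Agent.H734R2.SP
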