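import Pool.Agent.H734R2.SP.Stubs

set_option autoImplicit false

namespace Pool.Agent.H734R2.SP

open MvPolynomial Filter Topology

private theorem seg_ev {p : ℝ → Prop} :
    (∀ᶠ t in 𝓝[>] (0 : ℝ), p t) ↔ ∃ ε > 0, ∀ t ∈ Set.Ioo (0 : ℝ) ε, p t := by
  rw [Filter.Eventually, mem_nhdsGT_iff_exists_Ioo_subset]
  rfl

private theorem seg_small {P : ℝ → Pt} (hP : Arc P) (i : Fin 3) {δ : ℝ} (hδ : 0 < δ) :
    ∀ᶠ t in 𝓝[>] (0 : ℝ), |P t i| < δ := by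
  have h1 : Tendsto (fun t => P t i) (𝓝 0) (𝓝 (P 0 i)) := (hP.1 i).continuousAt
  rw [hP.2] at h1
  have h2 := (h1.mono_left (nhdsWithin_le_nhds (s := Set.Ioi 0))).eventually
    (Metric.ball_mem_nhds _ hδ)
  filter_upwards [h2] with t ht
  simpa [Real.dist_eq] using ht

/-- the alternatives for the pair `(s, t)` -/
private def Alt (f : Poly) (P Q : ℝ → Pt) (ε c : ℝ) (g : Poly) (p : ℝ × ℝ) : Prop :=
  (|ev (P p.1) g| ≤ ε * ev (P p.1) f ∧ |ev (Q p.2) g| ≤ ε * ev (Q p.2) f) ∨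
  (c * ev (P p.1) f ≤ ev (P p.1) g ∧ c * ev (Q p.2) f ≤ ev (Q p.2) g) ∨
  (c * ev (P p.1) f ≤ - ev (P p.1) g ∧ c * ev (Q p.2) f ≤ - ev (Q p.2) g)

private theorem seg_alt (f : Poly) (P Q : ℝ → Pt) (h : NS f P Q) (g : Poly)
    (hd : (∀ ε > 0, (∀ᶠ t in 𝓝[>] (0 : ℝ), |ev (P t) g| ≤ ε * ev (P t) f) ∧
      (∀ᶠ t in 𝓝[>] (0 : ℝ), |ev (Q t) g| ≤ ε * ev (Q t) f)) ∨
  (∃ c > 0, (∀ᶠ t in 𝓝[>] (0 : ℝ), c * ev (P t) f ≤ ev (P t) g) ∧
      (∀ᶠ t in 𝓝[>] (0 : ℝ), c * ev (Q t) f ≤ ev (Q t) g)) ∨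
  (∃ c > 0, (∀ᶠ t in 𝓝[>] (0 : ℝ), c * ev (P t) f ≤ - ev (P t) g) ∧
      (∀ᶠ t in 𝓝[>] (0 : ℝ), c * ev (Q t) f ≤ - ev (Q t) g))) :
    ∃ c' > 0, ∀ c ≤ c', ∀ ε > 0, ∀ᶠ p in (𝓝[>] (0 : ℝ)) ×ˢ (𝓝[>] (0 : ℝ)),
      Alt f P Q ε c g p := by
  rcases hd with hd | ⟨c', hc', h1, h2⟩ | ⟨c', hc', h1, h2⟩
  · refine ⟨1, one_pos, fun c _ ε hε => ?_⟩
    filter_upwards [(hd ε hε).1.prod_mk (hd ε hε).2] with p hp
    exact Or.inl hp
  · refine ⟨c', hc', fun c hc ε hε => ?_⟩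
    filter_upwards [(h1.and h.fP).prod_mk (h2.and h.fQ)] with p hp
    refine Or.inr (Or.inl ⟨?_, ?_⟩)
    · exact (mul_le_mul_of_nonneg_right hc hp.1.2.le).trans hp.1.1
    · exact (mul_le_mul_of_nonneg_right hc hp.2.2.le).trans hp.2.1
  · refine ⟨c', hc', fun c hc ε hε => ?_⟩
    filter_upwards [(h1.and h.fP).prod_mk (h2.and h.fQ)] with p hp
    refine Or.inr (Or.inr ⟨?_, ?_⟩)
    · exact (mul_le_mul_of_nonneg_right hc hp.1.2.le).trans hp.1.1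
    · exact (mul_le_mul_of_nonneg_right hc hp.2.2.le).trans hp.2.1

theorem t_SEG : S_SEG := by
  intro hT hE hD hB hDIR f P Q h w
  obtain ⟨D, hD0, ⟨N, hN⟩, hF⟩ := hDIR f w
  by_cases hw : w = 0
  · obtain ⟨ε, hε, h1⟩ := seg_ev.1 h.fQ
    refine ⟨ε, hε, fun s _ t ht r hr => ?_⟩
    rw [hw, smul_zero, add_zero] at hr
    rw [hr]
    exact JoinedIn.refl (h1 t ht)
  obtain ⟨i, hi⟩ : ∃ i, w i ≠ 0 := by
    by_contra hcon
    push Not at hcon
    exact hw (funext hcon)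
  choose c' hc' hA using fun k : ℕ => seg_alt f P Q h (D k) (hD hT hE f P Q h (D k))
  set c : ℝ := (Finset.range (N + 1)).inf' Finset.nonempty_range_add_one c' with hc
  have hcpos : 0 < c := by
    exact (Finset.lt_inf'_iff _).2 fun k _ => hc' k
  set ε : ℝ := min (c / 16) (1 / 16) with hε
  have hεpos : 0 < ε := lt_min (by positivity) (by norm_num)
  have hall : ∀ᶠ p in (𝓝[>] (0 : ℝ)) ×ˢ (𝓝[>] (0 : ℝ)), ∀ k ∈ Finset.range (N + 1),
      Alt f P Q ε c (D k) p := by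
    rw [Filter.eventually_all_finset]
    intro k hk
    exact hA k c (Finset.inf'_le _ hk) ε hεpos
  have hwi : 0 < |w i| / 4 := by
    have := abs_pos.2 hi
    positivity
  have hall2 := hall.and ((h.fP.and (seg_small h.hP i hwi)).prod_mk
    (h.fQ.and (seg_small h.hQ i hwi)))
  rw [Filter.eventually_prod_iff] at hall2
  obtain ⟨pa, hpa, pb, hpb, hab⟩ := hall2
  obtain ⟨ε1, hε1, h1⟩ := seg_ev.1 hpa
  obtain ⟨ε2, hε2, h2⟩ := seg_ev.1 hpb
  refine ⟨min ε1 ε2, lt_min hε1 hε2, fun s hs t ht r hr => ?_⟩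
  obtain ⟨hk, ⟨hfP, hsP⟩, hfQ, hsQ⟩ := hab (h1 s ⟨hs.1, hs.2.trans_le (min_le_left _ _)⟩)
    (h2 t ⟨ht.1, ht.2.trans_le (min_le_right _ _)⟩)
  simp only at hfP hsP hfQ hsQ
  have hr2 : |r| ≤ 1 / 2 := by
    have e1 : P s i - Q t i = r * w i := by
      have := congrFun hr i
      simp only [Pi.add_apply, Pi.smul_apply, smul_eq_mul] at this
      rw [this]; ring
    have e2 : |r| * |w i| ≤ 1 / 2 * |w i| := by
      rw [← abs_mul, ← e1]
      calc |P s i - Q t i| ≤ |P s i| + |Q t i| := abs_sub _ _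
        _ ≤ |w i| / 4 + |w i| / 4 := by linarith
        _ = 1 / 2 * |w i| := by ring
    exact le_of_mul_le_mul_right e2 (abs_pos.2 hi)
  obtain ⟨F, hF⟩ := hF (Q t)
  have e0 : ∀ k, (Polynomial.derivative^[k] F).eval 0 = ev (Q t) (D k) := by
    intro k
    rw [hF k 0, zero_smul, add_zero]
  have er : ∀ k, (Polynomial.derivative^[k] F).eval r = ev (P s) (D k) := by
    intro k
    rw [hF k r, ← hr]
  have f0 : F.eval 0 = ev (Q t) f := by
    have := e0 0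
    rwa [hD0] at this
  have fr : F.eval r = ev (P s) f := by
    have := er 0
    rwa [hD0] at this
  have hAlt : ∀ k : ℕ, Alt f P Q ε c (D k) (s, t) := by
    intro k
    by_cases hkN : k ≤ N
    · exact hk k (Finset.mem_range.2 (Nat.lt_succ_of_le hkN))
    · left
      rw [hN k (not_le.1 hkN)]
      simp only [map_zero, abs_zero]
      exact ⟨by positivity, by positivity⟩
  have hpos : ∀ y : ℝ, (0 ≤ y ∧ y ≤ r ∨ r ≤ y ∧ y ≤ 0) → 0 < ev (Q t + y • w) f := by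
    intro y hy
    have ey : F.eval y = ev (Q t + y • w) f := by
      have := hF 0 y
      rwa [hD0] at this
    rw [← ey]
    have hεc : ε ≤ c / 16 := min_le_left _ _
    have hε1 : ε ≤ 1 / 16 := min_le_right _ _
    rcases hy with ⟨hy1, hy2⟩ | ⟨hy1, hy2⟩
    · refine hB F 0 r ε c (hy1.trans hy2) ?_ hεpos hεc hε1 (f0 ▸ hfQ) (fr ▸ hfP) ?_ y
        ⟨hy1, hy2⟩
      · rw [sub_zero]; exact (le_abs_self r).trans hr2
      · intro k _
        rw [e0 k, er k, f0, fr]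
        rcases hAlt k with h | h | h
        · exact Or.inl ⟨h.2, h.1⟩
        · exact Or.inr (Or.inl ⟨h.2, h.1⟩)
        · exact Or.inr (Or.inr ⟨h.2, h.1⟩)
    · refine hB F r 0 ε c (hy1.trans hy2) ?_ hεpos hεc hε1 (fr ▸ hfP) (f0 ▸ hfQ) ?_ y
        ⟨hy1, hy2⟩
      · rw [zero_sub]; exact (neg_le_abs r).trans hr2
      · intro k _
        rw [e0 k, er k, f0, fr]
        rcases hAlt k with h | h | h
        · exact Or.inl ⟨h.1, h.2⟩
        · exact Or.inr (Or.inl ⟨h.1, h.2⟩)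
        · exact Or.inr (Or.inr ⟨h.1, h.2⟩)
  apply JoinedIn.of_segment_subset
  rintro z ⟨a, b, ha, hb, hab, rfl⟩
  change 0 < ev (a • P s + b • Q t) f
  have ez : a • P s + b • Q t = Q t + (a * r) • w := by
    rw [hr, smul_add, smul_smul, add_right_comm, ← add_smul, hab, one_smul]
  rw [ez]
  apply hpos
  have ha1 : a ≤ 1 := by linarith
  rcases le_total 0 r with hr0 | hr0
  · left
    exact ⟨mul_nonneg ha hr0, mul_le_of_le_one_left hr0 ha1⟩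
  · right
    refine ⟨?_, mul_nonpos_of_nonneg_of_nonpos ha hr0⟩
    nlinarith

end Pool.Agent.H734R2.SP
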