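import Pool.Agent.H734R2.SP.Stubs

/-! TRI: analytic sign trichotomy -/

set_option autoImplicit false

namespace Pool.Agent.H734R2.SP

open MvPolynomial Filter Topology

theorem t_TRI : S_TRI := by
  intro u hu
  by_cases h0 : ∀ᶠ z in 𝓝 (0 : ℝ), u z = 0
  · exact Or.inr (Or.inl (h0.filter_mono nhdsWithin_le_nhds))
  · obtain ⟨n, g, hg, hg0, heq⟩ := hu.exists_eventuallyEq_pow_smul_nonzero_iff.mpr h0
    have heq' : ∀ᶠ t in 𝓝[>] (0 : ℝ), u t = (t - 0) ^ n • g t :=
      heq.filter_mono nhdsWithin_le_nhds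
    have hpos : ∀ᶠ t in 𝓝[>] (0 : ℝ), 0 < t := eventually_mem_nhdsWithin
    rcases lt_or_gt_of_ne hg0 with h | h
    · right
      right
      have h1 : ∀ᶠ t in 𝓝[>] (0 : ℝ), g t < 0 :=
        (hg.continuousAt.eventually_lt_const h).filter_mono nhdsWithin_le_nhds
      filter_upwards [heq', hpos, h1] with t h2 h3 h4
      rw [h2, sub_zero, smul_eq_mul]
      exact mul_neg_of_pos_of_neg (pow_pos h3 n) h4
    · left
      have h1 : ∀ᶠ t in 𝓝[>] (0 : ℝ), 0 < g t :=
        (hg.continuousAt.eventually_const_lt h).filter_mono nhdsWithin_le_nhds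
      filter_upwards [heq', hpos, h1] with t h2 h3 h4
      rw [h2, sub_zero, smul_eq_mul]
      exact mul_pos (pow_pos h3 n) h4

end Pool.Agent.H734R2.SP
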