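import Pool.Agent.H734R2.SP.AUT
import Pool.Agent.H734R2.SP.CONG
import Pool.Agent.H734R2.SP.COOR
import Pool.Agent.H734R2.SP.COORE
import Pool.Agent.H734R2.SP.DICH
import Pool.Agent.H734R2.SP.DIR
import Pool.Agent.H734R2.SP.EVA
import Pool.Agent.H734R2.SP.GRAPH
import Pool.Agent.H734R2.SP.LEMA
import Pool.Agent.H734R2.SP.LEMB
import Pool.Agent.H734R2.SP.LIP
import Pool.Agent.H734R2.SP.NSI
import Pool.Agent.H734R2.SP.ORD
import Pool.Agent.H734R2.SP.PLANE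
import Pool.Agent.H734R2.SP.POW
import Pool.Agent.H734R2.SP.REP
import Pool.Agent.H734R2.SP.SEG
import Pool.Agent.H734R2.SP.TRI

set_option autoImplicit false

/-! Assembly of the first part. -/

namespace Pool.Agent.H734R2.SP

open MvPolynomial Filter Topology

theorem plane_case : S_PLANE := t_PLANE (t_LEMB t_LEMA) t_DIR

theorem coor_case (f : Poly) (P Q : ℝ → Pt) (h : NS f P Q)
    (h2 : ∀ ε > 0, ∀ᶠ t in 𝓝[>] (0 : ℝ), |P t 2| ≤ ε * ev (P t) f) : Join f P Q :=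
  t_COOR t_SEG t_TRI t_EVA t_DICH t_LIP t_CONG t_AUT plane_case t_ORD f P Q h h2

theorem coore_case (f : Poly) (P Q : ℝ → Pt) (h : NS f P Q) (e : Fin 3)
    (h2 : ∀ ε > 0, ∀ᶠ t in 𝓝[>] (0 : ℝ), |P t e| ≤ ε * ev (P t) f) : Join f P Q :=
  t_COORE t_AUT t_EVA coor_case f P Q h e h2

theorem graph_case (f : Poly) (P Q : ℝ → Pt) (h : NS f P Q) (hG : Graph f P) : Join f P Q :=
  t_GRAPH t_AUT coor_case f P Q h hG

/-- the order of `f` along an arc -/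
theorem exists_order (f : Poly) (P Q : ℝ → Pt) (h : NS f P Q) :
    ∃ (k : ℕ) (F : ℝ), 0 < F ∧ Tendsto (fun t => ev (P t) f / t ^ k) (𝓝[>] (0 : ℝ)) (𝓝 F) := by
  obtain ⟨n, c, hc, hl⟩ := t_ORD.2 _ (t_EVA P h.hP f) h.fP
  exact ⟨n, c, hc, hl⟩

/-- `O(t^{k+1})` is `o(f)` -/
theorem small_of_pow (f : Poly) (P : ℝ → Pt) (k : ℕ) (F : ℝ) (hF : 0 < F)
    (hl : Tendsto (fun t => ev (P t) f / t ^ k) (𝓝[>] (0 : ℝ)) (𝓝 F)) (u : ℝ → ℝ) (C : ℝ)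
    (hu : ∀ᶠ t in 𝓝[>] (0 : ℝ), |u t| ≤ C * t ^ (k + 1)) :
    ∀ ε > 0, ∀ᶠ t in 𝓝[>] (0 : ℝ), |u t| ≤ ε * ev (P t) f := by
  intro ε hε
  have h1 : ∀ᶠ t in 𝓝[>] (0 : ℝ), F / 2 < ev (P t) f / t ^ k :=
    hl.eventually (lt_mem_nhds (by linarith))
  have hC : 0 < |C| + 1 := by positivity
  have h2 : ∀ᶠ t in 𝓝[>] (0 : ℝ), t < ε * (F / 2) / (|C| + 1) :=
    (gt_mem_nhds (by positivity)).filter_mono nhdsWithin_le_nhds
  filter_upwards [h1, h2, hu, self_mem_nhdsWithin] with t t1 t2 t3 t0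
  have t0' : (0:ℝ) < t := t0
  have hk : 0 < t ^ k := pow_pos t0' k
  rw [lt_div_iff₀ hk] at t1
  rw [lt_div_iff₀ hC] at t2
  calc |u t| ≤ C * t ^ (k + 1) := t3
    _ ≤ (|C| + 1) * t ^ (k + 1) := by
        apply mul_le_mul_of_nonneg_right _ (by positivity)
        have := le_abs_self C; linarith
    _ = (t * (|C| + 1)) * t ^ k := by ring
    _ ≤ (ε * (F / 2)) * t ^ k := mul_le_mul_of_nonneg_right t2.le hk.le
    _ = ε * (F / 2 * t ^ k) := by ring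
    _ ≤ ε * ev (P t) f := mul_le_mul_of_nonneg_left t1.le hε.le

/-- the third coordinate is a polynomial in the first two to every order -/
def GraphAll (P : ℝ → Pt) (N : ℕ) : Prop :=
  ∃ (e : Equiv.Perm (Fin 3)) (Φ : MvPolynomial (Fin 2) ℝ), MvPolynomial.eval (0 : Fin 2 → ℝ) Φ = 0 ∧
    ∃ C : ℝ, ∀ᶠ t in 𝓝[>] (0 : ℝ),
      |P t (e 2) - MvPolynomial.eval ![P t (e 0), P t (e 1)] Φ| ≤ C * t ^ N

theorem graphAll_case (f : Poly) (P Q : ℝ → Pt) (h : NS f P Q) (k : ℕ) (F : ℝ) (hF : 0 < F)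
    (hl : Tendsto (fun t => ev (P t) f / t ^ k) (𝓝[>] (0 : ℝ)) (𝓝 F))
    (hG : GraphAll P (k + 1)) : Join f P Q := by
  obtain ⟨e, Φ, h0, C, hC⟩ := hG
  exact graph_case f P Q h ⟨e, Φ, h0, small_of_pow f P k F hF hl _ C hC⟩

theorem low_case (f : Poly) (P Q : ℝ → Pt) (h : NS f P Q) (hL : LowMult P) : Join f P Q := by
  obtain ⟨k, F, hF, hl⟩ := exists_order f P Q h
  exact graphAll_case f P Q h k F hF hl (t_POW P h.hP hL (k + 1))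

/-- segments: a common projection -/
theorem proj_case (f : Poly) (P Q : ℝ → Pt) (h : NS f P Q) (v : Pt)
    (hv : ∀ ε > 0, ∃ s ∈ Set.Ioo (0 : ℝ) ε, ∃ t ∈ Set.Ioo (0 : ℝ) ε, ∃ r : ℝ,
      P s = Q t + r • v) : Join f P Q := by
  obtain ⟨ε₁, hε₁, H⟩ := t_SEG t_TRI t_EVA t_DICH (t_LEMB t_LEMA) t_DIR f P Q h v
  intro ε hε
  obtain ⟨s, hs, t, ht, r, hr⟩ := hv (min ε ε₁) (lt_min hε hε₁)
  exact ⟨s, ⟨hs.1, lt_of_lt_of_le hs.2 (min_le_left _ _)⟩, t,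
    ⟨ht.1, lt_of_lt_of_le ht.2 (min_le_left _ _)⟩,
    H s ⟨hs.1, lt_of_lt_of_le hs.2 (min_le_right _ _)⟩ t
      ⟨ht.1, lt_of_lt_of_le ht.2 (min_le_right _ _)⟩ r hr⟩

end Pool.Agent.H734R2.SP
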