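import Pool.Agent.H734R2.SP.Stubs2

set_option autoImplicit false

namespace Pool.Agent.H734R2.SP

open MvPolynomial Filter Topology

theorem red0_tend_pow (n : ℕ) : Tendsto (fun t : ℝ => t ^ n) (𝓝[>] (0 : ℝ)) (𝓝 ((0 : ℝ) ^ n)) :=
  ((continuous_pow n).tendsto 0).mono_left nhdsWithin_le_nhds

theorem red0_mon (P : ℝ → Pt) (w : Fin 3 → ℕ)
    (h : ∀ i, Tendsto (fun t => P t i / t ^ w i) (𝓝[>] (0 : ℝ)) (𝓝 1)) (m : Ex) :
    Tendsto (fun t => mon m (P t) / t ^ wt w m) (𝓝[>] (0 : ℝ)) (𝓝 1) := by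
  have h1 : Tendsto (fun t => ∏ i, (P t i / t ^ w i) ^ m i) (𝓝[>] (0 : ℝ))
      (𝓝 (∏ i : Fin 3, (1 : ℝ) ^ m i)) :=
    tendsto_finsetProd _ fun i _ => (h i).pow (m i)
  have h2 : (fun t => mon m (P t) / t ^ wt w m) = fun t => ∏ i, (P t i / t ^ w i) ^ m i := by
    funext t
    unfold mon wt
    simp only [div_pow, Finset.prod_div_distrib, ← pow_mul, Finset.prod_pow_eq_pow_sum]
  rw [h2]
  simpa using h1

theorem red0_mon' (P : ℝ → Pt) (w : Fin 3 → ℕ)
    (h : ∀ i, Tendsto (fun t => P t i / t ^ w i) (𝓝[>] (0 : ℝ)) (𝓝 1)) (m : Ex) (d : ℕ)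
    (hd : d < wt w m) :
    Tendsto (fun t => mon m (P t) / t ^ d) (𝓝[>] (0 : ℝ)) (𝓝 0) := by
  have h1 := (red0_mon P w h m).mul (red0_tend_pow (wt w m - d))
  rw [zero_pow (by omega), mul_zero] at h1
  refine h1.congr' ?_
  filter_upwards [self_mem_nhdsWithin] with t ht
  have ht0 : (t : ℝ) ≠ 0 := ne_of_gt ht
  have : (t : ℝ) ^ wt w m = t ^ d * t ^ (wt w m - d) := by
    rw [← pow_add]; congr 1; omega
  rw [this]
  field_simp

theorem t_RED0 : S_RED0 := by
  intro P w k hw hlim hinj g hg m hm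
  by_contra hcon
  push Not at hcon
  have hne : (g.support.filter (fun m => wt w m ≤ k)).Nonempty :=
    ⟨m, Finset.mem_filter.2 ⟨hm, hcon⟩⟩
  obtain ⟨m0, hm0, hmin⟩ := Finset.exists_min_image _ (fun m => wt w m) hne
  rw [Finset.mem_filter] at hm0
  obtain ⟨hm0s, hm0k⟩ := hm0
  set d := wt w m0 with hd
  have hA : Tendsto (fun t => ev (P t) g / t ^ d) (𝓝[>] (0 : ℝ)) (𝓝 (coeff m0 g)) := by
    have h1 : ∀ x ∈ g.support, Tendsto (fun t => coeff x g * (mon x (P t) / t ^ d)) (𝓝[>] (0 : ℝ))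
        (𝓝 (if x = m0 then coeff m0 g else 0)) := by
      intro x hx
      by_cases hxm : x = m0
      · subst hxm
        rw [if_pos rfl]
        simpa using (red0_mon P w hlim x).const_mul (coeff x g)
      · rw [if_neg hxm]
        have hlt : d < wt w x := by
          rcases le_or_gt (wt w x) k with h | h
          · have h1 := hmin x (Finset.mem_filter.2 ⟨hx, h⟩)
            rcases h1.lt_or_eq with h2 | h2
            · exact h2
            · exact absurd (hinj m0 x h2 hm0k).symm hxm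
          · omega
        simpa using (red0_mon' P w hlim x d hlt).const_mul (coeff x g)
    have h2 := tendsto_finsetSum g.support h1
    rw [Finset.sum_ite_eq' g.support m0 (fun _ => coeff m0 g), if_pos hm0s] at h2
    refine h2.congr fun t => ?_
    show _ = MvPolynomial.eval (P t) g / t ^ d
    rw [MvPolynomial.eval_eq', Finset.sum_div]
    refine Finset.sum_congr rfl fun x _ => ?_
    unfold mon
    ring
  have hB : Tendsto (fun t => ev (P t) g / t ^ d) (𝓝[>] (0 : ℝ)) (𝓝 0) := by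
    have h1 := hg.mul (red0_tend_pow (k - d))
    rw [zero_mul] at h1
    refine h1.congr' ?_
    filter_upwards [self_mem_nhdsWithin] with t ht
    have ht0 : (t : ℝ) ≠ 0 := ne_of_gt ht
    have : (t : ℝ) ^ k = t ^ d * t ^ (k - d) := by
      rw [← pow_add]; congr 1; omega
    rw [this]
    field_simp
  have := tendsto_nhds_unique hA hB
  exact (MvPolynomial.mem_support_iff.1 hm0s) this

end Pool.Agent.H734R2.SP
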