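import Pool.Agent.H734R2.SP.AuxC

set_option autoImplicit false

namespace Pool.Agent.H734R2.SP

open MvPolynomial Filter Topology AuxC

namespace RED1

/-- all exponents have weight at least `e` -/
def GE (w : Fin 3 → ℕ) (e : ℕ) (g : Poly) : Prop := ∀ m ∈ g.support, e ≤ wt w m

lemma wt_add (w : Fin 3 → ℕ) (m m' : Ex) : wt w (m + m') = wt w m + wt w m' := by
  unfold wt
  rw [← Finset.sum_add_distrib]
  exact Finset.sum_congr rfl fun i _ => by rw [Finsupp.add_apply, mul_add]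

lemma wt_smul (w : Fin 3 → ℕ) (a : ℕ) (m : Ex) : wt w (a • m) = a * wt w m := by
  unfold wt
  rw [Finset.mul_sum]
  exact Finset.sum_congr rfl fun i _ => by rw [Finsupp.smul_apply, smul_eq_mul]; ring

variable {w : Fin 3 → ℕ}

lemma GE.mono {e e' : ℕ} (h : e' ≤ e) {g : Poly} (hg : GE w e g) : GE w e' g :=
  fun m hm => h.trans (hg m hm)

lemma GE.zero (e : ℕ) : GE w e (0 : Poly) := by
  intro m hm
  simp at hm

lemma GE.add {e : ℕ} {g g' : Poly} (h : GE w e g) (h' : GE w e g') : GE w e (g + g') := by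
  intro m hm
  have h1 := MvPolynomial.support_add hm
  rcases Finset.mem_union.1 h1 with h2 | h2
  · exact h m h2
  · exact h' m h2

lemma GE.mul {e e' : ℕ} {g g' : Poly} (h : GE w e g) (h' : GE w e' g') : GE w (e + e') (g * g') := by
  intro m hm
  have h1 := MvPolynomial.support_mul _ _ hm
  obtain ⟨a, ha, b, hb, rfl⟩ := Finset.mem_add.1 h1
  rw [wt_add]
  exact add_le_add (h a ha) (h' b hb)

lemma GE.monomial (m : Ex) (c : ℝ) : GE w (wt w m) (MvPolynomial.monomial m c) := by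
  intro m' hm'
  have h1 := MvPolynomial.support_monomial_subset hm'
  rw [Finset.mem_singleton] at h1
  rw [h1]

lemma GE.C (c : ℝ) : GE w 0 (MvPolynomial.C c : Poly) := fun _ _ => Nat.zero_le _

/-- reduction modulo `r` -/
def R1 (w : Fin 3 → ℕ) (r : Poly) (e : ℕ) (g : Poly) : Prop :=
  ∃ h g₂ : Poly, g = h * r + g₂ ∧ GE w e g₂

lemma R1.zero (r : Poly) (e : ℕ) : R1 w r e 0 := ⟨0, 0, by simp, GE.zero e⟩

lemma R1.of_GE {r : Poly} {e : ℕ} {g : Poly} (h : GE w e g) : R1 w r e g := ⟨0, g, by simp, h⟩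

lemma R1.add {r : Poly} {e : ℕ} {g g' : Poly} (h : R1 w r e g) (h' : R1 w r e g') :
    R1 w r e (g + g') := by
  obtain ⟨a, b, rfl, hb⟩ := h
  obtain ⟨a', b', rfl, hb'⟩ := h'
  exact ⟨a + a', b + b', by ring, hb.add hb'⟩

lemma R1.mul {r : Poly} {e e' : ℕ} {g q : Poly} (hq : GE w e' q) (h : R1 w r e g) :
    R1 w r (e' + e) (q * g) := by
  obtain ⟨a, b, rfl, hb⟩ := h
  exact ⟨q * a, q * b, by ring, hq.mul hb⟩

lemma R1.sum {r : Poly} {e : ℕ} {ι : Type*} (S : Finset ι) (g : ι → Poly)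
    (h : ∀ i ∈ S, R1 w r e (g i)) : R1 w r e (∑ i ∈ S, g i) := by
  classical
  induction S using Finset.induction_on with
  | empty => rw [Finset.sum_empty]; exact R1.zero r e
  | insert a S ha ih =>
    rw [Finset.sum_insert ha]
    exact (h a (Finset.mem_insert_self _ _)).add (ih fun i hi => h i (Finset.mem_insert_of_mem hi))

/-- powers of the leading binomial -/
lemma pow_sub {u v : Ex} {h₁ : Poly} (huv : wt w u = wt w v)
    (hh : ∀ m ∈ h₁.support, wt w u < wt w m) (a : ℕ) :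
    R1 w (rel u v h₁) (a * wt w u + 1) ((monomial u 1 : Poly) ^ a - monomial v 1 ^ a) := by
  induction a with
  | zero => rw [pow_zero, pow_zero, sub_self]; exact R1.zero _ _
  | succ a ih =>
    have h1 : (MvPolynomial.monomial u 1 : Poly) ^ (a + 1) - MvPolynomial.monomial v 1 ^ (a + 1) =
        MvPolynomial.monomial u 1 * ((MvPolynomial.monomial u 1 : Poly) ^ a - MvPolynomial.monomial v 1 ^ a) +
          (MvPolynomial.monomial v 1 ^ a * rel u v h₁ + MvPolynomial.monomial v 1 ^ a * h₁) := by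
      unfold rel
      ring
    rw [h1]
    refine R1.add ?_ ?_
    · have h2 := R1.mul (GE.monomial (w := w) u 1) ih
      have h3 : wt w u + (a * wt w u + 1) = (a + 1) * wt w u + 1 := by ring
      rwa [h3] at h2
    · refine ⟨MvPolynomial.monomial v 1 ^ a, MvPolynomial.monomial v 1 ^ a * h₁, rfl, ?_⟩
      have h2 : GE w (a * wt w v) ((MvPolynomial.monomial v 1 : Poly) ^ a) := by
        rw [monomial_pow, ← wt_smul]
        exact GE.monomial _ _
      have h3 : GE w (wt w u + 1) h₁ := fun m hm => hh m hm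
      have h4 := h2.mul h3
      have h5 : a * wt w v + (wt w u + 1) = (a + 1) * wt w u + 1 := by rw [← huv]; ring
      rwa [h5] at h4

/-- differences of monomials of the same weight -/
lemma mono_sub {u v : Ex} {h₁ : Poly} (huv : wt w u = wt w v)
    (hh : ∀ m ∈ h₁.support, wt w u < wt w m) {m m' : Ex} (hT : T1 u v m m') :
    R1 w (rel u v h₁) (wt w m + 1) (monomial m 1 - monomial m' 1) := by
  obtain ⟨β, a, h | h⟩ := hT
  · obtain ⟨rfl, rfl⟩ := h
    have h1 := R1.mul (GE.monomial (w := w) β 1) (pow_sub huv hh a)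
    have h2 : wt w β + (a * wt w u + 1) = wt w (β + a • u) + 1 := by
      rw [wt_add, wt_smul]; ring
    rw [h2, mul_sub, monomial_pow, monomial_pow, monomial_mul, monomial_mul, one_pow, one_mul] at h1
    exact h1
  · obtain ⟨rfl, rfl⟩ := h
    have h1 := R1.mul (GE.monomial (w := w) β (-1)) (pow_sub huv hh a)
    have h2 : wt w β + (a * wt w u + 1) = wt w (β + a • v) + 1 := by
      rw [wt_add, wt_smul, huv]; ring
    rw [h2, mul_sub, monomial_pow, monomial_pow, monomial_mul, monomial_mul, one_pow, mul_one] at h1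
    have h3 : (MvPolynomial.monomial (β + a • u) (-1) : Poly) - MvPolynomial.monomial (β + a • v) (-1) =
        MvPolynomial.monomial (β + a • v) 1 - MvPolynomial.monomial (β + a • u) 1 := by
      rw [map_neg, map_neg]; ring
    rwa [h3] at h1

lemma tendsto_mon_div {P : ℝ → Pt} (hP : ∀ i, Tendsto (fun t => P t i / t ^ w i) (𝓝[>] (0 : ℝ)) (𝓝 1))
    {m : Ex} {d : ℕ} (hd : d ≤ wt w m) :
    Tendsto (fun t => mon m (P t) / t ^ d) (𝓝[>] (0 : ℝ)) (𝓝 (if wt w m = d then 1 else 0)) := by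
  have h1 := mon_tendsto hP m
  split_ifs with h
  · rwa [h] at h1
  · have h2 : Tendsto (fun t : ℝ => t ^ (wt w m - d)) (𝓝[>] (0 : ℝ)) (𝓝 0) := by
      have h3 : Tendsto (fun t : ℝ => t ^ (wt w m - d)) (𝓝 (0 : ℝ)) (𝓝 ((0 : ℝ) ^ (wt w m - d))) :=
        (continuous_pow _).tendsto 0
      rw [zero_pow (by omega)] at h3
      exact h3.mono_left nhdsWithin_le_nhds
    have h4 := h1.mul h2
    rw [mul_zero] at h4
    refine h4.congr' ?_
    filter_upwards [self_mem_nhdsWithin] with t ht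
    have ht0 : (t : ℝ) ≠ 0 := (show (0:ℝ) < t from ht).ne'
    have h5 : t ^ wt w m = t ^ (wt w m - d) * t ^ d := by
      rw [← pow_add]; congr 1; omega
    rw [h5]
    field_simp

/-- the coefficients of the lowest weight sum to zero -/
lemma sum_zero {P : ℝ → Pt} (hP : ∀ i, Tendsto (fun t => P t i / t ^ w i) (𝓝[>] (0 : ℝ)) (𝓝 1))
    {g : Poly} {d k : ℕ} (hdk : d ≤ k) (hg : GE w d g) (hn : Neg P k g) :
    ∑ m ∈ g.support.filter (fun m => wt w m = d), coeff m g = 0 := by
  have h1 : Tendsto (fun t => ev (P t) g / t ^ d) (𝓝[>] (0 : ℝ)) (𝓝 0) := by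
    have h2 : Tendsto (fun t : ℝ => t ^ (k - d)) (𝓝[>] (0 : ℝ)) (𝓝 ((0 : ℝ) ^ (k - d))) :=
      ((continuous_pow _).tendsto 0).mono_left nhdsWithin_le_nhds
    have hn' : Tendsto (fun t => ev (P t) g / t ^ k) (𝓝[>] (0 : ℝ)) (𝓝 0) := hn
    have h3 := hn'.mul h2
    rw [zero_mul] at h3
    refine h3.congr' ?_
    filter_upwards [self_mem_nhdsWithin] with t ht
    have ht0 : (t : ℝ) ≠ 0 := (show (0:ℝ) < t from ht).ne'
    have h5 : t ^ k = t ^ (k - d) * t ^ d := by
      rw [← pow_add]; congr 1; omega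
    rw [h5]
    field_simp
  have h2 : Tendsto (fun t => ev (P t) g / t ^ d) (𝓝[>] (0 : ℝ))
      (𝓝 (∑ m ∈ g.support, coeff m g * (if wt w m = d then 1 else 0))) := by
    have h3 : Tendsto (fun t => ∑ m ∈ g.support, coeff m g * (mon m (P t) / t ^ d)) (𝓝[>] (0 : ℝ))
        (𝓝 (∑ m ∈ g.support, coeff m g * (if wt w m = d then 1 else 0))) :=
      tendsto_finsetSum _ fun m hm => (tendsto_mon_div hP (hg m hm)).const_mul _
    refine h3.congr fun t => ?_
    rw [ev_eq_sum, Finset.sum_div]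
    exact Finset.sum_congr rfl fun m _ => by ring
  have h3 := tendsto_nhds_unique h1 h2
  rw [Finset.sum_filter]
  simp only [mul_ite, mul_one, mul_zero] at h3
  exact h3.symm

/-- `h(P)` is bounded -/
lemma bdd {P : ℝ → Pt} (hw : ∀ i, 1 ≤ w i)
    (hP : ∀ i, Tendsto (fun t => P t i / t ^ w i) (𝓝[>] (0 : ℝ)) (𝓝 1)) (h : Poly) :
    ∃ H : ℝ, 0 ≤ H ∧ ∀ᶠ t in 𝓝[>] (0 : ℝ), |ev (P t) h| ≤ H := by
  have hsm : ∀ᶠ t in 𝓝[>] (0 : ℝ), ∀ i, |P t i| ≤ 1 := by
    rw [eventually_all]
    intro i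
    have h1 := (hP i).abs
    rw [abs_one] at h1
    filter_upwards [h1.eventually_lt_const (show (1 : ℝ) < 2 by norm_num), Ioo_mem_nhdsGT
      (show (0 : ℝ) < 1 / 2 by norm_num)] with t ht ht2
    have ht0 : 0 < t := ht2.1
    have h2 : 0 < t ^ w i := pow_pos ht0 _
    rw [abs_div, abs_of_pos h2, div_lt_iff₀ h2] at ht
    have h3 : t ^ w i ≤ t := pow_le_of_le_one ht0.le (by linarith [ht2.2]) (by have := hw i; omega)
    linarith [ht2.2]
  refine ⟨∑ m ∈ h.support, |coeff m h|, Finset.sum_nonneg fun m _ => abs_nonneg _, ?_⟩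
  filter_upwards [hsm] with t ht
  rw [ev_eq_sum]
  refine (Finset.abs_sum_le_sum_abs _ _).trans (Finset.sum_le_sum fun m _ => ?_)
  rw [abs_mul]
  refine mul_le_of_le_one_right (abs_nonneg _) ?_
  unfold mon
  rw [Finset.abs_prod]
  refine Finset.prod_le_one (fun i _ => abs_nonneg _) (fun i _ => ?_)
  rw [abs_pow]
  exact pow_le_one₀ (abs_nonneg _) (ht i)

lemma neg_rest {P : ℝ → Pt} {k : ℕ} (hw : ∀ i, 1 ≤ w i)
    (hP : ∀ i, Tendsto (fun t => P t i / t ^ w i) (𝓝[>] (0 : ℝ)) (𝓝 1)) {r g h g₂ : Poly}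
    (hr : Neg P k r) (hg : Neg P k g) (he : g = h * r + g₂) : Neg P k g₂ := by
  obtain ⟨H, hH0, hH⟩ := bdd hw hP h
  have h1 : Tendsto (fun t => ev (P t) h * (ev (P t) r / t ^ k)) (𝓝[>] (0 : ℝ)) (𝓝 0) := by
    rw [tendsto_zero_iff_abs_tendsto_zero]
    have hr' : Tendsto (fun t => ev (P t) r / t ^ k) (𝓝[>] (0 : ℝ)) (𝓝 0) := hr
    have h2 : Tendsto (fun t => H * |ev (P t) r / t ^ k|) (𝓝[>] (0 : ℝ)) (𝓝 0) := by
      have h3 := (hr'.abs).const_mul H
      rwa [abs_zero, mul_zero] at h3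
    refine squeeze_zero' (Eventually.of_forall fun t => abs_nonneg _) ?_ h2
    filter_upwards [hH] with t ht
    simp only [Function.comp_apply]
    rw [abs_mul]
    exact mul_le_mul_of_nonneg_right ht (abs_nonneg _)
  have hg' : Tendsto (fun t => ev (P t) g / t ^ k) (𝓝[>] (0 : ℝ)) (𝓝 0) := hg
  have h3 := hg'.sub h1
  rw [sub_zero] at h3
  refine h3.congr fun t => ?_
  have h4 : ev (P t) g = ev (P t) h * ev (P t) r + ev (P t) g₂ := by
    unfold ev
    conv_lhs => rw [he]
    rw [map_add, map_mul]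
  rw [h4]
  ring

/-- one step -/
lemma step {P : ℝ → Pt} {k d : ℕ}
    (hP : ∀ i, Tendsto (fun t => P t i / t ^ w i) (𝓝[>] (0 : ℝ)) (𝓝 1)) {u v : Ex} {h₁ : Poly}
    (huv : wt w u = wt w v) (hh : ∀ m ∈ h₁.support, wt w u < wt w m) (hdk : d ≤ k)
    (hT : ∀ m m' : Ex, m ≠ m' → wt w m = wt w m' → wt w m = d → T1 u v m m')
    {g : Poly} (hg : GE w d g) (hn : Neg P k g) : R1 w (rel u v h₁) (d + 1) g := by
  classical
  have hs := sum_zero hP hdk hg hn
  set S := g.support.filter (fun m => wt w m = d) with hS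
  have h1 : g = ∑ m ∈ S, monomial m (coeff m g) +
      ∑ m ∈ g.support.filter (fun m => ¬ wt w m = d), monomial m (coeff m g) := by
    rw [hS, Finset.sum_filter_add_sum_filter_not]
    exact (support_sum_monomial_coeff g).symm
  have h2 : R1 w (rel u v h₁) (d + 1)
      (∑ m ∈ g.support.filter (fun m => ¬ wt w m = d), monomial m (coeff m g)) := by
    refine R1.sum _ _ fun m hm => R1.of_GE ?_
    rw [Finset.mem_filter] at hm
    have h3 := hg m hm.1
    exact (GE.monomial m _).mono (by omega)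
  have h3 : R1 w (rel u v h₁) (d + 1) (∑ m ∈ S, monomial m (coeff m g)) := by
    rcases S.eq_empty_or_nonempty with h4 | ⟨m0, hm0⟩
    · rw [h4, Finset.sum_empty]; exact R1.zero _ _
    · have h5 : ∑ m ∈ S, (monomial m (coeff m g) : Poly) =
          ∑ m ∈ S, C (coeff m g) * (monomial m 1 - monomial m0 1) := by
        have h6 : ∀ m ∈ S, (C (coeff m g) : Poly) * (monomial m 1 - monomial m0 1) =
            monomial m (coeff m g) - monomial m0 (coeff m g) := by
          intro m _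
          rw [mul_sub, C_mul_monomial, C_mul_monomial, mul_one]
        rw [Finset.sum_congr rfl h6, Finset.sum_sub_distrib, ← map_sum, hs, map_zero, sub_zero]
      rw [h5]
      refine R1.sum _ _ fun m hm => ?_
      have hmd : wt w m = d := (Finset.mem_filter.1 hm).2
      have hm0d : wt w m0 = d := (Finset.mem_filter.1 hm0).2
      by_cases hmm : m = m0
      · rw [hmm, sub_self, mul_zero]; exact R1.zero _ _
      · have h7 := mono_sub (h₁ := h₁) huv hh (hT m m0 hmm (hmd.trans hm0d.symm) hmd)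
        have h8 := R1.mul (GE.C (w := w) (coeff m g)) h7
        rwa [zero_add, hmd] at h8
  rw [h1]
  exact h3.add h2

end RED1

open RED1 in
theorem t_RED1 : S_RED1 := by
  intro P w k hw hP u v h₁ huv hh hr D hD hT g hg
  have key : ∀ d ≤ D, R1 w (rel u v h₁) d g := by
    intro d
    induction d with
    | zero => exact fun _ => R1.of_GE fun _ _ => Nat.zero_le _
    | succ d ih =>
      intro hd
      obtain ⟨h, g₂, hg2, hge⟩ := ih (by omega)
      have hn := neg_rest hw hP hr hg hg2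
      obtain ⟨h', g₃, hg3, hge3⟩ := step (h₁ := h₁) hP huv hh (show d ≤ k by omega)
        (fun m m' h1 h2 h3 => hT m m' h1 h2 (by omega)) hge hn
      exact ⟨h + h', g₃, by rw [hg2, hg3]; ring, hge3⟩
  obtain ⟨h, g₂, h1, h2⟩ := key D le_rfl
  exact ⟨h, g₂, h1, h2⟩

end Pool.Agent.H734R2.SP
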