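import Pool.Agent.H734R2.SP.Stubs2

set_option autoImplicit false

namespace Pool.Agent.H734R2.SP

open MvPolynomial Filter Topology

theorem VG3_pow_tendsto {n : ℕ} (hn : 0 < n) :
    Tendsto (fun t : ℝ => t ^ n) (𝓝[>] (0 : ℝ)) (𝓝 0) := by
  have h : Tendsto (fun t : ℝ => t ^ n) (𝓝 0) (𝓝 (0 ^ n)) :=
    (continuous_pow n).tendsto 0
  rw [zero_pow (Nat.pos_iff_ne_zero.mp hn)] at h
  exact h.mono_left nhdsWithin_le_nhds

theorem VG3_lower {u : ℝ → ℝ} {q j : ℕ} {b : ℝ} (hj : j < q)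
    (h : Tendsto (fun t => u t / t ^ q) (𝓝[>] (0 : ℝ)) (𝓝 b)) :
    Tendsto (fun t => u t / t ^ j) (𝓝[>] (0 : ℝ)) (𝓝 0) := by
  have h1 := h.mul (VG3_pow_tendsto (n := q - j) (by omega))
  rw [mul_zero] at h1
  refine h1.congr' ?_
  filter_upwards [self_mem_nhdsWithin] with t ht
  have ht0 : (t : ℝ) ≠ 0 := ne_of_gt ht
  have : t ^ q = t ^ j * t ^ (q - j) := by rw [← pow_add]; congr 1; omega
  rw [this]
  field_simp

theorem VG3_uniq {u : ℝ → ℝ} {q j : ℕ} {a b : ℝ} (ha : a ≠ 0) (hb : b ≠ 0)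
    (h1 : Tendsto (fun t => u t / t ^ j) (𝓝[>] (0 : ℝ)) (𝓝 a))
    (h2 : Tendsto (fun t => u t / t ^ q) (𝓝[>] (0 : ℝ)) (𝓝 b)) : j = q := by
  rcases lt_trichotomy j q with h | h | h
  · exact absurd (tendsto_nhds_unique h1 (VG3_lower h h2)) ha
  · exact h
  · exact absurd (tendsto_nhds_unique h2 (VG3_lower h h1)) hb

theorem VG3_two {u v : ℝ → ℝ} {p q j : ℕ} {a A B : ℝ} (hpq : p ≠ q) (ha : a ≠ 0)
    (hu : (∀ t, u t = 0) ∨ (A ≠ 0 ∧ Tendsto (fun t => u t / t ^ p) (𝓝[>] (0 : ℝ)) (𝓝 A)))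
    (hv : (∀ t, v t = 0) ∨ (B ≠ 0 ∧ Tendsto (fun t => v t / t ^ q) (𝓝[>] (0 : ℝ)) (𝓝 B)))
    (h : Tendsto (fun t => (u t + v t) / t ^ j) (𝓝[>] (0 : ℝ)) (𝓝 a)) : j = p ∨ j = q := by
  rcases hu with hu | ⟨hA, hu⟩ <;> rcases hv with hv | ⟨hB, hv⟩
  · exfalso
    have : Tendsto (fun _ : ℝ => (0 : ℝ)) (𝓝[>] (0 : ℝ)) (𝓝 a) := by
      refine h.congr (fun t => ?_)
      rw [hu, hv]; simp
    exact ha (tendsto_nhds_unique this tendsto_const_nhds)
  · right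
    have h' : Tendsto (fun t => v t / t ^ j) (𝓝[>] (0 : ℝ)) (𝓝 a) := by
      refine h.congr (fun t => ?_)
      rw [hu]; simp
    exact VG3_uniq ha hB h' hv
  · left
    have h' : Tendsto (fun t => u t / t ^ j) (𝓝[>] (0 : ℝ)) (𝓝 a) := by
      refine h.congr (fun t => ?_)
      rw [hv]; simp
    exact VG3_uniq ha hA h' hu
  · rcases lt_or_gt_of_ne hpq with hlt | hlt
    · left
      have h3 := hu.add (VG3_lower hlt hv)
      rw [add_zero] at h3
      have h4 : Tendsto (fun t => (u t + v t) / t ^ p) (𝓝[>] (0 : ℝ)) (𝓝 A) := by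
        refine h3.congr (fun t => ?_)
        rw [add_div]
      exact VG3_uniq ha hA h h4
    · right
      have h3 := (VG3_lower hlt hu).add hv
      rw [zero_add] at h3
      have h4 : Tendsto (fun t => (u t + v t) / t ^ q) (𝓝[>] (0 : ℝ)) (𝓝 B) := by
        refine h3.congr (fun t => ?_)
        rw [add_div]
      exact VG3_uniq ha hB h h4

theorem VG3_poly {x : ℝ → ℝ} {c : ℝ} (hc : c ≠ 0)
    (hx : Tendsto (fun t => x t / t ^ 3) (𝓝[>] (0 : ℝ)) (𝓝 c)) (G : Polynomial ℝ) (hG : G ≠ 0) :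
    ∃ (i : ℕ) (a : ℝ), a ≠ 0 ∧
      Tendsto (fun t => G.eval (x t) / t ^ (3 * i)) (𝓝[>] (0 : ℝ)) (𝓝 a) := by
  obtain ⟨H, hH, hnd⟩ := Polynomial.exists_eq_pow_rootMultiplicity_mul_and_not_dvd G hG 0
  set i := G.rootMultiplicity 0 with hi
  have hH0 : H.eval 0 ≠ 0 := by
    intro h0
    exact hnd (Polynomial.dvd_iff_isRoot.mpr h0)
  have hx0 : Tendsto x (𝓝[>] (0 : ℝ)) (𝓝 0) := by
    have := VG3_lower (j := 0) (by norm_num) hx
    simpa using this
  have hHt : Tendsto (fun t => H.eval (x t)) (𝓝[>] (0 : ℝ)) (𝓝 (H.eval 0)) :=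
    (H.continuous.tendsto 0).comp hx0
  refine ⟨i, c ^ i * H.eval 0, mul_ne_zero (pow_ne_zero _ hc) hH0, ?_⟩
  refine ((hx.pow i).mul hHt).congr (fun t => ?_)
  rw [hH]
  simp only [map_zero, sub_zero, Polynomial.eval_mul, Polynomial.eval_pow, Polynomial.eval_X]
  rw [pow_mul, div_pow]
  ring

theorem VG3_dec {P : ℝ → Pt} {l l' : ℕ} {c1 c2 : ℝ} (hl : 1 ≤ l) (hl' : l' ≤ 2 * l) (hll : l < l')
    (h0 : Tendsto (fun t => P t 0) (𝓝[>] (0 : ℝ)) (𝓝 0))
    (h1 : Tendsto (fun t => P t 1 / t ^ l) (𝓝[>] (0 : ℝ)) (𝓝 c1))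
    (h2 : Tendsto (fun t => P t 2 / t ^ l') (𝓝[>] (0 : ℝ)) (𝓝 c2)) {j : ℕ} (hj : j < l')
    (g : Poly) : ∃ G0 G1 : Polynomial ℝ,
      Tendsto (fun t => (ev (P t) g - (G0.eval (P t 0) + G1.eval (P t 0) * P t 1)) / t ^ j)
        (𝓝[>] (0 : ℝ)) (𝓝 0) := by
  have h1z : Tendsto (fun t => P t 1) (𝓝[>] (0 : ℝ)) (𝓝 0) := by
    have := VG3_lower (j := 0) (by omega) h1
    simpa using this
  have h2z : Tendsto (fun t => P t 2) (𝓝[>] (0 : ℝ)) (𝓝 0) := by
    have := VG3_lower (j := 0) (by omega) h2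
    simpa using this
  have hP : Tendsto P (𝓝[>] (0 : ℝ)) (𝓝 0) := by
    rw [tendsto_pi_nhds]
    intro i
    fin_cases i
    · exact h0
    · exact h1z
    · exact h2z
  have hg (p : Poly) : Tendsto (fun t => ev (P t) p) (𝓝[>] (0 : ℝ)) (𝓝 (ev 0 p)) :=
    ((MvPolynomial.continuous_eval p).tendsto 0).comp hP
  induction g using MvPolynomial.induction_on with
  | C a =>
    refine ⟨Polynomial.C a, 0, ?_⟩
    refine tendsto_const_nhds.congr (fun t => ?_)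
    simp
  | add p q hp hq =>
    obtain ⟨G0, G1, hG⟩ := hp
    obtain ⟨H0, H1, hH⟩ := hq
    refine ⟨G0 + H0, G1 + H1, ?_⟩
    have := hG.add hH
    rw [add_zero] at this
    refine this.congr (fun t => ?_)
    simp only [ev, map_add, Polynomial.eval_add]
    ring
  | mul_X p i hp =>
    obtain ⟨G0, G1, hG⟩ := hp
    fin_cases i
    · refine ⟨G0 * Polynomial.X, G1 * Polynomial.X, ?_⟩
      have := hG.mul h0
      rw [zero_mul] at this
      refine this.congr (fun t => ?_)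
      simp only [ev, map_mul, MvPolynomial.eval_X, Polynomial.eval_mul, Polynomial.eval_X,
        Fin.zero_eta, Fin.isValue]
      ring
    · refine ⟨0, G0, ?_⟩
      have e1 := hG.mul h1z
      rw [zero_mul] at e1
      have e2 : Tendsto (fun t => (P t 1 * P t 1) / t ^ (2 * l)) (𝓝[>] (0 : ℝ)) (𝓝 (c1 * c1)) := by
        refine (h1.mul h1).congr (fun t => ?_)
        rw [two_mul, pow_add]
        ring
      have e3 := VG3_lower (j := j) (by omega) e2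
      have e4 : Tendsto (fun t => G1.eval (P t 0)) (𝓝[>] (0 : ℝ)) (𝓝 (G1.eval 0)) :=
        (G1.continuous.tendsto 0).comp h0
      have e5 := e1.add (e4.mul e3)
      rw [mul_zero, add_zero] at e5
      refine e5.congr (fun t => ?_)
      simp only [ev, map_mul, MvPolynomial.eval_X, Polynomial.eval_zero,
        Fin.mk_one, Fin.isValue]
      ring
    · refine ⟨0, 0, ?_⟩
      have e3 := VG3_lower (j := j) hj h2
      have e5 := (hg p).mul e3
      rw [mul_zero] at e5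
      refine e5.congr (fun t => ?_)
      simp only [ev, map_mul, MvPolynomial.eval_X, Polynomial.eval_zero,
        Fin.reduceFinMk, Fin.isValue]
      ring

theorem VG3_wt (w : Fin 3 → ℕ) (x : Fin 3 → ℕ) :
    wt w (Finsupp.equivFunOnFinite.symm x) = w 0 * x 0 + w 1 * x 1 + w 2 * x 2 := by
  simp [wt, Fin.sum_univ_three]

theorem t_VG3 : S_VG3 := by
  intro _ P _ w c k hw0 hw01 hw12 hw22 hm1 hm2 hm12 hc hlim g j a _ ha hg
  have key : (∃ i, j = 3 * i) ∨ (∃ i, j = 3 * i + w 1) ∨ (∃ i, j = 3 * i + w 2) := by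
    by_cases hj : j < w 2
    · have h3 : Tendsto (fun t => P t 0 / t ^ 3) (𝓝[>] (0 : ℝ)) (𝓝 (c 0)) := by
        have := hlim 0
        rwa [hw0] at this
      have h0 : Tendsto (fun t => P t 0) (𝓝[>] (0 : ℝ)) (𝓝 0) := by
        have := VG3_lower (j := 0) (by norm_num) h3
        simpa using this
      obtain ⟨G0, G1, hG⟩ := VG3_dec (l := w 1) (l' := w 2) (by omega) hw22 hw12 h0 (hlim 1)
        (hlim 2) hj g
      have hs := hg.sub hG
      rw [sub_zero] at hs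
      have hs' : Tendsto (fun t => (G0.eval (P t 0) + G1.eval (P t 0) * P t 1) / t ^ j)
          (𝓝[>] (0 : ℝ)) (𝓝 a) := by
        refine hs.congr (fun t => ?_)
        ring
      have hu : ∃ (i : ℕ) (A : ℝ), (∀ t, G0.eval (P t 0) = 0) ∨ (A ≠ 0 ∧
          Tendsto (fun t => G0.eval (P t 0) / t ^ (3 * i)) (𝓝[>] (0 : ℝ)) (𝓝 A)) := by
        by_cases h : G0 = 0
        · exact ⟨0, 0, Or.inl (fun t => by rw [h]; simp)⟩
        · obtain ⟨i, A, hA, hi⟩ := VG3_poly (hc 0) h3 G0 h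
          exact ⟨i, A, Or.inr ⟨hA, hi⟩⟩
      have hv : ∃ (i : ℕ) (B : ℝ), (∀ t, G1.eval (P t 0) * P t 1 = 0) ∨ (B ≠ 0 ∧
          Tendsto (fun t => G1.eval (P t 0) * P t 1 / t ^ (3 * i + w 1)) (𝓝[>] (0 : ℝ))
            (𝓝 B)) := by
        by_cases h : G1 = 0
        · exact ⟨0, 0, Or.inl (fun t => by rw [h]; simp)⟩
        · obtain ⟨i, B, hB, hi⟩ := VG3_poly (hc 0) h3 G1 h
          refine ⟨i, B * c 1, Or.inr ⟨mul_ne_zero hB (hc 1), ?_⟩⟩
          refine (hi.mul (hlim 1)).congr (fun t => ?_)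
          rw [pow_add]
          ring
      obtain ⟨i, A, hu⟩ := hu
      obtain ⟨i', B, hv⟩ := hv
      rcases VG3_two (by omega) ha hu hv hs' with h | h
      · exact Or.inl ⟨i, h⟩
      · exact Or.inr (Or.inl ⟨i', h⟩)
    · have hcase : j % 3 = 0 ∨ j % 3 = w 1 % 3 ∨ j % 3 = w 2 % 3 := by omega
      rcases hcase with h | h | h
      · exact Or.inl ⟨j / 3, by omega⟩
      · exact Or.inr (Or.inl ⟨(j - w 1) / 3, by omega⟩)
      · exact Or.inr (Or.inr ⟨(j - w 2) / 3, by omega⟩)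
  rcases key with ⟨i, hi⟩ | ⟨i, hi⟩ | ⟨i, hi⟩
  · refine ⟨Finsupp.equivFunOnFinite.symm ![i, 0, 0], ?_⟩
    rw [VG3_wt]
    simp [hw0, hi]
  · refine ⟨Finsupp.equivFunOnFinite.symm ![i, 1, 0], ?_⟩
    rw [VG3_wt]
    simp [hw0, hi]
  · refine ⟨Finsupp.equivFunOnFinite.symm ![i, 0, 1], ?_⟩
    rw [VG3_wt]
    simp [hw0, hi]

end Pool.Agent.H734R2.SP
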