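import Pool.Agent.H734R2.SP.Stubs2

set_option autoImplicit false

namespace Pool.Agent.H734R2.SP

open MvPolynomial Filter Topology

theorem vgm_tend_pow (n : ℕ) : Tendsto (fun t : ℝ => t ^ n) (𝓝[>] (0 : ℝ)) (𝓝 ((0 : ℝ) ^ n)) :=
  ((continuous_pow n).tendsto 0).mono_left nhdsWithin_le_nhds

/-- a polynomial whose quotient by `t ^ j` tends to a nonzero limit has a coefficient at `j` -/
theorem vgm_coeff (q : Polynomial ℝ) (j : ℕ) (a : ℝ) (ha : a ≠ 0)
    (h : Tendsto (fun t => q.eval t / t ^ j) (𝓝[>] (0 : ℝ)) (𝓝 a)) : q.coeff j ≠ 0 := by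
  have hq : q ≠ 0 := by
    rintro rfl
    simp only [Polynomial.eval_zero, zero_div] at h
    exact ha (tendsto_nhds_unique h tendsto_const_nhds)
  obtain ⟨r, hr, hnd⟩ := Polynomial.exists_eq_pow_rootMultiplicity_mul_and_not_dvd q hq 0
  set n := Polynomial.rootMultiplicity 0 q with hn
  rw [Polynomial.C_0, sub_zero] at hr
  have hr0 : r.eval 0 ≠ 0 := fun h0 => hnd (Polynomial.dvd_iff_isRoot.2 h0)
  have hrc : Tendsto (fun t => r.eval t) (𝓝[>] (0 : ℝ)) (𝓝 (r.eval 0)) :=
    (r.continuous.tendsto 0).mono_left nhdsWithin_le_nhds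
  have hev : ∀ t : ℝ, q.eval t = t ^ n * r.eval t := by
    intro t
    conv_lhs => rw [hr]
    simp
  have hnj : n = j := by
    rcases lt_trichotomy n j with hlt | heq | hgt
    · exfalso
      have h1 := h.mul (vgm_tend_pow (j - n))
      rw [zero_pow (by omega), mul_zero] at h1
      have h2 : Tendsto (fun t => r.eval t) (𝓝[>] (0 : ℝ)) (𝓝 0) := by
        refine h1.congr' ?_
        filter_upwards [self_mem_nhdsWithin] with t ht
        have ht0 : (t : ℝ) ≠ 0 := ne_of_gt ht
        have : (t : ℝ) ^ j = t ^ n * t ^ (j - n) := by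
          rw [← pow_add]; congr 1; omega
        rw [hev t, this]
        field_simp
      exact hr0 (tendsto_nhds_unique hrc h2)
    · exact heq
    · exfalso
      have h1 := hrc.mul (vgm_tend_pow (n - j))
      rw [zero_pow (by omega), mul_zero] at h1
      have h2 : Tendsto (fun t => q.eval t / t ^ j) (𝓝[>] (0 : ℝ)) (𝓝 0) := by
        refine h1.congr' ?_
        filter_upwards [self_mem_nhdsWithin] with t ht
        have ht0 : (t : ℝ) ≠ 0 := ne_of_gt ht
        have : (t : ℝ) ^ n = t ^ j * t ^ (n - j) := by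
          rw [← pow_add]; congr 1; omega
        rw [hev t, this]
        field_simp
      exact ha (tendsto_nhds_unique h h2)
  have : q.coeff j = r.eval 0 := by
    conv_lhs => rw [hr, hnj]
    rw [Polynomial.coeff_X_pow_mul', if_pos le_rfl, Nat.sub_self, Polynomial.coeff_zero_eq_eval_zero]
  rw [this]
  exact hr0

theorem t_VGM : S_VGM := by
  intro hLIP P hP w c k hw hlim g j a hj ha hg
  obtain ⟨K, hK, hLip⟩ := hLIP g
  set y : ℝ → Pt := fun t i => c i * t ^ w i with hy
  -- difference is o(t^j)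
  have hP1 : ∀ᶠ t in 𝓝[>] (0 : ℝ), ∀ i, |P t i| ≤ 1 := by
    rw [Filter.eventually_all]
    intro i
    have h1 : Tendsto (fun t => P t i) (𝓝 0) (𝓝 (P 0 i)) := (hP.1 i).continuousAt
    have h2 : P 0 i = 0 := by rw [hP.2]; rfl
    rw [h2] at h1
    have h3 : Tendsto (fun t => |P t i|) (𝓝 0) (𝓝 0) := by simpa using h1.abs
    exact ((h3.eventually_lt_const one_pos).mono fun t h => h.le).filter_mono nhdsWithin_le_nhds
  have hy1 : ∀ᶠ t in 𝓝[>] (0 : ℝ), ∀ i, |y t i| ≤ 1 := by
    rw [Filter.eventually_all]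
    intro i
    have h1 : Tendsto (fun t => |y t i|) (𝓝[>] (0 : ℝ)) (𝓝 0) := by
      have := ((vgm_tend_pow (w i)).const_mul (c i)).abs
      rw [zero_pow (by have := hw i; omega), mul_zero, abs_zero] at this
      exact this
    exact (h1.eventually_lt_const one_pos).mono fun t h => h.le
  have hdiff : Tendsto (fun t => (ev (P t) g - ev (y t) g) / t ^ j) (𝓝[>] (0 : ℝ)) (𝓝 0) := by
    rw [Metric.tendsto_nhds]
    intro ε hε
    have hc : ∀ᶠ t in 𝓝[>] (0 : ℝ), ∀ i, |(P t i - c i * t ^ w i) / t ^ k| < ε / (2 * K) := by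
      rw [Filter.eventually_all]
      intro i
      have h3 : Tendsto (fun t => |(P t i - c i * t ^ w i) / t ^ k|) (𝓝[>] (0 : ℝ)) (𝓝 0) := by
        simpa using (hlim i).abs
      exact h3.eventually_lt_const (by positivity)
    filter_upwards [hP1, hy1, hc, self_mem_nhdsWithin, Ioo_mem_nhdsGT one_pos]
      with t h1 h2 h3 ht0 ht1
    have ht : 0 < t := ht0
    have htk : 0 < t ^ k := pow_pos ht k
    have htj : 0 < t ^ j := pow_pos ht j
    have h4 : ∀ i, |P t i - y t i| ≤ ε / (2 * K) * t ^ k := by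
      intro i
      have := h3 i
      rw [abs_div, abs_of_pos htk, div_lt_iff₀ htk] at this
      exact this.le
    have h5 := hLip (P t) (y t) _ h1 h2 h4
    have h6 : t ^ k ≤ t ^ j := pow_le_pow_of_le_one ht.le ht1.2.le hj
    rw [Real.dist_eq, sub_zero, abs_div, abs_of_pos htj, div_lt_iff₀ htj]
    calc |ev (P t) g - ev (y t) g| ≤ K * (ε / (2 * K) * t ^ k) := h5
      _ = ε / 2 * t ^ k := by field_simp
      _ ≤ ε / 2 * t ^ j := by gcongr
      _ < ε * t ^ j := by
          apply mul_lt_mul_of_pos_right _ htj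
          linarith
  have hyl : Tendsto (fun t => ev (y t) g / t ^ j) (𝓝[>] (0 : ℝ)) (𝓝 a) := by
    have := hg.sub hdiff
    rw [sub_zero] at this
    refine this.congr fun t => ?_
    ring
  set q : Polynomial ℝ := ∑ m ∈ g.support, Polynomial.monomial (wt w m) (coeff m g * mon m c)
    with hq
  have hqe : ∀ t : ℝ, q.eval t = ev (y t) g := by
    intro t
    show _ = MvPolynomial.eval (y t) g
    rw [hq, Polynomial.eval_finsetSum, MvPolynomial.eval_eq']
    refine Finset.sum_congr rfl fun m _ => ?_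
    rw [Polynomial.eval_monomial, mul_assoc]
    congr 1
    simp only [hy, mul_pow, Finset.prod_mul_distrib, mon, wt, ← pow_mul, Finset.prod_pow_eq_pow_sum]
  have hcoef : q.coeff j ≠ 0 := by
    refine vgm_coeff q j a ha ?_
    simpa only [hqe] using hyl
  by_contra hno
  push Not at hno
  apply hcoef
  rw [hq, Polynomial.finsetSum_coeff]
  refine Finset.sum_eq_zero fun m _ => ?_
  rw [Polynomial.coeff_monomial, if_neg (hno m)]

end Pool.Agent.H734R2.SP
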