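import Pool.Agent.H734R2.SP.Part1
import Pool.Agent.H734R2.SP.NMALL
import Pool.Agent.H734R2.SP.NM0
import Pool.Agent.H734R2.SP.NM1
import Pool.Agent.H734R2.SP.NM2
import Pool.Agent.H734R2.SP.ND
import Pool.Agent.H734R2.SP.NORM
import Pool.Agent.H734R2.SP.EXP
import Pool.Agent.H734R2.SP.LAT
import Pool.Agent.H734R2.SP.RED0
import Pool.Agent.H734R2.SP.RED1
import Pool.Agent.H734R2.SP.CLO
import Pool.Agent.H734R2.SP.NEGQ
import Pool.Agent.H734R2.SP.INTER
import Pool.Agent.H734R2.SP.PTB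
import Pool.Agent.H734R2.SP.MONO
import Pool.Agent.H734R2.SP.PATH
import Pool.Agent.H734R2.SP.POS1
import Pool.Agent.H734R2.SP.LINR
import Pool.Agent.H734R2.SP.NEAR
import Pool.Agent.H734R2.SP.POS2
import Pool.Agent.H734R2.SP.MATCH
import Pool.Agent.H734R2.SP.MUL3
import Pool.Agent.H734R2.SP.VG3
import Pool.Agent.H734R2.SP.VGM

set_option autoImplicit false

/-! Assembly of the second part. -/

namespace Pool.Agent.H734R2.SP

open MvPolynomial Filter Topology

theorem normal_case (f : Poly) (P Q : ℝ → Pt) (h : NS f P Q) (w : Fin 3 → ℕ) (k : ℕ) (F : ℝ)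
    (hN : Norm f P w k F) (hc : VG P w k ∨ ∀ m ∈ f.support, k ≤ wt w m) : Join f P Q := by
  rcases hc with hv | hd
  · exact t_NMALL t_EXP t_EVA t_LAT (t_NM0 t_RED0 t_CLO t_INTER t_PTB t_POS1)
      (t_NM1 t_RED1 t_CLO t_NEGQ t_INTER t_PTB t_MONO t_PATH t_POS1)
      (t_NM2 t_RED1 t_CLO t_NEGQ t_INTER t_PTB t_MONO t_PATH t_LINR t_NEAR t_POS2 t_MATCH)
      f P Q h w k F hN hv
  · exact t_ND t_CLO t_INTER t_PTB f P Q h w k F hN hd

theorem general_case (f : Poly) (P Q : ℝ → Pt) (h : NS f P Q) (w : Fin 3 → ℕ) (c : Fin 3 → ℝ)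
    (k : ℕ) (F : ℝ) (hw : ∀ i, 1 ≤ w i) (hc : ∀ i, c i ≠ 0)
    (hl : ∀ i, Tendsto (fun t => P t i / t ^ w i) (𝓝[>] (0 : ℝ)) (𝓝 (c i))) (hF : 0 < F)
    (hk : Tendsto (fun t => ev (P t) f / t ^ k) (𝓝[>] (0 : ℝ)) (𝓝 F))
    (hv : VG P w k ∨ ∀ m ∈ f.support, k ≤ wt w m) : Join f P Q :=
  t_NORM t_EVA t_ORD t_AUT coore_case normal_case f P Q h w c k F hw hc hl hF hk hv

/-- monomial arcs up to `o(f)` -/
theorem monomial_case (f : Poly) (P Q : ℝ → Pt) (h : NS f P Q) (w : Fin 3 → ℕ) (c : Fin 3 → ℝ)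
    (hw : ∀ i, 1 ≤ w i)
    (hm : ∀ ε > 0, ∀ᶠ t in 𝓝[>] (0 : ℝ), ∀ i, |P t i - c i * t ^ w i| ≤ ε * ev (P t) f) :
    Join f P Q := by
  obtain ⟨k, F, hF, hk⟩ := exists_order f P Q h
  by_cases hc : ∃ i, c i = 0 ∨ k < w i
  · obtain ⟨i, hi⟩ := hc
    refine coore_case f P Q h i ?_
    rcases hi with hi | hi
    · intro ε hε
      filter_upwards [hm ε hε] with t ht
      have := ht i
      rwa [hi, zero_mul, sub_zero] at this
    · have hsm : ∀ ε > 0, ∀ᶠ t in 𝓝[>] (0 : ℝ), |c i * t ^ w i| ≤ ε * ev (P t) f := by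
        refine small_of_pow f P k F hF hk _ (|c i|) ?_
        have h1 : ∀ᶠ t in 𝓝[>] (0 : ℝ), t < 1 :=
          (gt_mem_nhds (by norm_num : (0:ℝ) < 1)).filter_mono nhdsWithin_le_nhds
        filter_upwards [h1, self_mem_nhdsWithin] with t t1 t0
        have t0' : (0:ℝ) < t := t0
        rw [abs_mul, abs_of_pos (pow_pos t0' _)]
        exact mul_le_mul_of_nonneg_left (pow_le_pow_of_le_one t0'.le t1.le hi) (abs_nonneg _)
      intro ε hε
      filter_upwards [hm (ε / 2) (by linarith), hsm (ε / 2) (by linarith)] with t t1 t2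
      have := t1 i
      calc |P t i| = |(P t i - c i * t ^ w i) + c i * t ^ w i| := by ring_nf
        _ ≤ |P t i - c i * t ^ w i| + |c i * t ^ w i| := abs_add_le _ _
        _ ≤ ε * ev (P t) f := by linarith
  · push Not at hc
    have hc0 : ∀ i, c i ≠ 0 := fun i => (hc i).1
    have hwk : ∀ i, w i ≤ k := fun i => (hc i).2
    have hneg : ∀ i, Tendsto (fun t => (P t i - c i * t ^ w i) / t ^ k) (𝓝[>] (0 : ℝ)) (𝓝 0) := by
      intro i
      rw [Metric.tendsto_nhds]
      intro δ hδ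
      have h2 : ∀ᶠ t in 𝓝[>] (0 : ℝ), ev (P t) f / t ^ k < 2 * F :=
        hk.eventually (gt_mem_nhds (by linarith))
      filter_upwards [hm (δ / (4 * F)) (by positivity), h2, self_mem_nhdsWithin] with t t1 t2 t0
      have t0' : (0:ℝ) < t := t0
      have hkp : 0 < t ^ k := pow_pos t0' k
      rw [Real.dist_eq, sub_zero, abs_div, abs_of_pos hkp, div_lt_iff₀ hkp]
      rw [div_lt_iff₀ hkp] at t2
      calc |P t i - c i * t ^ w i| ≤ δ / (4 * F) * ev (P t) f := t1 i
        _ ≤ δ / (4 * F) * (2 * F * t ^ k) := mul_le_mul_of_nonneg_left t2.le (by positivity)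
        _ = δ / 2 * t ^ k := by field_simp; ring
        _ < δ * t ^ k := by
            apply mul_lt_mul_of_pos_right _ hkp; linarith
    have hlim : ∀ i, Tendsto (fun t => P t i / t ^ w i) (𝓝[>] (0 : ℝ)) (𝓝 (c i)) := by
      intro i
      have hp : Tendsto (fun t : ℝ => t ^ (k - w i)) (𝓝[>] (0 : ℝ)) (𝓝 (0 ^ (k - w i))) :=
        ((continuous_pow _).tendsto 0).mono_left nhdsWithin_le_nhds
      have := ((hneg i).mul hp).add_const (c i)
      rw [zero_mul, zero_add] at this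
      refine this.congr' ?_
      filter_upwards [self_mem_nhdsWithin] with t t0
      have t0' : (t:ℝ) ≠ 0 := ne_of_gt t0
      have e : t ^ k = t ^ w i * t ^ (k - w i) := by
        rw [← pow_add]; congr 1; have := hwk i; omega
      rw [e]
      field_simp
      ring
    exact general_case f P Q h w c k F hw hc0 hlim hF hk
      (Or.inl (t_VGM t_LIP P h.hP w c k hw hneg))

open POW in
theorem ExO.tendsto {u : ℝ → ℝ} {k : ℕ} (h : ExO u k) :
    ∃ a : ℝ, a ≠ 0 ∧ Tendsto (fun t => u t / t ^ k) (𝓝[>] (0 : ℝ)) (𝓝 a) := by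
  obtain ⟨g, hg, h0, he⟩ := h
  refine ⟨g 0, h0, ?_⟩
  have : Tendsto g (𝓝[>] (0 : ℝ)) (𝓝 (g 0)) := hg.continuousAt.tendsto.mono_left nhdsWithin_le_nhds
  refine this.congr' ?_
  filter_upwards [nhdsWithin_le_nhds he, self_mem_nhdsWithin] with t t1 t0
  have t0' : (t:ℝ) ≠ 0 := ne_of_gt t0
  rw [t1]; field_simp

/-- a coordinate of the arc has order at most 3 -/
def LowMult3 (P : ℝ → Pt) : Prop :=
  ∃ (i : Fin 3) (n : ℕ), 1 ≤ n ∧ n ≤ 3 ∧ iteratedDeriv n (fun t => P t i) 0 ≠ 0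

open POW in
theorem mult3_case (f : Poly) (P Q : ℝ → Pt) (h : NS f P Q) (hL : LowMult3 P) : Join f P Q := by
  by_cases h2 : LowMult P
  · exact low_case f P Q h h2
  obtain ⟨k, F, hF, hk⟩ := exists_order f P Q h
  have hd : ∀ i, deriv (fun t => P t i) 0 = 0 ∧ iteratedDeriv 2 (fun t => P t i) 0 = 0 := by
    intro i
    unfold LowMult at h2
    push Not at h2
    exact h2 i
  have hP0 : ∀ j, P 0 j = 0 := fun j => by rw [h.hP.2]; rfl
  have hge : ∀ i, GeO (fun t => P t i) 3 := by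
    intro i
    rw [geo_iff (h.hP.1 i), natCast_le_analyticOrderAt_iff_iteratedDeriv_eq_zero (h.hP.1 i)]
    intro j hj
    interval_cases j
    · simpa using hP0 i
    · simpa using (hd i).1
    · exact (hd i).2
  obtain ⟨i, n, hn1, hn3, hn⟩ := hL
  have hn' : n = 3 := by
    interval_cases n
    · exact absurd (by simpa using (hd i).1) hn
    · exact absurd (hd i).2 hn
    · rfl
  subst hn'
  have hex : ExO (fun t => P t i) 3 := by
    rcases (hge i).exact_or with h3 | h3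
    · exact h3
    · exfalso
      rw [geo_iff (h.hP.1 i), natCast_le_analyticOrderAt_iff_iteratedDeriv_eq_zero (h.hP.1 i)] at h3
      exact hn (h3 3 (by norm_num))
  obtain ⟨a, ha, hat⟩ := ExO.tendsto hex
  rcases t_MUL3 t_EVA t_ORD P h.hP ⟨i, a, ha, hat⟩ (fun j => bound (hge j)) (k + 1) with hG | hG
  · exact graphAll_case f P Q h k F hF hk hG
  · obtain ⟨e, φ₁, φ₂, ψ, l, l', a₀, a₁, a₂, h10, h20, ha0, ha1, ha2, hl3, hll, hl2, hm1, hm2, hm3,
      t0, t1, t2⟩ := hG
    -- the change of coordinates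
    let B : Fin 3 → Poly := ![X (e 0), X (e 1) - Polynomial.aeval (X (e 0)) φ₁,
      X (e 2) - Polynomial.aeval (X (e 0)) φ₂ -
        Polynomial.aeval (X (e 0)) ψ * (X (e 1) - Polynomial.aeval (X (e 0)) φ₁)]
    let A : Fin 3 → Poly := fun i => ![X 0, X 1 + Polynomial.aeval (X 0) φ₁,
      X 2 + Polynomial.aeval (X 0) φ₂ + Polynomial.aeval (X 0) ψ * X 1] (e.symm i)
    have evp : ∀ (x : Pt) (j : Fin 3) (φ : Polynomial ℝ),
        ev x (Polynomial.aeval (X j : Poly) φ) = φ.eval (x j) := by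
      intro x j φ
      have := Polynomial.hom_eval₂ φ (algebraMap ℝ Poly) (MvPolynomial.eval x : Poly →+* ℝ) (X j)
      rw [Polynomial.aeval_def]
      simp only [ev]
      rw [this]
      have e1 : ((MvPolynomial.eval x : Poly →+* ℝ).comp (algebraMap ℝ Poly)) = RingHom.id ℝ := by
        ext r; simp [MvPolynomial.algebraMap_eq]
      rw [e1, MvPolynomial.eval_X, Polynomial.eval₂_id]
    have eB0 : ∀ x : Pt, ev x (B 0) = x (e 0) := fun x => by simp [B, ev]
    have eB1 : ∀ x : Pt, ev x (B 1) = x (e 1) - φ₁.eval (x (e 0)) := fun x => by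
      have := evp x (e 0) φ₁
      simp only [B, ev, Matrix.cons_val_one, Matrix.cons_val_zero, map_sub, MvPolynomial.eval_X] at this ⊢
      rw [this]
    have eB2 : ∀ x : Pt, ev x (B 2) = x (e 2) - φ₂.eval (x (e 0)) -
        ψ.eval (x (e 0)) * (x (e 1) - φ₁.eval (x (e 0))) := fun x => by
      have r1 := evp x (e 0) φ₁
      have r2 := evp x (e 0) φ₂
      have r3 := evp x (e 0) ψ
      simp only [ev] at r1 r2 r3
      simp only [B, ev, Matrix.cons_val, map_sub, map_mul, MvPolynomial.eval_X, r1, r2, r3]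
    have eA : ∀ (y : Pt) (j : Fin 3), ev y (A (e j)) = (![y 0, y 1 + φ₁.eval (y 0),
        y 2 + φ₂.eval (y 0) + ψ.eval (y 0) * y 1] : Fin 3 → ℝ) j := by
      intro y j
      have r1 := evp y 0 φ₁
      have r2 := evp y 0 φ₂
      have r3 := evp y 0 ψ
      simp only [ev] at r1 r2 r3
      fin_cases j <;>
        simp [A, ev, r1, r2, r3]
    have hAB : ∀ x : Pt, (fun i => ev (fun j => ev x (B j)) (A i)) = x := by
      intro x
      have hj : ∀ j, ev (fun j => ev x (B j)) (A (e j)) = x (e j) := by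
        intro j
        rw [eA]
        fin_cases j
        · simp [eB0]
        · simp [eB0, eB1]
        · simp [eB0, eB1, eB2]
          ring
      funext i
      have := hj (e.symm i)
      simpa using this
    have hB0 : ∀ i, ev 0 (B i) = 0 := by
      intro i
      fin_cases i
      · simpa using eB0 0
      · have := eB1 0
        simp only [Pi.zero_apply, h10, sub_zero] at this
        simpa using this
      · have := eB2 0
        simp only [Pi.zero_apply, h10, h20, sub_zero, mul_zero] at this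
        simpa using this
    obtain ⟨hNS, hJ⟩ := t_AUT t_EVA A B hAB hB0 f P Q h
    apply hJ
    have hk' : Tendsto (fun t => ev ((fun t i => ev (P t) (B i)) t) (bind₁ A f) / t ^ k)
        (𝓝[>] (0 : ℝ)) (𝓝 F) := by
      refine hk.congr fun t => ?_
      congr 1
      have hx := hAB (P t)
      have : ev (fun i => ev (P t) (B i)) (bind₁ A f) =
          ev (fun i => ev (fun j => ev (P t) (B j)) (A i)) f := by
        simp only [ev, MvPolynomial.eval, MvPolynomial.eval₂Hom_bind₁]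
      rw [this, hx]
    have hlim : ∀ i : Fin 3, Tendsto (fun t => (fun t i => ev (P t) (B i)) t i / t ^ (![3, l, l'] : Fin 3 → ℕ) i)
        (𝓝[>] (0 : ℝ)) (𝓝 ((![a₀, a₁, a₂] : Fin 3 → ℝ) i)) := by
      intro i
      fin_cases i
      · refine t0.congr fun t => ?_
        show _ = ev (P t) (B 0) / t ^ 3
        rw [eB0]
      · refine t1.congr fun t => ?_
        show _ = ev (P t) (B 1) / t ^ l
        rw [eB1]
      · refine t2.congr fun t => ?_
        show _ = ev (P t) (B 2) / t ^ l'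
        rw [eB2]
    have hcne : ∀ i, (![a₀, a₁, a₂] : Fin 3 → ℝ) i ≠ 0 := by
      intro i; fin_cases i <;> simpa
    refine general_case _ _ _ hNS ![3, l, l'] ![a₀, a₁, a₂] k F ?_ hcne hlim hF hk' (Or.inl ?_)
    · intro i; fin_cases i <;> simp <;> omega
    · exact t_VG3 t_EVA _ hNS.hP ![3, l, l'] ![a₀, a₁, a₂] k rfl hl3 hll hl2 hm1 hm2 hm3 hcne hlim

end Pool.Agent.H734R2.SP
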