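import Pool.Agent.H734R2.SP.Stubs3
import Pool.Agent.H734R2.SP.LIN
import Pool.Agent.H734R2.SP.CHAIN
import Pool.Agent.H734R2.SP.COEF
import Pool.Agent.H734R2.SP.PUSH
import Pool.Agent.H734R2.SP.GRAD
import Pool.Agent.H734R2.SP.HPOS
import Pool.Agent.H734R2.SP.IMP
import Pool.Agent.H734R2.SP.CONC
import Pool.Agent.H734R2.SP.HN1
import Pool.Agent.H734R2.SP.HN2
import Pool.Agent.H734R2.SP.HNEG0
import Pool.Agent.H734R2.SP.HNEG
import Pool.Agent.H734R2.SP.DIAG
import Pool.Agent.H734R2.SP.OFF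
import Pool.Agent.H734R2.SP.LOWF

set_option autoImplicit false

/-! Assembly of the third part. -/

namespace Pool.Agent.H734R2.SP

open MvPolynomial Filter Topology

theorem lib_all : Lib where
  tri := t_TRI
  eva := t_EVA
  dich := t_DICH t_TRI t_EVA
  lip := t_LIP
  aut := t_AUT t_EVA
  coor := coor_case
  order := exists_order

/-- every pair of arcs is fine if `f` has a monomial of degree at most two -/
theorem double_case (f : Poly) (P Q : ℝ → Pt) (h : NS f P Q)
    (hm : ∃ m ∈ f.support, ∑ i, m i ≤ 2) : Join f P Q := by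
  have hpush : S_PUSH := t_PUSH lib_all
  have hgrad : S_GRAD := t_GRAD lib_all t_LIN hpush
  have hhpos : S_HPOS := t_HPOS lib_all t_LIN hpush
  have himp : S_IMP := t_IMP t_LIP t_LIN
  have hconc : S_CONC := t_CONC t_LIP t_LIN
  have hn0 : S_HNEG0 := t_HNEG0 lib_all (t_HN1 lib_all hconc) (t_HN2 lib_all)
  have hneg : S_HNEG := t_HNEG lib_all t_CHAIN himp hn0
  have hdiag : S_DIAG := t_DIAG lib_all hgrad hhpos hneg
  have hoff : S_OFF := t_OFF lib_all t_CHAIN hdiag
  exact t_LOWF t_COEF hgrad hoff f P Q h hm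

end Pool.Agent.H734R2.SP
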