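import Pool.Agent.H734R2.SP.Stubs4

set_option autoImplicit false

/-! Fifth part: `f` convex in one direction. -/

namespace Pool.Agent.H734R2.SP

open MvPolynomial Filter Topology

/-- CONV: convexity in the third direction near the origin -/
def S_CONV : Prop := ∀ f : Poly, (∀ᶠ x in 𝓝 (0 : Pt), 0 ≤ ev x (pderiv 2 (pderiv 2 f))) →
  ∃ ρ : ℝ, 0 < ρ ∧ ρ ≤ 1 / 2 ∧ ∀ x y z z' : ℝ, |x| ≤ ρ → |y| ≤ ρ → |z| ≤ ρ → |z'| ≤ ρ →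
    ev ![x, y, z] f + (z' - z) * ev ![x, y, z] (pderiv 2 f) ≤ ev ![x, y, z'] f

/-- CMOV: moving an arc to the plane `z = σ ρ` -/
def S_CMOV : Prop := ∀ (f : Poly) (P : ℝ → Pt) (ρ σ : ℝ), Arc P →
  (∀ᶠ t in 𝓝[>] (0 : ℝ), 0 < ev (P t) f) → 0 < ρ → ρ ≤ 1 / 2 → (σ = 1 ∨ σ = -1) →
  (∀ x y z z' : ℝ, |x| ≤ ρ → |y| ≤ ρ → |z| ≤ ρ → |z'| ≤ ρ →
    ev ![x, y, z] f + (z' - z) * ev ![x, y, z] (pderiv 2 f) ≤ ev ![x, y, z'] f) →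
  (∀ᶠ t in 𝓝[>] (0 : ℝ), - (1 / 2) * ev (P t) f ≤ σ * ev (P t) (pderiv 2 f)) →
  (∀ᶠ t in 𝓝[>] (0 : ℝ), ev (P t) f / 2 ≤ ev ![P t 0, P t 1, σ * ρ] f) ∧
  (∀ᶠ t in 𝓝[>] (0 : ℝ), JoinedIn (Pos f) (P t) ![P t 0, P t 1, σ * ρ])

/-- CVX: `f` convex in the third direction near the origin -/
def S_CVX : Prop := ∀ (f : Poly) (P Q : ℝ → Pt), NS f P Q →
  (∀ᶠ x in 𝓝 (0 : Pt), 0 ≤ ev x (pderiv 2 (pderiv 2 f))) → Join f P Q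

end Pool.Agent.H734R2.SP
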