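import Pool.Agent.H734R2.SP.Part3
import Pool.Agent.H734R2.SP.Stubs5
import Pool.Agent.H734R2.SP.PLK
import Pool.Agent.H734R2.SP.CONV
import Pool.Agent.H734R2.SP.CMOV
import Pool.Agent.H734R2.SP.CVX

set_option autoImplicit false

/-! Assembly of the fifth part. -/

namespace Pool.Agent.H734R2.SP

open MvPolynomial Filter Topology

/-- every pair of arcs is fine if `f` is convex in the third direction near the origin -/
theorem convex_case (f : Poly) (P Q : ℝ → Pt) (h : NS f P Q)
    (hc : ∀ᶠ x in 𝓝 (0 : Pt), 0 ≤ ev x (pderiv 2 (pderiv 2 f))) : Join f P Q :=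
  t_CVX lib_all (t_CONV t_LIN) t_CMOV (t_PLK lib_all) f P Q h hc

end Pool.Agent.H734R2.SP
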