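import Pool.Agent.H734R2.SP.Stubs6

set_option autoImplicit false

namespace Pool.Agent.H734R2.SP

open MvPolynomial Filter Topology

theorem RIDG_vec (v : Pt) : ![v 0, v 1, v 2] = v := by
  funext i
  fin_cases i <;> rfl

theorem RIDG_small (P : ℝ → Pt) (hP : Arc P) (m : ℝ) (hm : 0 < m) :
    ∀ᶠ t in 𝓝[>] (0 : ℝ), ∀ i, |P t i| ≤ m := by
  rw [Filter.eventually_all]
  intro i
  have h1 : Tendsto (fun t => |P t i|) (𝓝 0) (𝓝 |P 0 i|) := (hP.1 i).continuousAt.abs
  rw [hP.2] at h1
  have h2 : |(0 : Pt) i| = 0 := by simp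
  rw [h2] at h1
  have h3 := h1.eventually (Iic_mem_nhds hm)
  exact nhdsWithin_le_nhds h3

theorem RIDG_deriv (hl : S_LIN) (f : Poly) (x y z : ℝ) :
    HasDerivAt (fun z : ℝ => ev ![x, y, z] f) (ev ![x, y, z] (pderiv 2 f)) z := by
  have h := hl f ![x, y, 0] ![0, 0, 1] z
  have e : ∀ r : ℝ, (![x, y, 0] + r • ![0, 0, 1] : Pt) = ![x, y, r] := by
    intro r
    funext i
    fin_cases i <;> simp
  simp only [e] at h
  rw [Fin.sum_univ_three] at h
  simpa using h

theorem RIDG_main (hl : S_LIN) (f : Poly) (ρ x y z θ : ℝ) (hx : |x| ≤ ρ) (hy : |y| ≤ ρ)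
    (hz : |z| ≤ ρ) (hθ : θ ∈ Set.Icc (0 : ℝ) 1)
    (H : ∀ z : ℝ, |z| ≤ ρ → z * ev ![x, y, z] (pderiv 2 f) ≤ 0) :
    ev ![x, y, z] f ≤ ev ![x, y, θ * z] f := by
  have hd := RIDG_deriv hl f x y
  have hc : Continuous (fun z : ℝ => ev ![x, y, z] f) :=
    continuous_iff_continuousAt.2 fun z => (hd z).continuousAt
  have hz' := abs_le.1 hz
  rcases le_total 0 z with h0 | h0
  · have ha : AntitoneOn (fun z : ℝ => ev ![x, y, z] f) (Set.Icc 0 z) := by
      apply antitoneOn_of_deriv_nonpos (convex_Icc 0 z) hc.continuousOn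
      · intro u _
        exact (hd u).differentiableAt.differentiableWithinAt
      · intro u hu
        rw [interior_Icc] at hu
        rw [(hd u).deriv]
        have h1 := H u (by rw [abs_of_pos hu.1]; linarith [hu.2])
        by_contra hcon
        push Not at hcon
        have := mul_pos hu.1 hcon
        linarith
    have h1 : θ * z ≤ z := by nlinarith [hθ.2]
    have h2 : 0 ≤ θ * z := mul_nonneg hθ.1 h0
    exact ha ⟨h2, h1⟩ ⟨h0, le_rfl⟩ h1
  · have ha : MonotoneOn (fun z : ℝ => ev ![x, y, z] f) (Set.Icc z 0) := by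
      apply monotoneOn_of_deriv_nonneg (convex_Icc z 0) hc.continuousOn
      · intro u _
        exact (hd u).differentiableAt.differentiableWithinAt
      · intro u hu
        rw [interior_Icc] at hu
        rw [(hd u).deriv]
        have h1 := H u (by rw [abs_of_neg hu.2]; linarith [hu.1])
        by_contra hcon
        push Not at hcon
        have := mul_pos_of_neg_of_neg hu.2 hcon
        linarith
    have h1 : z ≤ θ * z := by nlinarith [hθ.2]
    have h2 : θ * z ≤ 0 := mul_nonpos_of_nonneg_of_nonpos hθ.1 h0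
    exact ha ⟨le_rfl, h0⟩ ⟨h1, h2⟩ h1

theorem t_RIDG (hl : S_LIN) : S_RIDG := by
  intro f P ρ hP hpos hρ H
  have E := RIDG_small P hP ρ hρ
  have key : ∀ᶠ t in 𝓝[>] (0 : ℝ), ∀ θ ∈ Set.Icc (0 : ℝ) 1,
      ev (P t) f ≤ ev ![P t 0, P t 1, θ * P t 2] f := by
    filter_upwards [E] with t h1 θ hθ
    have h2 := RIDG_main hl f ρ (P t 0) (P t 1) (P t 2) θ (h1 0) (h1 1) (h1 2) hθ
      (fun z hz => H (P t 0) (P t 1) z (h1 0) (h1 1) hz)
    rwa [RIDG_vec (P t)] at h2
  refine ⟨?_, ?_⟩
  · filter_upwards [hpos, key] with t h2 h3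
    have h4 := h3 0 ⟨le_rfl, zero_le_one⟩
    rw [zero_mul] at h4
    linarith
  · filter_upwards [hpos, key] with t h2 h3
    apply JoinedIn.symm
    refine JoinedIn.ofLine (f := fun θ : ℝ => (![P t 0, P t 1, θ * P t 2] : Pt)) ?_ ?_ ?_ ?_
    · apply Continuous.continuousOn
      apply continuous_pi
      intro i
      fin_cases i
      · exact continuous_const
      · exact continuous_const
      · exact continuous_id.mul continuous_const
    · simp
    · show (![P t 0, P t 1, 1 * P t 2] : Pt) = P t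
      rw [one_mul]
      exact RIDG_vec _
    · rintro _ ⟨θ, hθ, rfl⟩
      show 0 < ev ![P t 0, P t 1, θ * P t 2] f
      exact h2.trans_le (h3 θ hθ)

end Pool.Agent.H734R2.SP
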