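import Pool.Agent.H734R2.SP.Stubs5

set_option autoImplicit false

/-! Sixth part: `f` monotone or unimodal in one direction. -/

namespace Pool.Agent.H734R2.SP

open MvPolynomial Filter Topology

/-- GEN: both arcs can be moved to the plane `z = κ` -/
def S_GEN : Prop := ∀ (f : Poly) (P Q : ℝ → Pt) (κ : ℝ), NS f P Q →
  (∀ᶠ t in 𝓝[>] (0 : ℝ), ev (P t) f / 2 ≤ ev ![P t 0, P t 1, κ] f) →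
  (∀ᶠ t in 𝓝[>] (0 : ℝ), ev (Q t) f / 2 ≤ ev ![Q t 0, Q t 1, κ] f) →
  (∀ᶠ t in 𝓝[>] (0 : ℝ), JoinedIn (Pos f) (P t) ![P t 0, P t 1, κ]) →
  (∀ᶠ t in 𝓝[>] (0 : ℝ), JoinedIn (Pos f) (Q t) ![Q t 0, Q t 1, κ]) → Join f P Q

/-- MONU: `f` nondecreasing in `z` near the origin -/
def S_MONU : Prop := ∀ (f : Poly) (P : ℝ → Pt) (ρ : ℝ), Arc P →
  (∀ᶠ t in 𝓝[>] (0 : ℝ), 0 < ev (P t) f) → 0 < ρ →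
  (∀ x y z : ℝ, |x| ≤ ρ → |y| ≤ ρ → |z| ≤ ρ → 0 ≤ ev ![x, y, z] (pderiv 2 f)) →
  (∀ᶠ t in 𝓝[>] (0 : ℝ), ev (P t) f / 2 ≤ ev ![P t 0, P t 1, ρ] f) ∧
  (∀ᶠ t in 𝓝[>] (0 : ℝ), JoinedIn (Pos f) (P t) ![P t 0, P t 1, ρ])

/-- RIDG: `f` nondecreasing in `z` for `z ≤ 0`, nonincreasing for `z ≥ 0` -/
def S_RIDG : Prop := ∀ (f : Poly) (P : ℝ → Pt) (ρ : ℝ), Arc P →
  (∀ᶠ t in 𝓝[>] (0 : ℝ), 0 < ev (P t) f) → 0 < ρ →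
  (∀ x y z : ℝ, |x| ≤ ρ → |y| ≤ ρ → |z| ≤ ρ → z * ev ![x, y, z] (pderiv 2 f) ≤ 0) →
  (∀ᶠ t in 𝓝[>] (0 : ℝ), ev (P t) f / 2 ≤ ev ![P t 0, P t 1, 0] f) ∧
  (∀ᶠ t in 𝓝[>] (0 : ℝ), JoinedIn (Pos f) (P t) ![P t 0, P t 1, 0])

end Pool.Agent.H734R2.SP
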