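import Pool.Agent.H734R2.SP.Part5
import Pool.Agent.H734R2.SP.Stubs6
import Pool.Agent.H734R2.SP.GEN
import Pool.Agent.H734R2.SP.MONU
import Pool.Agent.H734R2.SP.RIDG

set_option autoImplicit false

/-! Assembly of the sixth part. -/

namespace Pool.Agent.H734R2.SP

open MvPolynomial Filter Topology

/-- `f` nondecreasing in the third direction near the origin -/
theorem mono_case (f : Poly) (P Q : ℝ → Pt) (h : NS f P Q) (ρ : ℝ) (hρ : 0 < ρ)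
    (hb : ∀ x y z : ℝ, |x| ≤ ρ → |y| ≤ ρ → |z| ≤ ρ → 0 ≤ ev ![x, y, z] (pderiv 2 f)) :
    Join f P Q := by
  obtain ⟨a1, a2⟩ := t_MONU t_LIN f P ρ h.hP h.fP hρ hb
  obtain ⟨b1, b2⟩ := t_MONU t_LIN f Q ρ h.hQ h.fQ hρ hb
  exact t_GEN lib_all (t_PLK lib_all) f P Q ρ h a1 b1 a2 b2

/-- `f` unimodal in the third direction near the origin, with ridge `z = 0` -/
theorem ridge_case (f : Poly) (P Q : ℝ → Pt) (h : NS f P Q) (ρ : ℝ) (hρ : 0 < ρ)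
    (hb : ∀ x y z : ℝ, |x| ≤ ρ → |y| ≤ ρ → |z| ≤ ρ → z * ev ![x, y, z] (pderiv 2 f) ≤ 0) :
    Join f P Q := by
  obtain ⟨a1, a2⟩ := t_RIDG t_LIN f P ρ h.hP h.fP hρ hb
  obtain ⟨b1, b2⟩ := t_RIDG t_LIN f Q ρ h.hQ h.fQ hρ hb
  exact t_GEN lib_all (t_PLK lib_all) f P Q 0 h a1 b1 a2 b2

end Pool.Agent.H734R2.SP
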