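import Pool.Agent.H734R2.SP.Defs

set_option autoImplicit false

/-!
Statements of the tasks.  Task `XX` is: prove `theorem t_XX : S_XX` in the file
`Pool/Agent/H734R2/SP/XX.lean`, namespace `Pool.Agent.H734R2.SP`, importing this file.
-/

namespace Pool.Agent.H734R2.SP

open MvPolynomial Filter Topology

/-- TRI: sign trichotomy of analytic germs on the right -/
def S_TRI : Prop := ∀ u : ℝ → ℝ, AnalyticAt ℝ u 0 →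
  (∀ᶠ t in 𝓝[>] (0 : ℝ), 0 < u t) ∨ (∀ᶠ t in 𝓝[>] (0 : ℝ), u t = 0) ∨
    (∀ᶠ t in 𝓝[>] (0 : ℝ), u t < 0)

/-- EVA: polynomials along arcs are analytic, and tend to their value at 0 -/
def S_EVA : Prop := ∀ P : ℝ → Pt, Arc P → ∀ g : Poly, AnalyticAt ℝ (fun t => ev (P t) g) 0

/-- NSI: no separating polynomial implies `NS` -/
def S_NSI : Prop := S_TRI → S_EVA → ∀ (f : Poly) (P Q : ℝ → Pt), Arc P → Arc Q →
  ev 0 f = 0 → (∀ᶠ t in 𝓝[>] (0 : ℝ), 0 < ev (P t) f) →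
  (∀ᶠ t in 𝓝[>] (0 : ℝ), 0 < ev (Q t) f) →
  (¬ ∃ g : Poly, ∀ᶠ t in 𝓝[>] (0 : ℝ), ev (P t) f ≤ ev (P t) g ∧ ev (Q t) g ≤ 0) →
  NS f P Q

/-- DICH: every polynomial is either negligible against `f` on both arcs, or at least of the
size of `f` and of the same sign on both arcs -/
def S_DICH : Prop := S_TRI → S_EVA → ∀ (f : Poly) (P Q : ℝ → Pt), NS f P Q → ∀ g : Poly,
  (∀ ε > 0, (∀ᶠ t in 𝓝[>] (0 : ℝ), |ev (P t) g| ≤ ε * ev (P t) f) ∧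
      (∀ᶠ t in 𝓝[>] (0 : ℝ), |ev (Q t) g| ≤ ε * ev (Q t) f)) ∨
  (∃ c > 0, (∀ᶠ t in 𝓝[>] (0 : ℝ), c * ev (P t) f ≤ ev (P t) g) ∧
      (∀ᶠ t in 𝓝[>] (0 : ℝ), c * ev (Q t) f ≤ ev (Q t) g)) ∨
  (∃ c > 0, (∀ᶠ t in 𝓝[>] (0 : ℝ), c * ev (P t) f ≤ - ev (P t) g) ∧
      (∀ᶠ t in 𝓝[>] (0 : ℝ), c * ev (Q t) f ≤ - ev (Q t) g))

/-- LEMA: a polynomial all of whose derivatives (up to the degree) have the same strict sign at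
both ends of an interval has no zero on it -/
def S_LEMA : Prop := ∀ (G : Polynomial ℝ) (N : ℕ) (L R : ℝ), L ≤ R → G.natDegree ≤ N →
  (∀ k ≤ N, 0 < (Polynomial.derivative^[k] G).eval L * (Polynomial.derivative^[k] G).eval R) →
  0 < G.eval L → ∀ y ∈ Set.Icc L R, 0 < G.eval y

/-- LEMB: the perturbed version -/
def S_LEMB : Prop := ∀ (F : Polynomial ℝ) (L R ε c : ℝ), L ≤ R → R - L ≤ 1 / 2 →
  0 < ε → ε ≤ c / 16 → ε ≤ 1 / 16 → 0 < F.eval L → 0 < F.eval R →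
  (∀ k : ℕ, 1 ≤ k →
    (|(Polynomial.derivative^[k] F).eval L| ≤ ε * F.eval L ∧
      |(Polynomial.derivative^[k] F).eval R| ≤ ε * F.eval R) ∨
    (c * F.eval L ≤ (Polynomial.derivative^[k] F).eval L ∧
      c * F.eval R ≤ (Polynomial.derivative^[k] F).eval R) ∨
    (c * F.eval L ≤ - (Polynomial.derivative^[k] F).eval L ∧
      c * F.eval R ≤ - (Polynomial.derivative^[k] F).eval R)) →
  ∀ y ∈ Set.Icc L R, 0 < F.eval y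

/-- DIR: Taylor polynomials of `f` on lines of direction `w` -/
def S_DIR : Prop := ∀ (f : Poly) (w : Pt), ∃ D : ℕ → Poly, D 0 = f ∧ (∃ N, ∀ k > N, D k = 0) ∧
  ∀ q : Pt, ∃ F : Polynomial ℝ, ∀ (k : ℕ) (r : ℝ),
    (Polynomial.derivative^[k] F).eval r = ev (q + r • w) (D k)

/-- SEG: segments of a fixed direction between the two arcs lie in `f > 0` -/
def S_SEG : Prop := S_TRI → S_EVA → S_DICH → S_LEMB → S_DIR →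
  ∀ (f : Poly) (P Q : ℝ → Pt), NS f P Q → ∀ w : Pt,
  ∃ ε > 0, ∀ s ∈ Set.Ioo (0 : ℝ) ε, ∀ t ∈ Set.Ioo (0 : ℝ) ε, ∀ r : ℝ, P s = Q t + r • w →
    JoinedIn (Pos f) (P s) (Q t)

/-- LIP: polynomials are Lipschitz near the origin -/
def S_LIP : Prop := ∀ g : Poly, ∃ K : ℝ, 0 < K ∧ ∀ (x y : Pt) (δ : ℝ), (∀ i, |x i| ≤ 1) →
  (∀ i, |y i| ≤ 1) → (∀ i, |x i - y i| ≤ δ) → |ev x g - ev y g| ≤ K * δ

/-- CONG: `NS` and `Join` do not see changes of the arcs that are `o(f)` -/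
def S_CONG : Prop := S_LIP → ∀ (f : Poly) (P Q P' Q' : ℝ → Pt), NS f P Q → Arc P' → Arc Q' →
  (∀ ε > 0, ∀ᶠ t in 𝓝[>] (0 : ℝ), ∀ i, |P' t i - P t i| ≤ ε * ev (P t) f) →
  (∀ ε > 0, ∀ᶠ t in 𝓝[>] (0 : ℝ), ∀ i, |Q' t i - Q t i| ≤ ε * ev (Q t) f) →
  NS f P' Q' ∧ (Join f P' Q' → Join f P Q)

/-- AUT: invariance under polynomial changes of coordinates (`a ∘ b = id`) -/
def S_AUT : Prop := S_EVA → ∀ (A B : Fin 3 → Poly),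
  (∀ x : Pt, (fun i => ev (fun j => ev x (B j)) (A i)) = x) → (∀ i, ev 0 (B i) = 0) →
  ∀ (f : Poly) (P Q : ℝ → Pt), NS f P Q →
    NS (bind₁ A f) (fun t i => ev (P t) (B i)) (fun t i => ev (Q t) (B i)) ∧
    (Join (bind₁ A f) (fun t i => ev (P t) (B i)) (fun t i => ev (Q t) (B i)) → Join f P Q)

/-- REP: invariance under reparametrisation of the first arc -/
def S_REP : Prop := S_TRI → S_EVA → ∀ (θ : ℝ → ℝ), AnalyticAt ℝ θ 0 → θ 0 = 0 →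
  (∀ᶠ t in 𝓝[>] (0 : ℝ), 0 < θ t) → ∀ (f : Poly) (P Q : ℝ → Pt), NS f P Q →
    NS f (fun t => P (θ t)) Q ∧ (Join f (fun t => P (θ t)) Q → Join f P Q)

/-- PLANE: the two-dimensional case -/
def S_PLANE : Prop := S_TRI → S_EVA → S_DICH → S_SEG → S_LIP →
  ∀ (f : Poly) (P Q : ℝ → Pt), NS f P Q → (∀ t, P t 2 = 0) → (∀ t, Q t 2 = 0) →
  (∃ C : ℝ, ∀ᶠ t in 𝓝[>] (0 : ℝ), |P t 1| ≤ C * |P t 0|) → Join f P Q

/-- ORD: the order comparison of two analytic germs, and lower bound by a power -/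
def S_ORD : Prop := (∀ u v : ℝ → ℝ, AnalyticAt ℝ u 0 → AnalyticAt ℝ v 0 →
    (∃ C : ℝ, ∀ᶠ t in 𝓝[>] (0 : ℝ), |u t| ≤ C * |v t|) ∨
      (∃ C : ℝ, ∀ᶠ t in 𝓝[>] (0 : ℝ), |v t| ≤ C * |u t|)) ∧
  (∀ u : ℝ → ℝ, AnalyticAt ℝ u 0 → (∀ᶠ t in 𝓝[>] (0 : ℝ), 0 < u t) →
    ∃ (n : ℕ) (c : ℝ), 0 < c ∧ Tendsto (fun t => u t / t ^ n) (𝓝[>] (0 : ℝ)) (𝓝 c))

/-- the third coordinate (after a permutation `e`) is a polynomial in the other two up to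
`o(f)` along the arc -/
def Graph (f : Poly) (P : ℝ → Pt) : Prop :=
  ∃ (e : Equiv.Perm (Fin 3)) (Φ : MvPolynomial (Fin 2) ℝ), MvPolynomial.eval (0 : Fin 2 → ℝ) Φ = 0 ∧
    ∀ ε > 0, ∀ᶠ t in 𝓝[>] (0 : ℝ),
      |P t (e 2) - MvPolynomial.eval ![P t (e 0), P t (e 1)] Φ| ≤ ε * ev (P t) f

/-- COOR: one coordinate is `o(f)` along `P` -/
def S_COOR : Prop := S_TRI → S_EVA → S_DICH → S_LIP → S_CONG → S_AUT → S_PLANE → S_ORD →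
  ∀ (f : Poly) (P Q : ℝ → Pt), NS f P Q →
  (∀ ε > 0, ∀ᶠ t in 𝓝[>] (0 : ℝ), |P t 2| ≤ ε * ev (P t) f) → Join f P Q

/-- GRAPH: the graph case -/
def S_GRAPH : Prop := S_AUT → (∀ (f : Poly) (P Q : ℝ → Pt), NS f P Q →
  (∀ ε > 0, ∀ᶠ t in 𝓝[>] (0 : ℝ), |P t 2| ≤ ε * ev (P t) f) → Join f P Q) →
  ∀ (f : Poly) (P Q : ℝ → Pt), NS f P Q → Graph f P → Join f P Q

/-- a coordinate of the arc has order at most 2 -/
def LowMult (P : ℝ → Pt) : Prop :=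
  ∃ i, deriv (fun t => P t i) 0 ≠ 0 ∨ iteratedDeriv 2 (fun t => P t i) 0 ≠ 0

/-- POW: approximation along arcs with a coordinate of order at most 2 -/
def S_POW : Prop := ∀ P : ℝ → Pt, Arc P → LowMult P → ∀ N : ℕ,
  ∃ (e : Equiv.Perm (Fin 3)) (Φ : MvPolynomial (Fin 2) ℝ), MvPolynomial.eval (0 : Fin 2 → ℝ) Φ = 0 ∧
    ∃ C : ℝ, ∀ᶠ t in 𝓝[>] (0 : ℝ),
      |P t (e 2) - MvPolynomial.eval ![P t (e 0), P t (e 1)] Φ| ≤ C * t ^ N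

/-- MON0: monomial arcs, reduced form -/
def S_MON0 : Prop := S_EVA → S_DICH → S_LIP → ∀ (f : Poly) (P Q : ℝ → Pt), NS f P Q →
  ∀ (c : Fin 3 → ℝ) (w : Fin 3 → ℕ), (∀ i, 1 ≤ w i) → (∀ t i, P t i = c i * t ^ w i) →
  (∀ i, (∀ t, c i = 0 ∧ Q t i = 0) ∨ (c i ≠ 0 ∧ ∀ᶠ t in 𝓝[>] (0 : ℝ), 0 < Q t i / c i)) →
  Join f P Q

/-- MON: monomial arcs -/
def S_MON : Prop := S_TRI → S_EVA → S_DICH → S_LIP → S_CONG → S_ORD →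
  (∀ (f : Poly) (P Q : ℝ → Pt), NS f P Q →
    ∀ (c : Fin 3 → ℝ) (w : Fin 3 → ℕ), (∀ i, 1 ≤ w i) → (∀ t i, P t i = c i * t ^ w i) →
    (∀ i, (∀ t, c i = 0 ∧ Q t i = 0) ∨ (c i ≠ 0 ∧ ∀ᶠ t in 𝓝[>] (0 : ℝ), 0 < Q t i / c i)) →
    Join f P Q) →
  ∀ (f : Poly) (P Q : ℝ → Pt), NS f P Q →
  ∀ (c : Fin 3 → ℝ) (w : Fin 3 → ℕ), (∀ i, 1 ≤ w i) →
  (∀ ε > 0, ∀ᶠ t in 𝓝[>] (0 : ℝ), ∀ i, |P t i - c i * t ^ w i| ≤ ε * ev (P t) f) →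
  Join f P Q

end Pool.Agent.H734R2.SP
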