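import Pool.Agent.H734R2.SP.Stubs

set_option autoImplicit false

/-!
Second part: arcs whose value semigroup (up to the order `k` of `f` on the arc) is generated by
the orders of the coordinates.  Task `XX` is: prove `theorem t_XX : S_XX` in the file
`Pool/Agent/H734R2/SP/XX.lean`, namespace `Pool.Agent.H734R2.SP`, importing this file.
-/

namespace Pool.Agent.H734R2.SP

open MvPolynomial Filter Topology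

/-- exponents -/
abbrev Ex := Fin 3 →₀ ℕ

/-- the weight of an exponent -/
def wt (w : Fin 3 → ℕ) (m : Ex) : ℕ := ∑ i, w i * m i

/-- the value of a monomial -/
noncomputable def mon (m : Ex) (x : Pt) : ℝ := ∏ i, x i ^ m i

/-- `P i ~ t ^ w i`, `f(P) ~ F t ^ k` -/
structure Norm (f : Poly) (P : ℝ → Pt) (w : Fin 3 → ℕ) (k : ℕ) (F : ℝ) : Prop where
  w1 : ∀ i, 1 ≤ w i
  wk : ∀ i, w i ≤ k
  lim : ∀ i, Tendsto (fun t => P t i / t ^ w i) (𝓝[>] (0 : ℝ)) (𝓝 1)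
  F0 : 0 < F
  flim : Tendsto (fun t => ev (P t) f / t ^ k) (𝓝[>] (0 : ℝ)) (𝓝 F)

/-- `g(P) = o(t^k)` -/
def Neg (P : ℝ → Pt) (k : ℕ) (g : Poly) : Prop :=
  Tendsto (fun t => ev (P t) g / t ^ k) (𝓝[>] (0 : ℝ)) (𝓝 0)

/-- the orders `≤ k` of polynomials along `P` are weights of monomials -/
def VG (P : ℝ → Pt) (w : Fin 3 → ℕ) (k : ℕ) : Prop :=
  ∀ (g : Poly) (j : ℕ) (a : ℝ), j ≤ k → a ≠ 0 →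
    Tendsto (fun t => ev (P t) g / t ^ j) (𝓝[>] (0 : ℝ)) (𝓝 a) → ∃ m : Ex, wt w m = j

/-- the binomial-type relation with leading part `X^u - X^v` -/
noncomputable def rel (u v : Ex) (h : Poly) : Poly := monomial u 1 - monomial v 1 - h

/-- the pair `m, m'` comes from the pair `u, v` -/
def T1 (u v m m' : Ex) : Prop :=
  ∃ (β : Ex) (a : ℕ), (m = β + a • u ∧ m' = β + a • v) ∨ (m = β + a • v ∧ m' = β + a • u)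

/-- points at which monomials behave as along the arc -/
def Close (w : Fin 3 → ℕ) (k K : ℕ) (ε : ℝ) (x : Pt) : Prop :=
  (∀ i, 0 < x i) ∧
  (∀ m m' : Ex, wt w m' ≤ K → wt w m ≤ k → wt w m < wt w m' → mon m' x ≤ ε * mon m x) ∧
  (∀ m m' : Ex, wt w m ≤ k → wt w m = wt w m' → |mon m x - mon m' x| ≤ ε * mon m x)

/-- logarithmic interpolation from `q` (at `κ = 0`) to `p` (at `κ = 1`), with coordinate `c`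
multiplied by `1 + η` -/
noncomputable def pt (c : Fin 3) (p q : Pt) (κ η : ℝ) : Pt :=
  fun i => (q i) ^ (1 - κ) * (p i) ^ κ * (if i = c then 1 + η else 1)

/-- EXP -/
def S_EXP : Prop := S_EVA → ∀ (P : ℝ → Pt) (w : Fin 3 → ℕ) (k : ℕ), Arc P → (∀ i, 1 ≤ w i) →
  (∀ i, Tendsto (fun t => P t i / t ^ w i) (𝓝[>] (0 : ℝ)) (𝓝 1)) → VG P w k →
  ∀ (g : Poly) (d : ℕ), Neg P d g →
    ∃ h : Poly, (∀ m ∈ h.support, d < wt w m) ∧ Neg P k (g - h)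

/-- LAT -/
def S_LAT : Prop := ∀ w : Fin 3 → ℕ, (∀ i, 1 ≤ w i) → ∀ u v : Ex, u ≠ v → wt w u = wt w v →
  (∀ m m' : Ex, m ≠ m' → wt w m = wt w m' → wt w u ≤ wt w m) →
  (∀ i, u i = 0 ∨ v i = 0) ∧
  ∀ m m' : Ex, wt w m = wt w m' →
    (∃ p q : ℤ, q ≠ 0 ∧ ∀ i, q * ((m i : ℤ) - (m' i : ℤ)) = p * ((u i : ℤ) - (v i : ℤ))) →
    T1 u v m m'

/-- RED0 -/
def S_RED0 : Prop := ∀ (P : ℝ → Pt) (w : Fin 3 → ℕ) (k : ℕ), (∀ i, 1 ≤ w i) →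
  (∀ i, Tendsto (fun t => P t i / t ^ w i) (𝓝[>] (0 : ℝ)) (𝓝 1)) →
  (∀ m m' : Ex, wt w m = wt w m' → wt w m ≤ k → m = m') →
  ∀ g : Poly, Neg P k g → ∀ m ∈ g.support, k < wt w m

/-- RED1 -/
def S_RED1 : Prop := ∀ (P : ℝ → Pt) (w : Fin 3 → ℕ) (k : ℕ), (∀ i, 1 ≤ w i) →
  (∀ i, Tendsto (fun t => P t i / t ^ w i) (𝓝[>] (0 : ℝ)) (𝓝 1)) →
  ∀ (u v : Ex) (h₁ : Poly), wt w u = wt w v → (∀ m ∈ h₁.support, wt w u < wt w m) →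
  Neg P k (rel u v h₁) → ∀ D : ℕ, D ≤ k + 1 →
  (∀ m m' : Ex, m ≠ m' → wt w m = wt w m' → wt w m < D → T1 u v m m') →
  ∀ g : Poly, Neg P k g →
    ∃ h g₂ : Poly, g = h * rel u v h₁ + g₂ ∧ ∀ m ∈ g₂.support, D ≤ wt w m

/-- CLO -/
def S_CLO : Prop := ∀ (f : Poly) (P Q : ℝ → Pt), NS f P Q → ∀ (w : Fin 3 → ℕ) (k : ℕ) (F : ℝ),
  Norm f P w k F → ∀ (K : ℕ) (ε : ℝ), 0 < ε →
  (∀ᶠ t in 𝓝[>] (0 : ℝ), Close w k K ε (P t)) ∧ (∀ᶠ t in 𝓝[>] (0 : ℝ), Close w k K ε (Q t))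

/-- NEGQ -/
def S_NEGQ : Prop := ∀ (f : Poly) (P Q : ℝ → Pt), NS f P Q → ∀ (w : Fin 3 → ℕ) (k : ℕ) (F : ℝ),
  Norm f P w k F → ∀ M : Ex, wt w M = k → ∀ g : Poly, Neg P k g → ∀ ε : ℝ, 0 < ε →
  (∀ᶠ t in 𝓝[>] (0 : ℝ), |ev (P t) g| ≤ ε * mon M (P t)) ∧
  (∀ᶠ t in 𝓝[>] (0 : ℝ), |ev (Q t) g| ≤ ε * mon M (Q t))

/-- INTER -/
def S_INTER : Prop := ∀ (w : Fin 3 → ℕ) (k K : ℕ) (c : Fin 3), (∀ i, 1 ≤ w i) → ∀ ε' : ℝ, 0 < ε' →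
  ∃ ε > 0, ∃ η₀ > 0, η₀ ≤ 1 / 2 ∧ ∀ p q : Pt, Close w k K ε p → Close w k K ε q →
    ∀ κ ∈ Set.Icc (0 : ℝ) 1, ∀ η : ℝ, |η| ≤ η₀ → Close w k K ε' (pt c p q κ η)

/-- PTB: elementary facts on `pt` -/
def S_PTB : Prop := ∀ (c : Fin 3) (p q : Pt), (∀ i, 0 < p i) → (∀ i, 0 < q i) →
  pt c p q 0 0 = q ∧ pt c p q 1 0 = p ∧
  (∀ κ ∈ Set.Icc (0 : ℝ) 1, ∀ η : ℝ, |η| ≤ 1 / 2 → (∀ i, p i ≤ 1) → (∀ i, q i ≤ 1) →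
    ∀ i, 0 < pt c p q κ η i ∧ pt c p q κ η i ≤ 2) ∧
  (∀ (m : Ex) (κ η : ℝ), -1 < η →
    mon m (pt c p q κ η) = (mon m q) ^ (1 - κ) * (mon m p) ^ κ * (1 + η) ^ m c) ∧
  Continuous (fun z : ℝ × ℝ => pt c p q z.1 z.2) ∧
  (∀ i, i ≠ c → p i = q i → ∀ κ η : ℝ, pt c p q κ η i = p i)

/-- MONO -/
def S_MONO : Prop := S_PTB → ∀ (w : Fin 3 → ℕ) (k : ℕ) (c : Fin 3), (∀ i, 1 ≤ w i) →
  ∀ (u v : Ex) (h₁ : Poly), wt w u = wt w v → wt w u ≤ k → (∀ m ∈ h₁.support, wt w u < wt w m) →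
  1 ≤ u c → v c = 0 → ∀ η₀ : ℝ, 0 < η₀ → η₀ ≤ 1 / 2 →
  ∃ (K : ℕ) (ε : ℝ), 0 < ε ∧ ∀ p q : Pt, Close w k K ε p → Close w k K ε q →
    ∀ κ ∈ Set.Icc (0 : ℝ) 1,
      StrictMonoOn (fun η => ev (pt c p q κ η) (rel u v h₁)) (Set.Icc (-η₀) η₀) ∧
      ev (pt c p q κ (-η₀)) (rel u v h₁) < 0 ∧ 0 < ev (pt c p q κ η₀) (rel u v h₁)

/-- PATH: following the zero of a function increasing in the second variable -/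
def S_PATH : Prop := ∀ (Φ : ℝ × ℝ → ℝ) (a : ℝ), Continuous Φ → 0 < a →
  (∀ κ ∈ Set.Icc (0 : ℝ) 1, StrictMonoOn (fun η => Φ (κ, η)) (Set.Icc (-a) a) ∧
    Φ (κ, -a) < 0 ∧ 0 < Φ (κ, a)) →
  JoinedIn {z : ℝ × ℝ | z.1 ∈ Set.Icc (0 : ℝ) 1 ∧ |z.2| ≤ a ∧
    (Φ z = 0 ∨ (z.1 = 0 ∧ |Φ z| ≤ |Φ (0, 0)|) ∨ (z.1 = 1 ∧ |Φ z| ≤ |Φ (1, 0)|))} (0, 0) (1, 0)

/-- POS1 -/
def S_POS1 : Prop := ∀ (w : Fin 3 → ℕ) (k : ℕ), (∀ i, 1 ≤ w i) →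
  ∀ (f h g₂ r : Poly) (F : ℝ) (M : Ex), 0 < F → wt w M = k →
  f = monomial M F + h * r + g₂ → (∀ m ∈ g₂.support, k < wt w m) →
  ∃ (K : ℕ) (ε : ℝ), 0 < ε ∧ ∀ x : Pt, (∀ i, x i ≤ 2) → Close w k K ε x →
    |ev x r| ≤ ε * mon M x → 0 < ev x f

/-- LINR -/
def S_LINR : Prop := ∀ (w : Fin 3 → ℕ) (k : ℕ), (∀ i, 1 ≤ w i) → ∀ a b c : Fin 3,
  a ≠ b → a ≠ c → b ≠ c →
  ∀ (u v : Ex) (h₁ : Poly), wt w u = wt w v → wt w u ≤ k → (∀ m ∈ h₁.support, wt w u < wt w m) →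
  ∃ (K : ℕ) (C : ℝ), 0 < C ∧ ∀ ε : ℝ, 0 < ε → ε ≤ 1 → ∀ p : Pt, Close w k K ε p →
    ∀ δ₁ δ₂ : ℝ, |δ₁| ≤ ε → |δ₂| ≤ ε → ∀ x : Pt, x a = p a → x b = p b * Real.exp δ₁ →
      x c = p c * Real.exp δ₂ →
      |ev x (rel u v h₁) - ev p (rel u v h₁) -
          mon v p * (((u b : ℝ) - v b) * δ₁ + ((u c : ℝ) - v c) * δ₂)| ≤
        C * ε * mon v p * (|δ₁| + |δ₂|)

/-- NEAR: two independent relations force the arcs to be close -/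
def S_NEAR : Prop := S_CLO → S_NEGQ → S_LINR → ∀ (f : Poly) (P Q : ℝ → Pt), NS f P Q →
  ∀ (w : Fin 3 → ℕ) (k : ℕ) (F : ℝ), Norm f P w k F → ∀ M : Ex, wt w M = k →
  ∀ a b c : Fin 3, a ≠ b → a ≠ c → b ≠ c →
  ∀ (u v u' v' : Ex) (h₁ h₂ : Poly), wt w u = wt w v → wt w u' = wt w v' → wt w u ≤ wt w u' →
  wt w u' ≤ k → (∀ m ∈ h₁.support, wt w u < wt w m) → (∀ m ∈ h₂.support, wt w u' < wt w m) →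
  Neg P k (rel u v h₁) → Neg P k (rel u' v' h₂) →
  ((u b : ℝ) - v b) * ((u' c : ℝ) - v' c) - ((u c : ℝ) - v c) * ((u' b : ℝ) - v' b) ≠ 0 →
  ∀ ε : ℝ, 0 < ε → ∃ ε₀ > 0, ∀ s ∈ Set.Ioo (0 : ℝ) ε₀, ∀ t ∈ Set.Ioo (0 : ℝ) ε₀,
    P s a = Q t a →
      |Real.log (Q t b / P s b)| ≤ ε * s ^ (k - wt w u') ∧
      |Real.log (Q t c / P s c)| ≤ ε * s ^ (k - wt w u')

/-- POS2: positivity near the arc `P` in the case of two independent relations -/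
def S_POS2 : Prop := S_CLO → S_NEGQ → S_LINR → S_PTB → S_INTER → ∀ (f : Poly) (P Q : ℝ → Pt),
  NS f P Q →
  ∀ (w : Fin 3 → ℕ) (k : ℕ) (F : ℝ), Norm f P w k F → ∀ M : Ex, wt w M = k →
  ∀ a b c : Fin 3, a ≠ b → a ≠ c → b ≠ c →
  ∀ (u v : Ex) (h₁ : Poly), wt w u = wt w v → wt w u ≤ k → (∀ m ∈ h₁.support, wt w u < wt w m) →
  Neg P k (rel u v h₁) → 1 ≤ u c → v c = 0 →
  ∀ D : ℕ, wt w u ≤ D → D ≤ k →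
  (∀ ε : ℝ, 0 < ε → ∃ ε₀ > 0, ∀ s ∈ Set.Ioo (0 : ℝ) ε₀, ∀ t ∈ Set.Ioo (0 : ℝ) ε₀,
    P s a = Q t a →
      |Real.log (Q t b / P s b)| ≤ ε * s ^ (k - D) ∧ |Real.log (Q t c / P s c)| ≤ ε * s ^ (k - D)) →
  ∀ h g₂ : Poly, f = monomial M F + h * rel u v h₁ + g₂ → (∀ m ∈ g₂.support, D ≤ wt w m) →
  ∃ η₁ > 0, ∃ ε > 0, ∃ ε₀ > 0, ∀ s ∈ Set.Ioo (0 : ℝ) ε₀, ∀ t ∈ Set.Ioo (0 : ℝ) ε₀,
    P s a = Q t a → ∀ κ ∈ Set.Icc (0 : ℝ) 1, ∀ η : ℝ, |η| ≤ η₁ →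
      |ev (pt c (P s) (Q t) κ η) (rel u v h₁)| ≤ ε * mon M (pt c (P s) (Q t) κ η) →
      0 < ev (pt c (P s) (Q t) κ η) f

/-- MATCH: matched parameters exist -/
def S_MATCH : Prop := ∀ (P Q : ℝ → Pt) (a : Fin 3), Arc P → Arc Q →
  (∀ᶠ t in 𝓝[>] (0 : ℝ), 0 < P t a) → (∀ᶠ t in 𝓝[>] (0 : ℝ), 0 < Q t a) →
  ∀ ε > 0, ∃ s ∈ Set.Ioo (0 : ℝ) ε, ∃ t ∈ Set.Ioo (0 : ℝ) ε, P s a = Q t a

/-- conclusion of NM0: no two monomials of the same weight `≤ k` -/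
def C_NM0 : Prop := ∀ (f : Poly) (P Q : ℝ → Pt), NS f P Q → ∀ (w : Fin 3 → ℕ) (k : ℕ) (F : ℝ), Norm f P w k F →
  ∀ M : Ex, wt w M = k → (∀ m m' : Ex, wt w m = wt w m' → wt w m ≤ k → m = m') → Join f P Q

/-- NM0 -/
def S_NM0 : Prop := S_RED0 → S_CLO → S_INTER → S_PTB → S_POS1 → C_NM0

/-- conclusion of NM1: all coincidences of weights up to `k` come from one pair -/
def C_NM1 : Prop := ∀ (f : Poly) (P Q : ℝ → Pt), NS f P Q → ∀ (w : Fin 3 → ℕ) (k : ℕ) (F : ℝ), Norm f P w k F →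
  ∀ M : Ex, wt w M = k → ∀ (u v : Ex) (h₁ : Poly) (c : Fin 3), wt w u = wt w v → wt w u ≤ k →
  (∀ m ∈ h₁.support, wt w u < wt w m) → Neg P k (rel u v h₁) → 1 ≤ u c → v c = 0 →
  (∀ m m' : Ex, m ≠ m' → wt w m = wt w m' → wt w m < k + 1 → T1 u v m m') → Join f P Q

/-- NM1 -/
def S_NM1 : Prop := S_RED1 → S_CLO → S_NEGQ → S_INTER → S_PTB → S_MONO → S_PATH → S_POS1 → C_NM1

/-- conclusion of NM2: two independent relations -/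
def C_NM2 : Prop := ∀ (f : Poly) (P Q : ℝ → Pt), NS f P Q → ∀ (w : Fin 3 → ℕ) (k : ℕ) (F : ℝ), Norm f P w k F →
  ∀ M : Ex, wt w M = k → ∀ a b c : Fin 3, a ≠ b → a ≠ c → b ≠ c →
  ∀ (u v u' v' : Ex) (h₁ h₂ : Poly), wt w u = wt w v → wt w u' = wt w v' → wt w u ≤ wt w u' →
  wt w u' ≤ k → (∀ m ∈ h₁.support, wt w u < wt w m) → (∀ m ∈ h₂.support, wt w u' < wt w m) →
  Neg P k (rel u v h₁) → Neg P k (rel u' v' h₂) → 1 ≤ u c → v c = 0 →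
  ((u b : ℝ) - v b) * ((u' c : ℝ) - v' c) - ((u c : ℝ) - v c) * ((u' b : ℝ) - v' b) ≠ 0 →
  (∀ m m' : Ex, m ≠ m' → wt w m = wt w m' → wt w m < wt w u' → T1 u v m m') → Join f P Q

/-- NM2 -/
def S_NM2 : Prop := S_RED1 → S_CLO → S_NEGQ → S_INTER → S_PTB → S_MONO → S_PATH → S_LINR →
  S_NEAR → S_POS2 → S_MATCH → C_NM2

/-- NMALL: normalised arcs whose values up to `k` are weights of monomials -/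
def S_NMALL : Prop := S_EXP → S_EVA → S_LAT → C_NM0 → C_NM1 → C_NM2 →
  ∀ (f : Poly) (P Q : ℝ → Pt), NS f P Q → ∀ (w : Fin 3 → ℕ) (k : ℕ) (F : ℝ), Norm f P w k F →
  VG P w k → Join f P Q

/-- ND: `f` is nondegenerate along `P`: the order of `f` along `P` is the least weight of a
monomial of `f` -/
def S_ND : Prop := S_CLO → S_INTER → S_PTB → ∀ (f : Poly) (P Q : ℝ → Pt), NS f P Q →
  ∀ (w : Fin 3 → ℕ) (k : ℕ) (F : ℝ), Norm f P w k F → (∀ m ∈ f.support, k ≤ wt w m) → Join f P Q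

/-- COORE: the coordinate case for every coordinate -/
def S_COORE : Prop := S_AUT → S_EVA →
  (∀ (f : Poly) (P Q : ℝ → Pt), NS f P Q →
    (∀ ε > 0, ∀ᶠ t in 𝓝[>] (0 : ℝ), |P t 2| ≤ ε * ev (P t) f) → Join f P Q) →
  ∀ (f : Poly) (P Q : ℝ → Pt), NS f P Q → ∀ e : Fin 3,
    (∀ ε > 0, ∀ᶠ t in 𝓝[>] (0 : ℝ), |P t e| ≤ ε * ev (P t) f) → Join f P Q

/-- NORM: reduction to leading coefficients one -/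
def S_NORM : Prop := S_EVA → S_ORD → S_AUT →
  (∀ (f : Poly) (P Q : ℝ → Pt), NS f P Q → ∀ e : Fin 3,
    (∀ ε > 0, ∀ᶠ t in 𝓝[>] (0 : ℝ), |P t e| ≤ ε * ev (P t) f) → Join f P Q) →
  (∀ (f : Poly) (P Q : ℝ → Pt), NS f P Q → ∀ (w : Fin 3 → ℕ) (k : ℕ) (F : ℝ), Norm f P w k F →
    (VG P w k ∨ ∀ m ∈ f.support, k ≤ wt w m) → Join f P Q) →
  ∀ (f : Poly) (P Q : ℝ → Pt), NS f P Q → ∀ (w : Fin 3 → ℕ) (c : Fin 3 → ℝ) (k : ℕ) (F : ℝ),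
  (∀ i, 1 ≤ w i) → (∀ i, c i ≠ 0) →
  (∀ i, Tendsto (fun t => P t i / t ^ w i) (𝓝[>] (0 : ℝ)) (𝓝 (c i))) → 0 < F →
  Tendsto (fun t => ev (P t) f / t ^ k) (𝓝[>] (0 : ℝ)) (𝓝 F) →
  (VG P w k ∨ ∀ m ∈ f.support, k ≤ wt w m) → Join f P Q

/-- TRI3: arcs with a coordinate of order exactly three -/
def S_MUL3 : Prop := S_EVA → S_ORD → ∀ P : ℝ → Pt, Arc P →
  (∃ i, ∃ a : ℝ, a ≠ 0 ∧ Tendsto (fun t => P t i / t ^ 3) (𝓝[>] (0 : ℝ)) (𝓝 a)) →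
  (∀ i, ∃ C : ℝ, ∀ᶠ t in 𝓝[>] (0 : ℝ), |P t i| ≤ C * t ^ 3) → ∀ N : ℕ,
  (∃ (e : Equiv.Perm (Fin 3)) (Φ : MvPolynomial (Fin 2) ℝ),
    MvPolynomial.eval (0 : Fin 2 → ℝ) Φ = 0 ∧ ∃ C : ℝ, ∀ᶠ t in 𝓝[>] (0 : ℝ),
      |P t (e 2) - MvPolynomial.eval ![P t (e 0), P t (e 1)] Φ| ≤ C * t ^ N) ∨
  (∃ (e : Equiv.Perm (Fin 3)) (φ₁ φ₂ ψ : Polynomial ℝ) (l l' : ℕ) (a₀ a₁ a₂ : ℝ),
    φ₁.eval 0 = 0 ∧ φ₂.eval 0 = 0 ∧ a₀ ≠ 0 ∧ a₁ ≠ 0 ∧ a₂ ≠ 0 ∧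
    3 < l ∧ l < l' ∧ l' ≤ 2 * l ∧ l % 3 ≠ 0 ∧ l' % 3 ≠ 0 ∧ l % 3 ≠ l' % 3 ∧
    Tendsto (fun t => P t (e 0) / t ^ 3) (𝓝[>] (0 : ℝ)) (𝓝 a₀) ∧
    Tendsto (fun t => (P t (e 1) - φ₁.eval (P t (e 0))) / t ^ l) (𝓝[>] (0 : ℝ)) (𝓝 a₁) ∧
    Tendsto (fun t => (P t (e 2) - φ₂.eval (P t (e 0)) -
      ψ.eval (P t (e 0)) * (P t (e 1) - φ₁.eval (P t (e 0)))) / t ^ l') (𝓝[>] (0 : ℝ)) (𝓝 a₂))

/-- VG3: orders 3, l, l' as in the second case generate the values -/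
def S_VG3 : Prop := S_EVA → ∀ P : ℝ → Pt, Arc P → ∀ (w : Fin 3 → ℕ) (c : Fin 3 → ℝ) (k : ℕ),
  w 0 = 3 → 3 < w 1 → w 1 < w 2 → w 2 ≤ 2 * w 1 → w 1 % 3 ≠ 0 → w 2 % 3 ≠ 0 →
  w 1 % 3 ≠ w 2 % 3 → (∀ i, c i ≠ 0) →
  (∀ i, Tendsto (fun t => P t i / t ^ w i) (𝓝[>] (0 : ℝ)) (𝓝 (c i))) → VG P w k

/-- VGM: monomial arcs up to `o(t^k)` -/
def S_VGM : Prop := S_LIP → ∀ P : ℝ → Pt, Arc P → ∀ (w : Fin 3 → ℕ) (c : Fin 3 → ℝ) (k : ℕ),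
  (∀ i, 1 ≤ w i) → (∀ i, Tendsto (fun t => (P t i - c i * t ^ w i) / t ^ k) (𝓝[>] (0 : ℝ)) (𝓝 0)) →
  VG P w k

end Pool.Agent.H734R2.SP
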