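import Pool.Agent.H734R2.SP.Part1

set_option autoImplicit false

/-!
Third part: `f` of multiplicity at most two at the origin, arbitrary arcs.
-/

namespace Pool.Agent.H734R2.SP

open MvPolynomial Filter Topology

/-- the facts already proved -/
structure Lib : Prop where
  tri : S_TRI
  eva : S_EVA
  dich : ∀ (f : Poly) (P Q : ℝ → Pt), NS f P Q → ∀ g : Poly,
    (∀ ε > 0, (∀ᶠ t in 𝓝[>] (0 : ℝ), |ev (P t) g| ≤ ε * ev (P t) f) ∧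
        (∀ᶠ t in 𝓝[>] (0 : ℝ), |ev (Q t) g| ≤ ε * ev (Q t) f)) ∨
    (∃ c > 0, (∀ᶠ t in 𝓝[>] (0 : ℝ), c * ev (P t) f ≤ ev (P t) g) ∧
        (∀ᶠ t in 𝓝[>] (0 : ℝ), c * ev (Q t) f ≤ ev (Q t) g)) ∨
    (∃ c > 0, (∀ᶠ t in 𝓝[>] (0 : ℝ), c * ev (P t) f ≤ - ev (P t) g) ∧
        (∀ᶠ t in 𝓝[>] (0 : ℝ), c * ev (Q t) f ≤ - ev (Q t) g))
  lip : S_LIP
  aut : ∀ (A B : Fin 3 → Poly),
    (∀ x : Pt, (fun i => ev (fun j => ev x (B j)) (A i)) = x) → (∀ i, ev 0 (B i) = 0) →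
    ∀ (f : Poly) (P Q : ℝ → Pt), NS f P Q →
      NS (bind₁ A f) (fun t i => ev (P t) (B i)) (fun t i => ev (Q t) (B i)) ∧
      (Join (bind₁ A f) (fun t i => ev (P t) (B i)) (fun t i => ev (Q t) (B i)) → Join f P Q)
  coor : ∀ (f : Poly) (P Q : ℝ → Pt), NS f P Q →
    (∀ ε > 0, ∀ᶠ t in 𝓝[>] (0 : ℝ), |P t 2| ≤ ε * ev (P t) f) → Join f P Q
  order : ∀ (f : Poly) (P Q : ℝ → Pt), NS f P Q → ∃ (k : ℕ) (F : ℝ), 0 < F ∧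
    Tendsto (fun t => ev (P t) f / t ^ k) (𝓝[>] (0 : ℝ)) (𝓝 F)

/-- LIN: derivative along a line -/
def S_LIN : Prop := ∀ (f : Poly) (x w : Pt) (r : ℝ),
  HasDerivAt (fun r : ℝ => ev (x + r • w) f) (∑ j, w j * ev (x + r • w) (pderiv j f)) r

/-- CHAIN: the chain rule -/
def S_CHAIN : Prop := ∀ (A : Fin 3 → Poly) (f : Poly) (i : Fin 3),
  pderiv i (bind₁ A f) = ∑ j, bind₁ A (pderiv j f) * pderiv i (A j)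

/-- COEF: coefficients of a derivative -/
def S_COEF : Prop := ∀ (f : Poly) (i : Fin 3) (m : Fin 3 →₀ ℕ),
  coeff m (pderiv i f) = coeff (m + Finsupp.single i 1) f * ((m i : ℝ) + 1)

/-- PUSH: both arcs can be pushed a fixed distance in the direction `w` -/
def S_PUSH : Prop := ∀ (f : Poly) (P Q : ℝ → Pt), NS f P Q → ∀ (w : Pt) (ρ a : ℝ), 0 < ρ → 0 < a →
  (∀ i, |ρ * w i| ≤ 1 / 2) →
  (∀ᶠ t in 𝓝[>] (0 : ℝ), ∀ r ∈ Set.Icc (0 : ℝ) ρ, 0 < ev (P t + r • w) f) →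
  (∀ᶠ t in 𝓝[>] (0 : ℝ), ∀ r ∈ Set.Icc (0 : ℝ) ρ, 0 < ev (Q t + r • w) f) →
  (∀ᶠ t in 𝓝[>] (0 : ℝ), a ≤ ev (P t + ρ • w) f) → Join f P Q

/-- GRAD: nonzero gradient at the origin -/
def S_GRAD : Prop := ∀ (f : Poly) (P Q : ℝ → Pt), NS f P Q →
  (∃ i, ev 0 (pderiv i f) ≠ 0) → Join f P Q

/-- HPOS: positive second derivative -/
def S_HPOS : Prop := ∀ (f : Poly) (P Q : ℝ → Pt), NS f P Q →
  0 < ev 0 (pderiv 2 (pderiv 2 f)) → Join f P Q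

/-- IMP: polynomial approximate solution of `∂f/∂z = 0` -/
def S_IMP : Prop := ∀ f : Poly, ev 0 (pderiv 2 f) = 0 → ev 0 (pderiv 2 (pderiv 2 f)) ≠ 0 →
  ∀ N : ℕ, ∃ ξ : MvPolynomial (Fin 2) ℝ, MvPolynomial.eval (0 : Fin 2 → ℝ) ξ = 0 ∧
    ∃ C ρ : ℝ, 0 < ρ ∧ ∀ x y : ℝ, |x| ≤ ρ → |y| ≤ ρ →
      |ev ![x, y, MvPolynomial.eval ![x, y] ξ] (pderiv 2 f)| ≤ C * (|x| + |y|) ^ N

/-- CONC: concavity in the third direction near the origin -/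
def S_CONC : Prop := ∀ f : Poly, ev 0 (pderiv 2 (pderiv 2 f)) < 0 → ∃ ρ : ℝ, 0 < ρ ∧
  ∀ x y : ℝ, |x| ≤ ρ → |y| ≤ ρ →
    (∀ z : ℝ, |z| ≤ ρ → ev ![x, y, z] f ≤ ev ![x, y, 0] f + z * ev ![x, y, 0] (pderiv 2 f)) ∧
    (∀ z : ℝ, |z| ≤ ρ → ∀ θ ∈ Set.Icc (0 : ℝ) 1,
      (1 - θ) * ev ![x, y, 0] f + θ * ev ![x, y, z] f ≤ ev ![x, y, θ * z] f)

/-- HN1: the arcs can be moved to `z = 0` -/
def S_HN1 : Prop := ∀ (f : Poly) (P : ℝ → Pt), Arc P →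
  (∀ᶠ t in 𝓝[>] (0 : ℝ), 0 < ev (P t) f) → ev 0 (pderiv 2 (pderiv 2 f)) < 0 →
  (∀ᶠ t in 𝓝[>] (0 : ℝ), |ev ![P t 0, P t 1, 0] (pderiv 2 f)| ≤ ev (P t) f) →
  (∀ᶠ t in 𝓝[>] (0 : ℝ), ev (P t) f / 2 ≤ ev ![P t 0, P t 1, 0] f) ∧
  (∀ᶠ t in 𝓝[>] (0 : ℝ), JoinedIn (Pos f) (P t) ![P t 0, P t 1, 0])

/-- HN2: the projected arcs in `z = 0` are not separated and can be joined -/
def S_HN2 : Prop := ∀ (f : Poly) (P Q : ℝ → Pt), NS f P Q →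
  (∀ᶠ t in 𝓝[>] (0 : ℝ), ev (P t) f / 2 ≤ ev ![P t 0, P t 1, 0] f) →
  (∀ᶠ t in 𝓝[>] (0 : ℝ), ev (Q t) f / 2 ≤ ev ![Q t 0, Q t 1, 0] f) →
  Join f (fun t => ![P t 0, P t 1, 0]) (fun t => ![Q t 0, Q t 1, 0])

/-- HNEG0: negative second derivative, the maxima in the third direction (almost) at `z = 0` -/
def S_HNEG0 : Prop := ∀ (f : Poly) (P Q : ℝ → Pt), NS f P Q →
  ev 0 (pderiv 2 (pderiv 2 f)) < 0 →
  (∀ ε > 0, ∀ᶠ t in 𝓝[>] (0 : ℝ), |ev ![P t 0, P t 1, 0] (pderiv 2 f)| ≤ ε * ev (P t) f) →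
  (∀ ε > 0, ∀ᶠ t in 𝓝[>] (0 : ℝ), |ev ![Q t 0, Q t 1, 0] (pderiv 2 f)| ≤ ε * ev (Q t) f) →
  Join f P Q

/-- HNEG: negative second derivative -/
def S_HNEG : Prop := ∀ (f : Poly) (P Q : ℝ → Pt), NS f P Q →
  ev 0 (pderiv 2 f) = 0 → ev 0 (pderiv 2 (pderiv 2 f)) < 0 → Join f P Q

/-- DIAG: some pure second derivative is nonzero -/
def S_DIAG : Prop := ∀ (f : Poly) (P Q : ℝ → Pt), NS f P Q →
  (∃ i, ev 0 (pderiv i (pderiv i f)) ≠ 0) → Join f P Q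

/-- OFF: some second derivative is nonzero -/
def S_OFF : Prop := ∀ (f : Poly) (P Q : ℝ → Pt), NS f P Q →
  (∃ i j, ev 0 (pderiv i (pderiv j f)) ≠ 0) → Join f P Q

/-- LOWF: `f` has a monomial of degree at most two -/
def S_LOWF : Prop := ∀ (f : Poly) (P Q : ℝ → Pt), NS f P Q →
  (∃ m ∈ f.support, ∑ i, m i ≤ 2) → Join f P Q

end Pool.Agent.H734R2.SP
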