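import Pool.Agent.H734R2.SP.Stubs3

set_option autoImplicit false

/-!
Fourth part: `f` of degree at most two in `z`.
-/

namespace Pool.Agent.H734R2.SP

open MvPolynomial Filter Topology

/-- PLK: arcs that can be moved to the plane `z = κ` keeping half of the value of `f` -/
def S_PLK : Prop := ∀ (f : Poly) (P Q : ℝ → Pt) (κ : ℝ), NS f P Q → ev ![0, 0, κ] f = 0 →
  (∀ᶠ t in 𝓝[>] (0 : ℝ), ev (P t) f / 2 ≤ ev ![P t 0, P t 1, κ] f) →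
  (∀ᶠ t in 𝓝[>] (0 : ℝ), ev (Q t) f / 2 ≤ ev ![Q t 0, Q t 1, κ] f) →
  Join f (fun t => ![P t 0, P t 1, κ]) (fun t => ![Q t 0, Q t 1, κ])

/-- PLA: a polynomial `a` not involving `z` which dominates `f` on both arcs -/
def S_PLA : Prop := ∀ (f a : Poly) (P Q : ℝ → Pt) (c₀ : ℝ), NS f P Q → 0 < c₀ → ev 0 a = 0 →
  (∀ x : Pt, ev ![x 0, x 1, 0] a = ev x a) →
  (∀ᶠ t in 𝓝[>] (0 : ℝ), c₀ * ev (P t) f ≤ ev (P t) a) →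
  (∀ᶠ t in 𝓝[>] (0 : ℝ), c₀ * ev (Q t) f ≤ ev (Q t) a) →
  Join a (fun t => ![P t 0, P t 1, 0]) (fun t => ![Q t 0, Q t 1, 0])

/-- T2: Taylor formula for polynomials of degree at most two in `z` -/
def S_T2 : Prop := ∀ f : Poly, pderiv 2 (pderiv 2 (pderiv 2 f)) = 0 →
  (∀ x : Pt, ev ![x 0, x 1, 0] (pderiv 2 (pderiv 2 f)) = ev x (pderiv 2 (pderiv 2 f))) ∧
  ∀ x y z r : ℝ, ev ![x, y, z + r] f = ev ![x, y, z] f + r * ev ![x, y, z] (pderiv 2 f) +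
    r ^ 2 / 2 * ev ![x, y, z] (pderiv 2 (pderiv 2 f))

/-- Q0: `f_zz` not much smaller than `-f`, `f` vanishing on the three planes considered -/
def S_Q0 : Prop := ∀ (f : Poly) (P Q : ℝ → Pt), NS f P Q → pderiv 2 (pderiv 2 (pderiv 2 f)) = 0 →
  (∀ ε > 0, ∀ᶠ t in 𝓝[>] (0 : ℝ), |ev (P t) (pderiv 2 (pderiv 2 f))| ≤ ε * ev (P t) f) →
  (∀ ε > 0, ∀ᶠ t in 𝓝[>] (0 : ℝ), |ev (Q t) (pderiv 2 (pderiv 2 f))| ≤ ε * ev (Q t) f) →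
  (∀ i, ev 0 (pderiv i f) = 0) → ev 0 (pderiv 2 (pderiv 2 f)) = 0 → Join f P Q

/-- Q1: `f_zz ≥ c f` -/
def S_Q1 : Prop := ∀ (f : Poly) (P Q : ℝ → Pt) (c₀ : ℝ), NS f P Q →
  pderiv 2 (pderiv 2 (pderiv 2 f)) = 0 → 0 < c₀ →
  (∀ᶠ t in 𝓝[>] (0 : ℝ), c₀ * ev (P t) f ≤ ev (P t) (pderiv 2 (pderiv 2 f))) →
  (∀ᶠ t in 𝓝[>] (0 : ℝ), c₀ * ev (Q t) f ≤ ev (Q t) (pderiv 2 (pderiv 2 f))) →
  ev 0 (pderiv 2 (pderiv 2 f)) = 0 → Join f P Q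

/-- QUAD: `f` of degree at most two in `z`, with `f_zz ≥ 0` near the origin -/
def S_QUAD : Prop := ∀ (f : Poly) (P Q : ℝ → Pt), NS f P Q →
  pderiv 2 (pderiv 2 (pderiv 2 f)) = 0 →
  (∀ᶠ x in 𝓝 (0 : Pt), 0 ≤ ev x (pderiv 2 (pderiv 2 f))) → Join f P Q

end Pool.Agent.H734R2.SP
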